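import Pool.Agent.H85.LD.Sg

/-!
[H85 LD CHART]  Polynomials in the chart at `b`, the noise functions.

`Gc d b G (t) = (1+‖b‖^2)^(-d/2) (1 - conj b t)^d G(ph b t)`.
Proofs.
* `Gc_eval`: `(C b + X)^k (1 - C (conj b) X)^(d-k)` at `t` is `(1 - conj b t)^d (ph b t)^k` when `1 - conj b t ≠ 0`
  (`div_pow`, `k + (d-k) = d`), and `G.eval x = ∑_{k ≤ d} a_k x^k`.
* `wm_ph`: take norms, `ph_norm`: `‖1 - conj b t‖^(2d) = (1+‖b‖^2)^d (1+‖t‖^2)^d/(1+‖ph b t‖^2)^d`.
* `Gc_deg`: each term has degree at most `k + (d-k)`.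
* `en d b n` is the polynomial with `Gc d b (en d b n) = X^n`: `(1+‖b‖^2)^(-d/2) (X - C b)^n (1 + C (conj b) X)^(d-n)`;
  `en_wm`: `‖z-b‖^2 = sg^2 (1+‖z‖^2)(1+‖b‖^2)`, `‖1+conj b z‖^2 = (1-sg^2)(1+‖z‖^2)(1+‖b‖^2)` (`one_sub_sg_sq`).
* `en_chart`: two polynomials agreeing at infinitely many `t` (`Gc_eval`, `ph b t - b = t (1+‖b‖^2)/(1 - conj b t)`,
  `1 + conj b ph b t = (1+‖b‖^2)/(1 - conj b t)`).
-/

set_option autoImplicit false

open Polynomial MeasureTheory Real Finset ComplexConjugate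

namespace Pool.Agent.H85.LD

theorem Gc_add (d : ℕ) (b : ℂ) (G H : ℂ[X]) : Gc d b (G + H) = Gc d b G + Gc d b H := by
  unfold Gc
  simp only [coeff_add, C_add, add_mul, Finset.sum_add_distrib, mul_add]

theorem Gc_C_mul (d : ℕ) (b c : ℂ) (G : ℂ[X]) : Gc d b (C c * G) = C c * Gc d b G := by
  unfold Gc
  rw [mul_left_comm (C c), Finset.mul_sum (a := C c)]
  congr 1
  refine Finset.sum_congr rfl fun k _ => ?_
  rw [coeff_C_mul, C_mul]
  ring

theorem Gc_sum (d : ℕ) (b : ℂ) {ι : Type*} (s : Finset ι) (G : ι → ℂ[X]) :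
    Gc d b (∑ i ∈ s, G i) = ∑ i ∈ s, Gc d b (G i) := by
  classical
  induction s using Finset.induction_on with
  | empty =>
    unfold Gc
    simp
  | insert a s ha ih => rw [Finset.sum_insert ha, Finset.sum_insert ha, Gc_add, ih]

theorem Gc_deg (d : ℕ) (b : ℂ) (G : ℂ[X]) : (Gc d b G).natDegree ≤ d := by
  unfold Gc
  refine (natDegree_C_mul_le _ _).trans ?_
  refine natDegree_sum_le_of_forall_le _ _ fun k hk => ?_
  have hk' : k ≤ d := by
    have := Finset.mem_range.1 hk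
    omega
  have h1 : (C b + X : ℂ[X]).natDegree ≤ 1 := by
    rw [natDegree_C_add]
    exact natDegree_X_le
  have h2 : (1 - C (conj b) * X : ℂ[X]).natDegree ≤ 1 := by
    refine (natDegree_sub_le _ _).trans ?_
    rw [natDegree_one]
    exact max_le (Nat.zero_le _) ((natDegree_C_mul_le _ _).trans natDegree_X_le)
  calc (C (G.coeff k) * (C b + X) ^ k * (1 - C (conj b) * X) ^ (d - k)).natDegree
      ≤ (C (G.coeff k) * (C b + X) ^ k).natDegree + ((1 - C (conj b) * X) ^ (d - k)).natDegree :=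
        natDegree_mul_le
    _ ≤ k + (d - k) := by
        refine Nat.add_le_add ((natDegree_C_mul_le _ _).trans ?_) ?_
        · refine natDegree_pow_le.trans ?_
          calc k * (C b + X : ℂ[X]).natDegree ≤ k * 1 := Nat.mul_le_mul_left _ h1
            _ = k := mul_one k
        · refine natDegree_pow_le.trans ?_
          calc (d - k) * (1 - C (conj b) * X : ℂ[X]).natDegree ≤ (d - k) * 1 :=
                Nat.mul_le_mul_left _ h2
            _ = d - k := mul_one _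
    _ = d := by omega

theorem Gc_eval (d : ℕ) (b : ℂ) (G : ℂ[X]) (hG : G.natDegree ≤ d) (t : ℂ)
    (ht : 1 - conj b * t ≠ 0) :
    (Gc d b G).eval t = ((1 / √((1 + ‖b‖ ^ 2) ^ d) : ℝ) : ℂ) * (1 - conj b * t) ^ d *
      G.eval (ph b t) := by
  unfold Gc
  rw [eval_mul, eval_C, eval_finsetSum, mul_assoc]
  congr 1
  rw [eval_eq_sum_range' (Nat.lt_succ_of_le hG), Finset.mul_sum]
  refine Finset.sum_congr rfl fun k hk => ?_
  have hk' : k ≤ d := by
    have := Finset.mem_range.1 hk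
    omega
  rw [eval_mul, eval_mul, eval_C, eval_pow, eval_pow, eval_add, eval_sub, eval_mul, eval_C, eval_C,
    eval_X, eval_one]
  unfold ph
  rw [div_pow]
  have h1 : (1 - conj b * t) ^ d = (1 - conj b * t) ^ k * (1 - conj b * t) ^ (d - k) := by
    rw [← pow_add]
    congr 1
    omega
  rw [h1]
  have h2 : (1 - conj b * t) ^ k ≠ 0 := pow_ne_zero _ ht
  generalize 1 - conj b * t = D at h2
  field_simp

theorem wm_ph (d : ℕ) (b : ℂ) (G : ℂ[X]) (hG : G.natDegree ≤ d) (t : ℂ)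
    (ht : 1 - conj b * t ≠ 0) :
    wm d G (ph b t) = ‖(Gc d b G).eval t‖ / √((1 + ‖t‖ ^ 2) ^ d) := by
  rw [Gc_eval d b G hG t ht, norm_mul, norm_mul, norm_pow, Complex.norm_real,
    Real.norm_of_nonneg (by positivity)]
  unfold wm
  have hD : 0 < ‖1 - conj b * t‖ := norm_pos_iff.2 ht
  have h1 : √((1 + ‖ph b t‖ ^ 2) ^ d) =
      √((1 + ‖b‖ ^ 2) ^ d) * √((1 + ‖t‖ ^ 2) ^ d) / ‖1 - conj b * t‖ ^ d := by
    rw [ph_norm b t ht, div_pow, mul_pow, Real.sqrt_div (by positivity),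
      Real.sqrt_mul (by positivity), ← pow_mul, mul_comm 2 d, pow_mul,
      Real.sqrt_sq (by positivity)]
  rw [h1]
  have h2 : 0 < √((1 + ‖b‖ ^ 2) ^ d) := Real.sqrt_pos.2 (by positivity)
  have h3 : 0 < √((1 + ‖t‖ ^ 2) ^ d) := Real.sqrt_pos.2 (by positivity)
  field_simp

/-- the noise functions: `t ^ n` in the chart at `b` -/
noncomputable def en (d : ℕ) (b : ℂ) (n : ℕ) : ℂ[X] :=
  C ((1 / √((1 + ‖b‖ ^ 2) ^ d) : ℝ) : ℂ) * ((X - C b) ^ n * (1 + C (conj b) * X) ^ (d - n))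

theorem en_deg (d : ℕ) (b : ℂ) (n : ℕ) (hn : n ≤ d) : (en d b n).natDegree ≤ d := by
  unfold en
  refine (natDegree_C_mul_le _ _).trans ?_
  have h1 : (X - C b : ℂ[X]).natDegree ≤ 1 := by
    rw [natDegree_sub_C]
    exact natDegree_X_le
  have h2 : (1 + C (conj b) * X : ℂ[X]).natDegree ≤ 1 := by
    refine (natDegree_add_le _ _).trans ?_
    rw [natDegree_one]
    exact max_le (Nat.zero_le _) ((natDegree_C_mul_le _ _).trans natDegree_X_le)
  calc ((X - C b) ^ n * (1 + C (conj b) * X) ^ (d - n)).natDegree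
      ≤ ((X - C b) ^ n).natDegree + ((1 + C (conj b) * X) ^ (d - n)).natDegree :=
        natDegree_mul_le
    _ ≤ n + (d - n) := by
        refine Nat.add_le_add ?_ ?_
        · refine natDegree_pow_le.trans ?_
          calc n * (X - C b : ℂ[X]).natDegree ≤ n * 1 := Nat.mul_le_mul_left _ h1
            _ = n := mul_one n
        · refine natDegree_pow_le.trans ?_
          calc (d - n) * (1 + C (conj b) * X : ℂ[X]).natDegree ≤ (d - n) * 1 :=
                Nat.mul_le_mul_left _ h2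
            _ = d - n := mul_one _
    _ = d := by omega

theorem en_eval (d : ℕ) (b : ℂ) (n : ℕ) (z : ℂ) :
    (en d b n).eval z = ((1 / √((1 + ‖b‖ ^ 2) ^ d) : ℝ) : ℂ) *
      ((z - b) ^ n * (1 + conj b * z) ^ (d - n)) := by
  unfold en
  rw [eval_mul, eval_C, eval_mul, eval_pow, eval_pow, eval_add, eval_sub, eval_mul, eval_C, eval_C,
    eval_X, eval_one]

theorem en_chart (d : ℕ) (b : ℂ) (n : ℕ) (hn : n ≤ d) : Gc d b (en d b n) = X ^ n := by
  apply eq_of_infinite_eval_eq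
  have hfin : {t : ℂ | 1 - conj b * t = 0}.Finite := by
    apply Set.Subsingleton.finite
    intro s hs t ht
    have hs' : 1 - conj b * s = 0 := hs
    have ht' : 1 - conj b * t = 0 := ht
    have hb : conj b ≠ 0 := by
      intro h
      rw [h] at hs'
      simp at hs'
    apply mul_left_cancel₀ hb
    linear_combination ht' - hs'
  refine hfin.infinite_compl.mono fun t ht => ?_
  have ht' : 1 - conj b * t ≠ 0 := ht
  show eval t (Gc d b (en d b n)) = eval t (X ^ n)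
  rw [Gc_eval d b _ (en_deg d b n hn) t ht', en_eval, eval_pow, eval_X]
  have e0 : conj b * b = ((‖b‖ ^ 2 : ℝ) : ℂ) := by
    rw [Complex.conj_mul']
    push_cast
    ring
  have e1 : ph b t - b = t * ((1 + ‖b‖ ^ 2 : ℝ) : ℂ) / (1 - conj b * t) := by
    unfold ph
    rw [eq_div_iff ht', sub_mul, div_mul_cancel₀ _ ht']
    push_cast at e0 ⊢
    linear_combination t * e0
  have e2 : 1 + conj b * ph b t = ((1 + ‖b‖ ^ 2 : ℝ) : ℂ) / (1 - conj b * t) := by
    unfold ph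
    rw [eq_div_iff ht', add_mul, mul_assoc, div_mul_cancel₀ _ ht']
    push_cast at e0 ⊢
    linear_combination e0
  rw [e1, e2]
  have h1 : (1 - conj b * t) ^ d = (1 - conj b * t) ^ n * (1 - conj b * t) ^ (d - n) := by
    rw [← pow_add]
    congr 1
    omega
  have h2 : (1 - conj b * t) ^ n ≠ 0 := pow_ne_zero _ ht'
  have h3 : (1 - conj b * t) ^ (d - n) ≠ 0 := pow_ne_zero _ ht'
  rw [h1, div_pow, div_pow, mul_pow]
  have h4 : ((1 / √((1 + ‖b‖ ^ 2) ^ d) : ℝ) : ℂ) * ((1 / √((1 + ‖b‖ ^ 2) ^ d) : ℝ) : ℂ) *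
      ((((1 + ‖b‖ ^ 2 : ℝ) : ℂ)) ^ n * (((1 + ‖b‖ ^ 2 : ℝ) : ℂ)) ^ (d - n)) = 1 := by
    rw [← pow_add, show n + (d - n) = d by omega]
    norm_cast
    rw [div_mul_div_comm, one_mul, Real.mul_self_sqrt (by positivity)]
    have : (0 : ℝ) < (1 + ‖b‖ ^ 2) ^ d := by positivity
    field_simp
  generalize ((1 / √((1 + ‖b‖ ^ 2) ^ d) : ℝ) : ℂ) = c at h4
  generalize ((1 + ‖b‖ ^ 2 : ℝ) : ℂ) = B at h4
  field_simp
  linear_combination t ^ n * h4

theorem sqrt_pow' {x : ℝ} (hx : 0 ≤ x) (m : ℕ) : √(x ^ m) = √x ^ m := by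
  have h1 : x ^ m = (√x ^ m) ^ 2 := by
    rw [← pow_mul, mul_comm m 2, pow_mul, Real.sq_sqrt hx]
  rw [h1, Real.sqrt_sq (by positivity)]

theorem en_wm (d : ℕ) (b : ℂ) (n : ℕ) (hn : n ≤ d) (z : ℂ) :
    wm d (en d b n) z = sg z b ^ n * √((1 - sg z b ^ 2) ^ (d - n)) := by
  unfold wm
  rw [en_eval, one_sub_sg_sq, norm_mul, norm_mul, norm_pow, norm_pow, Complex.norm_real,
    Real.norm_of_nonneg (by positivity), mul_comm (conj b) z]
  unfold sg
  set Z : ℝ := 1 + ‖z‖ ^ 2 with hZ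
  set B : ℝ := 1 + ‖b‖ ^ 2 with hB
  have hZ0 : 0 < Z := by positivity
  have hB0 : 0 < B := by positivity
  have hs : 0 < √(Z * B) := Real.sqrt_pos.2 (by positivity)
  have h1 : √(B ^ d) * √(Z ^ d) = √(Z * B) ^ n * √(Z * B) ^ (d - n) := by
    rw [← pow_add, show n + (d - n) = d by omega, ← Real.sqrt_mul (by positivity), ← mul_pow,
      mul_comm B Z, sqrt_pow' (by positivity)]
  have h2 : √((‖1 + z * conj b‖ ^ 2 / (Z * B)) ^ (d - n)) =
      ‖1 + z * conj b‖ ^ (d - n) / √(Z * B) ^ (d - n) := by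
    rw [sqrt_pow' (by positivity), Real.sqrt_div (by positivity), Real.sqrt_sq (norm_nonneg _),
      div_pow]
  rw [h2, div_pow, div_mul_div_comm, ← h1]
  have h3 : 0 < √(B ^ d) := Real.sqrt_pos.2 (by positivity)
  have h4 : 0 < √(Z ^ d) := Real.sqrt_pos.2 (by positivity)
  field_simp

end Pool.Agent.H85.LD
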