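import Pool.Agent.H85.LD.Mom

/-!
[H85 LD KER]  The Bergman projection.

Write `⟨u,v⟩ = ∫ u conj(v) (1+‖x‖^2)^(-d) dmu`.  All integrands are bounded (`mom_integrable`), so everything is integrable.
Proofs.
* `Nd_eq`: expand `‖G(x)‖^2 = ∑_{k,l} a_k conj(a_l) x^k conj(x)^l` (`G.eval x = ∑_{k ≤ d} a_k x^k`,
  `Polynomial.eval_eq_sum_range'`) and use `moment`.
* `Pj_coeff`, `Pj_deg`, `Pj_sum`, `Pj_smul`: definition, linearity of the integral in `χ`.
* `Pj_one`: coefficient `k` of `Pj d 1 G` is `(d+1) choose(d,k) ∫ G conj(x)^k (1+‖x‖^2)^(-d) dmu = a_k` by `moment`.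
* `Pj_eval`: sum over `k` of `choose(d,k) z^k conj(x)^k = (1 + z conj x)^d` (`add_pow`), exchange of finite sum and integral.
* `Nd_Pj`: `g = Pj d χ G`, `u = χ G`.  `Nd d g = ∑ ‖g_k‖^2/choose = (d+1) ∑_k conj(g_k) ⟨u,x^k⟩` (real), and
  `(d+1) ∫ ‖u - g‖^2 (1+‖x‖^2)^(-d) dmu = (d+1) ∫ χ^2 wm^2 dmu - 2 Re (..) + Nd d g = (d+1) ∫ χ^2 wm^2 dmu - Nd d g ≥ 0`
  (`Nd_eq` for `g`).
* `ker_bound`: `Pj_eval` for `χ - χ(z)` (`Pj_one`, `Pj_sum`): `(Pj d χ G - χ(z) G)(z) = (d+1) ∫ (χ(x)-χ(z)) G(x) (1+z conj x)^d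
  (1+‖x‖^2)^(-d) dmu`; divide by `(1+‖z‖^2)^(d/2)` and use `one_sub_sg_sq`:
  `‖1+z conj x‖^d/((1+‖z‖^2)^(d/2) (1+‖x‖^2)^(d/2)) = √((1 - sg z x^2)^d)`.
* `ker_bound0`: the same without subtracting.
-/

set_option autoImplicit false

open Polynomial MeasureTheory Real Finset ComplexConjugate

namespace Pool.Agent.H85.LD

theorem wm_nonneg (d : ℕ) (G : ℂ[X]) (z : ℂ) : 0 ≤ wm d G z := by unfold wm; positivity

theorem wm_add_le (d : ℕ) (G H : ℂ[X]) (z : ℂ) : wm d (G + H) z ≤ wm d G z + wm d H z := by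
  unfold wm
  rw [eval_add, ← add_div]
  gcongr
  exact norm_add_le _ _

theorem wm_C_mul (d : ℕ) (c : ℂ) (G : ℂ[X]) (z : ℂ) : wm d (C c * G) z = ‖c‖ * wm d G z := by
  unfold wm
  rw [eval_mul, eval_C, norm_mul, mul_div_assoc]

theorem wm_neg (d : ℕ) (G : ℂ[X]) (z : ℂ) : wm d (-G) z = wm d G z := by
  unfold wm
  rw [eval_neg, norm_neg]

theorem wt_pos (d : ℕ) (x : ℂ) : (0 : ℝ) < (1 + ‖x‖ ^ 2) ^ d := by positivity

theorem pow_le_wt (d k : ℕ) (hk : k ≤ d) (x : ℂ) : ‖x‖ ^ k ≤ √((1 + ‖x‖ ^ 2) ^ d) := by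
  apply Real.le_sqrt_of_sq_le
  have := mom_bound d k k hk hk x
  rw [← pow_mul, mul_two]
  exact this

theorem eval_eq_sum_deg (d : ℕ) (G : ℂ[X]) (hG : G.natDegree ≤ d) (x : ℂ) :
    G.eval x = ∑ k ∈ range (d + 1), G.coeff k * x ^ k :=
  Polynomial.eval_eq_sum_range' (by omega) x

theorem wm_sq (d : ℕ) (G : ℂ[X]) (x : ℂ) :
    wm d G x ^ 2 = ‖G.eval x‖ ^ 2 / (1 + ‖x‖ ^ 2) ^ d := by
  unfold wm
  rw [div_pow, Real.sq_sqrt (wt_pos d x).le]

theorem wm_continuous (d : ℕ) (G : ℂ[X]) : Continuous (wm d G) := by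
  unfold wm
  refine Continuous.div (G.continuous.norm) ?_ (fun z => (Real.sqrt_pos.mpr (wt_pos d z)).ne')
  fun_prop

/-- the weighted modulus is bounded -/
theorem wm_bdd (d : ℕ) (G : ℂ[X]) (hG : G.natDegree ≤ d) : ∃ B : ℝ, ∀ z, wm d G z ≤ B := by
  refine ⟨∑ k ∈ range (d + 1), ‖G.coeff k‖, fun z => ?_⟩
  unfold wm
  rw [div_le_iff₀ (Real.sqrt_pos.mpr (wt_pos d z)), eval_eq_sum_deg d G hG z, Finset.sum_mul]
  refine (norm_sum_le _ _).trans (Finset.sum_le_sum (fun k hk => ?_))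
  rw [norm_mul, norm_pow]
  exact mul_le_mul_of_nonneg_left (pow_le_wt d k (by simpa [Nat.lt_succ_iff] using hk) z) (norm_nonneg _)

theorem int_one (d k l : ℕ) (hk : k ≤ d) (hl : l ≤ d) :
    Integrable (fun x : ℂ => ((1 / (1 + ‖x‖ ^ 2) ^ d : ℝ) : ℂ) * (x ^ k * (conj x) ^ l)) mu :=
  mom_integrable d k l hk hl (fun _ => 1) measurable_const 1 (by simp)

/-- integrability of the basic integrand -/
theorem int_G (d : ℕ) (χ : ℂ → ℝ) (hχ : Measurable χ) (B : ℝ) (hB : ∀ x, |χ x| ≤ B)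
    (G : ℂ[X]) (hG : G.natDegree ≤ d) (l : ℕ) (hl : l ≤ d) :
    Integrable (fun x : ℂ => ((χ x / (1 + ‖x‖ ^ 2) ^ d : ℝ) : ℂ) *
      (G.eval x * (conj x) ^ l)) mu := by
  have h : (fun x : ℂ => ((χ x / (1 + ‖x‖ ^ 2) ^ d : ℝ) : ℂ) * (G.eval x * (conj x) ^ l)) =
      fun x : ℂ => ∑ k ∈ range (d + 1), G.coeff k *
        (((χ x / (1 + ‖x‖ ^ 2) ^ d : ℝ) : ℂ) * (x ^ k * (conj x) ^ l)) := by
    funext x
    rw [eval_eq_sum_deg d G hG x, Finset.sum_mul, Finset.mul_sum]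
    refine Finset.sum_congr rfl (fun k _ => ?_)
    ring
  rw [h]
  refine integrable_finsetSum _ (fun k hk => ?_)
  exact (mom_integrable d k l (by simpa [Nat.lt_succ_iff] using hk) hl χ hχ B hB).const_mul _

theorem Nd_eq (d : ℕ) (G : ℂ[X]) (hG : G.natDegree ≤ d) :
    Nd d G = (d + 1) * ∫ x, wm d G x ^ 2 ∂mu := by
  have h1 : ∀ x : ℂ, ((wm d G x ^ 2 : ℝ) : ℂ) = ∑ k ∈ range (d + 1), ∑ l ∈ range (d + 1),
      (G.coeff k * conj (G.coeff l)) *
        (((1 / (1 + ‖x‖ ^ 2) ^ d : ℝ) : ℂ) * (x ^ k * (conj x) ^ l)) := by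
    intro x
    have h2 : ((‖G.eval x‖ ^ 2 : ℝ) : ℂ) = G.eval x * conj (G.eval x) := by
      rw [Complex.mul_conj, Complex.normSq_eq_norm_sq]
    rw [wm_sq, div_eq_mul_one_div, Complex.ofReal_mul, h2, eval_eq_sum_deg d G hG x, map_sum,
      Finset.sum_mul_sum, Finset.sum_mul]
    refine Finset.sum_congr rfl (fun k _ => ?_)
    rw [Finset.sum_mul]
    refine Finset.sum_congr rfl (fun l _ => ?_)
    rw [map_mul, map_pow]
    ring
  have h3 : ((∫ x, wm d G x ^ 2 ∂mu : ℝ) : ℂ) = ∑ k ∈ range (d + 1),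
      (G.coeff k * conj (G.coeff k)) * (1 / (((d + 1) * d.choose k : ℕ) : ℂ)) := by
    rw [← integral_complex_ofReal]
    simp_rw [h1]
    have hint : ∀ k ∈ range (d + 1), ∀ l ∈ range (d + 1), Integrable (fun x : ℂ =>
        (G.coeff k * conj (G.coeff l)) *
        (((1 / (1 + ‖x‖ ^ 2) ^ d : ℝ) : ℂ) * (x ^ k * (conj x) ^ l))) mu := by
      intro k hk l hl
      exact (int_one d k l (by simpa [Nat.lt_succ_iff] using hk)
        (by simpa [Nat.lt_succ_iff] using hl)).const_mul _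
    rw [integral_finsetSum _ (fun k hk => integrable_finsetSum _ (hint k hk))]
    refine Finset.sum_congr rfl (fun k hk => ?_)
    rw [integral_finsetSum _ (hint k hk)]
    rw [Finset.sum_eq_single k]
    · rw [integral_const_mul, moment d k k (by simpa [Nat.lt_succ_iff] using hk)
        (by simpa [Nat.lt_succ_iff] using hk), if_pos rfl]
    · intro l hl hlk
      rw [integral_const_mul, moment d k l (by simpa [Nat.lt_succ_iff] using hk)
        (by simpa [Nat.lt_succ_iff] using hl), if_neg (Ne.symm hlk), mul_zero]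
    · intro h; exact absurd hk h
  have h4 : ((Nd d G : ℝ) : ℂ) = (((d + 1) * ∫ x, wm d G x ^ 2 ∂mu : ℝ) : ℂ) := by
    rw [Complex.ofReal_mul, h3]
    unfold Nd
    rw [Complex.ofReal_sum, Finset.mul_sum]
    refine Finset.sum_congr rfl (fun k hk => ?_)
    have hc : ((d.choose k : ℕ) : ℂ) ≠ 0 := by
      have : 0 < d.choose k := Nat.choose_pos (by simpa [Nat.lt_succ_iff] using hk)
      exact_mod_cast this.ne'
    have hd : ((d : ℂ) + 1) ≠ 0 := by exact_mod_cast Nat.succ_ne_zero d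
    rw [Complex.mul_conj, Complex.normSq_eq_norm_sq]
    push_cast
    field_simp
  exact_mod_cast h4

theorem Pj_deg (d : ℕ) (χ : ℂ → ℝ) (G : ℂ[X]) : (Pj d χ G).natDegree ≤ d := by
  unfold Pj
  refine Polynomial.natDegree_sum_le_of_forall_le _ _ (fun k hk => ?_)
  refine (Polynomial.natDegree_C_mul_X_pow_le _ _).trans ?_
  simpa [Nat.lt_succ_iff] using hk

theorem Pj_one (d : ℕ) (G : ℂ[X]) (hG : G.natDegree ≤ d) : Pj d (fun _ => 1) G = G := by
  have hint : ∀ l, l ≤ d → ∫ x : ℂ, ((1 / (1 + ‖x‖ ^ 2) ^ d : ℝ) : ℂ) *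
      (G.eval x * (conj x) ^ l) ∂mu = G.coeff l * (1 / (((d + 1) * d.choose l : ℕ) : ℂ)) := by
    intro l hl
    have h : (fun x : ℂ => ((1 / (1 + ‖x‖ ^ 2) ^ d : ℝ) : ℂ) * (G.eval x * (conj x) ^ l)) =
        fun x : ℂ => ∑ k ∈ range (d + 1), G.coeff k *
          (((1 / (1 + ‖x‖ ^ 2) ^ d : ℝ) : ℂ) * (x ^ k * (conj x) ^ l)) := by
      funext x
      rw [eval_eq_sum_deg d G hG x, Finset.sum_mul, Finset.mul_sum]
      refine Finset.sum_congr rfl (fun k _ => ?_)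
      ring
    rw [h, integral_finsetSum _ (fun k hk =>
      (int_one d k l (by simpa [Nat.lt_succ_iff] using hk) hl).const_mul _)]
    rw [Finset.sum_eq_single l]
    · rw [integral_const_mul, moment d l l hl hl, if_pos rfl]
    · intro k hk hkl
      rw [integral_const_mul, moment d k l (by simpa [Nat.lt_succ_iff] using hk) hl, if_neg hkl,
        mul_zero]
    · intro h; exact absurd (by simpa [Nat.lt_succ_iff] using hl) h
  unfold Pj
  conv_rhs => rw [Polynomial.as_sum_range_C_mul_X_pow' G (n := d + 1) (by omega)]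
  refine Finset.sum_congr rfl (fun l hl => ?_)
  have hl' : l ≤ d := by simpa [Nat.lt_succ_iff] using hl
  rw [hint l hl']
  congr 2
  have hc : (((d + 1) * d.choose l : ℕ) : ℂ) ≠ 0 := by
    have : 0 < (d + 1) * d.choose l := Nat.mul_pos (Nat.succ_pos d) (Nat.choose_pos hl')
    exact_mod_cast this.ne'
  field_simp

theorem Pj_sum (d : ℕ) {ι : Type*} (s : Finset ι) (τ : ι → ℝ) (χ : ι → ℂ → ℝ)
    (hm : ∀ j ∈ s, Measurable (χ j)) (B : ℝ) (hB : ∀ j ∈ s, ∀ x, |χ j x| ≤ B) (G : ℂ[X])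
    (hG : G.natDegree ≤ d) :
    Pj d (fun x => ∑ j ∈ s, τ j * χ j x) G = ∑ j ∈ s, C ((τ j : ℝ) : ℂ) * Pj d (χ j) G := by
  unfold Pj
  simp_rw [Finset.mul_sum]
  rw [Finset.sum_comm]
  refine Finset.sum_congr rfl (fun l hl => ?_)
  have hl' : l ≤ d := by simpa [Nat.lt_succ_iff] using hl
  have h : (fun x : ℂ => (((∑ j ∈ s, τ j * χ j x) / (1 + ‖x‖ ^ 2) ^ d : ℝ) : ℂ) *
      (G.eval x * (conj x) ^ l)) = fun x : ℂ => ∑ j ∈ s, ((τ j : ℝ) : ℂ) *
        (((χ j x / (1 + ‖x‖ ^ 2) ^ d : ℝ) : ℂ) * (G.eval x * (conj x) ^ l)) := by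
    funext x
    rw [Finset.sum_div, Complex.ofReal_sum, Finset.sum_mul]
    refine Finset.sum_congr rfl (fun j _ => ?_)
    push_cast
    ring
  rw [h, integral_finsetSum _ (fun j hj =>
    (int_G d (χ j) (hm j hj) B (hB j hj) G hG l hl').const_mul _)]
  simp_rw [integral_const_mul]
  rw [Finset.mul_sum, map_sum, Finset.sum_mul]
  refine Finset.sum_congr rfl (fun j _ => ?_)
  rw [← mul_assoc (C ((τ j : ℝ) : ℂ)), ← C_mul]
  congr 2
  ring

theorem Pj_eval (d : ℕ) (χ : ℂ → ℝ) (hχ : Measurable χ) (B : ℝ) (hB : ∀ x, |χ x| ≤ B)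
    (G : ℂ[X]) (hG : G.natDegree ≤ d) (z : ℂ) :
    (Pj d χ G).eval z = (d + 1) * ∫ x, ((χ x / (1 + ‖x‖ ^ 2) ^ d : ℝ) : ℂ) *
      (G.eval x * (1 + z * conj x) ^ d) ∂mu := by
  have h : (fun x : ℂ => ((χ x / (1 + ‖x‖ ^ 2) ^ d : ℝ) : ℂ) *
      (G.eval x * (1 + z * conj x) ^ d)) = fun x : ℂ => ∑ l ∈ range (d + 1),
        ((d.choose l : ℕ) * z ^ l : ℂ) *
        (((χ x / (1 + ‖x‖ ^ 2) ^ d : ℝ) : ℂ) * (G.eval x * (conj x) ^ l)) := by
    funext x
    rw [add_comm (1 : ℂ), add_pow (z * conj x) 1, Finset.mul_sum, Finset.mul_sum]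
    refine Finset.sum_congr rfl (fun l _ => ?_)
    rw [mul_pow, one_pow]
    ring
  rw [h, integral_finsetSum _ (fun l hl => (int_G d χ hχ B hB G hG l
    (by simpa [Nat.lt_succ_iff] using hl)).const_mul _), Finset.mul_sum]
  unfold Pj
  rw [Polynomial.eval_finsetSum]
  refine Finset.sum_congr rfl (fun l _ => ?_)
  rw [integral_const_mul, eval_mul, eval_C, eval_pow, eval_X]
  push_cast
  ring

theorem Pj_coeff (d : ℕ) (χ : ℂ → ℝ) (G : ℂ[X]) (l : ℕ) :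
    (Pj d χ G).coeff l = if l < d + 1 then (((d + 1) * d.choose l : ℕ) *
      ∫ x, ((χ x / (1 + ‖x‖ ^ 2) ^ d : ℝ) : ℂ) * (G.eval x * (conj x) ^ l) ∂mu) else 0 := by
  unfold Pj
  rw [Polynomial.finsetSum_coeff]
  simp_rw [Polynomial.coeff_C_mul, Polynomial.coeff_X_pow]
  simp only [mul_ite, mul_one, mul_zero]
  rw [Finset.sum_ite_eq]
  simp only [Finset.mem_range]

theorem Nd_Pj (d : ℕ) (χ : ℂ → ℝ) (hχ : Measurable χ) (B : ℝ) (hB : ∀ x, |χ x| ≤ B)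
    (G : ℂ[X]) (hG : G.natDegree ≤ d) :
    Nd d (Pj d χ G) ≤ (d + 1) * ∫ x, χ x ^ 2 * wm d G x ^ 2 ∂mu := by
  set g : ℂ[X] := Pj d χ G with hg
  have hgd : g.natDegree ≤ d := Pj_deg d χ G
  -- coefficients
  have hgc : ∀ l ∈ range (d + 1), g.coeff l = ((d + 1) * d.choose l : ℕ) *
      ∫ x, ((χ x / (1 + ‖x‖ ^ 2) ^ d : ℝ) : ℂ) * (G.eval x * (conj x) ^ l) ∂mu := by
    intro l hl
    rw [hg, Pj_coeff, if_pos (by simpa [Nat.lt_succ_iff] using hl)]
  -- the mixed term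
  have hmix : ∫ x, ((χ x / (1 + ‖x‖ ^ 2) ^ d : ℝ) : ℂ) * (G.eval x * conj (g.eval x)) ∂mu =
      ((Nd d g / (d + 1) : ℝ) : ℂ) := by
    have h : (fun x : ℂ => ((χ x / (1 + ‖x‖ ^ 2) ^ d : ℝ) : ℂ) * (G.eval x * conj (g.eval x))) =
        fun x : ℂ => ∑ l ∈ range (d + 1), conj (g.coeff l) *
          (((χ x / (1 + ‖x‖ ^ 2) ^ d : ℝ) : ℂ) * (G.eval x * (conj x) ^ l)) := by
      funext x
      rw [eval_eq_sum_deg d g hgd x, map_sum, Finset.mul_sum, Finset.mul_sum]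
      refine Finset.sum_congr rfl (fun l _ => ?_)
      rw [map_mul, map_pow]
      ring
    rw [h, integral_finsetSum _ (fun l hl => (int_G d χ hχ B hB G hG l
      (by simpa [Nat.lt_succ_iff] using hl)).const_mul _)]
    unfold Nd
    rw [Finset.sum_div, Complex.ofReal_sum]
    refine Finset.sum_congr rfl (fun l hl => ?_)
    rw [integral_const_mul]
    have h1 := hgc l hl
    have hc : ((d.choose l : ℕ) : ℂ) ≠ 0 := by
      have : 0 < d.choose l := Nat.choose_pos (by simpa [Nat.lt_succ_iff] using hl)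
      exact_mod_cast this.ne'
    have hd : ((d : ℂ) + 1) ≠ 0 := by exact_mod_cast Nat.succ_ne_zero d
    have h2 : ∫ x, ((χ x / (1 + ‖x‖ ^ 2) ^ d : ℝ) : ℂ) * (G.eval x * (conj x) ^ l) ∂mu =
        g.coeff l / (((d : ℂ) + 1) * (d.choose l : ℕ)) := by
      rw [h1]
      push_cast
      field_simp
    rw [h2]
    have h3 : ((‖g.coeff l‖ ^ 2 : ℝ) : ℂ) = g.coeff l * conj (g.coeff l) := by
      rw [Complex.mul_conj, Complex.normSq_eq_norm_sq]
    rw [Complex.ofReal_div, Complex.ofReal_div, h3]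
    push_cast
    field_simp
  have hmixint : Integrable (fun x : ℂ => ((χ x / (1 + ‖x‖ ^ 2) ^ d : ℝ) : ℂ) *
      (G.eval x * conj (g.eval x))) mu := by
    have h : (fun x : ℂ => ((χ x / (1 + ‖x‖ ^ 2) ^ d : ℝ) : ℂ) * (G.eval x * conj (g.eval x))) =
        fun x : ℂ => ∑ l ∈ range (d + 1), conj (g.coeff l) *
          (((χ x / (1 + ‖x‖ ^ 2) ^ d : ℝ) : ℂ) * (G.eval x * (conj x) ^ l)) := by
      funext x
      rw [eval_eq_sum_deg d g hgd x, map_sum, Finset.mul_sum, Finset.mul_sum]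
      refine Finset.sum_congr rfl (fun l _ => ?_)
      rw [map_mul, map_pow]
      ring
    rw [h]
    exact integrable_finsetSum _ (fun l hl => (int_G d χ hχ B hB G hG l
      (by simpa [Nat.lt_succ_iff] using hl)).const_mul _)
  obtain ⟨C1, hC1⟩ := wm_bdd d G hG
  obtain ⟨C2, hC2⟩ := wm_bdd d g hgd
  have hB0 : 0 ≤ B := (abs_nonneg _).trans (hB 0)
  have hI1 : Integrable (fun x => χ x ^ 2 * wm d G x ^ 2) mu := by
    refine Integrable.of_bound ((hχ.pow_const 2).mul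
      ((wm_continuous d G).measurable.pow_const 2)).aestronglyMeasurable (B ^ 2 * C1 ^ 2)
      (Filter.Eventually.of_forall (fun x => ?_))
    rw [Real.norm_of_nonneg (by positivity)]
    have h1 : χ x ^ 2 ≤ B ^ 2 := by
      rw [← sq_abs]
      exact pow_le_pow_left₀ (abs_nonneg _) (hB x) 2
    have h2 : wm d G x ^ 2 ≤ C1 ^ 2 := pow_le_pow_left₀ (wm_nonneg d G x) (hC1 x) 2
    exact mul_le_mul h1 h2 (by positivity) (by positivity)
  have hI2 : Integrable (fun x => wm d g x ^ 2) mu := by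
    refine Integrable.of_bound
      ((wm_continuous d g).measurable.pow_const 2).aestronglyMeasurable (C2 ^ 2)
      (Filter.Eventually.of_forall (fun x => ?_))
    rw [Real.norm_of_nonneg (by positivity)]
    exact pow_le_pow_left₀ (wm_nonneg d g x) (hC2 x) 2
  have hI3 : Integrable (fun x : ℂ => (((χ x / (1 + ‖x‖ ^ 2) ^ d : ℝ) : ℂ) *
      (G.eval x * conj (g.eval x))).re) mu := hmixint.re
  have hre : ∫ x, (((χ x / (1 + ‖x‖ ^ 2) ^ d : ℝ) : ℂ) *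
      (G.eval x * conj (g.eval x))).re ∂mu = Nd d g / (d + 1) := by
    have h := integral_re hmixint
    have h' : (∫ x, ((χ x / (1 + ‖x‖ ^ 2) ^ d : ℝ) : ℂ) *
      (G.eval x * conj (g.eval x)) ∂mu).re = Nd d g / (d + 1) := by
      rw [hmix, Complex.ofReal_re]
    exact h.trans h'
  have hpos : 0 ≤ ∫ x, (χ x ^ 2 * wm d G x ^ 2 - 2 * (((χ x / (1 + ‖x‖ ^ 2) ^ d : ℝ) : ℂ) *
      (G.eval x * conj (g.eval x))).re + wm d g x ^ 2) ∂mu := by
    refine integral_nonneg (fun x => ?_)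
    have key : χ x ^ 2 * wm d G x ^ 2 - 2 * (((χ x / (1 + ‖x‖ ^ 2) ^ d : ℝ) : ℂ) *
      (G.eval x * conj (g.eval x))).re + wm d g x ^ 2 =
      ‖((χ x : ℝ) : ℂ) * G.eval x - g.eval x‖ ^ 2 / (1 + ‖x‖ ^ 2) ^ d := by
      rw [wm_sq, wm_sq, Complex.re_ofReal_mul]
      have hh : ‖((χ x : ℝ) : ℂ) * G.eval x - g.eval x‖ ^ 2 = χ x ^ 2 * ‖G.eval x‖ ^ 2 -
          2 * (χ x * (G.eval x * conj (g.eval x)).re) + ‖g.eval x‖ ^ 2 := by
        rw [← Complex.normSq_eq_norm_sq, ← Complex.normSq_eq_norm_sq, ← Complex.normSq_eq_norm_sq,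
          Complex.normSq_sub, map_mul, Complex.normSq_ofReal,
          mul_assoc ((χ x : ℝ) : ℂ) (G.eval x), Complex.re_ofReal_mul]
        ring
      rw [hh]
      have := (wt_pos d x).ne'
      field_simp
    rw [Pi.zero_apply, key]
    exact div_nonneg (by positivity) (wt_pos d x).le
  have hsplit : ∫ x, (χ x ^ 2 * wm d G x ^ 2 - 2 * (((χ x / (1 + ‖x‖ ^ 2) ^ d : ℝ) : ℂ) *
      (G.eval x * conj (g.eval x))).re + wm d g x ^ 2) ∂mu =
      ∫ x, χ x ^ 2 * wm d G x ^ 2 ∂mu - 2 * (Nd d g / (d + 1)) + ∫ x, wm d g x ^ 2 ∂mu := by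
    have e1 := integral_add (hI1.sub (hI3.const_mul 2)) hI2
    have e2 := integral_sub hI1 (hI3.const_mul 2)
    rw [integral_const_mul, hre] at e2
    rw [← e2]
    exact e1
  rw [hsplit] at hpos
  have hN := Nd_eq d g hgd
  have hd : (0 : ℝ) < (d : ℝ) + 1 := by positivity
  have h5 : ∫ x, wm d g x ^ 2 ∂mu = Nd d g / (d + 1) := by
    rw [hN]; field_simp
  rw [h5] at hpos
  have h6 : Nd d g / (d + 1) ≤ ∫ x, χ x ^ 2 * wm d G x ^ 2 ∂mu := by linarith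
  rw [div_le_iff₀ hd] at h6
  linarith

theorem ker_bound0 (d : ℕ) (χ : ℂ → ℝ) (hχ : Measurable χ) (B : ℝ) (hB : ∀ x, |χ x| ≤ B)
    (G : ℂ[X]) (hG : G.natDegree ≤ d) (z : ℂ) :
    wm d (Pj d χ G) z ≤ (d + 1) * ∫ x, |χ x| * wm d G x * √((1 - sg z x ^ 2) ^ d) ∂mu := by
  have hs1 : (0 : ℝ) < √((1 + ‖z‖ ^ 2) ^ d) := Real.sqrt_pos.mpr (wt_pos d z)
  unfold wm
  rw [div_le_iff₀ hs1, Pj_eval d χ hχ B hB G hG z, norm_mul]
  have hn : ‖((d : ℂ) + 1)‖ = (d : ℝ) + 1 := by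
    have : ((d : ℂ) + 1) = (((d + 1 : ℕ) : ℝ) : ℂ) := by push_cast; ring
    rw [this, Complex.norm_real, Real.norm_of_nonneg (by positivity)]
    push_cast; ring
  rw [hn, mul_assoc]
  refine mul_le_mul_of_nonneg_left ?_ (by positivity)
  refine (norm_integral_le_integral_norm _).trans (le_of_eq ?_)
  rw [← integral_mul_const]
  refine integral_congr_ae (Filter.Eventually.of_forall (fun x => ?_))
  have hs2 : (0 : ℝ) < √((1 + ‖x‖ ^ 2) ^ d) := Real.sqrt_pos.mpr (wt_pos d x)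
  have h1 : √((1 - sg z x ^ 2) ^ d) =
      ‖1 + z * conj x‖ ^ d / (√((1 + ‖z‖ ^ 2) ^ d) * √((1 + ‖x‖ ^ 2) ^ d)) := by
    rw [one_sub_sg_sq, div_pow, mul_pow, Real.sqrt_div (by positivity),
      Real.sqrt_mul (by positivity), ← pow_mul, mul_comm 2 d, pow_mul,
      Real.sqrt_sq (by positivity)]
  have h2 : (1 + ‖x‖ ^ 2) ^ d = √((1 + ‖x‖ ^ 2) ^ d) * √((1 + ‖x‖ ^ 2) ^ d) :=
    (Real.mul_self_sqrt (wt_pos d x).le).symm
  beta_reduce
  rw [norm_mul, norm_mul, norm_pow, Complex.norm_real, norm_div, Real.norm_eq_abs,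
    Real.norm_eq_abs, h1, abs_of_pos (wt_pos d x)]
  rw [show |χ x| / (1 + ‖x‖ ^ 2) ^ d =
    |χ x| / (√((1 + ‖x‖ ^ 2) ^ d) * √((1 + ‖x‖ ^ 2) ^ d)) by rw [← h2]]
  field_simp

theorem ker_bound (d : ℕ) (χ : ℂ → ℝ) (hχ : Measurable χ) (B : ℝ) (hB : ∀ x, |χ x| ≤ B)
    (G : ℂ[X]) (hG : G.natDegree ≤ d) (z : ℂ) :
    wm d (Pj d χ G - C ((χ z : ℝ) : ℂ) * G) z ≤
      (d + 1) * ∫ x, |χ x - χ z| * wm d G x * √((1 - sg z x ^ 2) ^ d) ∂mu := by
  have hone : (fun x : ℂ => χ x - χ z) = fun x => χ x - χ z := rfl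
  have hm : Measurable (fun x : ℂ => χ x - χ z) := hχ.sub_const _
  have hb : ∀ x, |χ x - χ z| ≤ 2 * B := by
    intro x
    have h1 := abs_sub (χ x) (χ z)
    have h2 := hB x
    have h3 := hB z
    linarith
  have h1 : (Pj d χ G - C ((χ z : ℝ) : ℂ) * G) = Pj d (fun x => χ x - χ z) G := by
    have h := Pj_sum d (univ : Finset (Fin 2)) ![1, - χ z] ![χ, fun _ => 1]
      (by
        intro j _
        fin_cases j
        · exact hχ
        · exact measurable_const) (max B 1)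
      (by
        intro j _ x
        fin_cases j
        · exact (hB x).trans (le_max_left _ _)
        · simp) G hG
    simp only [Fin.sum_univ_two, Matrix.cons_val_zero, Matrix.cons_val_one, one_mul, mul_one] at h
    have h' : (fun x => χ x + - χ z) = fun x => χ x - χ z := by
      funext x; ring
    rw [h', Pj_one d G hG] at h
    rw [h, Complex.ofReal_neg, C_neg, Complex.ofReal_one, C_1]
    ring
  rw [h1]
  exact ker_bound0 d (fun x => χ x - χ z) hm (2 * B) hb G hG z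

end Pool.Agent.H85.LD
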