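import Pool.Agent.H85.LD.Rot

/-!
[H85 LD NET]  Packing, nets, sums over nets.

Proofs.
* `pack`: the sets `{x | sg b x < δ/2}`, `b ∈ s`, are disjoint (`sg_tri`), each contains `{x | sg b x ≤ ρ}` for all `ρ < δ/2`
  so has measure at least `δ^2/4` (`mu_disc`; supremum over `ρ`, or use `δ' < δ`), and they are contained in
  `{x | sg z x ≤ ρ + δ/2}`, of measure `(ρ + δ/2)^2` if this is `≤ 1`, and at most `1 ≤ (ρ + δ/2)^2` otherwise.
* `exists_net`: by `pack` (`ρ = 1`) the cardinality of a `δ`-separated finite set is bounded; take one of maximal cardinality.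
* `net_sum`: `k = ⌊√d sg z b⌋`; `∑_b exp(-√d sg) ≤ ∑_{k ≤ √d} #{b | √d sg z b < k+1} exp(-k)`, `pack` with `ρ = (k+1)/√d`,
  `δ = 1/(4√d)`: `# ≤ 64 (k + 1 + 1/8)^2 ≤ 64 (k+2)^2`, and `∑_k (k+2)^2 exp(-k) ≤ 15` (e.g. `exp(-k) ≤ 2.7^(-k)`,
  `(k+2)^2 ≤ 16 (3/2)^k` so that `∑ ≤ 16/(1 - 1.5/2.7) ≤ 40`; the constant `4000` is generous).
-/

set_option autoImplicit false

open Polynomial MeasureTheory Real Finset ComplexConjugate

namespace Pool.Agent.H85.LD

theorem pack (δ ρ : ℝ) (hδ : 0 < δ) (hδ1 : δ ≤ 1) (hρ : 0 ≤ ρ) (s : Finset ℂ)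
    (hs : ∀ b ∈ s, ∀ c ∈ s, b ≠ c → δ ≤ sg b c) (z : ℂ) (hz : ∀ b ∈ s, sg z b ≤ ρ) :
    (s.card : ℝ) * (δ ^ 2 / 4) ≤ (ρ + δ / 2) ^ 2 := by
  have key : ∀ x : ℝ, 0 < x → x < δ / 2 → (s.card : ℝ) * x ^ 2 ≤ (ρ + δ / 2) ^ 2 := by
    intro x hx hxd
    have hx1 : x ≤ 1 := by linarith
    have hmeas : ∀ b ∈ s, MeasurableSet {y : ℂ | sg b y ≤ x} := fun b _ =>
      (isClosed_le (sg_continuous.comp (Continuous.prodMk_right b)) continuous_const).measurableSet
    have hdisj : Set.PairwiseDisjoint (↑s : Set ℂ) (fun b => {y : ℂ | sg b y ≤ x}) := by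
      intro b hb c hc hbc
      refine Set.disjoint_left.2 fun y hy1 hy2 => ?_
      have h1 : sg b y ≤ x := hy1
      have h2 : sg c y ≤ x := hy2
      have h3 := sg_tri b y c
      rw [sg_comm y c] at h3
      have h4 := hs b hb c hc hbc
      linarith
    have h1 : mu (⋃ b ∈ s, {y : ℂ | sg b y ≤ x}) = ∑ b ∈ s, mu {y : ℂ | sg b y ≤ x} :=
      measure_biUnion_finset hdisj hmeas
    have h2 : ∑ b ∈ s, mu {y : ℂ | sg b y ≤ x} = ENNReal.ofReal ((s.card : ℝ) * x ^ 2) := by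
      rw [Finset.sum_congr rfl (fun b _ => mu_disc b x hx.le hx1), Finset.sum_const, nsmul_eq_mul,
        ENNReal.ofReal_mul (by positivity), ENNReal.ofReal_natCast]
    have h3 : (⋃ b ∈ s, {y : ℂ | sg b y ≤ x}) ⊆ {y : ℂ | sg z y ≤ min 1 (ρ + x)} := by
      intro y hy
      simp only [Set.mem_iUnion, Set.mem_ofPred_eq, exists_prop] at hy
      obtain ⟨b, hb, hy⟩ := hy
      have h4 := sg_tri z b y
      have h5 := hz b hb
      exact le_min (sg_le_one z y) (by linarith)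
    have h4 := measure_mono (μ := mu) h3
    have h5 : (0 : ℝ) ≤ min 1 (ρ + x) := le_min zero_le_one (by linarith)
    rw [h1, h2, mu_disc z _ h5 (min_le_left _ _)] at h4
    have h6 := (ENNReal.ofReal_le_ofReal_iff (by positivity)).1 h4
    refine h6.trans ?_
    have h7 : min 1 (ρ + x) ≤ ρ + δ / 2 := (min_le_right _ _).trans (by linarith)
    exact pow_le_pow_left₀ h5 h7 2
  have hten : Filter.Tendsto (fun x : ℝ => (s.card : ℝ) * x ^ 2) (nhdsWithin (δ / 2) (Set.Iio (δ / 2)))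
      (nhds ((s.card : ℝ) * (δ / 2) ^ 2)) := by
    have h1 : Continuous (fun x : ℝ => (s.card : ℝ) * x ^ 2) := by fun_prop
    exact (h1.tendsto (δ / 2)).mono_left nhdsWithin_le_nhds
  have h2 : (s.card : ℝ) * (δ / 2) ^ 2 ≤ (ρ + δ / 2) ^ 2 := by
    refine le_of_tendsto hten ?_
    filter_upwards [Ioo_mem_nhdsLT (show (0 : ℝ) < δ / 2 by linarith)] with x hx
    exact key x hx.1 hx.2
  have h3 : (δ / 2) ^ 2 = δ ^ 2 / 4 := by ring
  rwa [h3] at h2

theorem exists_net (δ : ℝ) (hδ : 0 < δ) (hδ1 : δ ≤ 1) : ∃ s : Finset ℂ,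
    (∀ b ∈ s, ∀ c ∈ s, b ≠ c → δ ≤ sg b c) ∧ ∀ z : ℂ, ∃ b ∈ s, sg z b < δ := by
  classical
  let P : Set ℕ := {n | ∃ s : Finset ℂ, (∀ b ∈ s, ∀ c ∈ s, b ≠ c → δ ≤ sg b c) ∧ s.card = n}
  have hne : P.Nonempty := ⟨0, ∅, by simp, rfl⟩
  have hbd : BddAbove P := by
    refine ⟨⌈(1 + δ / 2) ^ 2 / (δ ^ 2 / 4)⌉₊, ?_⟩
    rintro n ⟨s, hs, rfl⟩
    have h1 := pack δ 1 hδ hδ1 zero_le_one s hs 0 (fun b _ => sg_le_one 0 b)
    have h2 : (s.card : ℝ) ≤ (1 + δ / 2) ^ 2 / (δ ^ 2 / 4) := (le_div_iff₀ (by positivity)).2 h1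
    exact_mod_cast h2.trans (Nat.le_ceil _)
  obtain ⟨s, hs, hcard⟩ := Nat.sSup_mem hne hbd
  refine ⟨s, hs, fun z => ?_⟩
  by_contra hcon
  push Not at hcon
  have hz : z ∉ s := fun h => by
    have := hcon z h
    rw [sg_self] at this
    linarith
  have hmem : (insert z s).card ∈ P := by
    refine ⟨insert z s, ?_, rfl⟩
    intro b hb c hc hbc
    rw [Finset.mem_insert] at hb hc
    rcases hb with rfl | hb
    · rcases hc with rfl | hc
      · exact absurd rfl hbc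
      · exact hcon c hc
    · rcases hc with rfl | hc
      · rw [sg_comm]
        exact hcon b hb
      · exact hs b hb c hc hbc
  have h1 := le_csSup hbd hmem
  rw [Finset.card_insert_of_notMem hz, hcard] at h1
  omega

theorem net_card (d : ℕ) (hd : 1 ≤ d) (s : Finset ℂ)
    (hs : ∀ b ∈ s, ∀ c ∈ s, b ≠ c → 1 / (4 * √d) ≤ sg b c) (z : ℂ) (T : ℝ) (hT : 0 ≤ T) :
    ((s.filter (fun b => √d * sg z b ≤ T)).card : ℝ) ≤ 64 * (T + 1) ^ 2 := by
  have hd1 : (1 : ℝ) ≤ √d := by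
    rw [Real.one_le_sqrt]
    exact_mod_cast hd
  have hd0 : (0 : ℝ) < √d := by linarith
  have h1 := pack (1 / (4 * √d)) (T / √d) (by positivity)
    (by rw [div_le_one (by positivity)]; linarith) (by positivity)
    (s.filter (fun b => √d * sg z b ≤ T))
    (fun b hb c hc hbc => hs b (Finset.mem_filter.1 hb).1 c (Finset.mem_filter.1 hc).1 hbc) z
    (fun b hb => by
      rw [le_div_iff₀ hd0, mul_comm]
      exact (Finset.mem_filter.1 hb).2)
  have h2 : (1 / (4 * √d)) ^ 2 / 4 = 1 / (64 * √d ^ 2) := by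
    field_simp
    norm_num
  have h3 : (T / √d + 1 / (4 * √d) / 2) ^ 2 = (T + 1 / 8) ^ 2 / √d ^ 2 := by
    field_simp
    ring
  rw [h2, h3, mul_one_div, div_le_div_iff₀ (by positivity) (by positivity)] at h1
  have h4 : (0 : ℝ) < √d ^ 2 := by positivity
  have h5 : ((s.filter (fun b => √d * sg z b ≤ T)).card : ℝ) ≤ 64 * (T + 1 / 8) ^ 2 := by
    have h6 : ((s.filter (fun b => √d * sg z b ≤ T)).card : ℝ) * √d ^ 2 ≤
        (64 * (T + 1 / 8) ^ 2) * √d ^ 2 := by linarith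
    exact le_of_mul_le_mul_right h6 h4
  refine h5.trans ?_
  have h7 : (T + 1 / 8) ^ 2 ≤ (T + 1) ^ 2 := pow_le_pow_left₀ (by linarith) (by linarith) 2
  linarith

theorem net_sum (d : ℕ) (hd : 1 ≤ d) (s : Finset ℂ)
    (hs : ∀ b ∈ s, ∀ c ∈ s, b ≠ c → 1 / (4 * √d) ≤ sg b c) (z : ℂ) :
    ∑ b ∈ s, Real.exp (-(√d * sg z b)) ≤ 4000 := by
  classical
  have hd0 : (0 : ℝ) ≤ √d := Real.sqrt_nonneg _
  let g : ℂ → ℕ := fun b => ⌊√d * sg z b⌋₊
  have hg0 : ∀ b : ℂ, 0 ≤ √d * sg z b := fun b => mul_nonneg hd0 (sg_nonneg z b)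
  obtain ⟨K, hK⟩ : ∃ K : ℕ, ∀ b ∈ s, g b ∈ Finset.range K := by
    refine ⟨⌊√d⌋₊ + 1, fun b _ => ?_⟩
    rw [Finset.mem_range, Nat.lt_succ_iff]
    refine Nat.floor_mono ?_
    have := sg_le_one z b
    nlinarith
  rw [← Finset.sum_fiberwise_of_maps_to hK]
  have hexp : ∀ k : ℕ, Real.exp (-(k : ℝ)) ≤ (10 / 27) ^ k := by
    intro k
    have h1 : Real.exp (-(k : ℝ)) = (Real.exp (-1)) ^ k := by
      rw [← Real.exp_nat_mul]
      congr 1
      ring
    have h2 : Real.exp (-1) ≤ 10 / 27 := by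
      rw [Real.exp_neg, inv_le_comm₀ (Real.exp_pos 1) (by norm_num)]
      have := Real.exp_one_gt_d9
      norm_num
      linarith
    rw [h1]
    exact pow_le_pow_left₀ (Real.exp_pos _).le h2 k
  have hsq : ∀ k : ℕ, ((k : ℝ) + 2) ^ 2 ≤ 4 * (9 / 4) ^ k := by
    intro k
    induction k with
    | zero => norm_num
    | succ k ih =>
      have hk : (0 : ℝ) ≤ k := Nat.cast_nonneg k
      have e : (9 / 4 : ℝ) ^ (k + 1) = (9 / 4) ^ k * (9 / 4) := pow_succ _ _
      rw [e]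
      push_cast
      nlinarith [mul_nonneg hk hk]
  have hfib : ∀ k ∈ Finset.range K,
      ∑ b ∈ s with g b = k, Real.exp (-(√d * sg z b)) ≤ 256 * (5 / 6) ^ k := by
    intro k _
    have h1 : ∀ b ∈ s.filter (fun b => g b = k), Real.exp (-(√d * sg z b)) ≤ (10 / 27) ^ k := by
      intro b hb
      have h2 : g b = k := (Finset.mem_filter.1 hb).2
      have h3 : (k : ℝ) ≤ √d * sg z b := by
        rw [← h2]
        exact Nat.floor_le (hg0 b)
      refine (Real.exp_le_exp.2 ?_).trans (hexp k)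
      linarith
    refine (Finset.sum_le_card_nsmul _ _ _ h1).trans ?_
    rw [nsmul_eq_mul]
    have h4 : ((s.filter (fun b => g b = k)).card : ℝ) ≤ 64 * ((k : ℝ) + 1 + 1) ^ 2 := by
      refine le_trans ?_ (net_card d hd s hs z ((k : ℝ) + 1) (by positivity))
      have h5 : (s.filter (fun b => g b = k)) ⊆
          (s.filter (fun b => √d * sg z b ≤ (k : ℝ) + 1)) := by
        intro b hb
        rw [Finset.mem_filter] at hb ⊢
        refine ⟨hb.1, ?_⟩
        rw [← hb.2]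
        exact (Nat.lt_floor_add_one _).le
      exact_mod_cast Finset.card_le_card h5
    have h6 := hsq k
    have h7 : ((s.filter (fun b => g b = k)).card : ℝ) ≤ 256 * (9 / 4) ^ k := by
      refine h4.trans ?_
      have h8 : (k : ℝ) + 1 + 1 = k + 2 := by ring
      rw [h8]
      linarith
    calc ((s.filter (fun b => g b = k)).card : ℝ) * (10 / 27) ^ k
        ≤ (256 * (9 / 4) ^ k) * (10 / 27) ^ k := by
          exact mul_le_mul_of_nonneg_right h7 (by positivity)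
      _ = 256 * (5 / 6) ^ k := by
          rw [mul_assoc, ← mul_pow]
          norm_num
  refine (Finset.sum_le_sum hfib).trans ?_
  have hgeo : ∀ K : ℕ, ∑ k ∈ Finset.range K, (256 : ℝ) * (5 / 6) ^ k = 1536 - 1536 * (5 / 6) ^ K := by
    intro K
    induction K with
    | zero => norm_num
    | succ K ih =>
      rw [Finset.sum_range_succ, ih, pow_succ]
      ring
  rw [hgeo]
  have : (0 : ℝ) ≤ (5 / 6 : ℝ) ^ K := by positivity
  linarith

end Pool.Agent.H85.LD
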