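import Pool.Agent.H85.LD.Loc
import Pool.Agent.H85.LD.Net
import Pool.Agent.H85.LD.Chart
import Pool.Agent.H85.LD.Ker

/-!
LargeDegree, part C (noise): definitions.

`w` is a weight (`Wgt`), `s` a separated set of centres, `F c = (x, y)` the letters of the centre `c`; `x` gives the noise
added to `P`, `y` the noise added to `Q`.
-/

set_option autoImplicit false

open Polynomial MeasureTheory Real Finset ComplexConjugate

namespace Pool.Agent.H85.LD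

/-- triples of Gaussian integers -/
abbrev Tri : Type := (ℤ × ℤ) × (ℤ × ℤ) × (ℤ × ℤ)

/-- the polynomial `G` in the chart at `b`, with the scaled variable `u = √d t` -/
noncomputable def sc (d : ℕ) (b : ℂ) (G : ℂ[X]) (u : ℂ) : ℂ := (Gc d b G).eval (u / ((√d : ℝ) : ℂ))

/-- Wronskian in the chart -/
noncomputable def Wc (d : ℕ) (b : ℂ) (P Q : ℂ[X]) (u : ℂ) : ℂ :=
  deriv (sc d b P) u * sc d b Q u - sc d b P u * deriv (sc d b Q) u

/-- derivative of the Wronskian in the chart -/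
noncomputable def Wc1 (d : ℕ) (b : ℂ) (P Q : ℂ[X]) (u : ℂ) : ℂ :=
  deriv (deriv (sc d b P)) u * sc d b Q u - sc d b P u * deriv (deriv (sc d b Q)) u

/-- a weight: positive, `√d`-Lipschitz logarithm -/
structure Wgt (d : ℕ) (w : ℂ → ℝ) : Prop where
  pos : ∀ z, 0 < w z
  lip : ∀ z x, w x ≤ w z * Real.exp (√d * sg z x)

/-- separated set of centres -/
def Sep (d : ℕ) (s : Finset ℂ) : Prop := ∀ b ∈ s, ∀ c ∈ s, b ≠ c → 1 / (4 * √d) ≤ sg b c

/-- the noise polynomial of the centre `b` -/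
noncomputable def ns (d : ℕ) (e : ℝ) (N K : ℕ) (w : ℂ → ℝ) (b : ℂ) (x : Tri) : ℂ[X] :=
  C ((w b : ℝ) : ℂ) * (C (c0 e N K x) * en d b 0 + C (c1 e N K x * ((√d : ℝ) : ℂ)) * en d b 1 +
    C (c2 e N x * (d : ℂ)) * en d b 2)

/-- the noise seen from `b`: centres at scaled distance at most `T` -/
noncomputable def trn (d : ℕ) (e : ℝ) (N K : ℕ) (w : ℂ → ℝ) (s : Finset ℂ) (T : ℝ) (b : ℂ)
    (F : ℂ → Tri) : ℂ[X] :=
  ∑ c ∈ s.filter (fun c => √d * sg b c ≤ T), ns d e N K w c (F c)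

/-- the constant in the bad events -/
noncomputable def AA : ℝ := 10 ^ 12

/-- the bad event of the centre `b` -/
def bad (d : ℕ) (e : ℝ) (N K K1 : ℕ) (w : ℂ → ℝ) (s : Finset ℂ) (T r : ℝ) (P Q : ℂ[X]) (b : ℂ)
    (F : ℂ → Tri × Tri) : Prop :=
  (∃ z ∈ box K1, ‖gz z / (K1 : ℂ)‖ ≤ 1 ∧
    ‖sc d b (P + trn d e N K w s T b (fun c => (F c).1)) (gz z / (K1 : ℂ))‖ ≤ AA * r * w b ∧
    ‖sc d b (Q + trn d e N K w s T b (fun c => (F c).2)) (gz z / (K1 : ℂ))‖ ≤ AA * r * w b) ∨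
  (∃ z ∈ box K, ‖gz z / (K : ℂ)‖ ≤ 1 ∧
    ‖sc d b (Q + trn d e N K w s T b (fun c => (F c).2)) (gz z / (K : ℂ))‖ ≤ AA * r ^ 8 * w b ∧
    ‖deriv (sc d b (Q + trn d e N K w s T b (fun c => (F c).2))) (gz z / (K : ℂ))‖ ≤
      AA * r ^ 4 * w b) ∨
  (∃ z ∈ box K, ‖gz z / (K : ℂ)‖ ≤ 1 ∧
    r / 2 * w b ≤ ‖sc d b (P + trn d e N K w s T b (fun c => (F c).1)) (gz z / (K : ℂ))‖ +
      ‖sc d b (Q + trn d e N K w s T b (fun c => (F c).2)) (gz z / (K : ℂ))‖ ∧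
    ‖Wc d b (P + trn d e N K w s T b (fun c => (F c).1))
      (Q + trn d e N K w s T b (fun c => (F c).2)) (gz z / (K : ℂ))‖ ≤ AA * r ^ 8 * w b ^ 2 ∧
    ‖Wc1 d b (P + trn d e N K w s T b (fun c => (F c).1))
      (Q + trn d e N K w s T b (fun c => (F c).2)) (gz z / (K : ℂ))‖ ≤ AA * r ^ 4 * w b ^ 2)

end Pool.Agent.H85.LD
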