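import Pool.Agent.H85.LD.ADefs

/-!
[H85 LD SG]  The distance `sg` and the rotations `ph b`.

Proofs.
* `sg_sq`, `one_sub_sg_sq`: `‖z - x‖^2 + ‖1 + z conj x‖^2 = (1 + ‖z‖^2) (1 + ‖x‖^2)` (`Complex.normSq`, ring in real and
  imaginary parts).
* `ph_add`, `ph_norm`: with `D t = 1 - conj b t`: `ph b s - ph b t = (s - t)(1 + ‖b‖^2)/(D s D t)` and
  `1 + ‖ph b t‖^2 = (1 + ‖b‖^2)(1 + ‖t‖^2)/‖D t‖^2` (`‖b + t‖^2 + ‖1 - conj b t‖^2 = (1 + ‖b‖^2)(1 + ‖t‖^2)`); hence `sg_ph`.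
* `ph_ph`: `ph b (ph (-b) x) = x` if `1 + conj b x ≠ 0` (field_simp).
* `sg_tri`: `sg z x` is the euclidean distance of `F z` and `F x` in `ℂ × ℝ` with
  `F z = (z/(1+‖z‖^2), 1/(1+‖z‖^2) )`: `‖z/(1+‖z‖^2) - x/(1+‖x‖^2)‖^2 + (1/(1+‖z‖^2) - 1/(1+‖x‖^2))^2 = sg z x ^ 2`; use the
  triangle inequality in `EuclideanSpace ℝ (Fin 3)` or `WithLp 2 (ℂ × ℝ)`.
-/

set_option autoImplicit false

open Polynomial MeasureTheory Real Finset ComplexConjugate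

namespace Pool.Agent.H85.LD

theorem sg_nonneg (z x : ℂ) : 0 ≤ sg z x := by unfold sg; positivity

theorem sg_comm (z x : ℂ) : sg z x = sg x z := by
  unfold sg
  rw [norm_sub_rev, mul_comm]

theorem sg_self (z : ℂ) : sg z z = 0 := by unfold sg; simp

private theorem sgx_sq (z x : ℂ) :
    sg z x ^ 2 = ‖z - x‖ ^ 2 / ((1 + ‖z‖ ^ 2) * (1 + ‖x‖ ^ 2)) := by
  unfold sg
  rw [div_pow, Real.sq_sqrt (by positivity)]

private theorem sgx_id (z x : ℂ) :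
    ‖z - x‖ ^ 2 + ‖1 + z * conj x‖ ^ 2 = (1 + ‖z‖ ^ 2) * (1 + ‖x‖ ^ 2) := by
  simp only [Complex.sq_norm, Complex.normSq_apply, Complex.sub_re, Complex.sub_im,
    Complex.add_re, Complex.add_im, Complex.mul_re, Complex.mul_im, Complex.conj_re,
    Complex.conj_im, Complex.one_re, Complex.one_im]
  ring

private theorem sgx_id2 (b t : ℂ) :
    ‖1 - conj b * t‖ ^ 2 + ‖b + t‖ ^ 2 = (1 + ‖b‖ ^ 2) * (1 + ‖t‖ ^ 2) := by
  simp only [Complex.sq_norm, Complex.normSq_apply, Complex.sub_re, Complex.sub_im,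
    Complex.add_re, Complex.add_im, Complex.mul_re, Complex.mul_im, Complex.conj_re,
    Complex.conj_im, Complex.one_re, Complex.one_im]
  ring

/-- stereographic projection -/
private noncomputable def sgxF (z : ℂ) : WithLp 2 (ℂ × ℝ) :=
  WithLp.toLp 2 (z / ((1 + ‖z‖ ^ 2 : ℝ) : ℂ), 1 / (1 + ‖z‖ ^ 2))

private theorem sgx_alg (a b c e : ℝ) :
    ((a / (1 + (a * a + b * b)) - c / (1 + (c * c + e * e))) *
      (a / (1 + (a * a + b * b)) - c / (1 + (c * c + e * e))) +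
     (b / (1 + (a * a + b * b)) - e / (1 + (c * c + e * e))) *
      (b / (1 + (a * a + b * b)) - e / (1 + (c * c + e * e)))) +
      (1 / (1 + (a * a + b * b)) - 1 / (1 + (c * c + e * e))) ^ 2 =
    ((a - c) * (a - c) + (b - e) * (b - e)) /
      ((1 + (a * a + b * b)) * (1 + (c * c + e * e))) := by
  have h1 : (1 + (a * a + b * b)) ≠ 0 := by nlinarith [mul_self_nonneg a, mul_self_nonneg b]
  have h2 : (1 + (c * c + e * e)) ≠ 0 := by nlinarith [mul_self_nonneg c, mul_self_nonneg e]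
  field_simp
  ring

private theorem sgx_dist (z x : ℂ) : dist (sgxF z) (sgxF x) = sg z x := by
  rw [← pow_left_inj₀ dist_nonneg (sg_nonneg _ _) two_ne_zero, sgx_sq,
    WithLp.prod_dist_eq_of_L2, Real.sq_sqrt (by positivity)]
  show dist (z / ((1 + ‖z‖ ^ 2 : ℝ) : ℂ)) (x / ((1 + ‖x‖ ^ 2 : ℝ) : ℂ)) ^ 2 +
    dist (1 / (1 + ‖z‖ ^ 2)) (1 / (1 + ‖x‖ ^ 2)) ^ 2 = _
  rw [Real.dist_eq, sq_abs, Complex.dist_eq]
  simp only [Complex.sq_norm, Complex.normSq_apply, Complex.sub_re, Complex.sub_im,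
    Complex.div_ofReal_re, Complex.div_ofReal_im]
  exact sgx_alg z.re z.im x.re x.im

theorem sg_continuous : Continuous (fun p : ℂ × ℂ => sg p.1 p.2) := by
  unfold sg
  refine Continuous.div (by fun_prop) (by fun_prop) fun p => ?_
  have h : 0 < (1 + ‖p.1‖ ^ 2) * (1 + ‖p.2‖ ^ 2) := by positivity
  exact ne_of_gt (Real.sqrt_pos.2 h)

theorem sg_sq (z x : ℂ) : sg z x ^ 2 = ‖z - x‖ ^ 2 / ((1 + ‖z‖ ^ 2) * (1 + ‖x‖ ^ 2)) := by
  unfold sg
  rw [div_pow, Real.sq_sqrt (by positivity)]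

theorem one_sub_sg_sq (z x : ℂ) :
    1 - sg z x ^ 2 = ‖1 + z * conj x‖ ^ 2 / ((1 + ‖z‖ ^ 2) * (1 + ‖x‖ ^ 2)) := by
  have h1 : 0 < (1 + ‖z‖ ^ 2) * (1 + ‖x‖ ^ 2) := by positivity
  rw [sg_sq, eq_div_iff h1.ne', sub_mul, one_mul, div_mul_cancel₀ _ h1.ne', ← sgx_id z x]
  ring

theorem sg_le_one (z x : ℂ) : sg z x ≤ 1 := by
  have h1 := one_sub_sg_sq z x
  have h2 : 0 ≤ 1 - sg z x ^ 2 := by rw [h1]; positivity
  have h3 := sg_nonneg z x
  nlinarith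

theorem sg_zero_left (t : ℂ) : sg 0 t = ‖t‖ / √(1 + ‖t‖ ^ 2) := by
  unfold sg
  simp

theorem sg_tri (x y z : ℂ) : sg x z ≤ sg x y + sg y z := by
  rw [← sgx_dist, ← sgx_dist, ← sgx_dist]
  exact dist_triangle _ _ _

theorem ph_norm (b t : ℂ) (h : 1 - conj b * t ≠ 0) :
    1 + ‖ph b t‖ ^ 2 = (1 + ‖b‖ ^ 2) * (1 + ‖t‖ ^ 2) / ‖1 - conj b * t‖ ^ 2 := by
  have hD : 0 < ‖1 - conj b * t‖ ^ 2 := by positivity
  unfold ph
  rw [norm_div, div_pow, eq_div_iff hD.ne', add_mul, div_mul_cancel₀ _ hD.ne', one_mul,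
    ← sgx_id2 b t]

theorem ph_sub (b s t : ℂ) (hs : 1 - conj b * s ≠ 0) (ht : 1 - conj b * t ≠ 0) :
    ph b s - ph b t = (s - t) * (1 + ‖b‖ ^ 2 : ℝ) / ((1 - conj b * s) * (1 - conj b * t)) := by
  unfold ph
  rw [div_sub_div _ _ hs ht]
  congr 1
  push_cast
  rw [← Complex.mul_conj']
  ring

theorem sg_ph (b s t : ℂ) (hs : 1 - conj b * s ≠ 0) (ht : 1 - conj b * t ≠ 0) :
    sg (ph b s) (ph b t) = sg s t := by
  rw [← pow_left_inj₀ (sg_nonneg _ _) (sg_nonneg _ _) two_ne_zero, sg_sq, sg_sq, ph_norm b s hs,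
    ph_norm b t ht, ph_sub b s t hs ht, norm_div, norm_mul, norm_mul, Complex.norm_real,
    Real.norm_of_nonneg (by positivity)]
  have h1 : 0 < ‖1 - conj b * s‖ := norm_pos_iff.2 hs
  have h2 : 0 < ‖1 - conj b * t‖ := norm_pos_iff.2 ht
  generalize ‖1 - conj b * s‖ = u at h1
  generalize ‖1 - conj b * t‖ = v at h2
  have h3 : 0 < 1 + ‖b‖ ^ 2 := by positivity
  have h4 : 0 < 1 + ‖s‖ ^ 2 := by positivity
  have h5 : 0 < 1 + ‖t‖ ^ 2 := by positivity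
  generalize 1 + ‖b‖ ^ 2 = β at h3
  generalize 1 + ‖s‖ ^ 2 = σ at h4
  generalize 1 + ‖t‖ ^ 2 = τ at h5
  field_simp

theorem ph_zero (b : ℂ) : ph b 0 = b := by unfold ph; simp

/-- inverse rotation -/
theorem ph_ph (b x : ℂ) (hx : 1 + conj b * x ≠ 0) :
    1 - conj b * ph (-b) x ≠ 0 ∧ ph b (ph (-b) x) = x := by
  have hb : (1 : ℂ) + conj b * b ≠ 0 := by
    rw [Complex.conj_mul']
    have h1 : (0 : ℝ) < 1 + ‖b‖ ^ 2 := by positivity
    exact_mod_cast h1.ne'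
  have e1 : ph (-b) x = (x - b) / (1 + conj b * x) := by
    unfold ph
    rw [map_neg]
    congr 1
    · ring
    · ring
  have e2 : 1 - conj b * ph (-b) x = (1 + conj b * b) / (1 + conj b * x) := by
    rw [e1, eq_div_iff hx, sub_mul, mul_assoc, div_mul_cancel₀ _ hx]
    ring
  have h0 : 1 - conj b * ph (-b) x ≠ 0 := by
    rw [e2]
    exact div_ne_zero hb hx
  refine ⟨h0, ?_⟩
  have e3 : ph b (ph (-b) x) = (b + ph (-b) x) / (1 - conj b * ph (-b) x) := rfl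
  rw [e3, e2, e1, div_eq_iff (div_ne_zero hb hx), ← mul_div_assoc, eq_div_iff hx, add_mul,
    div_mul_cancel₀ _ hx]
  ring

/-- distance from the centre of the chart -/
theorem sg_ph_zero (b t : ℂ) (ht : 1 - conj b * t ≠ 0) : sg b (ph b t) = ‖t‖ / √(1 + ‖t‖ ^ 2) := by
  have h := sg_ph b 0 t (by simp) ht
  rw [ph_zero, sg_zero_left] at h
  exact h

end Pool.Agent.H85.LD
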