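import Pool.Agent.H85.LD.Ker

/-!
[H85 LD SCHUR]  Pointwise bounds for the Bergman projection in terms of a weight.

`t = √d sg z x`.  `√((1 - sg^2)^d) ≤ exp(-t^2/2)` (`Real.one_sub_le_exp_neg`), `t - t^2/2 ≤ 1 - t^2/4`,
`t exp(-t^2/8) ≤ 2`, `exp 1 ≤ 2.72`; `gauss` with `c = d/8`: `(d+1) ∫ exp(-t^2/8) dmu ≤ 8 (d+1)/d ≤ 16`.
* `schur`: `ker_bound`, integrand `≤ (t/L) w(z) exp(t - t^2/2) ≤ (2 e/L) w(z) exp(-t^2/8)`; total `2 e 16/L ≤ 100/L`.
* `schur_tail_sum`: `ker_bound0`, finite sum under the integral; the integrand vanishes for `sg z x < δ` and is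
  `≤ w(z) e exp(-t^2/4) ≤ w(z) e exp(-d δ^2/8) exp(-t^2/8)` for `sg z x ≥ δ`; total `16 e ≤ 50`.
-/

set_option autoImplicit false

open Polynomial MeasureTheory Real Finset ComplexConjugate

namespace Pool.Agent.H85.LD

private theorem scx_wm0 (d : ℕ) (G : ℂ[X]) (z : ℂ) : 0 ≤ wm d G z := by unfold wm; positivity

private theorem scx_root (d : ℕ) (z x : ℂ) :
    √((1 - sg z x ^ 2) ^ d) ≤ Real.exp (-((√d * sg z x) ^ 2 / 2)) := by
  have h0 : 0 ≤ 1 - sg z x ^ 2 := by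
    have h1 := sg_nonneg z x
    have h2 := sg_le_one z x
    nlinarith
  have h1 : 1 - sg z x ^ 2 ≤ Real.exp (-(sg z x ^ 2)) := Real.one_sub_le_exp_neg _
  rw [Real.sqrt_le_iff]
  refine ⟨(Real.exp_pos _).le, ?_⟩
  calc (1 - sg z x ^ 2) ^ d ≤ Real.exp (-(sg z x ^ 2)) ^ d := pow_le_pow_left₀ h0 h1 d
    _ = Real.exp (-((√d * sg z x) ^ 2 / 2)) ^ 2 := by
        rw [← Real.exp_nat_mul, ← Real.exp_nat_mul]
        congr 1
        rw [mul_pow, Real.sq_sqrt (Nat.cast_nonneg d)]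
        push_cast
        ring

/-- the main pointwise bound -/
private theorem scx_pt (d : ℕ) (w : ℂ → ℝ) (hw0 : ∀ z, 0 < w z)
    (hw : ∀ z x, w x ≤ w z * Real.exp (√d * sg z x)) (G : ℂ[X]) (hGw : ∀ z, wm d G z ≤ w z)
    (z x : ℂ) : wm d G x * √((1 - sg z x ^ 2) ^ d) ≤
      w z * (Real.exp 1 * (Real.exp (-((√d * sg z x) ^ 2 / 8)) *
        Real.exp (-((√d * sg z x) ^ 2 / 8)))) := by
  have h1 : wm d G x ≤ w z * Real.exp (√d * sg z x) := (hGw x).trans (hw z x)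
  have h2 := scx_root d z x
  calc wm d G x * √((1 - sg z x ^ 2) ^ d)
      ≤ (w z * Real.exp (√d * sg z x)) * Real.exp (-((√d * sg z x) ^ 2 / 2)) :=
        mul_le_mul h1 h2 (Real.sqrt_nonneg _) (mul_nonneg (hw0 z).le (Real.exp_pos _).le)
    _ = w z * Real.exp (√d * sg z x - (√d * sg z x) ^ 2 / 2) := by
        rw [mul_assoc, ← Real.exp_add]
        ring_nf
    _ ≤ w z * Real.exp (1 - (√d * sg z x) ^ 2 / 4) := by
        refine mul_le_mul_of_nonneg_left (Real.exp_le_exp.2 ?_) (hw0 z).le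
        nlinarith [sq_nonneg (√d * sg z x / 2 - 1)]
    _ = _ := by
        rw [← Real.exp_add, ← Real.exp_add]
        ring_nf

private theorem scx_gi (d : ℕ) (z : ℂ) :
    Integrable (fun x => Real.exp (-((√d * sg z x) ^ 2 / 8))) mu := by
  have hc : Continuous (fun x : ℂ => Real.exp (-((√d * sg z x) ^ 2 / 8))) := by
    have h1 : Continuous (fun x : ℂ => sg z x) :=
      sg_continuous.comp (by fun_prop : Continuous (fun x : ℂ => (z, x)))
    fun_prop
  refine Integrable.of_bound hc.aestronglyMeasurable 1 (Filter.Eventually.of_forall fun x => ?_)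
  rw [Real.norm_of_nonneg (Real.exp_pos _).le, Real.exp_le_one_iff]
  have := sq_nonneg (√d * sg z x)
  linarith

private theorem scx_gv (d : ℕ) (hd : 1 ≤ d) (z : ℂ) :
    (d + 1) * ∫ x, Real.exp (-((√d * sg z x) ^ 2 / 8)) ∂mu ≤ 16 := by
  have hd' : (1 : ℝ) ≤ d := by exact_mod_cast hd
  have h1 := gauss z (d / 8) (by positivity)
  have h2 : ∀ x, Real.exp (-((√d * sg z x) ^ 2 / 8)) = Real.exp (-(d / 8 * sg z x ^ 2)) := by
    intro x
    rw [mul_pow, Real.sq_sqrt (Nat.cast_nonneg d)]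
    ring_nf
  simp_rw [h2]
  calc ((d : ℝ) + 1) * ∫ x, Real.exp (-(d / 8 * sg z x ^ 2)) ∂mu
      ≤ (d + 1) * (1 / (d / 8)) := mul_le_mul_of_nonneg_left h1 (by positivity)
    _ = 8 * (d + 1) / d := by field_simp
    _ ≤ 16 := by
        rw [div_le_iff₀ (by linarith)]
        linarith

private theorem scx_t (t : ℝ) : t * Real.exp (-(t ^ 2 / 8)) ≤ 2 := by
  have h1 := Real.add_one_le_exp (t ^ 2 / 8)
  have h2 : t ≤ 2 * Real.exp (t ^ 2 / 8) := by nlinarith [sq_nonneg (t / 2 - 1)]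
  rw [Real.exp_neg, ← div_eq_mul_inv, div_le_iff₀ (Real.exp_pos _)]
  exact h2

private theorem scx_e : Real.exp 1 ≤ 2.72 := by
  have := Real.exp_one_lt_d9
  linarith

theorem schur (d : ℕ) (hd : 1 ≤ d) (L : ℝ) (hL : 0 < L) (χ : ℂ → ℝ) (hχ : Measurable χ)
    (h0 : ∀ x, 0 ≤ χ x) (h1 : ∀ x, χ x ≤ 1) (hχL : ∀ z x, |χ x - χ z| ≤ √d / L * sg z x)
    (w : ℂ → ℝ) (hw0 : ∀ z, 0 < w z) (hw : ∀ z x, w x ≤ w z * Real.exp (√d * sg z x))
    (G : ℂ[X]) (hG : G.natDegree ≤ d) (hGw : ∀ z, wm d G z ≤ w z) (z : ℂ) :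
    wm d (Pj d χ G - C ((χ z : ℝ) : ℂ) * G) z ≤ 100 / L * w z := by
  have hb : ∀ x, |χ x| ≤ 1 := fun x => abs_le.2 ⟨by linarith [h0 x], h1 x⟩
  have hk := ker_bound d χ hχ 1 hb G hG z
  have hwz := hw0 z
  have hpt : ∀ x, |χ x - χ z| * wm d G x * √((1 - sg z x ^ 2) ^ d) ≤
      (2 * Real.exp 1 / L * w z) * Real.exp (-((√d * sg z x) ^ 2 / 8)) := by
    intro x
    have a1 := hχL z x
    have a2 := scx_pt d w hw0 hw G hGw z x
    have a3 := scx_t (√d * sg z x)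
    have a4 := sg_nonneg z x
    rw [mul_assoc]
    set t := √d * sg z x with ht
    have ht0 : 0 ≤ t := by positivity
    calc |χ x - χ z| * (wm d G x * √((1 - sg z x ^ 2) ^ d))
        ≤ (t / L) * (w z * (Real.exp 1 * (Real.exp (-(t ^ 2 / 8)) * Real.exp (-(t ^ 2 / 8))))) := by
          refine mul_le_mul ?_ a2 (mul_nonneg (scx_wm0 _ _ _) (Real.sqrt_nonneg _)) (by positivity)
          rw [ht]
          calc |χ x - χ z| ≤ √d / L * sg z x := a1
            _ = _ := by ring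
      _ = (Real.exp 1 / L * w z) * (t * Real.exp (-(t ^ 2 / 8))) * Real.exp (-(t ^ 2 / 8)) := by
          ring
      _ ≤ (Real.exp 1 / L * w z) * 2 * Real.exp (-(t ^ 2 / 8)) := by
          gcongr
      _ = _ := by ring
  calc wm d (Pj d χ G - C ((χ z : ℝ) : ℂ) * G) z
      ≤ (d + 1) * ∫ x, |χ x - χ z| * wm d G x * √((1 - sg z x ^ 2) ^ d) ∂mu := hk
    _ ≤ (d + 1) * ∫ x, (2 * Real.exp 1 / L * w z) * Real.exp (-((√d * sg z x) ^ 2 / 8)) ∂mu := by
        refine mul_le_mul_of_nonneg_left ?_ (by positivity)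
        refine integral_mono_of_nonneg (Filter.Eventually.of_forall fun x => ?_)
          ((scx_gi d z).const_mul _) (Filter.Eventually.of_forall hpt)
        exact mul_nonneg (mul_nonneg (abs_nonneg _) (scx_wm0 _ _ _)) (Real.sqrt_nonneg _)
    _ = (2 * Real.exp 1 / L * w z) * ((d + 1) * ∫ x, Real.exp (-((√d * sg z x) ^ 2 / 8)) ∂mu) := by
        rw [integral_const_mul]
        ring
    _ ≤ (2 * 2.72 / L * w z) * 16 := by
        have := scx_gv d hd z
        have h5 := scx_e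
        have h6 : 0 ≤ ((d : ℝ) + 1) * ∫ x, Real.exp (-((√d * sg z x) ^ 2 / 8)) ∂mu :=
          mul_nonneg (by positivity) (integral_nonneg fun x => (Real.exp_pos _).le)
        gcongr
    _ ≤ 100 / L * w z := by
        have : 0 ≤ w z / L := by positivity
        calc (2 * 2.72 / L * w z) * 16 = 87.04 * (w z / L) := by ring
          _ ≤ 100 * (w z / L) := by nlinarith
          _ = _ := by ring

theorem schur_tail_sum (d : ℕ) (hd : 1 ≤ d) {ι : Type*} (s : Finset ι) (χ : ι → ℂ → ℝ)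
    (hχ : ∀ j ∈ s, Measurable (χ j)) (h0 : ∀ j ∈ s, ∀ x, 0 ≤ χ j x)
    (h1 : ∀ x, ∑ j ∈ s, χ j x ≤ 1) (z : ℂ) (δ : ℝ) (hδ : 0 ≤ δ)
    (hsupp : ∀ j ∈ s, ∀ x, χ j x ≠ 0 → δ ≤ sg z x) (w : ℂ → ℝ) (hw0 : ∀ z, 0 < w z)
    (hw : ∀ z x, w x ≤ w z * Real.exp (√d * sg z x)) (G : ℂ[X]) (hG : G.natDegree ≤ d)
    (hGw : ∀ z, wm d G z ≤ w z) :
    ∑ j ∈ s, wm d (Pj d (χ j) G) z ≤ 50 * Real.exp (-(d * δ ^ 2 / 8)) * w z := by
  have hle : ∀ j ∈ s, ∀ x, χ j x ≤ 1 := fun j hj x =>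
    (Finset.single_le_sum (f := fun j => χ j x) (fun i hi => h0 i hi x) hj).trans (h1 x)
  have hb : ∀ j ∈ s, ∀ x, |χ j x| ≤ 1 := fun j hj x =>
    abs_le.2 ⟨by linarith [h0 j hj x], hle j hj x⟩
  have hwz := hw0 z
  have hcw : Measurable (wm d G) := by
    unfold wm
    refine Measurable.div ?_ ?_
    · exact G.continuous.norm.measurable
    · exact (by fun_prop : Continuous fun z : ℂ => √((1 + ‖z‖ ^ 2) ^ d)).measurable
  have hcs : Continuous (fun x : ℂ => √((1 - sg z x ^ 2) ^ d)) := by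
    have h1 : Continuous (fun x : ℂ => sg z x) :=
      sg_continuous.comp (by fun_prop : Continuous (fun x : ℂ => (z, x)))
    fun_prop
  have hpos : ∀ x, 0 ≤ wm d G x * √((1 - sg z x ^ 2) ^ d) := fun x =>
    mul_nonneg (scx_wm0 _ _ _) (Real.sqrt_nonneg _)
  have hpt0 : ∀ x, wm d G x * √((1 - sg z x ^ 2) ^ d) ≤
      (Real.exp 1 * w z) * Real.exp (-((√d * sg z x) ^ 2 / 8)) := by
    intro x
    refine (scx_pt d w hw0 hw G hGw z x).trans ?_
    have h2 : Real.exp (-((√d * sg z x) ^ 2 / 8)) ≤ 1 := by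
      rw [Real.exp_le_one_iff]
      have := sq_nonneg (√d * sg z x)
      linarith
    calc w z * (Real.exp 1 * (Real.exp (-((√d * sg z x) ^ 2 / 8)) *
        Real.exp (-((√d * sg z x) ^ 2 / 8))))
        ≤ w z * (Real.exp 1 * (Real.exp (-((√d * sg z x) ^ 2 / 8)) * 1)) := by gcongr
      _ = _ := by ring
  have hint : ∀ j ∈ s, Integrable
      (fun x => |χ j x| * wm d G x * √((1 - sg z x ^ 2) ^ d)) mu := by
    intro j hj
    refine Integrable.mono' ((scx_gi d z).const_mul (Real.exp 1 * w z)) ?_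
      (Filter.Eventually.of_forall fun x => ?_)
    · have hm : Measurable (fun x => |χ j x|) := (hχ j hj).norm
      exact ((hm.mul hcw).mul hcs.measurable).aestronglyMeasurable
    · rw [mul_assoc, Real.norm_of_nonneg (mul_nonneg (abs_nonneg _) (hpos x))]
      calc |χ j x| * (wm d G x * √((1 - sg z x ^ 2) ^ d))
          ≤ 1 * (wm d G x * √((1 - sg z x ^ 2) ^ d)) :=
            mul_le_mul_of_nonneg_right (hb j hj x) (hpos x)
        _ ≤ _ := by rw [one_mul]; exact hpt0 x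
  have hpt : ∀ x, ∑ j ∈ s, |χ j x| * wm d G x * √((1 - sg z x ^ 2) ^ d) ≤
      (Real.exp 1 * Real.exp (-(d * δ ^ 2 / 8)) * w z) *
        Real.exp (-((√d * sg z x) ^ 2 / 8)) := by
    intro x
    have e1 : ∑ j ∈ s, |χ j x| * wm d G x * √((1 - sg z x ^ 2) ^ d) =
        (∑ j ∈ s, χ j x) * (wm d G x * √((1 - sg z x ^ 2) ^ d)) := by
      rw [Finset.sum_mul]
      refine Finset.sum_congr rfl fun j hj => ?_
      rw [abs_of_nonneg (h0 j hj x), mul_assoc]
    rw [e1]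
    by_cases hz : ∀ j ∈ s, χ j x = 0
    · rw [Finset.sum_eq_zero hz, zero_mul]
      positivity
    · push Not at hz
      obtain ⟨j, hj, hne⟩ := hz
      have hd1 := hsupp j hj x hne
      have h2 : Real.exp (-((√d * sg z x) ^ 2 / 8)) ≤ Real.exp (-(d * δ ^ 2 / 8)) := by
        rw [Real.exp_le_exp, mul_pow, Real.sq_sqrt (Nat.cast_nonneg d)]
        have : δ ^ 2 ≤ sg z x ^ 2 := pow_le_pow_left₀ hδ hd1 2
        have h3 : (0 : ℝ) ≤ d := Nat.cast_nonneg d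
        nlinarith [mul_le_mul_of_nonneg_left this h3]
      calc (∑ j ∈ s, χ j x) * (wm d G x * √((1 - sg z x ^ 2) ^ d))
          ≤ 1 * (wm d G x * √((1 - sg z x ^ 2) ^ d)) :=
            mul_le_mul_of_nonneg_right (h1 x) (hpos x)
        _ ≤ w z * (Real.exp 1 * (Real.exp (-((√d * sg z x) ^ 2 / 8)) *
              Real.exp (-((√d * sg z x) ^ 2 / 8)))) := by
            rw [one_mul]
            exact scx_pt d w hw0 hw G hGw z x
        _ ≤ w z * (Real.exp 1 * (Real.exp (-(d * δ ^ 2 / 8)) *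
              Real.exp (-((√d * sg z x) ^ 2 / 8)))) := by
            gcongr
        _ = _ := by ring
  calc ∑ j ∈ s, wm d (Pj d (χ j) G) z
      ≤ ∑ j ∈ s, (d + 1) * ∫ x, |χ j x| * wm d G x * √((1 - sg z x ^ 2) ^ d) ∂mu :=
        Finset.sum_le_sum fun j hj => ker_bound0 d (χ j) (hχ j hj) 1 (hb j hj) G hG z
    _ = (d + 1) * ∫ x, ∑ j ∈ s, |χ j x| * wm d G x * √((1 - sg z x ^ 2) ^ d) ∂mu := by
        rw [← Finset.mul_sum, integral_finsetSum s hint]
    _ ≤ (d + 1) * ∫ x, (Real.exp 1 * Real.exp (-(d * δ ^ 2 / 8)) * w z) *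
          Real.exp (-((√d * sg z x) ^ 2 / 8)) ∂mu := by
        refine mul_le_mul_of_nonneg_left ?_ (by positivity)
        refine integral_mono_of_nonneg (Filter.Eventually.of_forall fun x => ?_)
          ((scx_gi d z).const_mul _) (Filter.Eventually.of_forall hpt)
        exact Finset.sum_nonneg fun j hj => by
          rw [mul_assoc]
          exact mul_nonneg (abs_nonneg _) (hpos x)
    _ = (Real.exp 1 * Real.exp (-(d * δ ^ 2 / 8)) * w z) *
          ((d + 1) * ∫ x, Real.exp (-((√d * sg z x) ^ 2 / 8)) ∂mu) := by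
        rw [integral_const_mul]
        ring
    _ ≤ (2.72 * Real.exp (-(d * δ ^ 2 / 8)) * w z) * 16 := by
        have := scx_gv d hd z
        have h5 := scx_e
        have h6 : 0 ≤ ((d : ℝ) + 1) * ∫ x, Real.exp (-((√d * sg z x) ^ 2 / 8)) ∂mu :=
          mul_nonneg (by positivity) (integral_nonneg fun x => (Real.exp_pos _).le)
        gcongr
    _ ≤ 50 * Real.exp (-(d * δ ^ 2 / 8)) * w z := by
        have : 0 ≤ Real.exp (-(d * δ ^ 2 / 8)) * w z := by positivity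
        nlinarith

theorem schur_tail (d : ℕ) (hd : 1 ≤ d) (χ : ℂ → ℝ) (hχ : Measurable χ) (h0 : ∀ x, 0 ≤ χ x)
    (h1 : ∀ x, χ x ≤ 1) (z : ℂ) (δ : ℝ) (hδ : 0 ≤ δ) (hsupp : ∀ x, χ x ≠ 0 → δ ≤ sg z x)
    (w : ℂ → ℝ) (hw0 : ∀ z, 0 < w z) (hw : ∀ z x, w x ≤ w z * Real.exp (√d * sg z x))
    (G : ℂ[X]) (hG : G.natDegree ≤ d) (hGw : ∀ z, wm d G z ≤ w z) :
    wm d (Pj d χ G) z ≤ 50 * Real.exp (-(d * δ ^ 2 / 8)) * w z := by
  have h := schur_tail_sum d hd ({()} : Finset Unit) (fun _ => χ) (fun _ _ => hχ) (fun _ _ => h0)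
    (fun x => by simpa using h1 x) z δ hδ (fun _ _ => hsupp) w hw0 hw G hG hGw
  simpa using h

end Pool.Agent.H85.LD
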