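import Pool.Agent.H85.LD.Sg

/-!
[H85 LD ROT]  Rotation invariance of `mu`, area of discs, Gaussian integral.

Proofs.
* `mu_univ_aux`: `∫⁻ z, ofReal (1/(π (1+‖z‖^2)^2)) = 1`: radial integral (`MeasureTheory.integral_fun_norm_addHaar` or
  polar coordinates): `∫_0^∞ 2 r/(1+r^2)^2 dr = 1` (primitive `-1/(1+r^2)`, `integral_Ioi_of_hasDerivAt_of_tendsto`).
  The same computation gives `mu_ball0`: `mu {t | sg 0 t ≤ r}`, `sg 0 t ≤ r` iff `‖t‖^2 ≤ r^2/(1-r^2)` (`r < 1`), and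
  `∫_0^R 2 ρ/(1+ρ^2)^2 dρ = R^2/(1+R^2) = r^2`.
* `ph_mp`: change of variables `MeasureTheory.lintegral_image_eq_lintegral_abs_det_fderiv_mul` for `ph b` on
  `s = {t | 1 - conj b t ≠ 0}` (complement of at most one point, a null set), injective by `ph_sub`, image
  `{x | 1 + conj b x ≠ 0}` (`ph_ph`), derivative = multiplication by `(1+‖b‖^2)/(1 - conj b t)^2`, real determinant =
  squared modulus (`Complex.det_...` or `LinearMap.det_restrictScalars`), and by `ph_norm`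
  `‖(1+‖b‖^2)/(1 - conj b t)^2‖^2/(1 + ‖ph b t‖^2)^2 = 1/(1+‖t‖^2)^2`.
* `rot_mp`: `t ↦ ζ t`, `‖ζ‖ = 1` preserves `mu` (linear isometry, the density depends on the modulus only).
* `mu_disc`: `ph_mp` and `sg_ph_zero`.
* `gauss`: `∫ exp(-c sg(b,x)^2) dmu = ∫_0^1 exp(-c ρ^2) 2 ρ dρ ≤ 1/c`; e.g. by the layer cake formula
  (`exp(-c σ^2) = ∫_σ^∞ 2 c ρ exp(-c ρ^2) dρ`, Tonelli, `mu{σ ≤ ρ} ≤ ρ^2`), or reduce to `b = 0` with `ph_mp` and integrate
  radially.
-/

set_option autoImplicit false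

open Polynomial MeasureTheory Real Finset ComplexConjugate

namespace Pool.Agent.H85.LD

/-- density of `mu` as a function of the modulus -/
private noncomputable def rtw (r : ℝ) : ℝ := 1 / (π * (1 + r ^ 2) ^ 2)

private theorem rtw_pos (r : ℝ) : 0 < rtw r := by
  unfold rtw
  positivity

private theorem rtw_meas : Measurable (fun z : ℂ => ENNReal.ofReal (1 / (π * (1 + ‖z‖ ^ 2) ^ 2))) := by
  fun_prop

private theorem rot_vol : volume.real (Metric.ball (0 : ℂ) 1) = π := by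
  rw [Measure.real, Complex.volume_ball]
  simp

/-- radial integrals -/
private theorem rot_radial (F : ℝ → ℝ) : ∫ x, F ‖x‖ ∂mu =
    ∫ r in Set.Ioi (0 : ℝ), F r * (2 * r / (1 + r ^ 2) ^ 2) := by
  unfold mu
  rw [integral_withDensity_eq_integral_toReal_smul rtw_meas
    (Filter.Eventually.of_forall (fun _ => ENNReal.ofReal_lt_top))]
  have h1 : (fun x : ℂ => (ENNReal.ofReal (1 / (π * (1 + ‖x‖ ^ 2) ^ 2))).toReal • F ‖x‖) =
      fun x : ℂ => (fun r : ℝ => rtw r * F r) ‖x‖ := by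
    funext x
    rw [ENNReal.toReal_ofReal (by positivity), smul_eq_mul]
    rfl
  rw [h1, integral_fun_norm_addHaar volume (fun r : ℝ => rtw r * F r), rot_vol,
    Complex.finrank_real_complex, nsmul_eq_mul, smul_eq_mul, ← integral_const_mul,
    ← integral_const_mul]
  refine setIntegral_congr_fun measurableSet_Ioi (fun r _ => ?_)
  simp only [smul_eq_mul]
  unfold rtw
  have h2 : (1 + r ^ 2) ≠ 0 := by positivity
  have h3 : π ≠ 0 := Real.pi_ne_zero
  push_cast
  field_simp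

private theorem rot_deriv (r : ℝ) :
    HasDerivAt (fun r : ℝ => r ^ 2 / (1 + r ^ 2)) (2 * r / (1 + r ^ 2) ^ 2) r := by
  have h0 : (1 + r ^ 2) ≠ 0 := by positivity
  have h1 : HasDerivAt (fun r : ℝ => r ^ 2) (2 * r) r := by
    have h2 := hasDerivAt_pow 2 r
    have h3 : ((2 : ℕ) : ℝ) * r ^ (2 - 1) = 2 * r := by norm_num
    rw [h3] at h2
    exact h2
  have h2 := h1.div (h1.const_add 1) h0
  have h3 : (2 * r * (1 + r ^ 2) - r ^ 2 * (2 * r)) / (1 + r ^ 2) ^ 2 = 2 * r / (1 + r ^ 2) ^ 2 := by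
    congr 1
    ring
  rw [h3] at h2
  exact h2

private theorem rot_lim : Filter.Tendsto (fun r : ℝ => r ^ 2 / (1 + r ^ 2)) Filter.atTop (nhds 1) := by
  have h1 : (fun r : ℝ => r ^ 2 / (1 + r ^ 2)) = fun r : ℝ => 1 - 1 / (1 + r ^ 2) := by
    funext r
    have h0 : (1 + r ^ 2) ≠ 0 := by positivity
    field_simp
    ring
  rw [h1]
  have h2 : Filter.Tendsto (fun r : ℝ => 1 + r ^ 2) Filter.atTop Filter.atTop :=
    Filter.tendsto_atTop_add_const_left _ _ (Filter.tendsto_pow_atTop two_ne_zero)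
  have h3 : Filter.Tendsto (fun r : ℝ => 1 / (1 + r ^ 2)) Filter.atTop (nhds 0) := by
    simp only [one_div]
    exact h2.inv_tendsto_atTop
  have h4 := (tendsto_const_nhds (x := (1 : ℝ))).sub h3
  rw [sub_zero] at h4
  exact h4

theorem mu_univ_aux : mu Set.univ = 1 := by
  unfold mu
  rw [withDensity_apply _ MeasurableSet.univ, setLIntegral_univ]
  have hint : Integrable (fun z : ℂ => 1 / (π * (1 + ‖z‖ ^ 2) ^ 2)) volume := by
    have h1 := (integrable_fun_norm_addHaar (volume : Measure ℂ) (f := rtw)).2 (by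
      have h2 : IntegrableOn (fun r : ℝ => 2 * r / (1 + r ^ 2) ^ 2) (Set.Ioi 0) :=
        integrableOn_Ioi_deriv_of_nonneg' (fun r _ => rot_deriv r)
          (fun r hr => by
            have hr' : 0 < r := hr
            positivity) rot_lim
      have h3 : IntegrableOn (fun r : ℝ => 1 / (2 * π) * (2 * r / (1 + r ^ 2) ^ 2)) (Set.Ioi 0) :=
        Integrable.const_mul h2 (1 / (2 * π))
      refine IntegrableOn.congr_fun h3 (fun r _ => ?_) measurableSet_Ioi
      simp only [smul_eq_mul]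
      unfold rtw
      rw [Complex.finrank_real_complex]
      have h4 : (1 + r ^ 2) ≠ 0 := by positivity
      have h5 : π ≠ 0 := Real.pi_ne_zero
      have h6 : r ^ (2 - 1) = r := pow_one r
      rw [h6]
      field_simp)
    exact h1
  rw [← ofReal_integral_eq_lintegral_ofReal hint (Filter.Eventually.of_forall (fun z => by positivity))]
  have h1 : ∫ z : ℂ, 1 / (π * (1 + ‖z‖ ^ 2) ^ 2) = ∫ _z : ℂ, (1 : ℝ) ∂mu := by
    unfold mu
    rw [integral_withDensity_eq_integral_toReal_smul rtw_meas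
      (Filter.Eventually.of_forall (fun _ => ENNReal.ofReal_lt_top))]
    refine integral_congr_ae (Filter.Eventually.of_forall (fun z => ?_))
    simp only [smul_eq_mul, mul_one]
    rw [ENNReal.toReal_ofReal (by positivity)]
  rw [h1, rot_radial (fun _ => 1)]
  have h2 : ∫ r in Set.Ioi (0 : ℝ), (1 : ℝ) * (2 * r / (1 + r ^ 2) ^ 2) = 1 - 0 ^ 2 / (1 + 0 ^ 2) := by
    simp only [one_mul]
    exact integral_Ioi_of_hasDerivAt_of_nonneg' (fun r _ => rot_deriv r)
      (fun r hr => by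
        have hr' : 0 < r := hr
        positivity) rot_lim
  rw [h2]
  norm_num

instance mu_prob : IsProbabilityMeasure mu := ⟨mu_univ_aux⟩

theorem mu_null {s : Set ℂ} (hs : volume s = 0) : mu s = 0 := by
  exact withDensity_absolutelyContinuous _ _ hs

theorem rot_mp (ζ : ℂ) (hζ : ‖ζ‖ = 1) : MeasurePreserving (fun t : ℂ => ζ * t) mu mu := by
  have hζ0 : ζ ≠ 0 := by
    intro h
    rw [h, norm_zero] at hζ
    exact zero_ne_one hζ
  have hmeas : Measurable (fun t : ℂ => ζ * t) := measurable_const_mul ζ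
  have hvol : MeasurePreserving (fun t : ℂ => ζ * t) volume volume := by
    have hm : ζ ∈ Submonoid.unitSphere ℂ := mem_sphere_zero_iff_norm.2 hζ
    have h1 := (rotation (⟨ζ, hm⟩ : Circle)).measurePreserving
    have h2 : (⇑(rotation (⟨ζ, hm⟩ : Circle)) : ℂ → ℂ) = fun t : ℂ => ζ * t := by
      funext t
      rw [rotation_apply]
    rw [h2] at h1
    exact h1
  refine ⟨hmeas, ?_⟩
  ext A hA
  rw [Measure.map_apply hmeas hA]
  unfold mu
  rw [withDensity_apply _ (hmeas hA), withDensity_apply _ hA,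
    ← hvol.setLIntegral_comp_preimage hA rtw_meas]
  refine lintegral_congr (fun t => ?_)
  rw [norm_mul, hζ, one_mul]

theorem ph_mp (b : ℂ) : MeasurePreserving (ph b) mu mu := by
  classical
  have hmeas : Measurable (ph b) := by
    unfold ph
    fun_prop
  refine ⟨hmeas, ?_⟩
  ext A hA
  rw [Measure.map_apply hmeas hA]
  set s : Set ℂ := {t | 1 - conj b * t ≠ 0} with hs
  have hsm : MeasurableSet s := by
    have h1 : IsOpen s := isOpen_ne_fun (by fun_prop) continuous_const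
    exact h1.measurableSet
  have hnull : ∀ u : ℂ, volume {t : ℂ | 1 - u * t ≠ 0}ᶜ = 0 := by
    intro u
    apply Set.Subsingleton.measure_zero
    intro x hx y hy
    have hx' : 1 - u * x = 0 := by
      by_contra h
      exact hx h
    have hy' : 1 - u * y = 0 := by
      by_contra h
      exact hy h
    have hu : u ≠ 0 := by
      intro h
      rw [h, zero_mul, sub_zero] at hx'
      exact one_ne_zero hx'
    have h1 : u * x = u * y := by
      have h2 : u * x = 1 := (sub_eq_zero.mp hx').symm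
      have h3 : u * y = 1 := (sub_eq_zero.mp hy').symm
      rw [h2, h3]
    exact mul_left_cancel₀ hu h1
  have hsc : volume sᶜ = 0 := hnull (conj b)
  have himc : volume (ph b '' s)ᶜ = 0 := by
    refine measure_mono_null ?_ (hnull (-conj b))
    intro x hx hx'
    have hx'' : 1 - -conj b * x ≠ 0 := hx'
    apply hx
    have h1 : 1 + conj b * x ≠ 0 := by
      intro h
      apply hx''
      rw [neg_mul, sub_neg_eq_add]
      exact h
    obtain ⟨h2, h3⟩ := ph_ph b x h1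
    exact ⟨ph (-b) x, h2, h3⟩
  have hb0 : ((1 + ‖b‖ ^ 2 : ℝ) : ℂ) ≠ 0 := by
    have h1 : (1 + ‖b‖ ^ 2 : ℝ) ≠ 0 := by positivity
    exact_mod_cast h1
  have hinj : Set.InjOn (ph b) s := by
    intro x hx y hy hxy
    have h1 := ph_sub b x y hx hy
    rw [hxy, sub_self] at h1
    have h2 := h1.symm
    rw [div_eq_zero_iff] at h2
    rcases h2 with h2 | h2
    · rcases mul_eq_zero.mp h2 with h3 | h3
      · exact sub_eq_zero.mp h3
      · exact absurd h3 hb0
    · rcases mul_eq_zero.mp h2 with h3 | h3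
      · exact absurd h3 hx
      · exact absurd h3 hy
  obtain ⟨dd, hdd⟩ : ∃ dd : ℂ → ℂ, ∀ t, dd t = ((1 + ‖b‖ ^ 2 : ℝ) : ℂ) / (1 - conj b * t) ^ 2 :=
    ⟨fun t => ((1 + ‖b‖ ^ 2 : ℝ) : ℂ) / (1 - conj b * t) ^ 2, fun _ => rfl⟩
  have hbb : b * conj b = ((‖b‖ ^ 2 : ℝ) : ℂ) := by
    rw [Complex.mul_conj, Complex.normSq_eq_norm_sq]
  have hder : ∀ t ∈ s, HasDerivAt (ph b) (dd t) t := by
    intro t ht
    have h1 : HasDerivAt (fun t : ℂ => b + t) 1 t := (hasDerivAt_id t).const_add b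
    have h2 : HasDerivAt (fun t : ℂ => 1 - conj b * t) (-(conj b * 1)) t :=
      ((hasDerivAt_id t).const_mul (conj b)).const_sub 1
    have h3 := h1.div h2 ht
    have h4 : (1 * (1 - conj b * t) - (b + t) * -(conj b * 1)) / (1 - conj b * t) ^ 2 = dd t := by
      rw [hdd]
      congr 1
      have h5 : (1 * (1 - conj b * t) - (b + t) * -(conj b * 1)) = 1 + b * conj b := by ring
      rw [h5, hbb]
      push_cast
      rfl
    rw [h4] at h3
    exact h3
  have hder' : ∀ t ∈ s, HasFDerivWithinAt (ph b) (dd t • (1 : ℂ →L[ℝ] ℂ)) s t :=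
    fun t ht => (hder t ht).complexToReal_fderiv.hasFDerivWithinAt
  have hdet : ∀ z : ℂ, (z • (1 : ℂ →L[ℝ] ℂ)).det = ‖z‖ ^ 2 := by
    intro z
    have h1 : ((z • (1 : ℂ →L[ℝ] ℂ) : ℂ →L[ℝ] ℂ) : ℂ →ₗ[ℝ] ℂ) = Algebra.lmul ℝ ℂ z := by
      ext <;> simp
    rw [ContinuousLinearMap.det, h1, ← Algebra.norm_apply, Algebra.norm_complex_apply,
      Complex.normSq_eq_norm_sq]
  obtain ⟨w, hw⟩ : ∃ w : ℂ → ENNReal, w = fun z => ENNReal.ofReal (1 / (π * (1 + ‖z‖ ^ 2) ^ 2)) :=
    ⟨_, rfl⟩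
  have hmuA : ∀ A : Set ℂ, MeasurableSet A → mu A = ∫⁻ z, A.indicator w z := by
    intro A hA
    unfold mu
    rw [withDensity_apply _ hA, lintegral_indicator hA, hw]
  have hres : ∀ (u : Set ℂ) (f : ℂ → ENNReal), volume uᶜ = 0 → ∫⁻ z, f z = ∫⁻ z in u, f z := by
    intro u f hu
    have h1 : (volume : Measure ℂ).restrict u = volume := by
      apply Measure.restrict_eq_self_of_ae_mem
      rw [ae_iff]
      exact hu
    rw [h1]
  rw [hmuA _ (hmeas hA), hmuA _ hA, hres (ph b '' s) (A.indicator w) himc,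
    hres s ((ph b ⁻¹' A).indicator w) hsc,
    lintegral_image_eq_lintegral_abs_det_fderiv_mul volume hsm hder' hinj]
  refine setLIntegral_congr_fun hsm (fun t ht => ?_)
  rw [hdet]
  by_cases hA' : ph b t ∈ A
  · rw [Set.indicator_of_mem hA', Set.indicator_of_mem (show t ∈ ph b ⁻¹' A from hA'), hw]
    show ENNReal.ofReal (1 / (π * (1 + ‖t‖ ^ 2) ^ 2)) =
      ENNReal.ofReal |‖dd t‖ ^ 2| * ENNReal.ofReal (1 / (π * (1 + ‖ph b t‖ ^ 2) ^ 2))
    rw [← ENNReal.ofReal_mul (abs_nonneg _)]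
    congr 1
    have ht' : 1 - conj b * t ≠ 0 := ht
    have hn : ‖1 - conj b * t‖ ≠ 0 := norm_ne_zero_iff.mpr ht'
    rw [abs_of_nonneg (by positivity), ph_norm b t ht', hdd, norm_div, norm_pow, Complex.norm_real,
      Real.norm_eq_abs, abs_of_nonneg (by positivity : (0 : ℝ) ≤ 1 + ‖b‖ ^ 2)]
    have h1 : (1 + ‖b‖ ^ 2) ≠ 0 := by positivity
    have h2 : (1 + ‖t‖ ^ 2) ≠ 0 := by positivity
    have h3 : π ≠ 0 := Real.pi_ne_zero
    field_simp
  · rw [Set.indicator_of_notMem hA', Set.indicator_of_notMem (show t ∉ ph b ⁻¹' A from hA'),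
      mul_zero]

/-- integral over a disc in the flat metric against `mu` -/
theorem mu_lower (r : ℝ) (hr : 0 ≤ r) (hr1 : r ≤ 1) (F : ℂ → ENNReal) (hF : Measurable F) :
    ∫⁻ t in Metric.closedBall (0 : ℂ) r, F t ≤
      ENNReal.ofReal (4 * π) * ∫⁻ t in Metric.closedBall (0 : ℂ) r, F t ∂mu := by
  have hcb : MeasurableSet (Metric.closedBall (0 : ℂ) r) := Metric.isClosed_closedBall.measurableSet
  unfold mu
  rw [setLIntegral_withDensity_eq_setLIntegral_mul _ rtw_meas hF hcb,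
    ← lintegral_const_mul _ (rtw_meas.mul hF)]
  refine setLIntegral_mono (measurable_const.mul (rtw_meas.mul hF)) (fun t ht => ?_)
  have ht' : ‖t‖ ≤ 1 := by
    rw [Metric.mem_closedBall, dist_zero_right] at ht
    exact ht.trans hr1
  rw [Pi.mul_apply, ← mul_assoc, ← ENNReal.ofReal_mul (by positivity)]
  have h1 : 1 ≤ ENNReal.ofReal (4 * π * (1 / (π * (1 + ‖t‖ ^ 2) ^ 2))) := by
    rw [← ENNReal.ofReal_one]
    apply ENNReal.ofReal_le_ofReal
    have h2 : 4 * π * (1 / (π * (1 + ‖t‖ ^ 2) ^ 2)) = 4 / (1 + ‖t‖ ^ 2) ^ 2 := by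
      have h3 : π ≠ 0 := Real.pi_ne_zero
      field_simp
    rw [h2, le_div_iff₀ (by positivity), one_mul]
    have h4 : ‖t‖ ^ 2 ≤ 1 := pow_le_one₀ (norm_nonneg t) ht'
    have h5 : (1 + ‖t‖ ^ 2) ^ 2 ≤ 2 ^ 2 := pow_le_pow_left₀ (by positivity) (by linarith) 2
    linarith
  calc F t = 1 * F t := (one_mul _).symm
    _ ≤ _ := mul_le_mul_left h1 (F t)

theorem mu_disc (b : ℂ) (r : ℝ) (hr : 0 ≤ r) (hr1 : r ≤ 1) :
    mu {x | sg b x ≤ r} = ENNReal.ofReal (r ^ 2) := by
  have hmeasS : MeasurableSet {x | sg b x ≤ r} := by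
    have h1 : IsClosed {x | sg b x ≤ r} :=
      isClosed_le (sg_continuous.comp (Continuous.prodMk_right b)) continuous_const
    exact h1.measurableSet
  rw [← (ph_mp b).measure_preimage hmeasS.nullMeasurableSet]
  have hae : ∀ᵐ t ∂mu, 1 - conj b * t ≠ 0 := by
    rw [ae_iff]
    apply mu_null
    apply Set.Subsingleton.measure_zero
    intro x hx y hy
    have hx' : 1 - conj b * x = 0 := by
      by_contra h
      exact hx h
    have hy' : 1 - conj b * y = 0 := by
      by_contra h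
      exact hy h
    have hu : conj b ≠ 0 := by
      intro h
      rw [h, zero_mul, sub_zero] at hx'
      exact one_ne_zero hx'
    have h1 : conj b * x = conj b * y := by
      have h2 : conj b * x = 1 := (sub_eq_zero.mp hx').symm
      have h3 : conj b * y = 1 := (sub_eq_zero.mp hy').symm
      rw [h2, h3]
    exact mul_left_cancel₀ hu h1
  have h1 : mu (ph b ⁻¹' {x | sg b x ≤ r}) = mu {t : ℂ | ‖t‖ / √(1 + ‖t‖ ^ 2) ≤ r} := by
    apply measure_congr
    filter_upwards [hae] with t ht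
    apply propext
    show sg b (ph b t) ≤ r ↔ ‖t‖ / √(1 + ‖t‖ ^ 2) ≤ r
    rw [sg_ph_zero b t ht]
  rw [h1]
  rcases hr1.lt_or_eq with hr1 | hr1
  · have hr2 : 0 < 1 - r ^ 2 := by nlinarith
    obtain ⟨R, hR⟩ : ∃ R : ℝ, R = r / √(1 - r ^ 2) := ⟨_, rfl⟩
    have hR0 : 0 ≤ R := by rw [hR]; positivity
    have hR2 : R ^ 2 = r ^ 2 / (1 - r ^ 2) := by
      rw [hR, div_pow, Real.sq_sqrt hr2.le]
    have hset : {t : ℂ | ‖t‖ / √(1 + ‖t‖ ^ 2) ≤ r} = {t : ℂ | ‖t‖ ≤ R} := by
      ext t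
      show ‖t‖ / √(1 + ‖t‖ ^ 2) ≤ r ↔ ‖t‖ ≤ R
      have h2 : 0 < √(1 + ‖t‖ ^ 2) := Real.sqrt_pos.mpr (by positivity)
      have h3 : 0 ≤ ‖t‖ := norm_nonneg t
      rw [← abs_of_nonneg (by positivity : 0 ≤ ‖t‖ / √(1 + ‖t‖ ^ 2)), ← abs_of_nonneg hr,
        ← sq_le_sq, div_pow, Real.sq_sqrt (by positivity), div_le_iff₀ (by positivity)]
      rw [← sq_le_sq₀ h3 hR0, hR2, le_div_iff₀ hr2]
      constructor <;> intro h <;> nlinarith
    rw [hset]
    have hms : MeasurableSet {t : ℂ | ‖t‖ ≤ R} := (isClosed_le continuous_norm continuous_const).measurableSet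
    have h4 : ∫ x, (Set.Iic R).indicator (fun _ => (1 : ℝ)) ‖x‖ ∂mu = mu.real {t : ℂ | ‖t‖ ≤ R} := by
      have h5 : (fun x : ℂ => (Set.Iic R).indicator (fun _ => (1 : ℝ)) ‖x‖) =
          {t : ℂ | ‖t‖ ≤ R}.indicator (fun _ => (1 : ℝ)) := by
        funext x
        rfl
      rw [h5, integral_indicator hms]
      simp
    rw [rot_radial] at h4
    have h5 : ∫ ρ in Set.Ioi (0 : ℝ), (Set.Iic R).indicator (fun _ => (1 : ℝ)) ρ *
        (2 * ρ / (1 + ρ ^ 2) ^ 2) = ∫ ρ in (0 : ℝ)..R, 2 * ρ / (1 + ρ ^ 2) ^ 2 := by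
      rw [intervalIntegral.integral_of_le hR0]
      have h6 : (fun ρ : ℝ => (Set.Iic R).indicator (fun _ => (1 : ℝ)) ρ *
        (2 * ρ / (1 + ρ ^ 2) ^ 2)) = (Set.Iic R).indicator (fun ρ : ℝ => 2 * ρ / (1 + ρ ^ 2) ^ 2) := by
        funext ρ
        by_cases h7 : ρ ∈ Set.Iic R
        · rw [Set.indicator_of_mem h7, Set.indicator_of_mem h7, one_mul]
        · rw [Set.indicator_of_notMem h7, Set.indicator_of_notMem h7, zero_mul]
      rw [h6, setIntegral_indicator measurableSet_Iic, Set.Ioi_inter_Iic]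
    have h6 : ∫ ρ in (0 : ℝ)..R, 2 * ρ / (1 + ρ ^ 2) ^ 2 = R ^ 2 / (1 + R ^ 2) - 0 ^ 2 / (1 + 0 ^ 2) := by
      apply intervalIntegral.integral_eq_sub_of_hasDerivAt (fun ρ _ => rot_deriv ρ)
      apply Continuous.intervalIntegrable
      refine Continuous.div (by fun_prop) (by fun_prop) (fun x => by positivity)
    rw [h5, h6] at h4
    have h7 : R ^ 2 / (1 + R ^ 2) - 0 ^ 2 / (1 + 0 ^ 2) = r ^ 2 := by
      rw [hR2]
      field_simp
      ring
    rw [h7] at h4
    rw [h4, Measure.real, ENNReal.ofReal_toReal (measure_ne_top _ _)]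
  · have hset : {t : ℂ | ‖t‖ / √(1 + ‖t‖ ^ 2) ≤ r} = Set.univ := by
      rw [Set.eq_univ_iff_forall]
      intro t
      show ‖t‖ / √(1 + ‖t‖ ^ 2) ≤ r
      rw [hr1, div_le_one (Real.sqrt_pos.mpr (by positivity))]
      apply Real.le_sqrt_of_sq_le
      linarith
    rw [hset, mu_univ_aux, hr1]
    norm_num

theorem gauss (b : ℂ) (c : ℝ) (hc : 0 < c) : ∫ x, Real.exp (-(c * sg b x ^ 2)) ∂mu ≤ 1 / c := by
  have hae : ∀ᵐ t ∂mu, 1 - conj b * t ≠ 0 := by
    rw [ae_iff]
    apply mu_null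
    apply Set.Subsingleton.measure_zero
    intro x hx y hy
    have hx' : 1 - conj b * x = 0 := by
      by_contra h
      exact hx h
    have hy' : 1 - conj b * y = 0 := by
      by_contra h
      exact hy h
    have hu : conj b ≠ 0 := by
      intro h
      rw [h, zero_mul, sub_zero] at hx'
      exact one_ne_zero hx'
    have h1 : conj b * x = conj b * y := by
      have h2 : conj b * x = 1 := (sub_eq_zero.mp hx').symm
      have h3 : conj b * y = 1 := (sub_eq_zero.mp hy').symm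
      rw [h2, h3]
    exact mul_left_cancel₀ hu h1
  have hcont : Continuous (fun x : ℂ => Real.exp (-(c * sg b x ^ 2))) := by
    have h1 : Continuous (fun x : ℂ => sg b x) := sg_continuous.comp (Continuous.prodMk_right b)
    fun_prop
  have h1 : ∫ x, Real.exp (-(c * sg b x ^ 2)) ∂mu =
      ∫ t, (fun r : ℝ => Real.exp (-(c * (r ^ 2 / (1 + r ^ 2))))) ‖t‖ ∂mu := by
    conv_lhs => rw [← (ph_mp b).map_eq]
    rw [integral_map (ph_mp b).measurable.aemeasurable hcont.aestronglyMeasurable]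
    refine integral_congr_ae ?_
    filter_upwards [hae] with t ht
    show Real.exp (-(c * sg b (ph b t) ^ 2)) = Real.exp (-(c * (‖t‖ ^ 2 / (1 + ‖t‖ ^ 2))))
    rw [sg_ph_zero b t ht, div_pow, Real.sq_sqrt (by positivity)]
  rw [h1, rot_radial (fun r : ℝ => Real.exp (-(c * (r ^ 2 / (1 + r ^ 2)))))]
  have hder : ∀ r : ℝ, HasDerivAt (fun r : ℝ => -(1 / c) * Real.exp (-(c * (r ^ 2 / (1 + r ^ 2)))))
      (Real.exp (-(c * (r ^ 2 / (1 + r ^ 2)))) * (2 * r / (1 + r ^ 2) ^ 2)) r := by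
    intro r
    have h2 := (((rot_deriv r).const_mul c).neg.exp).const_mul (-(1 / c))
    have h3 : -(1 / c) * (Real.exp (-(c * (r ^ 2 / (1 + r ^ 2)))) * -(c * (2 * r / (1 + r ^ 2) ^ 2))) =
        Real.exp (-(c * (r ^ 2 / (1 + r ^ 2)))) * (2 * r / (1 + r ^ 2) ^ 2) := by
      field_simp
    rw [← h3]
    exact h2
  have hlim : Filter.Tendsto (fun r : ℝ => -(1 / c) * Real.exp (-(c * (r ^ 2 / (1 + r ^ 2)))))
      Filter.atTop (nhds (-(1 / c) * Real.exp (-(c * 1)))) := by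
    exact ((Real.continuous_exp.tendsto _).comp ((rot_lim.const_mul c).neg)).const_mul _
  have h2 := integral_Ioi_of_hasDerivAt_of_nonneg' (a := (0 : ℝ)) (fun r _ => hder r)
    (fun r hr => by
      have hr' : 0 < r := hr
      positivity) hlim
  rw [h2]
  have h3 : 0 < Real.exp (-(c * 1)) := Real.exp_pos _
  have h4 : 0 < 1 / c := by positivity
  have h5 : -(1 / c) * Real.exp (-(c * ((0 : ℝ) ^ 2 / (1 + 0 ^ 2)))) = -(1 / c) := by
    norm_num
  rw [h5]
  nlinarith

end Pool.Agent.H85.LD
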