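import Mathlib

/-!
MP_8f2e1c_an, theorem LargeDegree (proposal 34): definitions of the spherical geometry and of the Bergman projection.

`sg` is half the chordal distance, `mu` the rotation invariant probability measure on the sphere, `wm d G z` the
weighted modulus of a polynomial `G` of degree at most `d` (a section of `O(d)`), `Nd` the squared Bombieri-Weyl norm,
`Pj d χ G` the Bergman projection of `χ G`, `ph b` the rotation of the sphere that maps `0` to `b`, and `Gc d b G` the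
polynomial `G` in the chart `ph b`: `Gc d b G t = (1 + |b|^2)^(-d/2) (1 - conj b t)^d G (ph b t)`.
-/

set_option autoImplicit false

open Polynomial MeasureTheory Real Finset ComplexConjugate

namespace Pool.Agent.H85.LD

/-- half the chordal distance of the sphere, values in `[0,1]` -/
noncomputable def sg (z x : ℂ) : ℝ := ‖z - x‖ / √((1 + ‖z‖ ^ 2) * (1 + ‖x‖ ^ 2))

/-- the rotation invariant probability measure of the sphere in the chart `ℂ` -/
noncomputable def mu : Measure ℂ :=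
  volume.withDensity (fun z => ENNReal.ofReal (1 / (π * (1 + ‖z‖ ^ 2) ^ 2)))

/-- weighted modulus of a polynomial of degree at most `d` -/
noncomputable def wm (d : ℕ) (G : ℂ[X]) (z : ℂ) : ℝ := ‖G.eval z‖ / √((1 + ‖z‖ ^ 2) ^ d)

/-- squared Bombieri-Weyl norm (degree at most `d`) -/
noncomputable def Nd (d : ℕ) (G : ℂ[X]) : ℝ :=
  ∑ k ∈ range (d + 1), ‖G.coeff k‖ ^ 2 / (d.choose k : ℝ)

/-- Bergman projection of `χ G` -/
noncomputable def Pj (d : ℕ) (χ : ℂ → ℝ) (G : ℂ[X]) : ℂ[X] :=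
  ∑ k ∈ range (d + 1), C (((d + 1) * d.choose k : ℕ) *
    ∫ x, ((χ x / (1 + ‖x‖ ^ 2) ^ d : ℝ) : ℂ) * (G.eval x * (conj x) ^ k) ∂mu) * X ^ k

/-- the rotation `t ↦ (b + t) / (1 - conj b t)` -/
noncomputable def ph (b t : ℂ) : ℂ := (b + t) / (1 - conj b * t)

/-- the polynomial in the chart at `b`: `(1 + |b|^2)^(-d/2) ∑ a_k (b + t)^k (1 - conj b t)^(d-k)` -/
noncomputable def Gc (d : ℕ) (b : ℂ) (G : ℂ[X]) : ℂ[X] :=
  C ((1 / √((1 + ‖b‖ ^ 2) ^ d) : ℝ) : ℂ) *
    ∑ k ∈ range (d + 1), C (G.coeff k) * (C b + X) ^ k * (1 - C (conj b) * X) ^ (d - k)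

end Pool.Agent.H85.LD
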