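import Pool.Agent.H85.LD.Box

/-!
[H85 LD LOC]  Probabilities of the local failures (one chart, one point).

A letter is a pair of triples of Gaussian integers; the triple `x` stands for the polynomial
`c0 x + c1 x s + c2 x s^2`.  All statements count letters in `tri N K ×ˢ tri N K`.

Proofs.
* `card_fib`: `#F = ∑_{y ∈ T} #{x ∈ F | φ x = y}` (`Finset.card_eq_sum_card_fiberwise`).
* `loc1`: fibres of `x ↦ (x.1.2, x.2.2)`: in a fibre `c0 x.1` and `c0 x.2` lie in discs of radius `r`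
  (`disc_count` with `η = e / (N K^2)`), so the fibre has at most `(2 r N K^2 / e + 1)^4` elements, and
  `(2 r M / e + 1) ≤ (2 r / e) (2 M + 1)` for `M = N K^2` as `e ≤ 2 r M`.
* `loc2`: fibres of `x ↦ (x.1, x.2.2.2)`: `c1 x.2` lies in a disc of radius `r2`, and for fixed `c1 x.2` `c0 x.2` in a
  disc of radius `r1`.
* `loc3`: `s = gz z / K`, `z ∈ box K`.  The map of triples `(m0,m1,m2) ↦ (m0 + m1 z + m2 z^2, m1 + 2 m2 z, m2)` is injective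
  with values in `box (7 N K^2) × box (5 N K) × box N` (`box_gmul`, `box_add`), and
  `J0 = (e/(N K^2)) gz A0`, `J1 = (e/(N K)) gz A1`, `J2 = 2 (e/N) gz A2`.  So it is enough to count the
  `(A0,A1,A2,B0,B1,B2)` with `r0 ≤ ‖P0‖ + ‖Q0‖`, `‖P1 Q0 - P0 Q1‖ ≤ r3`, `‖P2 Q0 - P0 Q2‖ ≤ r4`, `P0 = p0 + (e/(N K^2)) gz A0`, ...
  If `‖Q0‖ ≥ r0/2`: for fixed `A0,B0,B1,B2` `A1` lies in a disc of radius `2 r3/r0` and `A2` in a disc of radius `r4/r0`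
  (for `(e/N) gz A2`); symmetric if `‖P0‖ ≥ r0/2`.  Total
  `2 #box(7 N K^2)^2 #box(5 N K) #box(N) (4 r3 N K/(r0 e) + 1)^2 (2 r4 N/(r0 e) + 1)^2`, with `box_mul`.
-/

set_option autoImplicit false

open Finset

namespace Pool.Agent.H85.LD

/-- triples of coefficients -/
noncomputable def tri (N K : ℕ) : Finset ((ℤ × ℤ) × (ℤ × ℤ) × (ℤ × ℤ)) :=
  box (N * K ^ 2) ×ˢ box (N * K) ×ˢ box N

/-- letters -/
abbrev Al (N K : ℕ) : Type := ↥(tri N K ×ˢ tri N K)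

noncomputable def c0 (e : ℝ) (N K : ℕ) (x : (ℤ × ℤ) × (ℤ × ℤ) × (ℤ × ℤ)) : ℂ :=
  ((e / (N * K ^ 2 : ℕ) : ℝ) : ℂ) * gz x.1

noncomputable def c1 (e : ℝ) (N K : ℕ) (x : (ℤ × ℤ) × (ℤ × ℤ) × (ℤ × ℤ)) : ℂ :=
  ((e / (N * K : ℕ) : ℝ) : ℂ) * gz x.2.1

noncomputable def c2 (e : ℝ) (N : ℕ) (x : (ℤ × ℤ) × (ℤ × ℤ) × (ℤ × ℤ)) : ℂ :=
  ((e / (N : ℕ) : ℝ) : ℂ) * gz x.2.2

/-- value of the local noise -/
noncomputable def J0 (e : ℝ) (N K : ℕ) (x : (ℤ × ℤ) × (ℤ × ℤ) × (ℤ × ℤ)) (s : ℂ) : ℂ :=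
  c0 e N K x + c1 e N K x * s + c2 e N x * s ^ 2

/-- derivative of the local noise -/
noncomputable def J1 (e : ℝ) (N K : ℕ) (x : (ℤ × ℤ) × (ℤ × ℤ) × (ℤ × ℤ)) (s : ℂ) : ℂ :=
  c1 e N K x + 2 * c2 e N x * s

/-- second derivative of the local noise -/
noncomputable def J2 (e : ℝ) (N : ℕ) (x : (ℤ × ℤ) × (ℤ × ℤ) × (ℤ × ℤ)) : ℂ := 2 * c2 e N x

theorem card_fib {α β : Type*} [DecidableEq β] (F : Finset α) (φ : α → β) (T : Finset β)
    (hφ : ∀ x ∈ F, φ x ∈ T) (c : ℝ) (hc : ∀ y ∈ T, ((F.filter (fun x => φ x = y)).card : ℝ) ≤ c) :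
    (F.card : ℝ) ≤ T.card * c := by
  rw [Finset.card_eq_sum_card_fiberwise hφ]
  push_cast
  refine (Finset.sum_le_sum hc).trans ?_
  rw [Finset.sum_const, nsmul_eq_mul]

theorem box_disc (e r : ℝ) (M : ℕ) (he : 0 < e) (hr : 0 < r) (hM : 1 ≤ M) (h : e ≤ 2 * r * M)
    (s : Finset (ℤ × ℤ)) (c : ℂ) :
    ((s.filter (fun a => ‖((e / (M : ℕ) : ℝ) : ℂ) * gz a - c‖ ≤ r)).card : ℝ) ≤
      (2 * r / e) ^ 2 * (box M).card := by
  have hM' : (0:ℝ) < M := by exact_mod_cast hM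
  refine (disc_count (e / M) (by positivity) s c r hr.le).trans ?_
  rw [box_card]
  push_cast
  rw [← mul_pow]
  apply pow_le_pow_left₀ (by positivity)
  have h1 : 2 * r / (e / M) = 2 * r * M / e := by field_simp
  rw [h1]
  have h2 : 1 ≤ 2 * r * M / e := by rw [le_div_iff₀ he]; linarith
  have h3 : 2 * r / e * (2 * M + 1) = 2 * r * M / e + 2 * r * M / e + 2 * r / e := by ring
  have h4 : 0 < 2 * r / e := by positivity
  rw [h3]; linarith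

theorem box_disc2 (η r r0 : ℝ) (hη : 0 < η) (hr : 0 < r) (hr0 : 0 < r0) (s : Finset (ℤ × ℤ))
    (p Q w : ℂ) (hQ : r0 / 2 ≤ ‖Q‖) :
    ((s.filter (fun a => ‖(p + (η : ℂ) * gz a) * Q - w‖ ≤ r)).card : ℝ) ≤
      (2 * (2 * r / r0) / η + 1) ^ 2 := by
  refine le_trans ?_ (disc_count η hη s (w / Q - p) (2 * r / r0) (by positivity))
  have hsub : s.filter (fun a => ‖(p + (η : ℂ) * gz a) * Q - w‖ ≤ r) ⊆
      s.filter (fun x => ‖(η : ℂ) * gz x - (w / Q - p)‖ ≤ 2 * r / r0) := by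
    intro a ha
    rw [mem_filter] at ha ⊢
    refine ⟨ha.1, ?_⟩
    have hQ0 : 0 < ‖Q‖ := lt_of_lt_of_le (by positivity) hQ
    have hQ1 : Q ≠ 0 := norm_pos_iff.1 hQ0
    have e1 : (η : ℂ) * gz a - (w / Q - p) = ((p + (η : ℂ) * gz a) * Q - w) / Q := by
      field_simp
      ring
    rw [e1, norm_div, div_le_div_iff₀ hQ0 hr0]
    have h1 : ‖(p + (η : ℂ) * gz a) * Q - w‖ * r0 ≤ r * r0 :=
      mul_le_mul_of_nonneg_right ha.2 hr0.le
    nlinarith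
  exact_mod_cast card_le_card hsub

theorem box_disc3 (e r r0 : ℝ) (M : ℕ) (he : 0 < e) (hr : 0 < r) (hr0 : 0 < r0) (hM : 1 ≤ M)
    (h : r0 * e ≤ 4 * r * M) (s : Finset (ℤ × ℤ)) (p Q w : ℂ) (hQ : r0 / 2 ≤ ‖Q‖) :
    ((s.filter (fun a => ‖(p + ((e / (M : ℕ) : ℝ) : ℂ) * gz a) * Q - w‖ ≤ r)).card : ℝ) ≤
      (4 * r / (r0 * e)) ^ 2 * (box M).card := by
  have hM' : (0:ℝ) < M := by exact_mod_cast hM
  refine (box_disc2 (e / M) r r0 (by positivity) hr hr0 s p Q w hQ).trans ?_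
  rw [box_card]
  push_cast
  rw [← mul_pow]
  apply pow_le_pow_left₀ (by positivity)
  have h1 : 2 * (2 * r / r0) / (e / M) = 4 * r * M / (r0 * e) := by field_simp; ring
  rw [h1]
  have h2 : 1 ≤ 4 * r * M / (r0 * e) := by rw [le_div_iff₀ (by positivity)]; linarith
  have h3 : 4 * r / (r0 * e) * (2 * M + 1) =
      4 * r * M / (r0 * e) + 4 * r * M / (r0 * e) + 4 * r / (r0 * e) := by ring
  have h4 : 0 < 4 * r / (r0 * e) := by positivity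
  rw [h3]; linarith

theorem tri_card (N K : ℕ) :
    ((tri N K).card : ℝ) = (box (N * K ^ 2)).card * ((box (N * K)).card * (box N).card) := by
  unfold tri
  rw [card_product, card_product]
  push_cast
  ring

theorem mem_tri {N K : ℕ} {x : (ℤ × ℤ) × (ℤ × ℤ) × (ℤ × ℤ)} :
    x ∈ tri N K ↔ x.1 ∈ box (N * K ^ 2) ∧ x.2.1 ∈ box (N * K) ∧ x.2.2 ∈ box N := by
  unfold tri
  rw [mem_product, mem_product]

theorem loc1 (e r : ℝ) (N K : ℕ) (he : 0 < e) (hr : 0 < r) (hN : 1 ≤ N) (hK : 1 ≤ K)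
    (h : e ≤ 2 * r * (N * K ^ 2)) (p q s : ℂ) :
    (((tri N K ×ˢ tri N K).filter (fun x => ‖p + J0 e N K x.1 s‖ ≤ r ∧
      ‖q + J0 e N K x.2 s‖ ≤ r)).card : ℝ) ≤ (2 * r / e) ^ 4 * (tri N K ×ˢ tri N K).card := by
  have hM : 1 ≤ N * K ^ 2 := Nat.one_le_iff_ne_zero.2 (by positivity)
  have h' : e ≤ 2 * r * ((N * K ^ 2 : ℕ) : ℝ) := by push_cast; exact h
  refine (card_fib _ (fun x => (x.1.2, x.2.2)) ((box (N * K) ×ˢ box N) ×ˢ (box (N * K) ×ˢ box N))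
    ?_ (((2 * r / e) ^ 2 * (box (N * K ^ 2)).card) * ((2 * r / e) ^ 2 * (box (N * K ^ 2)).card))
    ?_).trans (le_of_eq ?_)
  · intro x hx
    have h1 := mem_product.1 (mem_filter.1 hx).1
    have h2 := mem_tri.1 h1.1
    have h3 := mem_tri.1 h1.2
    simp only [mem_product]
    exact ⟨⟨h2.2.1, h2.2.2⟩, ⟨h3.2.1, h3.2.2⟩⟩
  · rintro ⟨y1, y2⟩ -
    have g := fun (p : ℂ) (y : (ℤ × ℤ) × (ℤ × ℤ)) => box_disc e r (N * K ^ 2) he hr hM h'
      (box (N * K ^ 2)) (-(p + (((e / (N * K : ℕ) : ℝ) : ℂ) * gz y.1) * s +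
        (((e / (N : ℕ) : ℝ) : ℂ) * gz y.2) * s ^ 2))
    refine le_trans ?_ (mul_le_mul (g p y1) (g q y2) (Nat.cast_nonneg _) (by positivity))
    rw [← Nat.cast_mul, ← card_product]
    refine Nat.cast_le.2 (card_le_card_of_injOn (fun x => (x.1.1, x.2.1)) ?_ ?_)
    · intro x hx
      rw [mem_coe, mem_filter, mem_filter, mem_product] at hx
      obtain ⟨⟨⟨h1, h2⟩, h3, h4⟩, h5⟩ := hx
      rw [Prod.mk.injEq] at h5
      rw [mem_tri] at h1 h2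
      rw [mem_coe, mem_product, mem_filter, mem_filter]
      refine ⟨⟨h1.1, ?_⟩, ⟨h2.1, ?_⟩⟩
      · rw [← h5.1]
        refine le_trans (le_of_eq ?_) h3
        congr 1
        unfold J0 c0 c1 c2
        ring
      · rw [← h5.2]
        refine le_trans (le_of_eq ?_) h4
        congr 1
        unfold J0 c0 c1 c2
        ring
    · intro x hx x' hx' hxx
      rw [mem_coe, mem_filter, Prod.mk.injEq] at hx hx'
      rw [Prod.mk.injEq] at hxx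
      refine Prod.ext (Prod.ext hxx.1 ?_) (Prod.ext hxx.2 ?_)
      · rw [hx.2.1, hx'.2.1]
      · rw [hx.2.2, hx'.2.2]
  · rw [card_product, card_product, card_product]
    push_cast
    rw [tri_card]
    ring

theorem loc2 (e r1 r2 : ℝ) (N K : ℕ) (he : 0 < e) (hr1 : 0 < r1) (hr2 : 0 < r2) (hN : 1 ≤ N)
    (hK : 1 ≤ K) (h1 : e ≤ 2 * r1 * (N * K ^ 2)) (h2 : e ≤ 2 * r2 * (N * K)) (q0 q1 s : ℂ) :
    (((tri N K ×ˢ tri N K).filter (fun x => ‖q0 + J0 e N K x.2 s‖ ≤ r1 ∧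
      ‖q1 + J1 e N K x.2 s‖ ≤ r2)).card : ℝ) ≤
      (2 * r1 / e) ^ 2 * (2 * r2 / e) ^ 2 * (tri N K ×ˢ tri N K).card := by
  have hM : 1 ≤ N * K ^ 2 := Nat.one_le_iff_ne_zero.2 (by positivity)
  have hM2 : 1 ≤ N * K := Nat.one_le_iff_ne_zero.2 (by positivity)
  have h1' : e ≤ 2 * r1 * ((N * K ^ 2 : ℕ) : ℝ) := by push_cast; exact h1
  have h2' : e ≤ 2 * r2 * ((N * K : ℕ) : ℝ) := by push_cast; exact h2
  refine (card_fib _ (fun x => (x.1, x.2.2.2)) (tri N K ×ˢ box N)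
    ?_ (((2 * r2 / e) ^ 2 * (box (N * K)).card) * ((2 * r1 / e) ^ 2 * (box (N * K ^ 2)).card))
    ?_).trans (le_of_eq ?_)
  · intro x hx
    have h1 := mem_product.1 (mem_filter.1 hx).1
    have h3 := mem_tri.1 h1.2
    simp only [mem_product]
    exact ⟨h1.1, h3.2.2⟩
  · rintro ⟨y1, y2⟩ -
    have g1 := box_disc e r2 (N * K) he hr2 hM2 h2' (box (N * K))
      (-(q1 + 2 * (((e / (N : ℕ) : ℝ) : ℂ) * gz y2) * s))
    have g2 := fun (y : ℤ × ℤ) => box_disc e r1 (N * K ^ 2) he hr1 hM h1'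
      (box (N * K ^ 2)) (-(q0 + (((e / (N * K : ℕ) : ℝ) : ℂ) * gz y) * s +
        (((e / (N : ℕ) : ℝ) : ℂ) * gz y2) * s ^ 2))
    refine (card_fib _ (fun x => x.2.2.1) _ ?_ _ ?_).trans
      (mul_le_mul_of_nonneg_right g1 (by positivity))
    · intro x hx
      rw [mem_filter, mem_filter, mem_product] at hx
      obtain ⟨⟨⟨h1, h2⟩, h3, h4⟩, h5⟩ := hx
      rw [Prod.mk.injEq] at h5
      rw [mem_tri] at h1 h2
      rw [mem_filter]
      refine ⟨h2.2.1, ?_⟩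
      rw [← h5.2]
      refine le_trans (le_of_eq ?_) h4
      congr 1
      unfold J1 c1 c2
      ring
    · intro y _
      refine le_trans (Nat.cast_le.2 (card_le_card_of_injOn (fun x => x.2.1) ?_ ?_)) (g2 y)
      · intro x hx
        rw [mem_coe, mem_filter, mem_filter, mem_filter, mem_product] at hx
        obtain ⟨⟨⟨⟨h1, h2⟩, h3, h4⟩, h5⟩, h6⟩ := hx
        rw [Prod.mk.injEq] at h5
        rw [mem_tri] at h1 h2
        rw [mem_coe, mem_filter]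
        refine ⟨h2.1, ?_⟩
        rw [← h5.2, ← h6]
        refine le_trans (le_of_eq ?_) h3
        congr 1
        unfold J0 c0 c1 c2
        ring
      · intro x hx x' hx' hxx
        rw [mem_coe, mem_filter, mem_filter, Prod.mk.injEq] at hx hx'
        refine Prod.ext ?_ (Prod.ext hxx (Prod.ext ?_ ?_))
        · rw [hx.1.2.1, hx'.1.2.1]
        · rw [hx.2, hx'.2]
        · rw [hx.1.2.2, hx'.1.2.2]
  · rw [card_product, card_product]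
    push_cast
    rw [tri_card]
    ring

/-- first new coordinate -/
def tA0 (z : ℤ × ℤ) (m : (ℤ × ℤ) × (ℤ × ℤ) × (ℤ × ℤ)) : ℤ × ℤ :=
  m.1 + gmul m.2.1 z + gmul m.2.2 (gmul z z)

/-- second new coordinate -/
def tA1 (z : ℤ × ℤ) (m : (ℤ × ℤ) × (ℤ × ℤ) × (ℤ × ℤ)) : ℤ × ℤ :=
  m.2.1 + (gmul m.2.2 z + gmul m.2.2 z)

theorem tA0_mem {N K : ℕ} {z : ℤ × ℤ} (hz : z ∈ box K) {m : (ℤ × ℤ) × (ℤ × ℤ) × (ℤ × ℤ)}
    (hm : m ∈ tri N K) : tA0 z m ∈ box (7 * (N * K ^ 2)) := by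
  obtain ⟨h0, h1, h2⟩ := mem_tri.1 hm
  have h := box_add (box_add h0 (box_gmul h1 hz)) (box_gmul h2 (box_gmul hz hz))
  have e1 : N * K ^ 2 + 2 * (N * K) * K + 2 * N * (2 * K * K) = 7 * (N * K ^ 2) := by ring
  rw [e1] at h
  exact h

theorem J0_eq (e : ℝ) (N K : ℕ) (hN : 1 ≤ N) (hK : 1 ≤ K) (z : ℤ × ℤ) (s : ℂ) (hs : s = gz z / K)
    (m : (ℤ × ℤ) × (ℤ × ℤ) × (ℤ × ℤ)) :
    J0 e N K m s = ((e / (N * K ^ 2 : ℕ) : ℝ) : ℂ) * gz (tA0 z m) := by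
  have hN0 : (N : ℂ) ≠ 0 := by
    have : N ≠ 0 := by omega
    exact_mod_cast this
  have hK0 : (K : ℂ) ≠ 0 := by
    have : K ≠ 0 := by omega
    exact_mod_cast this
  unfold J0 c0 c1 c2 tA0
  rw [gz_add, gz_add, gz_gmul, gz_gmul, gz_gmul, hs]
  push_cast
  field_simp

theorem J1_eq (e : ℝ) (N K : ℕ) (hN : 1 ≤ N) (hK : 1 ≤ K) (z : ℤ × ℤ) (s : ℂ) (hs : s = gz z / K)
    (m : (ℤ × ℤ) × (ℤ × ℤ) × (ℤ × ℤ)) :
    J1 e N K m s = ((e / (N * K : ℕ) : ℝ) : ℂ) * gz (tA1 z m) := by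
  have hN0 : (N : ℂ) ≠ 0 := by
    have : N ≠ 0 := by omega
    exact_mod_cast this
  have hK0 : (K : ℂ) ≠ 0 := by
    have : K ≠ 0 := by omega
    exact_mod_cast this
  unfold J1 c1 c2 tA1
  rw [gz_add, gz_add, gz_gmul, hs]
  push_cast
  field_simp
  ring

theorem loc3h (e r0 r3 r4 : ℝ) (N K : ℕ) (he : 0 < e) (hr0 : 0 < r0) (hr3 : 0 < r3) (hr4 : 0 < r4)
    (hN : 1 ≤ N) (hK : 1 ≤ K) (h3 : r0 * e ≤ 4 * r3 * (N * K)) (h4 : r0 * e ≤ 2 * r4 * N)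
    (p0 p1 p2 q0 q1 q2 : ℂ) (z : ℤ × ℤ) (hz : z ∈ box K) (s : ℂ) (hs : s = gz z / K) :
    (((tri N K ×ˢ tri N K).filter (fun x =>
      r0 / 2 ≤ ‖q0 + J0 e N K x.2 s‖ ∧
      ‖(p1 + J1 e N K x.1 s) * (q0 + J0 e N K x.2 s) -
        (p0 + J0 e N K x.1 s) * (q1 + J1 e N K x.2 s)‖ ≤ r3 ∧
      ‖(p2 + J2 e N x.1) * (q0 + J0 e N K x.2 s) -
        (p0 + J0 e N K x.1 s) * (q2 + J2 e N x.2)‖ ≤ r4)).card : ℝ) ≤
      3136 * (r3 / (r0 * e)) ^ 2 * (r4 / (r0 * e)) ^ 2 * (tri N K ×ˢ tri N K).card := by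
  have hM2 : 1 ≤ N * K := Nat.one_le_iff_ne_zero.2 (by positivity)
  have h3' : r0 * e ≤ 4 * r3 * ((N * K : ℕ) : ℝ) := by push_cast; exact h3
  have h4' : r0 * (2 * e) ≤ 4 * r4 * (N : ℝ) := by linarith
  refine (card_fib _ (fun x => (tA0 z x.1, x.2)) (box (7 * (N * K ^ 2)) ×ˢ tri N K)
    ?_ (((4 * r3 / (r0 * e)) ^ 2 * (box (N * K)).card) *
      ((4 * r4 / (r0 * (2 * e))) ^ 2 * (box N).card)) ?_).trans ?_
  · intro x hx
    have h1 := mem_product.1 (mem_filter.1 hx).1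
    simp only [mem_product]
    exact ⟨tA0_mem hz h1.1, h1.2⟩
  · rintro ⟨a, t⟩ -
    by_cases hQ : r0 / 2 ≤ ‖q0 + J0 e N K t s‖
    swap
    · have : ((tri N K ×ˢ tri N K).filter (fun x =>
        r0 / 2 ≤ ‖q0 + J0 e N K x.2 s‖ ∧
        ‖(p1 + J1 e N K x.1 s) * (q0 + J0 e N K x.2 s) -
          (p0 + J0 e N K x.1 s) * (q1 + J1 e N K x.2 s)‖ ≤ r3 ∧
        ‖(p2 + J2 e N x.1) * (q0 + J0 e N K x.2 s) -
          (p0 + J0 e N K x.1 s) * (q2 + J2 e N x.2)‖ ≤ r4)).filter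
          (fun x => (tA0 z x.1, x.2) = (a, t)) = ∅ := by
        rw [Finset.filter_eq_empty_iff]
        intro x hx hxx
        rw [Prod.mk.injEq] at hxx
        apply hQ
        rw [← hxx.2]
        exact (mem_filter.1 hx).2.1
      rw [this, card_empty, Nat.cast_zero]
      positivity
    have g1 := box_disc3 e r3 r0 (N * K) he hr3 hr0 hM2 h3' ((tri N K).image (tA1 z)) p1
      (q0 + J0 e N K t s) ((p0 + ((e / (N * K ^ 2 : ℕ) : ℝ) : ℂ) * gz a) * (q1 + J1 e N K t s)) hQ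
    have g2 := box_disc3 (2 * e) r4 r0 N (by positivity) hr4 hr0 hN h4' (box N) p2
      (q0 + J0 e N K t s) ((p0 + ((e / (N * K ^ 2 : ℕ) : ℝ) : ℂ) * gz a) * (q2 + J2 e N t)) hQ
    refine le_trans ?_ (mul_le_mul g1 g2 (Nat.cast_nonneg _) (by positivity))
    rw [← Nat.cast_mul, ← card_product]
    refine Nat.cast_le.2 (card_le_card_of_injOn (fun x => (tA1 z x.1, x.1.2.2)) ?_ ?_)
    · intro x hx
      rw [mem_coe, mem_filter, mem_filter, mem_product] at hx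
      obtain ⟨⟨⟨h1, h2⟩, h5, h6, h7⟩, h8⟩ := hx
      rw [Prod.mk.injEq] at h8
      rw [mem_coe, mem_product, mem_filter, mem_filter]
      refine ⟨⟨mem_image_of_mem _ h1, ?_⟩, ⟨(mem_tri.1 h1).2.2, ?_⟩⟩
      · rw [← h8.1, ← h8.2]
        refine le_trans (le_of_eq ?_) h6
        rw [J0_eq e N K hN hK z s hs x.1, J1_eq e N K hN hK z s hs x.1]
      · rw [← h8.1, ← h8.2]
        refine le_trans (le_of_eq ?_) h7
        rw [J0_eq e N K hN hK z s hs x.1]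
        congr 1
        unfold J2 c2
        push_cast
        ring
    · intro x hx x' hx' hxx
      rw [mem_coe, mem_filter, Prod.mk.injEq] at hx hx'
      rw [Prod.mk.injEq] at hxx
      have k1 := hxx.1
      have k2 := hxx.2
      have k3 := hx.2.1.trans hx'.2.1.symm
      unfold tA1 at k1
      rw [k2] at k1
      have k4 := add_right_cancel k1
      unfold tA0 at k3
      rw [k2, k4] at k3
      have k5 := add_right_cancel (add_right_cancel k3)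
      refine Prod.ext (Prod.ext k5 (Prod.ext k4 k2)) ?_
      rw [hx.2.2, hx'.2.2]
  · have hb : ((box (7 * (N * K ^ 2))).card : ℝ) ≤ 49 * (box (N * K ^ 2)).card := by
      have := box_mul 7 (N * K ^ 2) (by norm_num)
      exact_mod_cast this
    rw [card_product, card_product]
    push_cast
    have ht := tri_card N K
    have hnn : (0:ℝ) ≤ (tri N K).card * ((4 * r3 / (r0 * e)) ^ 2 * (box (N * K)).card *
      ((4 * r4 / (r0 * (2 * e))) ^ 2 * (box N).card)) := by positivity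
    calc ((box (7 * (N * K ^ 2))).card : ℝ) * (tri N K).card *
        ((4 * r3 / (r0 * e)) ^ 2 * (box (N * K)).card *
          ((4 * r4 / (r0 * (2 * e))) ^ 2 * (box N).card))
        = ((box (7 * (N * K ^ 2))).card : ℝ) * ((tri N K).card *
        ((4 * r3 / (r0 * e)) ^ 2 * (box (N * K)).card *
          ((4 * r4 / (r0 * (2 * e))) ^ 2 * (box N).card))) := by ring
      _ ≤ (49 * (box (N * K ^ 2)).card) * ((tri N K).card *
        ((4 * r3 / (r0 * e)) ^ 2 * (box (N * K)).card *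
          ((4 * r4 / (r0 * (2 * e))) ^ 2 * (box N).card))) :=
          mul_le_mul_of_nonneg_right hb hnn
      _ = 49 * 16 * 4 * (r3 / (r0 * e)) ^ 2 * (r4 / (r0 * e)) ^ 2 * ((tri N K).card *
          ((box (N * K ^ 2)).card * ((box (N * K)).card * (box N).card))) := by
          have : 4 * r4 / (r0 * (2 * e)) = 2 * (r4 / (r0 * e)) := by field_simp; ring
          rw [this]
          ring
      _ = 3136 * (r3 / (r0 * e)) ^ 2 * (r4 / (r0 * e)) ^ 2 *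
          ((tri N K).card * (tri N K).card) := by
          rw [← ht]
          ring

theorem loc3 (e r0 r3 r4 : ℝ) (N K : ℕ) (he : 0 < e) (hr0 : 0 < r0) (hr3 : 0 < r3) (hr4 : 0 < r4)
    (hN : 1 ≤ N) (hK : 1 ≤ K) (h3 : r0 * e ≤ 4 * r3 * (N * K)) (h4 : r0 * e ≤ 2 * r4 * N)
    (p0 p1 p2 q0 q1 q2 : ℂ) (z : ℤ × ℤ) (hz : z ∈ box K) (s : ℂ) (hs : s = gz z / K) :
    (((tri N K ×ˢ tri N K).filter (fun x =>
      r0 ≤ ‖p0 + J0 e N K x.1 s‖ + ‖q0 + J0 e N K x.2 s‖ ∧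
      ‖(p1 + J1 e N K x.1 s) * (q0 + J0 e N K x.2 s) -
        (p0 + J0 e N K x.1 s) * (q1 + J1 e N K x.2 s)‖ ≤ r3 ∧
      ‖(p2 + J2 e N x.1) * (q0 + J0 e N K x.2 s) -
        (p0 + J0 e N K x.1 s) * (q2 + J2 e N x.2)‖ ≤ r4)).card : ℝ) ≤
      10 ^ 7 * (r3 / (r0 * e)) ^ 2 * (r4 / (r0 * e)) ^ 2 * (tri N K ×ˢ tri N K).card := by
  have ha := loc3h e r0 r3 r4 N K he hr0 hr3 hr4 hN hK h3 h4 p0 p1 p2 q0 q1 q2 z hz s hs
  have hb := loc3h e r0 r3 r4 N K he hr0 hr3 hr4 hN hK h3 h4 q0 q1 q2 p0 p1 p2 z hz s hs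
  set A := (tri N K ×ˢ tri N K).filter (fun x =>
      r0 / 2 ≤ ‖q0 + J0 e N K x.2 s‖ ∧
      ‖(p1 + J1 e N K x.1 s) * (q0 + J0 e N K x.2 s) -
        (p0 + J0 e N K x.1 s) * (q1 + J1 e N K x.2 s)‖ ≤ r3 ∧
      ‖(p2 + J2 e N x.1) * (q0 + J0 e N K x.2 s) -
        (p0 + J0 e N K x.1 s) * (q2 + J2 e N x.2)‖ ≤ r4) with hA
  set B := (tri N K ×ˢ tri N K).filter (fun x =>
      r0 / 2 ≤ ‖p0 + J0 e N K x.2 s‖ ∧
      ‖(q1 + J1 e N K x.1 s) * (p0 + J0 e N K x.2 s) -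
        (q0 + J0 e N K x.1 s) * (p1 + J1 e N K x.2 s)‖ ≤ r3 ∧
      ‖(q2 + J2 e N x.1) * (p0 + J0 e N K x.2 s) -
        (q0 + J0 e N K x.1 s) * (p2 + J2 e N x.2)‖ ≤ r4) with hB
  have hsub : (tri N K ×ˢ tri N K).filter (fun x =>
      r0 ≤ ‖p0 + J0 e N K x.1 s‖ + ‖q0 + J0 e N K x.2 s‖ ∧
      ‖(p1 + J1 e N K x.1 s) * (q0 + J0 e N K x.2 s) -
        (p0 + J0 e N K x.1 s) * (q1 + J1 e N K x.2 s)‖ ≤ r3 ∧
      ‖(p2 + J2 e N x.1) * (q0 + J0 e N K x.2 s) -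
        (p0 + J0 e N K x.1 s) * (q2 + J2 e N x.2)‖ ≤ r4) ⊆ A ∪ B.image Prod.swap := by
    intro x hx
    rw [mem_filter, mem_product] at hx
    obtain ⟨⟨h1, h2⟩, h5, h6, h7⟩ := hx
    rw [mem_union]
    by_cases hQ : r0 / 2 ≤ ‖q0 + J0 e N K x.2 s‖
    · left
      rw [hA, mem_filter, mem_product]
      exact ⟨⟨h1, h2⟩, hQ, h6, h7⟩
    · right
      rw [mem_image]
      refine ⟨x.swap, ?_, Prod.swap_swap x⟩
      rw [hB, mem_filter, mem_product]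
      refine ⟨⟨h2, h1⟩, ?_, ?_, ?_⟩
      · show r0 / 2 ≤ ‖p0 + J0 e N K x.1 s‖
        linarith
      · refine le_trans (le_of_eq ?_) h6
        rw [← norm_neg]
        congr 1
        show -((q1 + J1 e N K x.2 s) * (p0 + J0 e N K x.1 s) -
          (q0 + J0 e N K x.2 s) * (p1 + J1 e N K x.1 s)) = _
        ring
      · refine le_trans (le_of_eq ?_) h7
        rw [← norm_neg]
        congr 1
        show -((q2 + J2 e N x.2) * (p0 + J0 e N K x.1 s) -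
          (q0 + J0 e N K x.2 s) * (p2 + J2 e N x.1)) = _
        ring
  have hcard := (card_le_card hsub).trans (card_union_le _ _)
  have hcard2 := hcard.trans (Nat.add_le_add_left card_image_le _)
  have hc : (((tri N K ×ˢ tri N K).filter (fun x =>
      r0 ≤ ‖p0 + J0 e N K x.1 s‖ + ‖q0 + J0 e N K x.2 s‖ ∧
      ‖(p1 + J1 e N K x.1 s) * (q0 + J0 e N K x.2 s) -
        (p0 + J0 e N K x.1 s) * (q1 + J1 e N K x.2 s)‖ ≤ r3 ∧
      ‖(p2 + J2 e N x.1) * (q0 + J0 e N K x.2 s) -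
        (p0 + J0 e N K x.1 s) * (q2 + J2 e N x.2)‖ ≤ r4)).card : ℝ) ≤ (A.card : ℝ) + B.card := by
    exact_mod_cast hcard2
  refine hc.trans ((add_le_add ha hb).trans ?_)
  have hX : (0:ℝ) ≤ (r3 / (r0 * e)) ^ 2 * (r4 / (r0 * e)) ^ 2 * (tri N K ×ˢ tri N K).card := by
    positivity
  nlinarith

end Pool.Agent.H85.LD
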