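import Mathlib

/-!
[H85 LD BOX]  Gaussian integers in a box, the alphabet of the noise.

Proofs.
* `disc_count`: the real part of a counted point lies in an interval of length `2 r / η`, which contains at most
  `2 r / η + 1` integers (`Int.card_Icc`, `Nat.floor`/`Int.ceil`), same for the imaginary part; a filtered set is
  contained in the product of two sets of integers.
* `box_card`, `box_mul`: `2 (m N) + 1 ≤ m (2 N + 1)` for `m ≥ 1`.
-/

set_option autoImplicit false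

open Finset

namespace Pool.Agent.H85.LD

/-- the box `[-N,N]^2` -/
noncomputable def box (N : ℕ) : Finset (ℤ × ℤ) := Icc (-(N : ℤ)) N ×ˢ Icc (-(N : ℤ)) N

/-- the Gaussian integer `x.1 + i x.2` -/
noncomputable def gz (x : ℤ × ℤ) : ℂ := (x.1 : ℂ) + (x.2 : ℂ) * Complex.I

/-- product of Gaussian integers -/
def gmul (x y : ℤ × ℤ) : ℤ × ℤ := (x.1 * y.1 - x.2 * y.2, x.1 * y.2 + x.2 * y.1)

theorem gz_add (x y : ℤ × ℤ) : gz (x + y) = gz x + gz y := by
  unfold gz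
  rw [Prod.fst_add, Prod.snd_add]
  push_cast
  ring

theorem gz_gmul (x y : ℤ × ℤ) : gz (gmul x y) = gz x * gz y := by
  unfold gz gmul
  push_cast
  linear_combination (-(x.2 * y.2 : ℂ)) * Complex.I_sq

theorem mem_box {N : ℕ} {x : ℤ × ℤ} : x ∈ box N ↔ |x.1| ≤ (N : ℤ) ∧ |x.2| ≤ (N : ℤ) := by
  unfold box
  rw [mem_product, mem_Icc, mem_Icc, abs_le, abs_le]

theorem box_card (N : ℕ) : (box N).card = (2 * N + 1) ^ 2 := by
  unfold box
  rw [card_product, Int.card_Icc, sq]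
  have : ((N : ℤ) + 1 - -(N : ℤ)).toNat = 2 * N + 1 := by omega
  rw [this]

theorem box_nonempty (N : ℕ) : (box N).Nonempty := ⟨0, by rw [mem_box]; simp⟩

theorem box_mul (m N : ℕ) (hm : 1 ≤ m) : (box (m * N)).card ≤ m ^ 2 * (box N).card := by
  rw [box_card, box_card, ← mul_pow]
  apply Nat.pow_le_pow_left
  nlinarith

theorem box_mono {M N : ℕ} (h : M ≤ N) : box M ⊆ box N := by
  intro x hx
  rw [mem_box] at hx ⊢
  have : (M : ℤ) ≤ N := by exact_mod_cast h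
  exact ⟨hx.1.trans this, hx.2.trans this⟩

theorem box_add {M N : ℕ} {x y : ℤ × ℤ} (hx : x ∈ box M) (hy : y ∈ box N) :
    x + y ∈ box (M + N) := by
  rw [mem_box] at hx hy ⊢
  rw [Prod.fst_add, Prod.snd_add]
  push_cast
  exact ⟨(abs_add_le _ _).trans (add_le_add hx.1 hy.1), (abs_add_le _ _).trans (add_le_add hx.2 hy.2)⟩

theorem box_gmul {M N : ℕ} {x y : ℤ × ℤ} (hx : x ∈ box M) (hy : y ∈ box N) :
    gmul x y ∈ box (2 * M * N) := by
  rw [mem_box] at hx hy ⊢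
  have h11 : |x.1 * y.1| ≤ M * N := by
    rw [abs_mul]; exact mul_le_mul hx.1 hy.1 (abs_nonneg _) (by positivity)
  have h12 : |x.1 * y.2| ≤ M * N := by
    rw [abs_mul]; exact mul_le_mul hx.1 hy.2 (abs_nonneg _) (by positivity)
  have h21 : |x.2 * y.1| ≤ M * N := by
    rw [abs_mul]; exact mul_le_mul hx.2 hy.1 (abs_nonneg _) (by positivity)
  have h22 : |x.2 * y.2| ≤ M * N := by
    rw [abs_mul]; exact mul_le_mul hx.2 hy.2 (abs_nonneg _) (by positivity)
  unfold gmul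
  push_cast
  constructor
  · have := abs_sub (x.1 * y.1) (x.2 * y.2)
    linarith
  · have := abs_add_le (x.1 * y.2) (x.2 * y.1)
    linarith

theorem int_count (s : Finset ℤ) (a b : ℝ) (hab : a ≤ b) (h : ∀ n ∈ s, a ≤ (n : ℝ) ∧ (n : ℝ) ≤ b) :
    (s.card : ℝ) ≤ b - a + 1 := by
  have hsub : s ⊆ Icc ⌈a⌉ ⌊b⌋ := by
    intro n hn
    rw [mem_Icc]
    exact ⟨Int.ceil_le.2 (h n hn).1, Int.le_floor.2 (h n hn).2⟩
  have h1 : (s.card : ℝ) ≤ ((Icc ⌈a⌉ ⌊b⌋).card : ℝ) := by exact_mod_cast card_le_card hsub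
  refine h1.trans ?_
  rw [Int.card_Icc]
  have h2 : (((⌊b⌋ + 1 - ⌈a⌉).toNat : ℕ) : ℝ) ≤ max (((⌊b⌋ + 1 - ⌈a⌉ : ℤ) : ℝ)) 0 := by
    have : (((⌊b⌋ + 1 - ⌈a⌉).toNat : ℤ) : ℝ) ≤ max (((⌊b⌋ + 1 - ⌈a⌉ : ℤ) : ℝ)) 0 := by
      rw [Int.toNat_eq_max]
      push_cast
      exact le_rfl
    exact_mod_cast this
  refine h2.trans (max_le ?_ (by linarith))
  push_cast
  have h3 := Int.floor_le b
  have h4 := Int.le_ceil a
  linarith

theorem disc_count (η : ℝ) (hη : 0 < η) (s : Finset (ℤ × ℤ)) (c : ℂ) (r : ℝ) (hr : 0 ≤ r) :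
    ((s.filter (fun x => ‖(η : ℂ) * gz x - c‖ ≤ r)).card : ℝ) ≤ (2 * r / η + 1) ^ 2 := by
  classical
  set t := s.filter (fun x => ‖(η : ℂ) * gz x - c‖ ≤ r) with ht
  have hsub : t ⊆ (t.image Prod.fst) ×ˢ (t.image Prod.snd) := by
    intro x hx
    rw [mem_product]
    exact ⟨mem_image_of_mem _ hx, mem_image_of_mem _ hx⟩
  have hre : ∀ x ∈ t, |η * (x.1 : ℝ) - c.re| ≤ r ∧ |η * (x.2 : ℝ) - c.im| ≤ r := by
    intro x hx
    have h1 := (mem_filter.1 hx).2
    have h2 := (Complex.abs_re_le_norm _).trans h1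
    have h3 := (Complex.abs_im_le_norm _).trans h1
    unfold gz at h2 h3
    simp at h2 h3
    exact ⟨h2, h3⟩
  have hb : ∀ (v : ℝ) (u : Finset ℤ), (∀ n ∈ u, |η * (n : ℝ) - v| ≤ r) →
      (u.card : ℝ) ≤ 2 * r / η + 1 := by
    intro v u hu
    have h1 := int_count u ((v - r) / η) ((v + r) / η) (by gcongr; linarith) (by
      intro n hn
      have h2 := abs_le.1 (hu n hn)
      rw [div_le_iff₀ hη, le_div_iff₀ hη]
      constructor <;> linarith [h2.1, h2.2])
    have h3 : (v + r) / η - (v - r) / η = 2 * r / η := by ring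
    linarith
  have h1 : ((t.image Prod.fst).card : ℝ) ≤ 2 * r / η + 1 := by
    apply hb c.re
    intro n hn
    obtain ⟨x, hx, rfl⟩ := mem_image.1 hn
    exact (hre x hx).1
  have h2 : ((t.image Prod.snd).card : ℝ) ≤ 2 * r / η + 1 := by
    apply hb c.im
    intro n hn
    obtain ⟨x, hx, rfl⟩ := mem_image.1 hn
    exact (hre x hx).2
  have h3 : (t.card : ℝ) ≤ ((t.image Prod.fst).card : ℝ) * ((t.image Prod.snd).card : ℝ) := by
    have := card_le_card hsub
    rw [card_product] at this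
    exact_mod_cast this
  refine h3.trans ?_
  rw [sq]
  exact mul_le_mul h1 h2 (Nat.cast_nonneg _) (by positivity)

end Pool.Agent.H85.LD
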