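import Pool.Agent.H85.LD.NDefs

/-!
[H85 LD NSB]  Size of the noise.

`t = √d sg z b`, `σ = sg z b`.
Proofs.
* `coef_le`: `‖gz y‖ ≤ 2 M` for `y ∈ box M`, so `‖c0‖, ‖c1‖, ‖c2‖ ≤ 2 e` (`‖gz y‖ ≤ |y.1| + |y.2|`).
* `num_le`: with `v = t/2 - 3`: `1 + t + t^2 = 4 v^2 + 26 v + 43`, `3 t - t^2/4 = 9 - v^2`, `exp(v^2) ≥ 1 + v^2`,
  `(4 v^2 + 26 v + 43) ≤ 56 (1 + v^2)`, `exp 9 ≤ 8104`; `56 * 8104 ≤ 10^6`.
* `ns_wm`: `en_wm` for `n = 0,1,2` (`wm_add_le`, `wm_C_mul`): `wm ≤ w b 2 e (√((1-σ^2)^d) + t √((1-σ^2)^(d-1)) + t^2 √((1-σ^2)^(d-2)))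
  ≤ w b 2 e (1 + t + t^2) √((1-σ^2)^(d-2))`, `√((1-σ^2)^(d-2)) ≤ exp(-(d-2) σ^2/2) ≤ exp(-t^2/4)` for `d ≥ 4`, and
  `w b ≤ w z exp t`; `num_le`.
* `ns_sum`: triangle inequality (`wm` of a finite sum), `ns_wm`, `exp(-2t) ≤ exp(-t)`, `net_sum`.
* `ns_tail`: for `c` in the sum `√d sg z c ≥ √d sg b c - √d sg b z ≥ T - 4` (`sg_tri`, `sg_comm`), so
  `exp(-2 √d sg z c) ≤ exp(4 - T) exp(-√d sg z c)`.
-/

set_option autoImplicit false

open Polynomial MeasureTheory Real Finset ComplexConjugate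

namespace Pool.Agent.H85.LD

theorem gz_norm_le {M : ℕ} {y : ℤ × ℤ} (hy : y ∈ box M) : ‖gz y‖ ≤ 2 * M := by
  rw [mem_box] at hy
  obtain ⟨h1, h2⟩ := hy
  have e1 : ‖(y.1 : ℂ)‖ ≤ M := by
    rw [Complex.norm_intCast]
    exact_mod_cast h1
  have e2 : ‖(y.2 : ℂ)‖ ≤ M := by
    rw [Complex.norm_intCast]
    exact_mod_cast h2
  unfold gz
  refine (norm_add_le _ _).trans ?_
  rw [norm_mul, Complex.norm_I, mul_one]
  linarith

theorem gz_coef_le {e : ℝ} (he : 0 < e) {M : ℕ} (hM : 1 ≤ M) {y : ℤ × ℤ} (hy : y ∈ box M) :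
    ‖((e / (M : ℕ) : ℝ) : ℂ) * gz y‖ ≤ 2 * e := by
  have hM0 : (0 : ℝ) < M := by exact_mod_cast hM
  rw [norm_mul, Complex.norm_real, Real.norm_of_nonneg (by positivity)]
  calc e / M * ‖gz y‖ ≤ e / M * (2 * M) :=
        mul_le_mul_of_nonneg_left (gz_norm_le hy) (by positivity)
    _ = 2 * e := by field_simp

theorem coef_le (e : ℝ) (he : 0 < e) (N K : ℕ) (hN : 1 ≤ N) (hK : 1 ≤ K) (x : Tri)
    (hx : x ∈ tri N K) : ‖c0 e N K x‖ ≤ 2 * e ∧ ‖c1 e N K x‖ ≤ 2 * e ∧ ‖c2 e N x‖ ≤ 2 * e := by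
  unfold tri at hx
  rw [Finset.mem_product, Finset.mem_product] at hx
  obtain ⟨h1, h2, h3⟩ := hx
  refine ⟨?_, ?_, ?_⟩
  · exact gz_coef_le he (Nat.mul_pos hN (by positivity)) h1
  · exact gz_coef_le he (Nat.mul_pos hN hK) h2
  · exact gz_coef_le he hN h3

theorem num_le (t : ℝ) (ht : 0 ≤ t) :
    (1 + t + t ^ 2) * Real.exp (t - t ^ 2 / 4) ≤ 10 ^ 6 * Real.exp (-(2 * t)) := by
  obtain ⟨v, hv⟩ : ∃ v : ℝ, v = t / 2 - 3 := ⟨_, rfl⟩
  have htv : t = 2 * v + 6 := by rw [hv]; ring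
  have h1 : 1 + t + t ^ 2 = 4 * v ^ 2 + 26 * v + 43 := by rw [htv]; ring
  have h2 : t - t ^ 2 / 4 = -(2 * t) + (9 + -(v ^ 2)) := by rw [htv]; ring
  rw [h2, Real.exp_add, Real.exp_add]
  have h3 : Real.exp (-(v ^ 2)) ≤ 1 / (1 + v ^ 2) := by
    rw [Real.exp_neg, ← one_div]
    apply one_div_le_one_div_of_le (by positivity)
    have := Real.add_one_le_exp (v ^ 2)
    linarith
  have h4 : Real.exp 9 ≤ 10579 := by
    have h5 : Real.exp 9 = (Real.exp 1) ^ 9 := by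
      rw [← Real.exp_nat_mul]
      norm_num
    have h6 : Real.exp 1 ≤ 2.8 := by
      have := Real.exp_one_lt_d9
      linarith
    rw [h5]
    calc (Real.exp 1) ^ 9 ≤ 2.8 ^ 9 := pow_le_pow_left₀ (Real.exp_pos 1).le h6 9
      _ ≤ 10579 := by norm_num
  have h7 : 1 + t + t ^ 2 ≤ 56 * (1 + v ^ 2) := by
    rw [h1]
    nlinarith [sq_nonneg (2 * v - 1)]
  have h8 : 0 ≤ 1 + t + t ^ 2 := by positivity
  have h9 : Real.exp 9 * Real.exp (-(v ^ 2)) ≤ 10579 * (1 / (1 + v ^ 2)) :=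
    mul_le_mul h4 h3 (Real.exp_pos _).le (by norm_num)
  have h10 : (1 + t + t ^ 2) * (Real.exp 9 * Real.exp (-(v ^ 2))) ≤ 10 ^ 6 := by
    calc (1 + t + t ^ 2) * (Real.exp 9 * Real.exp (-(v ^ 2)))
        ≤ (56 * (1 + v ^ 2)) * (10579 * (1 / (1 + v ^ 2))) :=
          mul_le_mul h7 h9 (by positivity) (by positivity)
      _ = 56 * 10579 := by
          have : 1 + v ^ 2 ≠ 0 := by positivity
          field_simp
      _ ≤ 10 ^ 6 := by norm_num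
  calc (1 + t + t ^ 2) * (Real.exp (-(2 * t)) * (Real.exp 9 * Real.exp (-(v ^ 2))))
      = ((1 + t + t ^ 2) * (Real.exp 9 * Real.exp (-(v ^ 2)))) * Real.exp (-(2 * t)) := by ring
    _ ≤ 10 ^ 6 * Real.exp (-(2 * t)) := mul_le_mul_of_nonneg_right h10 (Real.exp_pos _).le

theorem wm_sum_le (d : ℕ) {ι : Type*} (s : Finset ι) (G : ι → ℂ[X]) (z : ℂ) :
    wm d (∑ i ∈ s, G i) z ≤ ∑ i ∈ s, wm d (G i) z := by
  classical
  induction s using Finset.induction_on with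
  | empty =>
    rw [Finset.sum_empty, Finset.sum_empty]
    unfold wm
    simp
  | insert i s hi ih =>
    rw [Finset.sum_insert hi, Finset.sum_insert hi]
    exact (wm_add_le d _ _ z).trans (add_le_add le_rfl ih)

theorem ns_deg (d : ℕ) (hd : 2 ≤ d) (e : ℝ) (N K : ℕ) (w : ℂ → ℝ) (b : ℂ) (x : Tri) :
    (ns d e N K w b x).natDegree ≤ d := by
  unfold ns
  refine (natDegree_C_mul_le _ _).trans ?_
  refine natDegree_add_le_of_degree_le (natDegree_add_le_of_degree_le ?_ ?_) ?_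
  · exact (natDegree_C_mul_le _ _).trans (en_deg d b 0 (by omega))
  · exact (natDegree_C_mul_le _ _).trans (en_deg d b 1 (by omega))
  · exact (natDegree_C_mul_le _ _).trans (en_deg d b 2 hd)

theorem nsb_sqrt (d n : ℕ) (hd : 4 ≤ d) (hn : n ≤ 2) {σ : ℝ} (h0 : 0 ≤ σ) (h1 : σ ≤ 1) :
    √((1 - σ ^ 2) ^ (d - n)) ≤ Real.exp (-((√d * σ) ^ 2 / 4)) := by
  have hs : σ ^ 2 ≤ 1 := pow_le_one₀ h0 h1
  have e0 : 0 ≤ 1 - σ ^ 2 := by linarith
  have e1 : 1 - σ ^ 2 ≤ 1 := by have := sq_nonneg σ; linarith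
  have e2 : (1 - σ ^ 2) ^ (d - n) ≤ (1 - σ ^ 2) ^ (d - 2) :=
    pow_le_pow_of_le_one e0 e1 (by omega)
  have e3 : 1 - σ ^ 2 ≤ Real.exp (-(σ ^ 2)) := Real.one_sub_le_exp_neg _
  have e4 : (1 - σ ^ 2) ^ (d - 2) ≤ Real.exp (-(σ ^ 2)) ^ (d - 2) :=
    pow_le_pow_left₀ e0 e3 _
  have e5 : Real.exp (-(σ ^ 2)) ^ (d - 2) ≤ Real.exp (-((√d * σ) ^ 2 / 4)) ^ 2 := by
    rw [← Real.exp_nat_mul, ← Real.exp_nat_mul]
    apply Real.exp_le_exp.2
    rw [mul_pow, Real.sq_sqrt (Nat.cast_nonneg d)]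
    have h2 : ((d - 2 : ℕ) : ℝ) = (d : ℝ) - 2 := by
      rw [Nat.cast_sub (by omega)]
      norm_num
    have h3 : (4 : ℝ) ≤ d := by exact_mod_cast hd
    rw [h2]
    push_cast
    nlinarith [sq_nonneg σ]
  calc √((1 - σ ^ 2) ^ (d - n)) ≤ √(Real.exp (-((√d * σ) ^ 2 / 4)) ^ 2) :=
        Real.sqrt_le_sqrt (e2.trans (e4.trans e5))
    _ = Real.exp (-((√d * σ) ^ 2 / 4)) := Real.sqrt_sq (Real.exp_pos _).le

theorem ns_wm (d : ℕ) (hd : 4 ≤ d) (e : ℝ) (he : 0 < e) (N K : ℕ) (hN : 1 ≤ N) (hK : 1 ≤ K)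
    (w : ℂ → ℝ) (hw : Wgt d w) (b : ℂ) (x : Tri) (hx : x ∈ tri N K) (z : ℂ) :
    wm d (ns d e N K w b x) z ≤ 2 * 10 ^ 6 * e * w z * Real.exp (-(2 * (√d * sg z b))) := by
  obtain ⟨hc0, hc1, hc2⟩ := coef_le e he N K hN hK x hx
  have hσ0 := sg_nonneg z b
  have hσ1 := sg_le_one z b
  have hlip := hw.lip z b
  have hwb := hw.pos b
  have hwz := hw.pos z
  have hn0 := en_wm d b 0 (by omega) z
  have hn1 := en_wm d b 1 (by omega) z
  have hn2 := en_wm d b 2 (by omega) z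
  have hs0 := nsb_sqrt d 0 hd (by omega) hσ0 hσ1
  have hs1 := nsb_sqrt d 1 hd (by omega) hσ0 hσ1
  have hs2 := nsb_sqrt d 2 hd le_rfl hσ0 hσ1
  obtain ⟨σ, hσ⟩ : ∃ σ : ℝ, σ = sg z b := ⟨_, rfl⟩
  rw [← hσ] at hσ0 hσ1 hlip hn0 hn1 hn2 hs0 hs1 hs2 ⊢
  have hd0 : (0 : ℝ) ≤ √d := Real.sqrt_nonneg _
  obtain ⟨t, ht⟩ : ∃ t : ℝ, t = √d * σ := ⟨_, rfl⟩
  have ht0 : 0 ≤ t := by rw [ht]; positivity
  have hdt : (d : ℝ) * σ ^ 2 = t ^ 2 := by
    rw [ht, mul_pow, Real.sq_sqrt (Nat.cast_nonneg d)]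
  rw [← ht] at hs0 hs1 hs2 hlip ⊢
  obtain ⟨E, hE⟩ : ∃ E : ℝ, E = Real.exp (-(t ^ 2 / 4)) := ⟨_, rfl⟩
  rw [← hE] at hs0 hs1 hs2
  have hE0 : 0 < E := by rw [hE]; exact Real.exp_pos _
  -- the three terms
  have t0 : wm d (C (c0 e N K x) * en d b 0) z ≤ 2 * e * E := by
    rw [wm_C_mul, hn0, pow_zero, one_mul]
    exact mul_le_mul hc0 hs0 (Real.sqrt_nonneg _) (by positivity)
  have t1 : wm d (C (c1 e N K x * ((√d : ℝ) : ℂ)) * en d b 1) z ≤ 2 * e * (t * E) := by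
    rw [wm_C_mul, hn1, pow_one, norm_mul, Complex.norm_real, Real.norm_of_nonneg hd0]
    calc ‖c1 e N K x‖ * √d * (σ * √((1 - σ ^ 2) ^ (d - 1)))
        = ‖c1 e N K x‖ * (t * √((1 - σ ^ 2) ^ (d - 1))) := by rw [ht]; ring
      _ ≤ 2 * e * (t * E) := by
          apply mul_le_mul hc1 (mul_le_mul_of_nonneg_left hs1 ht0) (by positivity)
            (by positivity)
  have t2 : wm d (C (c2 e N x * (d : ℂ)) * en d b 2) z ≤ 2 * e * (t ^ 2 * E) := by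
    rw [wm_C_mul, hn2, norm_mul, Complex.norm_natCast]
    calc ‖c2 e N x‖ * (d : ℝ) * (σ ^ 2 * √((1 - σ ^ 2) ^ (d - 2)))
        = ‖c2 e N x‖ * (((d : ℝ) * σ ^ 2) * √((1 - σ ^ 2) ^ (d - 2))) := by ring
      _ = ‖c2 e N x‖ * (t ^ 2 * √((1 - σ ^ 2) ^ (d - 2))) := by rw [hdt]
      _ ≤ 2 * e * (t ^ 2 * E) := by
          apply mul_le_mul hc2 (mul_le_mul_of_nonneg_left hs2 (by positivity)) (by positivity)
            (by positivity)
  unfold ns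
  rw [wm_C_mul, Complex.norm_real, Real.norm_of_nonneg hwb.le]
  have hsum : wm d (C (c0 e N K x) * en d b 0 + C (c1 e N K x * ((√d : ℝ) : ℂ)) * en d b 1 +
      C (c2 e N x * (d : ℂ)) * en d b 2) z ≤ 2 * e * ((1 + t + t ^ 2) * E) := by
    refine (wm_add_le d _ _ z).trans ?_
    refine (add_le_add (wm_add_le d _ _ z) le_rfl).trans ?_
    calc _ ≤ 2 * e * E + 2 * e * (t * E) + 2 * e * (t ^ 2 * E) :=
          add_le_add (add_le_add t0 t1) t2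
      _ = _ := by ring
  have hnum := num_le t ht0
  have hexp : Real.exp (t - t ^ 2 / 4) = Real.exp t * E := by
    rw [hE, ← Real.exp_add]
    congr 1
  calc w b * _ ≤ (w z * Real.exp t) * (2 * e * ((1 + t + t ^ 2) * E)) :=
        mul_le_mul hlip hsum (wm_nonneg d _ z) (by positivity)
    _ = 2 * e * w z * ((1 + t + t ^ 2) * Real.exp (t - t ^ 2 / 4)) := by rw [hexp]; ring
    _ ≤ 2 * e * w z * (10 ^ 6 * Real.exp (-(2 * t))) :=
        mul_le_mul_of_nonneg_left hnum (by positivity)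
    _ = _ := by ring

theorem ns_sum (d : ℕ) (hd : 4 ≤ d) (e : ℝ) (he : 0 < e) (N K : ℕ) (hN : 1 ≤ N) (hK : 1 ≤ K)
    (w : ℂ → ℝ) (hw : Wgt d w) (s : Finset ℂ) (hs : Sep d s) (F : ℂ → Tri)
    (hF : ∀ c ∈ s, F c ∈ tri N K) (z : ℂ) :
    wm d (∑ c ∈ s, ns d e N K w c (F c)) z ≤ 8 * 10 ^ 9 * e * w z := by
  have hwz := hw.pos z
  have hnet := net_sum d (by omega) s hs z
  refine (wm_sum_le d s _ z).trans ?_
  calc ∑ c ∈ s, wm d (ns d e N K w c (F c)) z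
      ≤ ∑ c ∈ s, 2 * 10 ^ 6 * e * w z * Real.exp (-(√d * sg z c)) := by
        apply Finset.sum_le_sum
        intro c hc
        refine (ns_wm d hd e he N K hN hK w hw c (F c) (hF c hc) z).trans ?_
        apply mul_le_mul_of_nonneg_left _ (by positivity)
        apply Real.exp_le_exp.2
        have h1 : 0 ≤ √d * sg z c := mul_nonneg (Real.sqrt_nonneg _) (sg_nonneg z c)
        linarith
    _ = 2 * 10 ^ 6 * e * w z * ∑ c ∈ s, Real.exp (-(√d * sg z c)) := by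
        rw [Finset.mul_sum]
    _ ≤ 2 * 10 ^ 6 * e * w z * 4000 := mul_le_mul_of_nonneg_left hnet (by positivity)
    _ = _ := by ring

theorem ns_tail (d : ℕ) (hd : 4 ≤ d) (e : ℝ) (he : 0 < e) (N K : ℕ) (hN : 1 ≤ N) (hK : 1 ≤ K)
    (w : ℂ → ℝ) (hw : Wgt d w) (s : Finset ℂ) (hs : Sep d s) (F : ℂ → Tri)
    (hF : ∀ c ∈ s, F c ∈ tri N K) (T : ℝ) (b z : ℂ) (hz : √d * sg b z ≤ 4) :
    wm d (∑ c ∈ s.filter (fun c => ¬ √d * sg b c ≤ T), ns d e N K w c (F c)) z ≤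
      8 * 10 ^ 9 * e * Real.exp (4 - T) * w z := by
  have hwz := hw.pos z
  have hnet := net_sum d (by omega) s hs z
  have hd0 : (0 : ℝ) ≤ √d := Real.sqrt_nonneg _
  refine (wm_sum_le d _ _ z).trans ?_
  calc ∑ c ∈ s.filter (fun c => ¬ √d * sg b c ≤ T), wm d (ns d e N K w c (F c)) z
      ≤ ∑ c ∈ s.filter (fun c => ¬ √d * sg b c ≤ T),
          2 * 10 ^ 6 * e * w z * Real.exp (4 - T) * Real.exp (-(√d * sg z c)) := by
        apply Finset.sum_le_sum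
        intro c hc
        obtain ⟨hc1, hc2⟩ := Finset.mem_filter.1 hc
        refine (ns_wm d hd e he N K hN hK w hw c (F c) (hF c hc1) z).trans ?_
        rw [mul_assoc (2 * 10 ^ 6 * e * w z), ← Real.exp_add]
        apply mul_le_mul_of_nonneg_left _ (by positivity)
        apply Real.exp_le_exp.2
        have h1 := sg_tri b z c
        have h2 : √d * sg b c ≤ √d * sg b z + √d * sg z c := by
          rw [← mul_add]
          exact mul_le_mul_of_nonneg_left h1 hd0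
        have h3 : T < √d * sg b c := not_le.1 hc2
        linarith
    _ ≤ ∑ c ∈ s, 2 * 10 ^ 6 * e * w z * Real.exp (4 - T) * Real.exp (-(√d * sg z c)) := by
        apply Finset.sum_le_sum_of_subset_of_nonneg (Finset.filter_subset _ _)
        intro c _ _
        positivity
    _ = 2 * 10 ^ 6 * e * w z * Real.exp (4 - T) * ∑ c ∈ s, Real.exp (-(√d * sg z c)) := by
        rw [Finset.mul_sum]
    _ ≤ 2 * 10 ^ 6 * e * w z * Real.exp (4 - T) * 4000 :=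
        mul_le_mul_of_nonneg_left hnet (by positivity)
    _ = _ := by ring

end Pool.Agent.H85.LD
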