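import Pool.Agent.H85.LD.NDefs

/-!
[H85 LD SCB]  Facts about the scaled charts.

Proofs.
* `sc_add`, `sc_sum`: `Gc_add`, `Gc_sum`.  `sc_diff`: a polynomial composed with `u ↦ u/√d`.
* `sc_ns`: `Gc d b (ns ..) = C (w b) (C c0 + C (c1 √d) X + C (c2 d) X^2)` (`Gc_C_mul`, `Gc_add`, `en_chart`, `2 ≤ d`), evaluated
  at `u/√d` (`√d ^ 2 = d`): `w b (c0 + c1 u + c2 u^2)`; differentiate.
* `sc_le`: put `t = u/√d`.  If `1 - conj b t ≠ 0`: `‖Gc(t)‖ = wm d G (ph b t) √((1+‖t‖^2)^d)` (`wm_ph`),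
  `√d sg b (ph b t) ≤ √d ‖t‖ = ‖u‖ ≤ 4` (`sg_ph_zero`), `w (ph b t) ≤ w b exp 4`, `(1+‖t‖^2)^d ≤ exp(‖u‖^2) ≤ exp 16`; so
  `≤ B w b exp(4 + 8)` and `exp 12 ≤ 2 * 10^5` (`exp 1 < 2.7182818286`).  The exceptional `t` (at most one) is
  a limit of other points of the closed disc `‖u‖ ≤ 4`; both sides are continuous.
* `sc_wr`: `Wc1` is the derivative of `Wc` (product rule; the terms `p' q'` cancel).
-/

set_option autoImplicit false

open Polynomial MeasureTheory Real Finset ComplexConjugate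

namespace Pool.Agent.H85.LD

theorem sc_add (d : ℕ) (b : ℂ) (G H : ℂ[X]) (u : ℂ) : sc d b (G + H) u = sc d b G u + sc d b H u := by
  unfold sc
  rw [Gc_add, eval_add]

theorem sc_sum (d : ℕ) (b : ℂ) {ι : Type*} (s : Finset ι) (G : ι → ℂ[X]) (u : ℂ) :
    sc d b (∑ i ∈ s, G i) u = ∑ i ∈ s, sc d b (G i) u := by
  unfold sc
  rw [Gc_sum, eval_finsetSum]

theorem sc_diff (d : ℕ) (b : ℂ) (G : ℂ[X]) : Differentiable ℂ (sc d b G) := by
  unfold sc
  exact (Gc d b G).differentiable.comp (differentiable_id.div_const _)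

theorem sc_diff1 (d : ℕ) (b : ℂ) (G : ℂ[X]) : Differentiable ℂ (deriv (sc d b G)) := by
  have h1 : DifferentiableOn ℂ (deriv (sc d b G)) Set.univ :=
    (sc_diff d b G).differentiableOn.deriv isOpen_univ
  exact differentiableOn_univ.1 h1

private theorem scb_quad (a b c e u : ℂ) :
    HasDerivAt (fun x : ℂ => e * (a + b * x + c * x ^ 2)) (e * (b + 2 * c * u)) u := by
  have h2 : HasDerivAt (fun x : ℂ => a + b * x) (b * 1) u :=
    ((hasDerivAt_id u).const_mul b).const_add a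
  have h3 : HasDerivAt (fun x : ℂ => c * x ^ 2) (c * (2 * u)) u := by
    have h4 := (hasDerivAt_pow 2 u).const_mul c
    norm_num at h4
    exact h4
  have h5 : HasDerivAt (fun x : ℂ => e * (a + b * x + c * x ^ 2)) (e * (b * 1 + c * (2 * u))) u :=
    (h2.add h3).const_mul e
  have h6 : e * (b * 1 + c * (2 * u)) = e * (b + 2 * c * u) := by ring
  rwa [h6] at h5

theorem sc_ns (d : ℕ) (hd : 2 ≤ d) (e : ℝ) (N K : ℕ) (w : ℂ → ℝ) (b : ℂ) (x : Tri) (u : ℂ) :
    sc d b (ns d e N K w b x) u = ((w b : ℝ) : ℂ) * J0 e N K x u ∧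
    deriv (sc d b (ns d e N K w b x)) u = ((w b : ℝ) : ℂ) * J1 e N K x u ∧
    deriv (deriv (sc d b (ns d e N K w b x))) u = ((w b : ℝ) : ℂ) * J2 e N x := by
  have hd0 : (0 : ℝ) < √d := Real.sqrt_pos.2 (by exact_mod_cast (by omega : 0 < d))
  have hD : ((√d : ℝ) : ℂ) ≠ 0 := by exact_mod_cast hd0.ne'
  have hD2 : ((√d : ℝ) : ℂ) ^ 2 = (d : ℂ) := by
    have h1 : (√d) ^ 2 = (d : ℝ) := Real.sq_sqrt (Nat.cast_nonneg d)
    exact_mod_cast h1
  have hfun : sc d b (ns d e N K w b x) = fun u => ((w b : ℝ) : ℂ) * (c0 e N K x +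
      c1 e N K x * u + c2 e N x * u ^ 2) := by
    funext v
    unfold sc ns
    rw [Gc_C_mul, Gc_add, Gc_add, Gc_C_mul, Gc_C_mul, Gc_C_mul, en_chart d b 0 (by omega),
      en_chart d b 1 (by omega), en_chart d b 2 hd]
    simp only [eval_mul, eval_C, eval_add, eval_pow, eval_X, pow_zero, pow_one, mul_one]
    have e1 : c1 e N K x * ((√d : ℝ) : ℂ) * (v / ((√d : ℝ) : ℂ)) = c1 e N K x * v := by
      rw [mul_assoc, mul_div_cancel₀ _ hD]
    have e2 : c2 e N x * (d : ℂ) * (v / ((√d : ℝ) : ℂ)) ^ 2 = c2 e N x * v ^ 2 := by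
      rw [div_pow, ← hD2, mul_assoc, mul_div_cancel₀ _ (pow_ne_zero 2 hD)]
    rw [e1, e2]
  have hder : deriv (sc d b (ns d e N K w b x)) = fun u => ((w b : ℝ) : ℂ) * (c1 e N K x +
      2 * c2 e N x * u) := by
    funext v
    rw [hfun]
    exact (scb_quad _ _ _ _ v).deriv
  refine ⟨?_, ?_, ?_⟩
  · rw [hfun]
    rfl
  · rw [hder]
    rfl
  · rw [hder]
    have h1 := scb_quad (c1 e N K x) (2 * c2 e N x) 0 ((w b : ℝ) : ℂ) u
    have h2 : (fun x_1 : ℂ => ((w b : ℝ) : ℂ) * (c1 e N K x + 2 * c2 e N x * x_1 + 0 * x_1 ^ 2)) =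
        fun u => ((w b : ℝ) : ℂ) * (c1 e N K x + 2 * c2 e N x * u) := by
      funext v
      ring
    rw [h2] at h1
    rw [h1.deriv]
    unfold J2
    ring

theorem sc_le (d : ℕ) (hd : 1 ≤ d) (w : ℂ → ℝ) (hw : Wgt d w) (b : ℂ) (G : ℂ[X])
    (hG : G.natDegree ≤ d) (B : ℝ) (hB : 0 ≤ B)
    (h : ∀ z, √d * sg b z ≤ 4 → wm d G z ≤ B * w z) (u : ℂ) (hu : ‖u‖ ≤ 4) :
    ‖sc d b G u‖ ≤ 2 * 10 ^ 5 * B * w b := by
  have hd0 : (0 : ℝ) < √d := Real.sqrt_pos.2 (by exact_mod_cast (by omega : 0 < d))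
  have hwb := hw.pos b
  have hexp : Real.exp 12 ≤ 2 * 10 ^ 5 := by
    have h1 : Real.exp 12 = Real.exp 1 ^ 12 := by
      rw [← Real.exp_nat_mul]
      norm_num
    have h2 := Real.exp_one_lt_d9
    rw [h1]
    refine (pow_le_pow_left₀ (Real.exp_pos 1).le h2.le 12).trans ?_
    norm_num
  have good : ∀ v : ℂ, ‖v‖ ≤ 4 → 1 - conj b * (v / ((√d : ℝ) : ℂ)) ≠ 0 →
      ‖sc d b G v‖ ≤ 2 * 10 ^ 5 * B * w b := by
    intro v hv ht
    set t : ℂ := v / ((√d : ℝ) : ℂ) with htdef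
    have hnt : √d * ‖t‖ = ‖v‖ := by
      rw [htdef, norm_div, Complex.norm_real, Real.norm_of_nonneg hd0.le, mul_div_cancel₀ _ hd0.ne']
    have h1 := wm_ph d b G hG t ht
    have hS : 0 < √((1 + ‖t‖ ^ 2) ^ d) := Real.sqrt_pos.2 (by positivity)
    rw [eq_div_iff hS.ne'] at h1
    have h2 : sg b (ph b t) ≤ ‖t‖ := by
      rw [sg_ph_zero b t ht]
      refine div_le_self (norm_nonneg t) ?_
      rw [Real.one_le_sqrt]
      nlinarith [norm_nonneg t]
    have h3 : √d * sg b (ph b t) ≤ 4 := by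
      have := mul_le_mul_of_nonneg_left h2 hd0.le
      linarith
    have h4 := h (ph b t) h3
    have h5 := hw.lip b (ph b t)
    have h6 : Real.exp (√d * sg b (ph b t)) ≤ Real.exp 4 := Real.exp_le_exp.2 h3
    have h7 : w (ph b t) ≤ w b * Real.exp 4 := h5.trans (mul_le_mul_of_nonneg_left h6 hwb.le)
    have h8 : √((1 + ‖t‖ ^ 2) ^ d) ≤ Real.exp 8 := by
      rw [Real.sqrt_le_left (Real.exp_pos 8).le]
      have h9 : 1 + ‖t‖ ^ 2 ≤ Real.exp (‖t‖ ^ 2) := by
        have := Real.add_one_le_exp (‖t‖ ^ 2)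
        linarith
      refine (pow_le_pow_left₀ (by positivity) h9 d).trans ?_
      rw [← Real.exp_nat_mul, ← Real.exp_nat_mul]
      refine Real.exp_le_exp.2 ?_
      have h10 : (d : ℝ) * ‖t‖ ^ 2 = ‖v‖ ^ 2 := by
        rw [← hnt, mul_pow, Real.sq_sqrt (Nat.cast_nonneg d)]
      rw [h10]
      push_cast
      nlinarith [norm_nonneg v]
    have h11 : ‖sc d b G v‖ = wm d G (ph b t) * √((1 + ‖t‖ ^ 2) ^ d) := by
      rw [h1]
      rfl
    rw [h11]
    have h12 : wm d G (ph b t) ≤ B * (w b * Real.exp 4) :=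
      h4.trans (mul_le_mul_of_nonneg_left h7 hB)
    have h13 : wm d G (ph b t) * √((1 + ‖t‖ ^ 2) ^ d) ≤ B * (w b * Real.exp 4) * Real.exp 8 :=
      mul_le_mul h12 h8 hS.le (by positivity)
    refine h13.trans ?_
    have h14 : B * (w b * Real.exp 4) * Real.exp 8 = Real.exp 12 * (B * w b) := by
      have h15 : Real.exp 12 = Real.exp 4 * Real.exp 8 := by
        rw [← Real.exp_add]
        norm_num
      rw [h15]
      ring
    rw [h14]
    have h16 := mul_le_mul_of_nonneg_right hexp (mul_nonneg hB hwb.le)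
    linarith
  by_cases hne : 1 - conj b * (u / ((√d : ℝ) : ℂ)) ≠ 0
  · exact good u hu hne
  · push Not at hne
    have hcont : Continuous (fun x : ℝ => ‖sc d b G ((x : ℂ) * u)‖) :=
      ((sc_diff d b G).continuous.comp (by fun_prop)).norm
    have hten : Filter.Tendsto (fun x : ℝ => ‖sc d b G ((x : ℂ) * u)‖)
        (nhdsWithin 1 (Set.Iio 1)) (nhds ‖sc d b G (((1 : ℝ) : ℂ) * u)‖) :=
      (hcont.tendsto 1).mono_left nhdsWithin_le_nhds
    rw [Complex.ofReal_one, one_mul] at hten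
    refine le_of_tendsto hten ?_
    filter_upwards [Ioo_mem_nhdsLT (zero_lt_one : (0 : ℝ) < 1)] with x hx
    refine good _ ?_ ?_
    · rw [norm_mul, Complex.norm_real, Real.norm_of_nonneg hx.1.le]
      have := norm_nonneg u
      have := hx.2
      nlinarith
    · have h1 : conj b * (u / ((√d : ℝ) : ℂ)) = 1 := (sub_eq_zero.1 hne).symm
      have h2 : conj b * ((x : ℂ) * u / ((√d : ℝ) : ℂ)) = (x : ℂ) := by
        rw [mul_div_assoc, mul_left_comm, h1, mul_one]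
      rw [h2]
      intro h3
      have h4 : (x : ℂ) = ((1 : ℝ) : ℂ) := by
        rw [Complex.ofReal_one]
        exact (sub_eq_zero.1 h3).symm
      have h5 := Complex.ofReal_injective h4
      have := hx.2
      linarith

theorem sc_wr (d : ℕ) (b : ℂ) (P Q : ℂ[X]) (u : ℂ) : HasDerivAt (Wc d b P Q) (Wc1 d b P Q u) u := by
  have hp := (sc_diff d b P u).hasDerivAt
  have hq := (sc_diff d b Q u).hasDerivAt
  have hp1 := (sc_diff1 d b P u).hasDerivAt
  have hq1 := (sc_diff1 d b Q u).hasDerivAt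
  have h1 := (hp1.mul hq).sub (hp.mul hq1)
  have h2 : deriv (deriv (sc d b P)) u * sc d b Q u + deriv (sc d b P) u * deriv (sc d b Q) u -
      (deriv (sc d b P) u * deriv (sc d b Q) u + sc d b P u * deriv (deriv (sc d b Q)) u) =
      Wc1 d b P Q u := by
    unfold Wc1
    ring
  rw [h2] at h1
  exact h1

end Pool.Agent.H85.LD
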