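import Pool.Agent.H70.AE.LLL

/-!
[H85 LD LLL]  Symmetric local lemma in the form used for the noise.

Proof.  `E` empty: trivial.  Apply `Pool.Agent.H70.AE.lll` with the uniform weights `μ e a = 1 / card A`, `I = univ`,
`x i = 2 p` (`0 ≤ p` from `hp` for some `i`, `4 p ≤ 4 p D ≤ 1`, so `x i ≤ 1/2`).
`Pr μ (Q i) ≤ p`: `Pr μ (Q i) = #{f | Q i f} / (card A)^(card E)`, and counting the pairs `(f, a)` with
`Q i (Function.update f i a)` in two ways: for fixed `f` at most `p card A` values `a`; every `g` with `Q i g` is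
`Function.update f i a` for exactly `card A` pairs (`a = g i`, `f = g` off `i`).  (Or: the map `(f, a) ↦ (update f i a, f i)`
is a bijection of `(E → A) × A`.)
`∏ (1 - 2 p) ≥ (1 - 2 p)^D ≥ 1 - 2 p D ≥ 1/2` (Bernoulli `one_add_mul_le_pow`; at most `D` factors, each in `[0,1]`).
-/

set_option autoImplicit false

open Finset

namespace Pool.Agent.H85.LD

/-- averaging over one coordinate -/
theorem lll_avg {E A : Type} [Fintype E] [DecidableEq E] [Fintype A] (i : E)
    (F : (E → A) → ℝ) :
    ∑ f : E → A, ∑ a : A, F (Function.update f i a) = Fintype.card A * ∑ g : E → A, F g := by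
  classical
  let σ : (E → A) × A → (E → A) × A := fun x => (Function.update x.1 i x.2, x.1 i)
  have hσ : Function.Involutive σ := by
    rintro ⟨f, a⟩
    simp only [σ, Function.update_idem, Function.update_self, Function.update_eq_self]
  have h1 : ∑ x : (E → A) × A, F (σ x).1 = ∑ x : (E → A) × A, F x.1 :=
    Equiv.sum_comp hσ.toPerm (fun x => F x.1)
  rw [Fintype.sum_prod_type, Fintype.sum_prod_type] at h1
  rw [h1, Finset.mul_sum]
  refine Finset.sum_congr rfl fun g _ => ?_
  show ∑ _y : A, F g = _
  rw [Finset.sum_const, Finset.card_univ, nsmul_eq_mul]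

open Classical in
theorem lll_sym {E A : Type} [Fintype E] [DecidableEq E] [Fintype A] [Nonempty A]
    (S : E → Finset E) (Q : E → (E → A) → Prop)
    (hS : ∀ i, ∀ f g : E → A, (∀ e ∈ S i, f e = g e) → Q i f → Q i g) (p : ℝ) (D : ℕ)
    (hD1 : 1 ≤ D) (hp : ∀ i, ∀ f : E → A,
      ((univ.filter (fun a => Q i (Function.update f i a))).card : ℝ) ≤ p * Fintype.card A)
    (hD : ∀ i, (univ.filter (fun j => ¬ Disjoint (S i) (S j))).card ≤ D)
    (h4 : 4 * p * D ≤ 1) : ∃ f : E → A, ∀ i, ¬ Q i f := by
  rcases isEmpty_or_nonempty E with hE | hE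
  · exact ⟨fun _ => Classical.arbitrary A, fun i => (hE.false i).elim⟩
  obtain ⟨i0⟩ := hE
  have hA : (0 : ℝ) < Fintype.card A := by exact_mod_cast Fintype.card_pos
  have hp0 : 0 ≤ p := by
    have h1 := hp i0 (fun _ => Classical.arbitrary A)
    have h2 : (0 : ℝ) ≤ p * Fintype.card A := le_trans (Nat.cast_nonneg _) h1
    exact nonneg_of_mul_nonneg_left h2 hA
  have hDR : (1 : ℝ) ≤ D := by exact_mod_cast hD1
  have hp4 : 4 * p ≤ 1 := by nlinarith
  set w : ℝ := 1 / Fintype.card A with hw
  have hw0 : 0 ≤ w := by positivity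
  let μ : E → A → ℝ := fun _ _ => w
  have hwt : ∀ f : E → A, Pool.Agent.H70.AE.wt μ f = w ^ Fintype.card E := by
    intro f
    unfold Pool.Agent.H70.AE.wt
    rw [Finset.prod_const, Finset.card_univ]
  have hPr : ∀ i, Pool.Agent.H70.AE.Pr μ (Q i) ≤ p := by
    intro i
    set F : (E → A) → ℝ := fun f => if Q i f then 1 else 0 with hF
    have h1 : Pool.Agent.H70.AE.Pr μ (Q i) = w ^ Fintype.card E * ∑ f : E → A, F f := by
      unfold Pool.Agent.H70.AE.Pr
      rw [Finset.mul_sum]
      refine Finset.sum_congr (by ext f; simp) fun f _ => ?_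
      rw [hF]
      simp only
      split_ifs
      · rw [hwt, mul_one]
      · rw [mul_zero]
    have h2 : Fintype.card A * ∑ g : E → A, F g ≤
        (Fintype.card A : ℝ) ^ Fintype.card E * (p * Fintype.card A) := by
      rw [← lll_avg i F]
      have h3 : ∀ f : E → A, ∑ a : A, F (Function.update f i a) ≤ p * Fintype.card A := by
        intro f
        refine le_trans (le_of_eq ?_) (hp i f)
        rw [hF]
        simp only
        rw [Finset.sum_boole]
      refine (Finset.sum_le_sum fun f _ => h3 f).trans (le_of_eq ?_)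
      rw [Finset.sum_const, Finset.card_univ, Fintype.card_fun, nsmul_eq_mul]
      push_cast
      ring
    have h4 : ∑ g : E → A, F g ≤ (Fintype.card A : ℝ) ^ Fintype.card E * p := by
      have h5 : (Fintype.card A : ℝ) * ∑ g : E → A, F g ≤
          Fintype.card A * ((Fintype.card A : ℝ) ^ Fintype.card E * p) := by
        refine h2.trans (le_of_eq (by ring))
      exact le_of_mul_le_mul_left h5 hA
    rw [h1]
    calc w ^ Fintype.card E * ∑ f : E → A, F f
        ≤ w ^ Fintype.card E * ((Fintype.card A : ℝ) ^ Fintype.card E * p) :=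
          mul_le_mul_of_nonneg_left h4 (by positivity)
      _ = (w * Fintype.card A) ^ Fintype.card E * p := by rw [mul_pow]; ring
      _ = p := by
          rw [hw, one_div_mul_cancel hA.ne', one_pow, one_mul]
  have key := Pool.Agent.H70.AE.lll μ (fun _ _ => hw0) (fun _ => by
      rw [Finset.sum_const, Finset.card_univ, nsmul_eq_mul]
      show (Fintype.card A : ℝ) * w = 1
      rw [hw, mul_one_div_cancel hA.ne']) (univ : Finset E) S Q
    (fun i _ => hS i) (fun _ => 2 * p) (fun _ _ => by positivity) (fun _ _ => by linarith)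
    (by
      intro i _
      refine (hPr i).trans ?_
      rw [Finset.prod_const]
      generalize hm : Finset.card _ = m
      have hmD : m ≤ D := by
        rw [← hm]
        refine le_trans (Finset.card_le_card ?_) (hD i)
        intro j hj
        simp only [Finset.mem_filter, Finset.mem_univ, true_and] at hj ⊢
        exact hj.2
      have h5 : (1 - 2 * p) ^ D ≤ (1 - 2 * p) ^ m :=
        pow_le_pow_of_le_one (by linarith) (by linarith) hmD
      have h6 : 1 + (D : ℝ) * (-(2 * p)) ≤ (1 + -(2 * p)) ^ D :=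
        one_add_mul_le_pow (by linarith) D
      have h7 : (1 : ℝ) / 2 ≤ (1 - 2 * p) ^ m := by
        have h8 : (1 + -(2 * p)) = 1 - 2 * p := by ring
        rw [h8] at h6
        have h9 : (1 : ℝ) / 2 ≤ 1 + (D : ℝ) * (-(2 * p)) := by nlinarith
        linarith
      nlinarith)
  obtain ⟨f, _, hf⟩ := key
  exact ⟨f, fun i => hf i (Finset.mem_univ i)⟩

end Pool.Agent.H85.LD
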