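import Pool.Agent.H85.LD.ScB

/-!
[H85 LD BADP]  Probability and locality of the bad event of one centre.

Proofs.
* `bad_dep`: `trn` depends only on the letters of the `c ∈ s` with `√d sg b c ≤ T` (`Finset.sum_congr`).
* `trn_update`: `b ∈ s`, `√d sg b b = 0 ≤ T`: split off the term `c = b` (`Finset.add_sum_erase`).
* `bad_prob`: put `p0 = sc d b (P + rest) u / w b`, `p1`, `p2` the same with the derivatives, `q0, q1, q2`; by `trn_update`, `sc_add`, `sc_ns`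
  `sc d b (P + trn ..) u = w b (p0 + J0 e N K x.1 u)` and so on for the derivatives (`deriv_add`), so at a grid point `u` the three
  alternatives of `bad` are those of `loc1` (`r := AA r`), `loc2` (`r1 := AA r^8`, `r2 := AA r^4`), `loc3` (`r0 := r/2`, `r3 := AA r^8`,
  `r4 := AA r^4`, `u = gz z/K`, `z ∈ box K`) after division by `w b` resp. `w b ^ 2`.  Union bound over `z ∈ box K1`, `z ∈ box K`
  (`card_biUnion_le` or induction; `#(box K1) = (2 K1 + 1)^2 ≤ 25/r^2`, `#(box K) ≤ 25/r^8` since `K1 ≤ 1/r + 1`, `K ≤ 1/r^4 + 1`).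
  Sum: `(400 AA^4 r^2 + 400 AA^4 r^16 + 25 * 10^7 * 16 AA^4 r^12)/e^4 ≤ 10^58 r^2/e^4`.  The side conditions of `loc1`, `loc2`, `loc3` follow
  from `1/r^8 ≤ N`, `e ≤ 1`, `1 ≤ K`, `r ≤ 1`.
-/

set_option autoImplicit false

open Polynomial MeasureTheory Real Finset ComplexConjugate

namespace Pool.Agent.H85.LD

theorem bad_dep (d : ℕ) (e : ℝ) (N K K1 : ℕ) (w : ℂ → ℝ) (s : Finset ℂ) (T r : ℝ) (P Q : ℂ[X])
    (b : ℂ) (F G : ℂ → Tri × Tri) (h : ∀ c ∈ s, √d * sg b c ≤ T → F c = G c)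
    (hF : bad d e N K K1 w s T r P Q b F) : bad d e N K K1 w s T r P Q b G := by
  have h1 : trn d e N K w s T b (fun c => (F c).1) = trn d e N K w s T b (fun c => (G c).1) := by
    unfold trn
    refine Finset.sum_congr rfl (fun c hc => ?_)
    rw [Finset.mem_filter] at hc
    beta_reduce
    rw [h c hc.1 hc.2]
  have h2 : trn d e N K w s T b (fun c => (F c).2) = trn d e N K w s T b (fun c => (G c).2) := by
    unfold trn
    refine Finset.sum_congr rfl (fun c hc => ?_)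
    rw [Finset.mem_filter] at hc
    beta_reduce
    rw [h c hc.1 hc.2]
  unfold bad at hF ⊢
  rw [h1, h2] at hF
  exact hF

open Classical in
theorem trn_update (d : ℕ) (e : ℝ) (N K : ℕ) (w : ℂ → ℝ) (s : Finset ℂ) (T : ℝ) (hT : 0 ≤ T)
    (b : ℂ) (hb : b ∈ s) (F : ℂ → Tri) (x : Tri) :
    trn d e N K w s T b (Function.update F b x) =
      ns d e N K w b x +
        ∑ c ∈ (s.filter (fun c => √d * sg b c ≤ T)).erase b, ns d e N K w c (F c) := by
  unfold trn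
  have hb' : b ∈ s.filter (fun c => √d * sg b c ≤ T) := by
    rw [Finset.mem_filter, sg_self, mul_zero]
    exact ⟨hb, hT⟩
  have h1 := Finset.add_sum_erase (s.filter (fun c => √d * sg b c ≤ T))
    (fun c => ns d e N K w c (Function.update F b x c)) hb'
  have h2 : ∑ c ∈ (s.filter (fun c => √d * sg b c ≤ T)).erase b,
      ns d e N K w c (Function.update F b x c) =
      ∑ c ∈ (s.filter (fun c => √d * sg b c ≤ T)).erase b, ns d e N K w c (F c) := by
    refine Finset.sum_congr rfl (fun c hc => ?_)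
    rw [Function.update_of_ne (Finset.ne_of_mem_erase hc)]
  rw [h2, Function.update_self] at h1
  rw [h1]

theorem sc_split (d : ℕ) (hd : 2 ≤ d) (e : ℝ) (N K : ℕ) (w : ℂ → ℝ) (hw : Wgt d w) (b : ℂ)
    (G : ℂ[X]) (x : Tri) (u : ℂ) :
    sc d b (G + ns d e N K w b x) u =
      ((w b : ℝ) : ℂ) * (sc d b G u / ((w b : ℝ) : ℂ) + J0 e N K x u) ∧
    deriv (sc d b (G + ns d e N K w b x)) u =
      ((w b : ℝ) : ℂ) * (deriv (sc d b G) u / ((w b : ℝ) : ℂ) + J1 e N K x u) ∧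
    deriv (deriv (sc d b (G + ns d e N K w b x))) u =
      ((w b : ℝ) : ℂ) * (deriv (deriv (sc d b G)) u / ((w b : ℝ) : ℂ) + J2 e N x) := by
  have hw0 : ((w b : ℝ) : ℂ) ≠ 0 := by exact_mod_cast (hw.pos b).ne'
  have h0 : sc d b (G + ns d e N K w b x) =
      fun u => sc d b G u + sc d b (ns d e N K w b x) u := by
    funext v
    exact sc_add d b G _ v
  have h1 : deriv (sc d b (G + ns d e N K w b x)) =
      fun u => deriv (sc d b G) u + deriv (sc d b (ns d e N K w b x)) u := by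
    funext v
    rw [h0]
    exact deriv_fun_add (sc_diff d b G v) (sc_diff d b _ v)
  have h2 : deriv (deriv (sc d b (G + ns d e N K w b x))) u =
      deriv (deriv (sc d b G)) u + deriv (deriv (sc d b (ns d e N K w b x))) u := by
    rw [h1]
    exact deriv_fun_add (sc_diff1 d b G u) (sc_diff1 d b _ u)
  obtain ⟨a0, a1, a2⟩ := sc_ns d hd e N K w b x u
  refine ⟨?_, ?_, ?_⟩
  · rw [sc_add, a0]; field_simp
  · rw [congrFun h1 u, a1]; field_simp
  · rw [h2, a2]; field_simp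

theorem norm_le_of_mul {ω A : ℝ} (hω : 0 < ω) {x : ℂ} (h : ‖((ω : ℝ) : ℂ) * x‖ ≤ A * ω) :
    ‖x‖ ≤ A := by
  rw [norm_mul, Complex.norm_real, Real.norm_of_nonneg hω.le, mul_comm] at h
  exact le_of_mul_le_mul_right h hω

theorem norm_le_of_mul2 {ω A : ℝ} (hω : 0 < ω) {x : ℂ}
    (h : ‖((ω : ℝ) : ℂ) ^ 2 * x‖ ≤ A * ω ^ 2) : ‖x‖ ≤ A := by
  rw [norm_mul, norm_pow, Complex.norm_real, Real.norm_of_nonneg hω.le, mul_comm] at h
  exact le_of_mul_le_mul_right h (by positivity)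

theorem biUnion_real {α β : Type*} [DecidableEq β] (s : Finset α) (F : α → Finset β) (c : ℝ)
    (h : ∀ z ∈ s, ((F z).card : ℝ) ≤ c) : ((s.biUnion F).card : ℝ) ≤ s.card * c := by
  have h1 : ((s.biUnion F).card : ℝ) ≤ ∑ z ∈ s, ((F z).card : ℝ) := by
    exact_mod_cast Finset.card_biUnion_le
  refine h1.trans ((Finset.sum_le_sum h).trans ?_)
  rw [Finset.sum_const, nsmul_eq_mul]

open Classical in
theorem bad_prob (d : ℕ) (hd : 2 ≤ d) (e r : ℝ) (he : 0 < e) (he1 : e ≤ 1) (hr : 0 < r)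
    (hr1 : r ≤ 1) (N : ℕ) (hN : 1 / r ^ 8 ≤ N) (w : ℂ → ℝ) (hw : Wgt d w) (s : Finset ℂ)
    (T : ℝ) (hT : 0 ≤ T) (P Q : ℂ[X]) (b : ℂ) (hb : b ∈ s) (F : ℂ → Tri × Tri) :
    (((tri N ⌈1 / r ^ 4⌉₊ ×ˢ tri N ⌈1 / r ^ 4⌉₊).filter (fun x =>
      bad d e N ⌈1 / r ^ 4⌉₊ ⌈1 / r⌉₊ w s T r P Q b (Function.update F b x))).card : ℝ) ≤
      10 ^ 58 * r ^ 2 / e ^ 4 * (tri N ⌈1 / r ^ 4⌉₊ ×ˢ tri N ⌈1 / r ^ 4⌉₊).card := by
  have hwb : 0 < w b := hw.pos b
  set K : ℕ := ⌈1 / r ^ 4⌉₊ with hKdef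
  set K1 : ℕ := ⌈1 / r⌉₊ with hK1def
  have hr4 : r ^ 4 ≤ 1 := pow_le_one₀ hr.le hr1
  have hr8 : r ^ 8 ≤ 1 := pow_le_one₀ hr.le hr1
  have hr4p : 0 < r ^ 4 := by positivity
  have hr8p : 0 < r ^ 8 := by positivity
  have hAA : AA = 10 ^ 12 := rfl
  have hKr : 1 / r ^ 4 ≤ (K : ℝ) := Nat.le_ceil _
  have hK1r : 1 / r ≤ (K1 : ℝ) := Nat.le_ceil _
  have hKu : (K : ℝ) < 1 / r ^ 4 + 1 := Nat.ceil_lt_add_one (by positivity)
  have hK1u : (K1 : ℝ) < 1 / r + 1 := Nat.ceil_lt_add_one (by positivity)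
  have hone4 : (1 : ℝ) ≤ 1 / r ^ 4 := by rw [le_div_iff₀ hr4p]; linarith
  have hone1 : (1 : ℝ) ≤ 1 / r := by rw [le_div_iff₀ hr]; linarith
  have hone8 : (1 : ℝ) ≤ 1 / r ^ 8 := by rw [le_div_iff₀ hr8p]; linarith
  have hKge : (1 : ℝ) ≤ K := hone4.trans hKr
  have hNge : (1 : ℝ) ≤ N := hone8.trans hN
  have hKN : 1 ≤ K := by exact_mod_cast hKge
  have hNN : 1 ≤ N := by exact_mod_cast hNge
  have hNr : 1 ≤ r ^ 8 * N := by
    rw [div_le_iff₀ hr8p] at hN; linarith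
  have hNr4 : 1 ≤ r ^ 4 * N := by
    have : r ^ 8 ≤ r ^ 4 := pow_le_pow_of_le_one hr.le hr1 (by norm_num)
    nlinarith [hNge]
  have hNr1 : 1 ≤ r * N := by
    have : r ^ 8 ≤ r := by
      simpa using pow_le_pow_of_le_one hr.le hr1 (show 1 ≤ 8 by norm_num)
    nlinarith [hNge]
  set M : ℝ := ((tri N K ×ˢ tri N K).card : ℝ) with hM
  have hM0 : 0 ≤ M := Nat.cast_nonneg _
  -- the remaining parts
  set R1 : ℂ[X] := ∑ c ∈ (s.filter (fun c => √d * sg b c ≤ T)).erase b,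
    ns d e N K w c (F c).1 with hR1
  set R2 : ℂ[X] := ∑ c ∈ (s.filter (fun c => √d * sg b c ≤ T)).erase b,
    ns d e N K w c (F c).2 with hR2
  have hP : ∀ x : Tri × Tri, P + trn d e N K w s T b (fun c => (Function.update F b x c).1) =
      (P + R1) + ns d e N K w b x.1 := by
    intro x
    have h : (fun c => (Function.update F b x c).1) =
        Function.update (fun c => (F c).1) b x.1 := by
      funext c
      by_cases hc : c = b
      · subst hc; simp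
      · rw [Function.update_of_ne hc, Function.update_of_ne hc]
    rw [h, trn_update d e N K w s T hT b hb]
    ring
  have hQ : ∀ x : Tri × Tri, Q + trn d e N K w s T b (fun c => (Function.update F b x c).2) =
      (Q + R2) + ns d e N K w b x.2 := by
    intro x
    have h : (fun c => (Function.update F b x c).2) =
        Function.update (fun c => (F c).2) b x.2 := by
      funext c
      by_cases hc : c = b
      · subst hc; simp
      · rw [Function.update_of_ne hc, Function.update_of_ne hc]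
    rw [h, trn_update d e N K w s T hT b hb]
    ring
  -- the three families
  set F1 : ℤ × ℤ → Finset (Tri × Tri) := fun z => (tri N K ×ˢ tri N K).filter (fun x =>
    ‖sc d b (P + R1) (gz z / (K1 : ℂ)) / (w b : ℂ) + J0 e N K x.1 (gz z / (K1 : ℂ))‖ ≤ AA * r ∧
    ‖sc d b (Q + R2) (gz z / (K1 : ℂ)) / (w b : ℂ) + J0 e N K x.2 (gz z / (K1 : ℂ))‖ ≤ AA * r)
    with hF1
  set F2 : ℤ × ℤ → Finset (Tri × Tri) := fun z => (tri N K ×ˢ tri N K).filter (fun x =>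
    ‖sc d b (Q + R2) (gz z / (K : ℂ)) / (w b : ℂ) + J0 e N K x.2 (gz z / (K : ℂ))‖ ≤
      AA * r ^ 8 ∧
    ‖deriv (sc d b (Q + R2)) (gz z / (K : ℂ)) / (w b : ℂ) + J1 e N K x.2 (gz z / (K : ℂ))‖ ≤
      AA * r ^ 4) with hF2
  set F3 : ℤ × ℤ → Finset (Tri × Tri) := fun z => (tri N K ×ˢ tri N K).filter (fun x =>
      r / 2 ≤ ‖sc d b (P + R1) (gz z / (K : ℂ)) / (w b : ℂ) + J0 e N K x.1 (gz z / (K : ℂ))‖ +
        ‖sc d b (Q + R2) (gz z / (K : ℂ)) / (w b : ℂ) + J0 e N K x.2 (gz z / (K : ℂ))‖ ∧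
      ‖(deriv (sc d b (P + R1)) (gz z / (K : ℂ)) / (w b : ℂ) + J1 e N K x.1 (gz z / (K : ℂ))) *
          (sc d b (Q + R2) (gz z / (K : ℂ)) / (w b : ℂ) + J0 e N K x.2 (gz z / (K : ℂ))) -
        (sc d b (P + R1) (gz z / (K : ℂ)) / (w b : ℂ) + J0 e N K x.1 (gz z / (K : ℂ))) *
          (deriv (sc d b (Q + R2)) (gz z / (K : ℂ)) / (w b : ℂ) +
            J1 e N K x.2 (gz z / (K : ℂ)))‖ ≤ AA * r ^ 8 ∧
      ‖(deriv (deriv (sc d b (P + R1))) (gz z / (K : ℂ)) / (w b : ℂ) + J2 e N x.1) *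
          (sc d b (Q + R2) (gz z / (K : ℂ)) / (w b : ℂ) + J0 e N K x.2 (gz z / (K : ℂ))) -
        (sc d b (P + R1) (gz z / (K : ℂ)) / (w b : ℂ) + J0 e N K x.1 (gz z / (K : ℂ))) *
          (deriv (deriv (sc d b (Q + R2))) (gz z / (K : ℂ)) / (w b : ℂ) + J2 e N x.2)‖ ≤
            AA * r ^ 4) with hF3
  have hsub : ((tri N K ×ˢ tri N K).filter (fun x =>
      bad d e N K K1 w s T r P Q b (Function.update F b x))) ⊆
      ((box K1).biUnion F1 ∪ (box K).biUnion F2) ∪ (box K).biUnion F3 := by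
    intro x hx
    rw [Finset.mem_filter] at hx
    obtain ⟨hx1, hx2⟩ := hx
    unfold bad at hx2
    rw [hP x, hQ x] at hx2
    rw [Finset.mem_union, Finset.mem_union, Finset.mem_biUnion, Finset.mem_biUnion,
      Finset.mem_biUnion]
    rcases hx2 with ⟨z, hz, _, ha, hb'⟩ | ⟨z, hz, _, ha, hb'⟩ | ⟨z, hz, _, ha, hb', hc⟩
    · left; left
      refine ⟨z, hz, ?_⟩
      rw [hF1, Finset.mem_filter]
      rw [(sc_split d hd e N K w hw b (P + R1) x.1 _).1] at ha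
      rw [(sc_split d hd e N K w hw b (Q + R2) x.2 _).1] at hb'
      refine ⟨hx1, norm_le_of_mul hwb ha, norm_le_of_mul hwb hb'⟩
    · left; right
      refine ⟨z, hz, ?_⟩
      rw [hF2, Finset.mem_filter]
      rw [(sc_split d hd e N K w hw b (Q + R2) x.2 _).1] at ha
      rw [(sc_split d hd e N K w hw b (Q + R2) x.2 _).2.1] at hb'
      refine ⟨hx1, norm_le_of_mul hwb ha, norm_le_of_mul hwb hb'⟩
    · right
      refine ⟨z, hz, ?_⟩
      rw [hF3, Finset.mem_filter]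
      unfold Wc at hb'
      unfold Wc1 at hc
      rw [(sc_split d hd e N K w hw b (P + R1) x.1 _).1,
        (sc_split d hd e N K w hw b (Q + R2) x.2 _).1] at ha hb' hc
      rw [(sc_split d hd e N K w hw b (P + R1) x.1 _).2.1,
        (sc_split d hd e N K w hw b (Q + R2) x.2 _).2.1] at hb'
      rw [(sc_split d hd e N K w hw b (P + R1) x.1 _).2.2,
        (sc_split d hd e N K w hw b (Q + R2) x.2 _).2.2] at hc
      refine ⟨hx1, ?_, ?_, ?_⟩
      · rw [norm_mul, norm_mul, Complex.norm_real, Real.norm_of_nonneg hwb.le, ← mul_add,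
          mul_comm (r / 2)] at ha
        exact le_of_mul_le_mul_left ha hwb
      · refine norm_le_of_mul2 hwb (le_trans (le_of_eq (congrArg _ ?_)) hb')
        ring
      · refine norm_le_of_mul2 hwb (le_trans (le_of_eq (congrArg _ ?_)) hc)
        ring
  -- counting
  have hc1 : ∀ z ∈ box K1, ((F1 z).card : ℝ) ≤ (2 * (AA * r) / e) ^ 4 * M := by
    intro z _
    refine loc1 e (AA * r) N K he (by rw [hAA]; positivity) hNN hKN ?_ _ _ _
    have : 1 ≤ r * (N * (K : ℝ) ^ 2) := by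
      have : (1 : ℝ) ≤ (K : ℝ) ^ 2 := one_le_pow₀ hKge
      nlinarith
    rw [hAA]
    nlinarith
  have hc2 : ∀ z ∈ box K, ((F2 z).card : ℝ) ≤
      (2 * (AA * r ^ 8) / e) ^ 2 * (2 * (AA * r ^ 4) / e) ^ 2 * M := by
    intro z _
    refine loc2 e (AA * r ^ 8) (AA * r ^ 4) N K he (by rw [hAA]; positivity)
      (by rw [hAA]; positivity) hNN hKN ?_ ?_ _ _ _
    · have : 1 ≤ r ^ 8 * (N * (K : ℝ) ^ 2) := by
        have : (1 : ℝ) ≤ (K : ℝ) ^ 2 := one_le_pow₀ hKge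
        nlinarith
      rw [hAA]
      nlinarith
    · have : 1 ≤ r ^ 4 * (N * (K : ℝ)) := by nlinarith
      rw [hAA]
      nlinarith
  have hc3 : ∀ z ∈ box K, ((F3 z).card : ℝ) ≤
      10 ^ 7 * (AA * r ^ 8 / (r / 2 * e)) ^ 2 * (AA * r ^ 4 / (r / 2 * e)) ^ 2 * M := by
    intro z hz
    refine loc3 e (r / 2) (AA * r ^ 8) (AA * r ^ 4) N K he (by positivity)
      (by rw [hAA]; positivity) (by rw [hAA]; positivity) hNN hKN ?_ ?_ _ _ _ _ _ _ z hz _ rfl
    · have h1 : 1 ≤ r ^ 8 * (N * (K : ℝ)) := by nlinarith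
      have h2 : r / 2 * e ≤ 1 := by nlinarith
      rw [hAA]
      nlinarith
    · have h2 : r / 2 * e ≤ 1 := by nlinarith
      rw [hAA]
      nlinarith
  have hbK1 : ((box K1).card : ℝ) ≤ 25 / r ^ 2 := by
    rw [box_card]
    push_cast
    have : (2 * (K1 : ℝ) + 1) ≤ 5 / r := by
      have : (5 : ℝ) / r = 5 * (1 / r) := by ring
      linarith
    calc (2 * (K1 : ℝ) + 1) ^ 2 ≤ (5 / r) ^ 2 := pow_le_pow_left₀ (by positivity) this 2
      _ = 25 / r ^ 2 := by rw [div_pow]; norm_num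
  have hbK : ((box K).card : ℝ) ≤ 25 / r ^ 8 := by
    rw [box_card]
    push_cast
    have : (2 * (K : ℝ) + 1) ≤ 5 / r ^ 4 := by
      have : (5 : ℝ) / r ^ 4 = 5 * (1 / r ^ 4) := by ring
      linarith
    calc (2 * (K : ℝ) + 1) ^ 2 ≤ (5 / r ^ 4) ^ 2 := pow_le_pow_left₀ (by positivity) this 2
      _ = 25 / r ^ 8 := by rw [div_pow, ← pow_mul]; norm_num
  have hcard : (((tri N K ×ˢ tri N K).filter (fun x =>
      bad d e N K K1 w s T r P Q b (Function.update F b x))).card : ℝ) ≤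
      (((box K1).biUnion F1).card : ℝ) + (((box K).biUnion F2).card : ℝ) +
        (((box K).biUnion F3).card : ℝ) := by
    have h1 := (Finset.card_le_card hsub).trans (Finset.card_union_le _ _)
    have h2 := Finset.card_union_le ((box K1).biUnion F1) ((box K).biUnion F2)
    have h3 := h1.trans (Nat.add_le_add_right h2 _)
    exact_mod_cast h3
  have u1 := biUnion_real (box K1) F1 _ hc1
  have u2 := biUnion_real (box K) F2 _ hc2
  have u3 := biUnion_real (box K) F3 _ hc3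
  have v1 : ((box K1).card : ℝ) * ((2 * (AA * r) / e) ^ 4 * M) ≤
      400 * 10 ^ 48 * r ^ 2 / e ^ 4 * M := by
    calc ((box K1).card : ℝ) * ((2 * (AA * r) / e) ^ 4 * M) ≤
        25 / r ^ 2 * ((2 * (AA * r) / e) ^ 4 * M) := by gcongr
      _ = 400 * 10 ^ 48 * r ^ 2 / e ^ 4 * M := by
        rw [hAA]
        field_simp
        ring
  have v2 : ((box K).card : ℝ) * ((2 * (AA * r ^ 8) / e) ^ 2 * (2 * (AA * r ^ 4) / e) ^ 2 * M) ≤
      400 * 10 ^ 48 * r ^ 2 / e ^ 4 * M := by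
    have h16 : r ^ 16 ≤ r ^ 2 := pow_le_pow_of_le_one hr.le hr1 (by norm_num)
    calc ((box K).card : ℝ) * ((2 * (AA * r ^ 8) / e) ^ 2 * (2 * (AA * r ^ 4) / e) ^ 2 * M) ≤
        25 / r ^ 8 * ((2 * (AA * r ^ 8) / e) ^ 2 * (2 * (AA * r ^ 4) / e) ^ 2 * M) := by gcongr
      _ = 400 * 10 ^ 48 * r ^ 16 / e ^ 4 * M := by
        rw [hAA]
        field_simp
        ring
      _ ≤ 400 * 10 ^ 48 * r ^ 2 / e ^ 4 * M := by gcongr
  have v3 : ((box K).card : ℝ) * (10 ^ 7 * (AA * r ^ 8 / (r / 2 * e)) ^ 2 *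
      (AA * r ^ 4 / (r / 2 * e)) ^ 2 * M) ≤ 400 * 10 ^ 55 * r ^ 2 / e ^ 4 * M := by
    have h12 : r ^ 12 ≤ r ^ 2 := pow_le_pow_of_le_one hr.le hr1 (by norm_num)
    calc ((box K).card : ℝ) * (10 ^ 7 * (AA * r ^ 8 / (r / 2 * e)) ^ 2 *
          (AA * r ^ 4 / (r / 2 * e)) ^ 2 * M) ≤
        25 / r ^ 8 * (10 ^ 7 * (AA * r ^ 8 / (r / 2 * e)) ^ 2 *
          (AA * r ^ 4 / (r / 2 * e)) ^ 2 * M) := by gcongr
      _ = 400 * 10 ^ 55 * r ^ 12 / e ^ 4 * M := by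
        rw [hAA]
        field_simp
        ring
      _ ≤ 400 * 10 ^ 55 * r ^ 2 / e ^ 4 * M := by gcongr
  have hX : 0 ≤ r ^ 2 / e ^ 4 * M := by positivity
  have e1 : 400 * 10 ^ 48 * r ^ 2 / e ^ 4 * M = 400 * 10 ^ 48 * (r ^ 2 / e ^ 4 * M) := by ring
  have e2 : 400 * 10 ^ 55 * r ^ 2 / e ^ 4 * M = 400 * 10 ^ 55 * (r ^ 2 / e ^ 4 * M) := by ring
  have e3 : 10 ^ 58 * r ^ 2 / e ^ 4 * M = 10 ^ 58 * (r ^ 2 / e ^ 4 * M) := by ring
  rw [e3]
  rw [e1] at v1 v2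
  rw [e2] at v3
  linarith

end Pool.Agent.H85.LD
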