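import Mathlib

/-!
[H85 LD CAU]  Cauchy estimates and consequences.

Proofs.
* `cau`: `Complex.norm_deriv_le_of_forall_mem_sphere_norm_le` with radius `1`.
* `cau_lip`: mean value inequality on the convex closed ball (`Convex.norm_image_sub_le_of_norm_deriv_le`).
* `cau_tay`: for `g x = f x - f' u * x`, `‖g' x‖ = ‖f' x - f' u‖ ≤ 2 M ‖v - u‖` on the segment (apply `cau` twice with radii
  `2 → 1`: the hypothesis on the ball of radius `3` gives `‖f'‖ ≤ M` on radius `2`, `‖f''‖ ≤ M` on radius `1`).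
All statements: `f` entire, `‖f‖ ≤ M` on the closed ball of radius `ρ + 1`.
-/

set_option autoImplicit false

namespace Pool.Agent.H85.LD

theorem cau (f : ℂ → ℂ) (hf : Differentiable ℂ f) (M ρ : ℝ) (h : ∀ u, ‖u‖ ≤ ρ + 1 → ‖f u‖ ≤ M)
    (u : ℂ) (hu : ‖u‖ ≤ ρ) : ‖deriv f u‖ ≤ M := by
  have h1 := Complex.norm_deriv_le_of_forall_mem_sphere_norm_le (c := u) (R := 1) (C := M)
    (f := f) zero_lt_one hf.diffContOnCl (fun z hz => by
      refine h z ?_
      rw [mem_sphere_iff_norm] at hz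
      have h2 : ‖z‖ ≤ ‖z - u‖ + ‖u‖ := by
        have h3 := norm_add_le (z - u) u
        rwa [sub_add_cancel] at h3
      linarith)
  simpa using h1

theorem cau_lip (f : ℂ → ℂ) (hf : Differentiable ℂ f) (M ρ : ℝ)
    (h : ∀ u, ‖u‖ ≤ ρ + 1 → ‖f u‖ ≤ M) (u v : ℂ) (hu : ‖u‖ ≤ ρ) (hv : ‖v‖ ≤ ρ) :
    ‖f v - f u‖ ≤ M * ‖v - u‖ := by
  have hc : Convex ℝ (Metric.closedBall (0 : ℂ) ρ) := convex_closedBall 0 ρ
  exact hc.norm_image_sub_le_of_norm_deriv_le (fun x _ => hf x)
    (fun x hx => cau f hf M ρ h x (by simpa using hx)) (by simpa using hu) (by simpa using hv)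

/-- value at a nearby point, in terms of value and derivative: hypothesis on the ball of radius `3` -/
theorem cau_tay (f : ℂ → ℂ) (hf : Differentiable ℂ f) (M : ℝ) (h : ∀ u, ‖u‖ ≤ 3 → ‖f u‖ ≤ M)
    (u v : ℂ) (hu : ‖u‖ ≤ 1) (hv : ‖v‖ ≤ 1) :
    ‖f v - f u - deriv f u * (v - u)‖ ≤ M * ‖v - u‖ ^ 2 ∧ ‖deriv f v - deriv f u‖ ≤ M * ‖v - u‖ := by
  have hf1 : Differentiable ℂ (deriv f) := by
    have h1 : DifferentiableOn ℂ (deriv f) Set.univ :=
      hf.differentiableOn.deriv isOpen_univ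
    exact differentiableOn_univ.1 h1
  have h2 : ∀ x, ‖x‖ ≤ 1 + 1 → ‖deriv f x‖ ≤ M := fun x hx =>
    cau f hf M 2 (fun y hy => h y (by linarith)) x (by linarith)
  have key : ∀ x y : ℂ, ‖x‖ ≤ 1 → ‖y‖ ≤ 1 → ‖deriv f y - deriv f x‖ ≤ M * ‖y - x‖ :=
    fun x y hx hy => cau_lip (deriv f) hf1 M 1 h2 x y hx hy
  refine ⟨?_, key u v hu hv⟩
  have hM : 0 ≤ M := (norm_nonneg _).trans (h2 0 (by simp))
  have hc : Convex ℝ (segment ℝ u v) := convex_segment u v
  have hg : ∀ x ∈ segment ℝ u v, DifferentiableAt ℂ (fun y => f y - deriv f u * y) x :=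
    fun x _ => (hf x).sub ((differentiableAt_id).const_mul _)
  have hg1 : ∀ x ∈ segment ℝ u v, ‖deriv (fun y => f y - deriv f u * y) x‖ ≤ M * ‖v - u‖ := by
    intro x hx
    have h3 : deriv (fun y => f y - deriv f u * y) x = deriv f x - deriv f u := by
      have h4 : HasDerivAt (fun y => f y - deriv f u * y) (deriv f x - deriv f u * 1) x :=
        (hf x).hasDerivAt.sub ((hasDerivAt_id x).const_mul (deriv f u))
      rw [h4.deriv, mul_one]
    have hx1 : ‖x‖ ≤ 1 := by
      have h5 : x ∈ Metric.closedBall (0 : ℂ) 1 :=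
        (convex_closedBall (0 : ℂ) 1).segment_subset (by simpa using hu) (by simpa using hv) hx
      simpa using h5
    rw [h3]
    refine (key u x hu hx1).trans (mul_le_mul_of_nonneg_left ?_ hM)
    obtain ⟨a, b, ha, hb, hab, rfl⟩ := hx
    have h6 : a • u + b • v - u = b • (v - u) := by
      have h7 : a = 1 - b := by linarith
      rw [h7]
      module
    rw [h6, norm_smul, Real.norm_of_nonneg hb]
    have h8 : b ≤ 1 := by linarith
    have h9 := norm_nonneg (v - u)
    nlinarith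
  have h10 := hc.norm_image_sub_le_of_norm_deriv_le hg hg1 (left_mem_segment ℝ u v)
    (right_mem_segment ℝ u v)
  have h11 : f v - deriv f u * v - (f u - deriv f u * u) = f v - f u - deriv f u * (v - u) := by
    ring
  rw [h11] at h10
  refine h10.trans (le_of_eq ?_)
  ring

end Pool.Agent.H85.LD
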