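import Pool.Agent.H85.LD.Pig

/-!
[H85 LD CELLS]  Cells of the sphere with thin walls.

`X k z` (`k < 3`): the coordinates `Re z/(1+‖z‖^2)`, `Im z/(1+‖z‖^2)`, `1/(1+‖z‖^2)` of the stereographic projection on a sphere of radius `1/2`; values in
`[-1,1]`.
Proofs.
* `xk_eq`: `∑_k (X k z - X k x)^2 = sg z x ^ 2` (this identity is in the proof of `sg_tri` in `Sg.lean`).  Hence `|X k z - X k x| ≤ sg z x`, and
  `sg z x ≤ 2 a` if `|X k z - X k x| ≤ a` for all `k`.
* `exists_cells`, `C = 60`: if `4 L > R`: `C L/R ≥ 1`, take `V = univ` (and any cells of diameter at most `R`, e.g. with offsets `0`).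
  Otherwise `β = 2 L/R ≤ 1/2`, `M = ⌈R/L⌉₊` (`1/M ≤ L/R`), `y k z = X k z 2 √d/R`.  For every `k` choose `j k < M` by `pigeon` applied to
  `V_j = {z | ∃ n : ℤ, n ≤ y k z + β + j/M ≤ n + 2 β}` (`strip_meas`; `cnt_strip` with `S = 1`, `h = 1/M`: `B = 3 M (2 β + 1/M) ≤ 15 M L/R`).
  `c z` = the triple of the integer parts of `y k z + (j k)/M`, encoded in `Fin N`: the triples lie in a finite set (`|y k z| ≤ 2 √d/R`), take any
  map `ℤ × ℤ × ℤ → Fin N` that is injective on this set (discrete, so measurable).  Same cell: `|y k z - y k x| < 1`, so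
  `|X k z - X k x| ≤ R/(2 √d)` and `√d sg z x ≤ √3 R/2 ≤ R`.  `V = ⋃_k V_{j k}`: if `√d sg z x < L` then `|y k z - y k x| < β`; if the integer parts of
  `y k z + j/M` and `y k x + j/M` differ there is an integer between them, so within `β` of `y k z + j/M`.  Total `3 * 15 L/R ≤ 60 L/R`.
-/

set_option autoImplicit false

open Polynomial MeasureTheory Real Finset ComplexConjugate

namespace Pool.Agent.H85.LD

/-- coordinates of the stereographic projection -/
noncomputable def xk (k : Fin 3) (z : ℂ) : ℝ :=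
  (if k = 0 then z.re else if k = 1 then z.im else 1) / (1 + ‖z‖ ^ 2)

private theorem cells_alg (a b c e : ℝ) :
    (a / (1 + (a * a + b * b)) - c / (1 + (c * c + e * e))) ^ 2 +
      (b / (1 + (a * a + b * b)) - e / (1 + (c * c + e * e))) ^ 2 +
      (1 / (1 + (a * a + b * b)) - 1 / (1 + (c * c + e * e))) ^ 2 =
    ((a - c) * (a - c) + (b - e) * (b - e)) /
      ((1 + (a * a + b * b)) * (1 + (c * c + e * e))) := by
  have h1 : (1 + (a * a + b * b)) ≠ 0 := by nlinarith [mul_self_nonneg a, mul_self_nonneg b]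
  have h2 : (1 + (c * c + e * e)) ≠ 0 := by nlinarith [mul_self_nonneg c, mul_self_nonneg e]
  field_simp
  ring

theorem xk_eq (z x : ℂ) : ∑ k, (xk k z - xk k x) ^ 2 = sg z x ^ 2 := by
  have e0 : ∀ w : ℂ, xk 0 w = w.re / (1 + ‖w‖ ^ 2) := fun w => rfl
  have e1 : ∀ w : ℂ, xk 1 w = w.im / (1 + ‖w‖ ^ 2) := fun w => rfl
  have e2 : ∀ w : ℂ, xk 2 w = 1 / (1 + ‖w‖ ^ 2) := fun w => rfl
  rw [Fin.sum_univ_three, e0, e0, e1, e1, e2, e2]
  unfold sg
  rw [div_pow, Real.sq_sqrt (by positivity)]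
  simp only [Complex.sq_norm, Complex.normSq_apply, Complex.sub_re, Complex.sub_im]
  exact cells_alg z.re z.im x.re x.im

theorem xk_le (k : Fin 3) (z : ℂ) : |xk k z| ≤ 1 := by
  have h0 : 0 < 1 + ‖z‖ ^ 2 := by positivity
  have hn : ‖z‖ ≤ 1 + ‖z‖ ^ 2 := by nlinarith [sq_nonneg (‖z‖ - 1), norm_nonneg z]
  have h1 := Complex.abs_re_le_norm z
  have h2 := Complex.abs_im_le_norm z
  unfold xk
  rw [abs_div, abs_of_pos h0, div_le_one h0]
  split_ifs
  · linarith
  · linarith
  · rw [abs_one]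
    have : 0 ≤ ‖z‖ ^ 2 := by positivity
    linarith

theorem xk_meas (k : Fin 3) : Measurable (xk k) := by
  have h0 : ∀ z : ℂ, 1 + ‖z‖ ^ 2 ≠ 0 := fun z => by positivity
  have hc : Continuous (xk k) := by
    unfold xk
    refine Continuous.div ?_ (by fun_prop) h0
    split_ifs <;> fun_prop
  exact hc.measurable

/-- encoding of a finite set -/
private theorem cells_enc {α : Type*} (S : Finset α) :
    ∃ (N : ℕ) (e : α → Fin N), ∀ a ∈ S, ∀ b ∈ S, e a = e b → a = b := by
  classical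
  refine ⟨S.card + 1, fun a => if h : a ∈ S then (S.equivFin ⟨a, h⟩).castSucc else Fin.last _, ?_⟩
  intro a ha b hb hab
  simp only [dif_pos ha, dif_pos hb] at hab
  have h1 := Fin.castSucc_injective _ hab
  have h2 := S.equivFin.injective h1
  exact congrArg Subtype.val h2

/-- the cells for given offsets -/
private theorem cells_map (A : ℝ) (o : Fin 3 → ℝ) (ho : ∀ k, |o k| ≤ 1) :
    ∃ (N : ℕ) (c : ℂ → Fin N), Measurable c ∧
      ∀ z x, c z = c x ↔ ∀ k, ⌊xk k z * A + o k⌋ = ⌊xk k x * A + o k⌋ := by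
  classical
  obtain ⟨B, hB⟩ := exists_nat_ge (|A| + 2)
  have hrange : ∀ z k, -(B : ℤ) ≤ ⌊xk k z * A + o k⌋ ∧ ⌊xk k z * A + o k⌋ < B := by
    intro z k
    have h1 : |xk k z * A + o k| ≤ |A| + 1 := by
      refine (abs_add_le _ _).trans (add_le_add ?_ (ho k))
      rw [abs_mul]
      have := mul_le_mul_of_nonneg_right (xk_le k z) (abs_nonneg A)
      linarith
    have h2 := abs_le.1 h1
    constructor
    · rw [Int.le_floor]
      push_cast
      linarith
    · rw [Int.floor_lt]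
      push_cast
      linarith
  obtain ⟨N, e, he⟩ := cells_enc (Fintype.piFinset (fun _ : Fin 3 => Finset.Ico (-(B : ℤ)) B))
  have hmem : ∀ z, (fun k => ⌊xk k z * A + o k⌋) ∈
      Fintype.piFinset (fun _ : Fin 3 => Finset.Ico (-(B : ℤ)) B) := by
    intro z
    rw [Fintype.mem_piFinset]
    intro k
    exact Finset.mem_Ico.2 (hrange z k)
  refine ⟨N, fun z => e (fun k => ⌊xk k z * A + o k⌋), ?_, ?_⟩
  · have h1 : Measurable (fun z : ℂ => fun k : Fin 3 => ⌊xk k z * A + o k⌋) := by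
      rw [measurable_pi_iff]
      intro k
      exact Int.measurable_floor.comp (((xk_meas k).mul_const A).add_const (o k))
    exact (measurable_of_countable e).comp h1
  · intro z x
    constructor
    · intro h k
      exact congrFun (he _ (hmem z) _ (hmem x) h) k
    · intro h
      show e _ = e _
      congr 1
      funext k
      exact h k

/-- the diameter of the cells -/
private theorem cells_diam (d : ℕ) (hd : 1 ≤ d) (R : ℝ) (hR : 0 < R) (o : Fin 3 → ℝ) (z x : ℂ)
    (h : ∀ k, ⌊xk k z * (2 * √d / R) + o k⌋ = ⌊xk k x * (2 * √d / R) + o k⌋) :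
    √d * sg z x ≤ R := by
  have hd0 : (0 : ℝ) < d := by exact_mod_cast hd
  have hs : 0 < √(d : ℝ) := Real.sqrt_pos.2 hd0
  have hk : ∀ k, (xk k z - xk k x) ^ 2 ≤ (R / (2 * √d)) ^ 2 := by
    intro k
    have h1 := Int.abs_sub_lt_one_of_floor_eq_floor (h k)
    have e1 : xk k z * (2 * √d / R) + o k - (xk k x * (2 * √d / R) + o k) =
        (xk k z - xk k x) * (2 * √d / R) := by ring
    rw [e1, abs_mul, abs_of_pos (show 0 < 2 * √d / R by positivity)] at h1
    have h2 : |xk k z - xk k x| ≤ R / (2 * √d) := by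
      rw [le_div_iff₀ (by positivity)]
      have h3 : |xk k z - xk k x| * (2 * √d) = |xk k z - xk k x| * (2 * √d / R) * R := by
        field_simp
      rw [h3]
      nlinarith
    rw [← sq_abs]
    exact pow_le_pow_left₀ (abs_nonneg _) h2 2
  have h4 : sg z x ^ 2 ≤ 3 * (R / (2 * √d)) ^ 2 := by
    rw [← xk_eq]
    calc ∑ k, (xk k z - xk k x) ^ 2 ≤ ∑ _k : Fin 3, (R / (2 * √d)) ^ 2 :=
          Finset.sum_le_sum fun k _ => hk k
      _ = 3 * (R / (2 * √d)) ^ 2 := by simp
  have h5 : (√d * sg z x) ^ 2 ≤ R ^ 2 := by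
    calc (√d * sg z x) ^ 2 = √(d : ℝ) ^ 2 * sg z x ^ 2 := by ring
      _ ≤ √(d : ℝ) ^ 2 * (3 * (R / (2 * √d)) ^ 2) := mul_le_mul_of_nonneg_left h4 (by positivity)
      _ = 3 / 4 * R ^ 2 := by
        field_simp
        ring
      _ ≤ R ^ 2 := by nlinarith [sq_nonneg R]
  exact le_of_sq_le_sq h5 hR.le

/-- different integer parts -/
private theorem cells_floor (a b β : ℝ) (h : |a - b| < β) (hne : ⌊b⌋ ≠ ⌊a⌋) :
    ∃ n : ℤ, (n : ℝ) * 1 ≤ a + β ∧ a + β ≤ n * 1 + 2 * β * 1 := by
  have h1 := abs_lt.1 h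
  rcases lt_or_gt_of_ne hne with hlt | hgt
  · refine ⟨⌊a⌋, ?_, ?_⟩
    · have := Int.floor_le a
      linarith
    · have h2 : b < (⌊a⌋ : ℝ) := by
        have h3 : (⌊b⌋ : ℝ) + 1 ≤ ⌊a⌋ := by exact_mod_cast hlt
        have h4 := Int.lt_floor_add_one b
        linarith
      linarith
  · refine ⟨⌊b⌋, ?_, ?_⟩
    · have := Int.floor_le b
      linarith
    · have h2 : a < (⌊b⌋ : ℝ) := by
        have h3 : (⌊a⌋ : ℝ) + 1 ≤ ⌊b⌋ := by exact_mod_cast hgt
        have h4 := Int.lt_floor_add_one a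
        linarith
      linarith

open Classical in
/-- choice of one offset -/
private theorem cells_off (k : Fin 3) (d : ℕ) (L R : ℝ) (hL : 1 ≤ L) (hLR : 4 * L ≤ R)
    (g : ℂ → ℝ) (hg0 : ∀ z, 0 ≤ g z) (hg : Integrable g mu) :
    ∃ o : ℝ, |o| ≤ 1 ∧ ∃ V : Set ℂ, MeasurableSet V ∧
      (∀ z x, √d * sg z x < L → ⌊xk k x * (2 * √d / R) + o⌋ ≠ ⌊xk k z * (2 * √d / R) + o⌋ → z ∈ V) ∧
      ∫ z in V, g z ∂mu ≤ 15 * (L / R) * ∫ z, g z ∂mu := by
  have hR : 0 < R := by linarith
  have hL0 : 0 < L := by linarith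
  obtain ⟨M, hM⟩ : ∃ M : ℕ, M = ⌈R / L⌉₊ := ⟨_, rfl⟩
  have hM1 : R / L ≤ M := by rw [hM]; exact Nat.le_ceil _
  have hM0 : (0 : ℝ) < M := lt_of_lt_of_le (by positivity) hM1
  have hMn : 1 ≤ M := by
    have : 0 < M := by exact_mod_cast hM0
    omega
  have hβ1 : 2 * (2 * L / R) ≤ 1 := by
    rw [← mul_div_assoc, div_le_one hR]
    linarith
  obtain ⟨j, hj, hint⟩ := pigeon M hMn
    (fun j => {z : ℂ | ∃ n : ℤ, (n : ℝ) * 1 ≤ xk k z * (2 * √d / R) + 2 * L / R + j * (1 / M) ∧
      xk k z * (2 * √d / R) + 2 * L / R + j * (1 / M) ≤ n * 1 + 2 * (2 * L / R) * 1})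
    (fun j _ => strip_meas 1 (2 * (2 * L / R))
      (fun z => xk k z * (2 * √d / R) + 2 * L / R + j * (1 / M))
      ((((xk_meas k).mul_const _).add_const _).add_const _)) (15 * M * (L / R)) (by
      intro z
      have h1 := cnt_strip (xk k z * (2 * √d / R) + 2 * L / R) 1 (1 / M) (2 * (2 * L / R)) M one_pos
        (by positivity) (by positivity) hβ1 (by rw [mul_one_div, div_self hM0.ne'])
      refine le_trans (le_of_eq ?_) (h1.trans ?_)
      · congr 2
      · have h2 : 1 ≤ M * (L / R) := by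
          have h3 : R / L * (L / R) = 1 := by field_simp
          calc (1 : ℝ) = R / L * (L / R) := h3.symm
            _ ≤ M * (L / R) := mul_le_mul_of_nonneg_right hM1 (by positivity)
        have h4 : 3 * (M : ℝ) * (2 * (2 * L / R) + 1 / M / 1) = 12 * (M * (L / R)) + 3 := by
          field_simp
          ring
        rw [h4]
        linarith) g hg0 hg
  refine ⟨j * (1 / M), ?_, _, strip_meas 1 (2 * (2 * L / R))
      (fun z => xk k z * (2 * √d / R) + 2 * L / R + j * (1 / M))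
      ((((xk_meas k).mul_const _).add_const _).add_const _), ?_, ?_⟩
  · rw [abs_of_nonneg (by positivity), mul_one_div, div_le_one hM0]
    exact_mod_cast hj.le
  · intro z x hzx hne
    have h1 : |xk k z - xk k x| ≤ sg z x := by
      rw [← abs_of_nonneg (show 0 ≤ sg z x by unfold sg; positivity)]
      rw [← sq_le_sq, ← xk_eq]
      exact Finset.single_le_sum (f := fun k => (xk k z - xk k x) ^ 2) (fun _ _ => sq_nonneg _)
        (Finset.mem_univ k)
    have h2 : |(xk k z * (2 * √d / R) + j * (1 / M)) - (xk k x * (2 * √d / R) + j * (1 / M))| <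
        2 * L / R := by
      have e1 : (xk k z * (2 * √d / R) + j * (1 / M)) - (xk k x * (2 * √d / R) + j * (1 / M)) =
          (xk k z - xk k x) * (2 * √d / R) := by ring
      rw [e1, abs_mul, abs_of_nonneg (show 0 ≤ 2 * √d / R by positivity)]
      calc |xk k z - xk k x| * (2 * √d / R) ≤ sg z x * (2 * √d / R) :=
            mul_le_mul_of_nonneg_right h1 (by positivity)
        _ = 2 * (√d * sg z x) / R := by ring
        _ < 2 * L / R := by gcongr
    obtain ⟨n, h3, h4⟩ := cells_floor _ _ _ h2 hne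
    refine ⟨n, ?_, ?_⟩
    · show (n : ℝ) * 1 ≤ xk k z * (2 * √d / R) + 2 * L / R + j * (1 / M)
      linarith
    · show xk k z * (2 * √d / R) + 2 * L / R + j * (1 / M) ≤ n * 1 + 2 * (2 * L / R) * 1
      linarith
  · refine hint.trans (le_of_eq ?_)
    congr 1
    field_simp

theorem exists_cells : ∃ C : ℝ, 0 < C ∧ ∀ d : ℕ, 1 ≤ d → ∀ L R : ℝ, 1 ≤ L → L ≤ R →
    ∀ g : ℂ → ℝ, (∀ z, 0 ≤ g z) → Integrable g mu → ∃ (N : ℕ) (c : ℂ → Fin N), Measurable c ∧
      (∀ z x, c z = c x → √d * sg z x ≤ R) ∧ ∃ V : Set ℂ, MeasurableSet V ∧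
      (∀ z x, √d * sg z x < L → c x ≠ c z → z ∈ V) ∧
      ∫ z in V, g z ∂mu ≤ C * (L / R) * ∫ z, g z ∂mu := by
  refine ⟨60, by norm_num, fun d hd L R hL hLR g hg0 hg => ?_⟩
  have hR : 0 < R := by linarith
  have hL0 : 0 < L := by linarith
  have hI : 0 ≤ ∫ z, g z ∂mu := integral_nonneg hg0
  rcases lt_or_ge R (4 * L) with h4 | h4
  · obtain ⟨N, c, hc, hcc⟩ := cells_map (2 * √d / R) (fun _ => 0) (fun _ => by simp)
    refine ⟨N, c, hc, fun z x h => cells_diam d hd R hR (fun _ => 0) z x ((hcc z x).1 h),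
      Set.univ, MeasurableSet.univ, fun _ _ _ _ => Set.mem_univ _, ?_⟩
    rw [Measure.restrict_univ]
    have h5 : 1 ≤ 60 * (L / R) := by
      rw [← mul_div_assoc, le_div_iff₀ hR]
      linarith
    nlinarith
  · choose o ho V hV hVz hVi using fun k : Fin 3 => cells_off k d L R hL h4 g hg0 hg
    obtain ⟨N, c, hc, hcc⟩ := cells_map (2 * √d / R) o ho
    refine ⟨N, c, hc, fun z x h => cells_diam d hd R hR o z x ((hcc z x).1 h),
      ⋃ k, V k, MeasurableSet.iUnion hV, ?_, ?_⟩
    · intro z x hzx hne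
      have h5 : ¬ ∀ k, ⌊xk k x * (2 * √d / R) + o k⌋ = ⌊xk k z * (2 * √d / R) + o k⌋ :=
        fun h => hne ((hcc x z).2 h)
      push Not at h5
      obtain ⟨k, hk⟩ := h5
      exact Set.mem_iUnion.2 ⟨k, hVz k z x hzx hk⟩
    · rw [← integral_indicator (MeasurableSet.iUnion hV)]
      have h6 : ∫ z, (⋃ k, V k).indicator g z ∂mu ≤ ∫ z, ∑ k, (V k).indicator g z ∂mu := by
        apply integral_mono (hg.indicator (MeasurableSet.iUnion hV))
          (integrable_finsetSum _ fun k _ => hg.indicator (hV k))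
        intro z
        show (⋃ k, V k).indicator g z ≤ ∑ k, (V k).indicator g z
        by_cases hz : z ∈ ⋃ k, V k
        · rw [Set.indicator_of_mem hz]
          obtain ⟨k, hk⟩ := Set.mem_iUnion.1 hz
          calc g z = (V k).indicator g z := (Set.indicator_of_mem hk g).symm
            _ ≤ ∑ k, (V k).indicator g z :=
              Finset.single_le_sum (f := fun k => (V k).indicator g z)
                (fun k _ => Set.indicator_nonneg (fun z _ => hg0 z) z) (Finset.mem_univ k)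
        · rw [Set.indicator_of_notMem hz]
          exact Finset.sum_nonneg fun k _ => Set.indicator_nonneg (fun z _ => hg0 z) z
      refine h6.trans ?_
      rw [integral_finsetSum _ fun k _ => hg.indicator (hV k)]
      calc ∑ k, ∫ z, (V k).indicator g z ∂mu = ∑ k, ∫ z in V k, g z ∂mu :=
            Finset.sum_congr rfl fun k _ => integral_indicator (hV k)
        _ ≤ ∑ _k : Fin 3, 15 * (L / R) * ∫ z, g z ∂mu := Finset.sum_le_sum fun k _ => hVi k
        _ = 45 * (L / R) * ∫ z, g z ∂mu := by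
          rw [Finset.sum_const, Finset.card_univ, Fintype.card_fin, nsmul_eq_mul]
          ring
        _ ≤ 60 * (L / R) * ∫ z, g z ∂mu := by
          apply mul_le_mul_of_nonneg_right _ hI
          have : 0 < L / R := by positivity
          linarith

end Pool.Agent.H85.LD
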