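import Mathlib

/-!
# LargeDegree, strip combinatorics

Finitely many points `i ∈ I`, each in a cell `cell i`, at most `m` of them in each cell; the value of the point `i` is
`v i + ∑_j τ_j a_ij`, where `a_ij` is positive (between `χ/4` and `2`) if `j` is the cell of `i` and small otherwise.
For scales `S_0 > S_1 > ...` which decrease fast enough one can choose the parameters `τ_j` such that every value lies in
a strip `[k S_l, k S_l + θ S_l]` for some `l < m` and some integer `k`, with a margin.

Proof.  Level by level, in every cell one more value is captured; the later changes are small compared with the margins.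
-/

set_option autoImplicit false

open Finset

namespace Pool.Agent.H85.LD

theorem comb_step (v S θ χ a : ℝ) (hχ : 0 < χ) (hS : 0 < S) (ha : χ / 4 ≤ a) :
    ∃ t : ℝ, 0 ≤ t ∧ t ≤ 4 * S / χ ∧ ∃ k : ℤ, v + t * a = k * S + θ * S / 2 := by
  have ha0 : 0 < a := lt_of_lt_of_le (by positivity) ha
  obtain ⟨k, hk⟩ : ∃ k : ℤ, k = ⌈(v - θ * S / 2) / S⌉ := ⟨_, rfl⟩
  have h1 : (v - θ * S / 2) / S ≤ k := by rw [hk]; exact Int.le_ceil _
  have h2 : (k : ℝ) < (v - θ * S / 2) / S + 1 := by rw [hk]; exact Int.ceil_lt_add_one _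
  rw [div_le_iff₀ hS] at h1
  have h3 : (k : ℝ) * S < v - θ * S / 2 + S := by
    have := mul_lt_mul_of_pos_right h2 hS
    rwa [add_mul, div_mul_cancel₀ _ hS.ne', one_mul] at this
  refine ⟨(k * S + θ * S / 2 - v) / a, div_nonneg (by linarith) ha0.le, ?_, k, ?_⟩
  · rw [div_le_div_iff₀ ha0 hχ]
    have h4 : (k * S + θ * S / 2 - v) * χ ≤ S * χ :=
      mul_le_mul_of_nonneg_right (by linarith) hχ.le
    have h5 : 4 * S * (χ / 4) ≤ 4 * S * a := mul_le_mul_of_nonneg_left ha (by positivity)
    linarith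
  · rw [div_mul_cancel₀ _ ha0.ne']
    ring

theorem levels {ι : Type} (I : Finset ι) (N m : ℕ) (cell : ι → Fin N)
    (hm : ∀ j, ∀ s : Finset ι, s ⊆ I → (∀ i ∈ s, cell i = j) → s.card ≤ m)
    (v : ι → ℝ) (a : ι → Fin N → ℝ) (χ θ η : ℝ) (hχ : 0 < χ) (hχ1 : χ ≤ 1) (hθ : 0 < θ)
    (hθ1 : θ ≤ 1) (h1 : ∀ i ∈ I, χ / 4 ≤ a i (cell i)) (h2 : ∀ i ∈ I, a i (cell i) ≤ 2)
    (h3 : ∀ i ∈ I, ∑ j ∈ univ.erase (cell i), |a i j| ≤ η) (hη : η ≤ χ * θ / 128)
    (S : ℕ → ℝ) (hS : ∀ l, 0 < S l) (hSS : ∀ l, S (l + 1) ≤ χ * θ / 512 * S l) :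
    ∃ τ : Fin N → ℝ, (∀ j, 0 ≤ τ j ∧ τ j ≤ 8 * S 0 / χ) ∧
      ∀ i ∈ I, ∃ l < m, ∃ k : ℤ, k * S l + θ * S l / 4 ≤ v i + ∑ j, τ j * a i j ∧
        v i + ∑ j, τ j * a i j ≤ k * S l + θ * S l - θ * S l / 4 := by
  classical
  have hS2 : ∀ l, S (l + 1) ≤ S l / 512 := by
    intro l
    have := hS l
    have h5 : χ * θ ≤ 1 := mul_le_one₀ hχ1 hθ.le hθ1
    have h6 := hSS l
    nlinarith
  have key : ∀ n : ℕ, ∃ (τ : Fin N → ℝ) (cap : Finset ι),
      (∀ j, 0 ≤ τ j ∧ τ j ≤ 8 * (S 0 - S n) / χ) ∧
      (∀ i ∈ I, i ∈ cap → ∃ l < n, ∃ k : ℤ,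
        k * S l + (θ * S l / 4 + 10 * S n / χ) ≤ v i + ∑ j, τ j * a i j ∧
        v i + ∑ j, τ j * a i j ≤ k * S l + θ * S l - (θ * S l / 4 + 10 * S n / χ)) ∧
      ∀ j, ∀ s : Finset ι, s ⊆ I → (∀ i ∈ s, cell i = j ∧ i ∉ cap) → s.Nonempty →
        s.card + n ≤ m := by
    intro n
    induction n with
    | zero =>
      refine ⟨fun _ => 0, ∅, fun j => ⟨le_rfl, by simp⟩, ?_, ?_⟩
      · intro i _ hi
        simp at hi
      · intro j s hs hsj _
        rw [add_zero]
        exact hm j s hs (fun i hi => (hsj i hi).1)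
    | succ n ih =>
      obtain ⟨τ, cap, hτ, hcap, hcnt⟩ := ih
      -- choice of the new points and increments
      have hch : ∀ j : Fin N, ∃ t : ℝ, 0 ≤ t ∧ t ≤ 4 * S n / χ ∧
          ((∃ i ∈ I, cell i = j ∧ i ∉ cap) → ∃ i ∈ I, cell i = j ∧ i ∉ cap ∧ ∃ k : ℤ,
            v i + ∑ j, τ j * a i j + t * a i (cell i) = k * S n + θ * S n / 2) := by
        intro j
        by_cases hj : ∃ i ∈ I, cell i = j ∧ i ∉ cap
        · obtain ⟨i, hi, hij, hic⟩ := hj
          obtain ⟨t, ht0, ht1, k, hk⟩ := comb_step (v i + ∑ j, τ j * a i j) (S n) θ χ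
            (a i (cell i)) hχ (hS n) (h1 i hi)
          exact ⟨t, ht0, ht1, fun _ => ⟨i, hi, hij, hic, k, hk⟩⟩
        · exact ⟨0, le_rfl, by have := hS n; positivity, fun h => absurd h hj⟩
      choose t ht0 ht1 hti using hch
      have hsn := hS n
      have hsn1 := hS (n + 1)
      have hss := hS2 n
      -- the change of the value
      have hval : ∀ i, v i + ∑ j, (τ j + t j) * a i j = v i + ∑ j, τ j * a i j +
          t (cell i) * a i (cell i) + ∑ j ∈ univ.erase (cell i), t j * a i j := by
        intro i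
        have e1 : ∑ j, (τ j + t j) * a i j = ∑ j, τ j * a i j + ∑ j, t j * a i j := by
          rw [← sum_add_distrib]
          exact sum_congr rfl fun j _ => by ring
        rw [e1, ← add_sum_erase univ (fun j => t j * a i j) (mem_univ (cell i))]
        ring
      have hleak : ∀ i ∈ I, |∑ j ∈ univ.erase (cell i), t j * a i j| ≤ θ * S n / 32 := by
        intro i hi
        calc |∑ j ∈ univ.erase (cell i), t j * a i j|
            ≤ ∑ j ∈ univ.erase (cell i), |t j * a i j| := abs_sum_le_sum_abs _ _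
          _ ≤ ∑ j ∈ univ.erase (cell i), 4 * S n / χ * |a i j| := by
              refine sum_le_sum fun j _ => ?_
              rw [abs_mul, abs_of_nonneg (ht0 j)]
              exact mul_le_mul_of_nonneg_right (ht1 j) (abs_nonneg _)
          _ ≤ 4 * S n / χ * (χ * θ / 128) := by
              rw [← mul_sum]
              exact mul_le_mul_of_nonneg_left ((h3 i hi).trans hη) (by positivity)
          _ = θ * S n / 32 := by
              field_simp
              ring
      have hown : ∀ i ∈ I, 0 ≤ t (cell i) * a i (cell i) ∧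
          t (cell i) * a i (cell i) ≤ 8 * S n / χ := by
        intro i hi
        have ha0 : 0 ≤ a i (cell i) := le_trans (by positivity) (h1 i hi)
        refine ⟨mul_nonneg (ht0 _) ha0, ?_⟩
        calc t (cell i) * a i (cell i) ≤ 4 * S n / χ * 2 :=
              mul_le_mul (ht1 _) (h2 i hi) ha0 (by positivity)
          _ = 8 * S n / χ := by ring
      have hdiv : S n ≤ S n / χ := by
        rw [le_div_iff₀ hχ]
        nlinarith
      have hθS : θ * S n / 32 ≤ S n / χ := by nlinarith
      have hs1 : 10 * S (n + 1) / χ ≤ S n / χ := by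
        apply div_le_div_of_nonneg_right _ hχ.le
        linarith
      have hs2 : 10 * S (n + 1) / χ ≤ θ * S n / 8 := by
        rw [div_le_iff₀ hχ]
        have h6 := hSS n
        have h7 : 0 < χ * θ * S n := by positivity
        nlinarith
      refine ⟨fun j => τ j + t j, cap ∪ I.filter (fun i => ∃ k : ℤ,
        v i + ∑ j, τ j * a i j + t (cell i) * a i (cell i) = k * S n + θ * S n / 2), ?_, ?_, ?_⟩
      · intro j
        refine ⟨add_nonneg (hτ j).1 (ht0 j), ?_⟩
        have e1 := (hτ j).2
        have e2 := ht1 j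
        have e3 : 8 * (S 0 - S n) / χ + 4 * S n / χ ≤ 8 * (S 0 - S (n + 1)) / χ := by
          rw [← add_div]
          apply div_le_div_of_nonneg_right _ hχ.le
          linarith
        linarith
      · intro i hi hic
        rw [hval i]
        have hl := abs_le.1 (hleak i hi)
        have ho := hown i hi
        by_cases hc : i ∈ cap
        · obtain ⟨l, hl', k, hk1, hk2⟩ := hcap i hi hc
          have e1 : 10 * S n / χ = 8 * S n / χ + S n / χ + S n / χ := by ring
          refine ⟨l, Nat.lt_succ_of_lt hl', k, ?_, ?_⟩ <;> linarith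
        · have hic' : ∃ k : ℤ, v i + ∑ j, τ j * a i j + t (cell i) * a i (cell i) =
              k * S n + θ * S n / 2 := by
            rcases mem_union.1 hic with h | h
            · exact absurd h hc
            · exact (mem_filter.1 h).2
          obtain ⟨k, hk⟩ := hic'
          have hp : 0 < θ * S n := by positivity
          refine ⟨n, Nat.lt_succ_self n, k, ?_, ?_⟩ <;> linarith
      · intro j s hs hsj hne
        obtain ⟨i0, hi0⟩ := hne
        have hex : ∃ i ∈ I, cell i = j ∧ i ∉ cap :=
          ⟨i0, hs hi0, (hsj i0 hi0).1, fun h => (hsj i0 hi0).2 (mem_union_left _ h)⟩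
        obtain ⟨i, hi, hij, hic, k, hk⟩ := hti j hex
        have his : i ∉ s := by
          intro his
          apply (hsj i his).2
          apply mem_union_right
          rw [mem_filter]
          refine ⟨hi, k, ?_⟩
          rw [← hk, hij]
        have h8 := hcnt j (insert i s) (insert_subset hi hs) (by
          intro i' hi'
          rcases mem_insert.1 hi' with h | h
          · rw [h]; exact ⟨hij, hic⟩
          · exact ⟨(hsj i' h).1, fun h' => (hsj i' h).2 (mem_union_left _ h')⟩)
          (insert_nonempty i s)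
        rw [card_insert_of_notMem his] at h8
        omega
  obtain ⟨τ, cap, hτ, hcap, hcnt⟩ := key m
  refine ⟨τ, fun j => ⟨(hτ j).1, ?_⟩, ?_⟩
  · refine (hτ j).2.trans ?_
    apply div_le_div_of_nonneg_right _ hχ.le
    have := hS m
    linarith
  · intro i hi
    have hic : i ∈ cap := by
      by_contra hic
      have h9 := hcnt (cell i) {i} (singleton_subset_iff.2 hi) (by
        intro i' hi'
        rw [mem_singleton.1 hi']
        exact ⟨rfl, hic⟩) (singleton_nonempty i)
      rw [card_singleton] at h9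
      omega
    obtain ⟨l, hl, k, hk1, hk2⟩ := hcap i hi hic
    have h10 : 0 ≤ 10 * S m / χ := by
      have := hS m
      positivity
    exact ⟨l, hl, k, by linarith, by linarith⟩

end Pool.Agent.H85.LD
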