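import Pool.Agent.H85.LD.Rot

/-!
[H85 LD EXPINT]  `∫ exp(-2 √d sg(b,x)) dmu ≤ 4/d`.

Proof.  `n = ⌈√d⌉₊ + 1`.  With `t = √d sg b x ≤ √d`, `k = ⌊t⌋₊ < n`: `exp(-2t) ≤ exp(-2k)` and `sg b x ≤ (k+1)/√d`, so
`exp(-2t) ≤ ∑_{k < n} exp(-2k) 1[sg b x ≤ (k+1)/√d]` pointwise.  Integrate: `mu {sg b x ≤ ρ} ≤ ρ^2` for every `ρ ≥ 0` (`mu_disc` if
`ρ ≤ 1`, otherwise `1 ≤ ρ^2`), so the integral is `≤ ∑_{k<n} exp(-2k) (k+1)^2/d`; `(k+1)^2 ≤ 2 exp k` (`exp k ≥ 1 + k + k^2/2 ...`, or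
`k + 1 ≤ √2 exp(k/2)`: `k/2 + 1/2 ≤ exp(k/2 - 1/2)` gives `(k+1)^2 ≤ 4 exp(k-1) ≤ 2 exp k`), and `∑ 2 exp(-k) ≤ 2/(1 - 1/e) ≤ 4`.
-/

set_option autoImplicit false

open Polynomial MeasureTheory Real Finset ComplexConjugate

namespace Pool.Agent.H85.LD

private theorem xp_sq (k : ℕ) : Real.exp (-(2 * (k : ℝ))) * ((k : ℝ) + 1) ^ 2 ≤
    2 * (1 / 2 : ℝ) ^ k := by
  have h1 : (k : ℝ) / 2 + 1 / 2 ≤ Real.exp ((k : ℝ) / 2 - 1 / 2) := by
    have := Real.add_one_le_exp ((k : ℝ) / 2 - 1 / 2)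
    linarith
  have h2 : ((k : ℝ) + 1) ^ 2 ≤ 4 * Real.exp ((k : ℝ) - 1) := by
    have h3 : Real.exp ((k : ℝ) - 1) = Real.exp ((k : ℝ) / 2 - 1 / 2) ^ 2 := by
      rw [← Real.exp_nat_mul]
      congr 1
      push_cast
      ring
    rw [h3]
    have h4 : (0 : ℝ) ≤ (k : ℝ) / 2 + 1 / 2 := by positivity
    have h5 := pow_le_pow_left₀ h4 h1 2
    nlinarith [h5]
  have h6 : Real.exp (-1) ≤ 1 / 2 := by
    rw [Real.exp_neg, one_div]
    have h7 := Real.add_one_le_exp 1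
    have h8 : (1 : ℝ) + 1 = 2 := by norm_num
    rw [h8] at h7
    exact inv_anti₀ (by norm_num) h7
  calc Real.exp (-(2 * (k : ℝ))) * ((k : ℝ) + 1) ^ 2
      ≤ Real.exp (-(2 * (k : ℝ))) * (4 * Real.exp ((k : ℝ) - 1)) :=
        mul_le_mul_of_nonneg_left h2 (Real.exp_pos _).le
    _ = 4 * Real.exp (-1) * Real.exp (-1) ^ k := by
        have h9 : Real.exp (-1) ^ k = Real.exp (-(k : ℝ)) := by
          rw [← Real.exp_nat_mul]
          congr 1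
          ring
        rw [h9]
        have h10 : Real.exp (-(2 * (k : ℝ))) * (4 * Real.exp ((k : ℝ) - 1)) =
            4 * (Real.exp (-(2 * (k : ℝ))) * Real.exp ((k : ℝ) - 1)) := by ring
        rw [h10, ← Real.exp_add, mul_assoc, ← Real.exp_add]
        congr 2
        ring
    _ ≤ 4 * (1 / 2) * (1 / 2) ^ k := by
        refine mul_le_mul ?_ (pow_le_pow_left₀ (Real.exp_pos _).le h6 k) (by positivity)
          (by norm_num)
        linarith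
    _ = 2 * (1 / 2 : ℝ) ^ k := by norm_num

private theorem xp_meas (b : ℂ) (r : ℝ) : MeasurableSet {x | sg b x ≤ r} := by
  have h1 : IsClosed {x | sg b x ≤ r} :=
    isClosed_le (sg_continuous.comp (Continuous.prodMk_right b)) continuous_const
  exact h1.measurableSet

private theorem xp_disc (b : ℂ) (r : ℝ) (hr : 0 ≤ r) : mu.real {x | sg b x ≤ r} ≤ r ^ 2 := by
  rcases le_or_gt r 1 with h | h
  · rw [Measure.real, mu_disc b r hr h, ENNReal.toReal_ofReal (by positivity)]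
  · refine le_trans (measureReal_le_one) ?_
    nlinarith

theorem exp_int (d : ℕ) (hd : 1 ≤ d) (b : ℂ) :
    ∫ x, Real.exp (-(2 * (√d * sg b x))) ∂mu ≤ 4 / d := by
  have hd0 : (0 : ℝ) < d := by exact_mod_cast hd
  have hs : 0 < √(d : ℝ) := Real.sqrt_pos.2 hd0
  have hss : √(d : ℝ) ^ 2 = d := Real.sq_sqrt hd0.le
  have hint : ∀ (k : ℕ), Integrable (fun x => Real.exp (-(2 * (k : ℝ))) *
      ({x | sg b x ≤ ((k : ℝ) + 1) / √(d : ℝ)}.indicator (fun _ => (1 : ℝ)) x)) mu := by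
    intro k
    exact ((integrable_const (1 : ℝ)).indicator (xp_meas b _)).const_mul _
  have hpt : ∀ x : ℂ, Real.exp (-(2 * (√d * sg b x))) ≤
      ∑ k ∈ Finset.range (⌊√(d : ℝ)⌋₊ + 1), Real.exp (-(2 * (k : ℝ))) *
      ({x | sg b x ≤ ((k : ℝ) + 1) / √(d : ℝ)}.indicator (fun _ => (1 : ℝ)) x) := by
    intro x
    have h0 : 0 ≤ √(d : ℝ) * sg b x := mul_nonneg hs.le (sg_nonneg b x)
    have h1 : √(d : ℝ) * sg b x ≤ √(d : ℝ) := by
      have := mul_le_mul_of_nonneg_left (sg_le_one b x) hs.le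
      linarith
    have h2 : ⌊√(d : ℝ) * sg b x⌋₊ ∈ Finset.range (⌊√(d : ℝ)⌋₊ + 1) := by
      rw [Finset.mem_range]
      exact Nat.lt_succ_of_le (Nat.floor_le_floor h1)
    refine le_trans ?_ (Finset.single_le_sum (f := fun k : ℕ => Real.exp (-(2 * (k : ℝ))) *
      ({x | sg b x ≤ ((k : ℝ) + 1) / √(d : ℝ)}.indicator (fun _ => (1 : ℝ)) x)) ?_ h2)
    · have h3 : x ∈ {x | sg b x ≤ ((⌊√(d : ℝ) * sg b x⌋₊ : ℝ) + 1) / √(d : ℝ)} := by
        show sg b x ≤ _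
        rw [le_div_iff₀ hs, mul_comm]
        exact (Nat.lt_floor_add_one _).le
      show _ ≤ Real.exp (-(2 * ((⌊√(d : ℝ) * sg b x⌋₊ : ℕ) : ℝ))) *
        ({y | sg b y ≤ ((⌊√(d : ℝ) * sg b x⌋₊ : ℝ) + 1) / √(d : ℝ)}.indicator
          (fun _ => (1 : ℝ)) x)
      have h4 : ({y | sg b y ≤ ((⌊√(d : ℝ) * sg b x⌋₊ : ℝ) + 1) / √(d : ℝ)}.indicator
          (fun _ => (1 : ℝ)) x) = 1 := by
        apply Set.indicator_of_mem
        show sg b x ≤ _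
        rw [le_div_iff₀ hs, mul_comm]
        exact (Nat.lt_floor_add_one _).le
      rw [h4, mul_one, Real.exp_le_exp]
      have h5 := Nat.floor_le h0
      linarith
    · intro k _
      exact mul_nonneg (Real.exp_pos _).le (Set.indicator_nonneg (fun _ _ => zero_le_one) _)
  have hI : ∫ x, Real.exp (-(2 * (√d * sg b x))) ∂mu ≤
      ∫ x, ∑ k ∈ Finset.range (⌊√(d : ℝ)⌋₊ + 1), Real.exp (-(2 * (k : ℝ))) *
      ({x | sg b x ≤ ((k : ℝ) + 1) / √(d : ℝ)}.indicator (fun _ => (1 : ℝ)) x) ∂mu := by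
    refine integral_mono_of_nonneg (Filter.Eventually.of_forall fun x => (Real.exp_pos _).le)
      (integrable_finsetSum _ fun k _ => hint k) (Filter.Eventually.of_forall hpt)
  refine hI.trans ?_
  rw [integral_finsetSum _ fun k _ => hint k]
  have hk : ∀ k ∈ Finset.range (⌊√(d : ℝ)⌋₊ + 1), ∫ x, Real.exp (-(2 * (k : ℝ))) *
      ({x | sg b x ≤ ((k : ℝ) + 1) / √(d : ℝ)}.indicator (fun _ => (1 : ℝ)) x) ∂mu ≤
      2 * (1 / 2 : ℝ) ^ k / d := by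
    intro k _
    rw [integral_const_mul, integral_indicator_const _ (xp_meas b _), smul_eq_mul, mul_one]
    have h1 := xp_disc b (((k : ℝ) + 1) / √(d : ℝ)) (by positivity)
    rw [div_pow, hss] at h1
    calc Real.exp (-(2 * (k : ℝ))) * mu.real {x | sg b x ≤ ((k : ℝ) + 1) / √(d : ℝ)}
        ≤ Real.exp (-(2 * (k : ℝ))) * (((k : ℝ) + 1) ^ 2 / d) :=
          mul_le_mul_of_nonneg_left h1 (Real.exp_pos _).le
      _ = (Real.exp (-(2 * (k : ℝ))) * ((k : ℝ) + 1) ^ 2) / d := by ring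
      _ ≤ _ := div_le_div_of_nonneg_right (xp_sq k) hd0.le
  refine (Finset.sum_le_sum hk).trans ?_
  rw [← Finset.sum_div, ← Finset.mul_sum]
  have h1 := sum_geometric_two_le (⌊√(d : ℝ)⌋₊ + 1)
  refine div_le_div_of_nonneg_right ?_ hd0.le
  linarith

end Pool.Agent.H85.LD
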