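import Pool.Agent.H85.LD.Sub
import Pool.Agent.H85.LD.ExpInt
import Pool.Agent.H85.LD.NDefs

/-!
[H85 LD ENV]  The envelope.

Proof.  `g = wm d P + wm d Q` (continuous, bounded: `wm_bdd`), `I z = ∫ g(y)^2 exp(-2 √d sg z y) dmu(y)`, `w z = √(180 (d+1) I z)`.
* `env_pos`: `I z > 0`: the integrand is continuous, nonnegative and not identically zero (a nonzero polynomial has only finitely
  many roots), `mu` is positive on nonempty open sets (density positive; `Continuous.integral_pos_of_hasCompactSupport_...`, or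
  `integral_pos_iff_support_of_nonneg` and `mu U = 0 → volume U = 0` because the density does not vanish).
* `Wgt`: `sg x y ≥ sg z y - sg z x` (`sg_tri`), so `I x ≤ exp(2 √d sg z x) I z`, take square roots.
* `Continuous w`: from `Wgt`: `w z exp(-√d sg z x) ≤ w x ≤ w z exp(√d sg z x)` and `sg z x → 0` as `x → z` (`sg_continuous`, `sg_self`); or dominated
  convergence.
* `g z ≤ w z`: `g(z)^2 ≤ 2 (wm P z)^2 + 2 (wm Q z)^2 ≤ 2 * 90 d ∫ (wm P^2 + wm Q^2) exp(..) ≤ 180 (d+1) I z` (`submean_exp` with `x = z`).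
* integral: `∫ w^2 = 180 (d+1) ∫ I`, Tonelli (bounded measurable integrand on a product of probability measures,
  `integral_integral_swap`), `∫ exp(-2 √d sg z y) dmu(z) ≤ 4/d` (`exp_int`, `sg_comm`): `∫ I ≤ (4/d) ∫ g^2 ≤ (8/d) ∫ (wm P^2 + wm Q^2)
  = (8/(d (d+1))) (Nd P + Nd Q)` (`Nd_eq`); so `(d+1) ∫ w^2 ≤ 180 (d+1)^2 8/(d (d+1)) (..) ≤ 2880 (Nd P + Nd Q)`.
-/

set_option autoImplicit false

open Polynomial MeasureTheory Real Finset ComplexConjugate

namespace Pool.Agent.H85.LD

/-- the square of the envelope, up to a constant -/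
noncomputable def envI (d : ℕ) (P Q : ℂ[X]) (z : ℂ) : ℝ :=
  ∫ y, (wm d P y + wm d Q y) ^ 2 * Real.exp (-(2 * (√d * sg z y))) ∂mu

private theorem evx_cont (d : ℕ) (P Q : ℂ[X]) : Continuous fun p : ℂ × ℂ =>
    (wm d P p.2 + wm d Q p.2) ^ 2 * Real.exp (-(2 * (√d * sg p.1 p.2))) := by
  have h1 : Continuous fun p : ℂ × ℂ => wm d P p.2 := (wm_continuous d P).comp continuous_snd
  have h2 : Continuous fun p : ℂ × ℂ => wm d Q p.2 := (wm_continuous d Q).comp continuous_snd
  have h3 := sg_continuous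
  fun_prop

private theorem evx_bdd (d : ℕ) (P Q : ℂ[X]) (hP : P.natDegree ≤ d) (hQ : Q.natDegree ≤ d) :
    ∃ B : ℝ, ∀ z y, ‖(wm d P y + wm d Q y) ^ 2 * Real.exp (-(2 * (√d * sg z y)))‖ ≤ B := by
  obtain ⟨B1, hB1⟩ := wm_bdd d P hP
  obtain ⟨B2, hB2⟩ := wm_bdd d Q hQ
  refine ⟨(B1 + B2) ^ 2, fun z y => ?_⟩
  have h1 := wm_nonneg d P y
  have h2 := wm_nonneg d Q y
  have h3 := sg_nonneg z y
  rw [Real.norm_of_nonneg (by positivity)]
  refine (mul_le_of_le_one_right (by positivity) ?_).trans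
    (pow_le_pow_left₀ (by positivity) (add_le_add (hB1 y) (hB2 y)) 2)
  rw [Real.exp_le_one_iff]
  have : 0 ≤ 2 * (√(d : ℝ) * sg z y) := by positivity
  linarith

private theorem evx_int (d : ℕ) (P Q : ℂ[X]) (hP : P.natDegree ≤ d) (hQ : Q.natDegree ≤ d)
    (z : ℂ) : Integrable (fun y => (wm d P y + wm d Q y) ^ 2 *
      Real.exp (-(2 * (√d * sg z y)))) mu := by
  obtain ⟨B, hB⟩ := evx_bdd d P Q hP hQ
  refine Integrable.of_bound ?_ B (Filter.Eventually.of_forall (hB z))
  exact ((evx_cont d P Q).comp (Continuous.prodMk_right z)).aestronglyMeasurable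

theorem env_pos (d : ℕ) (P Q : ℂ[X]) (hP : P.natDegree ≤ d) (hQ : Q.natDegree ≤ d)
    (h : P ≠ 0 ∨ Q ≠ 0) (z : ℂ) : 0 < envI d P Q z := by
  have key : ∀ G : ℂ[X], G ≠ 0 → ∃ x, 0 < wm d G x := by
    intro G hG
    by_contra hcon
    push Not at hcon
    apply hG
    apply Polynomial.funext
    intro x
    have h1 := hcon x
    have h2 := wm_nonneg d G x
    have h3 : wm d G x = 0 := le_antisymm h1 h2
    unfold wm at h3
    rw [div_eq_zero_iff] at h3
    rcases h3 with h3 | h3
    · simpa using h3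
    · exfalso
      have : 0 < √((1 + ‖x‖ ^ 2) ^ d) := by positivity
      linarith
  have hex : ∃ x, 0 < wm d P x + wm d Q x := by
    rcases h with h | h
    · obtain ⟨x, hx⟩ := key P h
      exact ⟨x, by have := wm_nonneg d Q x; linarith⟩
    · obtain ⟨x, hx⟩ := key Q h
      exact ⟨x, by have := wm_nonneg d P x; linarith⟩
  obtain ⟨x, hx⟩ := hex
  unfold envI
  rw [integral_pos_iff_support_of_nonneg ?_ (evx_int d P Q hP hQ z)]
  · have hopen : IsOpen (Function.support fun y => (wm d P y + wm d Q y) ^ 2 *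
        Real.exp (-(2 * (√d * sg z y)))) :=
      (((evx_cont d P Q).comp (Continuous.prodMk_right z))).isOpen_support
    have hne : (Function.support fun y => (wm d P y + wm d Q y) ^ 2 *
        Real.exp (-(2 * (√d * sg z y)))).Nonempty :=
      ⟨x, by
        rw [Function.mem_support]
        positivity⟩
    have hv := hopen.measure_pos (volume : Measure ℂ) hne
    have hac : (volume : Measure ℂ) ≪ mu := by
      unfold mu
      refine withDensity_absolutelyContinuous' ?_ ?_
      · refine Measurable.aemeasurable ?_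
        fun_prop
      · refine Filter.Eventually.of_forall fun y => ?_
        rw [ne_eq, ENNReal.ofReal_eq_zero, not_le]
        positivity
    by_contra hcon
    rw [not_lt, nonpos_iff_eq_zero] at hcon
    exact hv.ne' (hac hcon)
  · intro y
    have := wm_nonneg d P y
    positivity

theorem env_lip (d : ℕ) (P Q : ℂ[X]) (hP : P.natDegree ≤ d) (hQ : Q.natDegree ≤ d) (z x : ℂ) :
    envI d P Q x ≤ Real.exp (2 * (√d * sg z x)) * envI d P Q z := by
  unfold envI
  rw [← integral_const_mul]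
  refine integral_mono (evx_int d P Q hP hQ x) ((evx_int d P Q hP hQ z).const_mul _) fun y => ?_
  have h1 := sg_tri z x y
  have h2 : 0 ≤ √(d : ℝ) := Real.sqrt_nonneg _
  calc (wm d P y + wm d Q y) ^ 2 * Real.exp (-(2 * (√d * sg x y)))
      ≤ (wm d P y + wm d Q y) ^ 2 * (Real.exp (2 * (√d * sg z x)) *
        Real.exp (-(2 * (√d * sg z y)))) := by
        refine mul_le_mul_of_nonneg_left ?_ (by positivity)
        rw [← Real.exp_add, Real.exp_le_exp]
        have := mul_le_mul_of_nonneg_left h1 h2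
        linarith
    _ = _ := by ring

private theorem evx_envc (d : ℕ) (P Q : ℂ[X]) (hP : P.natDegree ≤ d) (hQ : Q.natDegree ≤ d) :
    Continuous (envI d P Q) := by
  obtain ⟨B, hB⟩ := evx_bdd d P Q hP hQ
  unfold envI
  refine continuous_of_dominated (bound := fun _ => B) ?_ ?_ (integrable_const _) ?_
  · intro z
    exact ((evx_cont d P Q).comp (Continuous.prodMk_right z)).aestronglyMeasurable
  · intro z
    exact Filter.Eventually.of_forall (hB z)
  · refine Filter.Eventually.of_forall fun y => ?_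
    exact (evx_cont d P Q).comp (Continuous.prodMk_left y)

theorem env_int (d : ℕ) (hd : 1 ≤ d) (P Q : ℂ[X]) (hP : P.natDegree ≤ d)
    (hQ : Q.natDegree ≤ d) : Integrable (envI d P Q) mu ∧
      ∫ z, envI d P Q z ∂mu ≤ 8 / (d * (d + 1)) * (Nd d P + Nd d Q) := by
  obtain ⟨B, hB⟩ := evx_bdd d P Q hP hQ
  have hd0 : (0 : ℝ) < d := by exact_mod_cast hd
  have hprod : Integrable (Function.uncurry fun z y : ℂ => (wm d P y + wm d Q y) ^ 2 *
      Real.exp (-(2 * (√d * sg z y)))) (mu.prod mu) := by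
    refine Integrable.of_bound ?_ B (Filter.Eventually.of_forall fun p => hB p.1 p.2)
    exact (evx_cont d P Q).aestronglyMeasurable
  have hI : Integrable (envI d P Q) mu := hprod.integral_prod_left
  refine ⟨hI, ?_⟩
  have h1 : ∫ z, envI d P Q z ∂mu = ∫ y, ∫ z, (wm d P y + wm d Q y) ^ 2 *
      Real.exp (-(2 * (√d * sg z y))) ∂mu ∂mu := by
    unfold envI
    exact integral_integral_swap hprod
  rw [h1]
  have hP2 : Integrable (fun y => wm d P y ^ 2) mu := by
    obtain ⟨B1, hB1⟩ := wm_bdd d P hP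
    refine Integrable.of_bound ((wm_continuous d P).pow 2).aestronglyMeasurable (B1 ^ 2) ?_
    refine Filter.Eventually.of_forall fun x => ?_
    rw [Real.norm_of_nonneg (by positivity)]
    exact pow_le_pow_left₀ (wm_nonneg d P x) (hB1 x) 2
  have hQ2 : Integrable (fun y => wm d Q y ^ 2) mu := by
    obtain ⟨B1, hB1⟩ := wm_bdd d Q hQ
    refine Integrable.of_bound ((wm_continuous d Q).pow 2).aestronglyMeasurable (B1 ^ 2) ?_
    refine Filter.Eventually.of_forall fun x => ?_
    rw [Real.norm_of_nonneg (by positivity)]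
    exact pow_le_pow_left₀ (wm_nonneg d Q x) (hB1 x) 2
  have h2 : ∀ y, ∫ z, (wm d P y + wm d Q y) ^ 2 * Real.exp (-(2 * (√d * sg z y))) ∂mu ≤
      8 / d * (wm d P y ^ 2 + wm d Q y ^ 2) := by
    intro y
    rw [integral_const_mul]
    have h3 := exp_int d hd y
    have h4 : ∫ z, Real.exp (-(2 * (√d * sg z y))) ∂mu =
        ∫ z, Real.exp (-(2 * (√d * sg y z))) ∂mu := by
      refine integral_congr_ae (Filter.Eventually.of_forall fun z => ?_)
      simp only
      rw [sg_comm]
    rw [h4]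
    calc (wm d P y + wm d Q y) ^ 2 * ∫ z, Real.exp (-(2 * (√d * sg y z))) ∂mu
        ≤ (wm d P y + wm d Q y) ^ 2 * (4 / d) := mul_le_mul_of_nonneg_left h3 (by positivity)
      _ ≤ (2 * (wm d P y ^ 2 + wm d Q y ^ 2)) * (4 / d) := by
          refine mul_le_mul_of_nonneg_right ?_ (by positivity)
          nlinarith [sq_nonneg (wm d P y - wm d Q y)]
      _ = _ := by ring
  calc ∫ y, ∫ z, (wm d P y + wm d Q y) ^ 2 * Real.exp (-(2 * (√d * sg z y))) ∂mu ∂mu
      ≤ ∫ y, 8 / d * (wm d P y ^ 2 + wm d Q y ^ 2) ∂mu := by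
        refine integral_mono hprod.integral_prod_right ((hP2.add hQ2).const_mul _) h2
    _ = 8 / d * (∫ y, wm d P y ^ 2 ∂mu + ∫ y, wm d Q y ^ 2 ∂mu) := by
        rw [integral_const_mul, integral_add hP2 hQ2]
    _ = _ := by
        rw [Nd_eq d P hP, Nd_eq d Q hQ]
        have : (d : ℝ) + 1 ≠ 0 := by positivity
        field_simp

theorem exists_env : ∃ C0 : ℝ, 0 < C0 ∧ ∀ d : ℕ, 1 ≤ d → ∀ P Q : ℂ[X], P.natDegree ≤ d →
    Q.natDegree ≤ d → (P ≠ 0 ∨ Q ≠ 0) → ∃ w : ℂ → ℝ, Wgt d w ∧ Continuous w ∧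
      (∀ z, wm d P z + wm d Q z ≤ w z) ∧ Integrable (fun z => w z ^ 2) mu ∧
      (d + 1) * ∫ z, w z ^ 2 ∂mu ≤ C0 * (Nd d P + Nd d Q) := by
  refine ⟨2880, by norm_num, fun d hd P Q hP hQ h => ?_⟩
  have hd0 : (0 : ℝ) < d := by exact_mod_cast hd
  have hd1 : (1 : ℝ) ≤ d := by exact_mod_cast hd
  have hpos := env_pos d P Q hP hQ h
  have hsq : ∀ z, √(180 * (d + 1) * envI d P Q z) ^ 2 = 180 * (d + 1) * envI d P Q z := by
    intro z
    have := hpos z
    exact Real.sq_sqrt (by positivity)
  refine ⟨fun z => √(180 * (d + 1) * envI d P Q z), ⟨?_, ?_⟩, ?_, ?_, ?_, ?_⟩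
  · intro z
    have := hpos z
    positivity
  · intro z x
    have h1 := env_lip d P Q hP hQ z x
    have h2 := hpos z
    rw [← Real.sqrt_sq (Real.exp_pos (√d * sg z x)).le, ← Real.sqrt_mul (by positivity)]
    apply Real.sqrt_le_sqrt
    have h3 : Real.exp (√d * sg z x) ^ 2 = Real.exp (2 * (√d * sg z x)) := by
      rw [← Real.exp_nat_mul]
      norm_num
    rw [h3]
    have h4 : (0 : ℝ) ≤ 180 * (d + 1) := by positivity
    calc 180 * (d + 1) * envI d P Q x ≤ 180 * (d + 1) *
          (Real.exp (2 * (√d * sg z x)) * envI d P Q z) := mul_le_mul_of_nonneg_left h1 h4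
      _ = _ := by ring
  · exact Real.continuous_sqrt.comp (continuous_const.mul (evx_envc d P Q hP hQ))
  · intro z
    have h1 := submean_exp d hd P hP z z
    have h2 := submean_exp d hd Q hQ z z
    rw [sg_self, mul_zero, mul_zero, neg_zero, Real.exp_zero, mul_one] at h1 h2
    have hz1 := wm_nonneg d P z
    have hz2 := wm_nonneg d Q z
    apply Real.le_sqrt_of_sq_le
    have key : ∀ G : ℂ[X], G.natDegree ≤ d → (∀ y, wm d G y ≤ wm d P y + wm d Q y) →
        ∫ y, wm d G y ^ 2 * Real.exp (-(2 * (√d * sg z y))) ∂mu ≤ envI d P Q z := by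
      intro G hG hle
      unfold envI
      refine integral_mono_of_nonneg (Filter.Eventually.of_forall fun y => ?_)
        (evx_int d P Q hP hQ z) (Filter.Eventually.of_forall fun y => ?_)
      · simp only [Pi.zero_apply]
        positivity
      · simp only
        exact mul_le_mul_of_nonneg_right (pow_le_pow_left₀ (wm_nonneg d G y) (hle y) 2)
          (Real.exp_pos _).le
    have hk : ∫ y, wm d P y ^ 2 * Real.exp (-(2 * (√d * sg z y))) ∂mu +
        ∫ y, wm d Q y ^ 2 * Real.exp (-(2 * (√d * sg z y))) ∂mu ≤ envI d P Q z := by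
      have hiP : Integrable (fun y => wm d P y ^ 2 * Real.exp (-(2 * (√d * sg z y)))) mu := by
        have := evx_int d P 0 hP (by simp) z
        simpa [wm] using this
      have hiQ : Integrable (fun y => wm d Q y ^ 2 * Real.exp (-(2 * (√d * sg z y)))) mu := by
        have := evx_int d Q 0 hQ (by simp) z
        simpa [wm] using this
      rw [← integral_add hiP hiQ]
      unfold envI
      refine integral_mono (hiP.add hiQ) (evx_int d P Q hP hQ z) fun y => ?_
      have hy1 := wm_nonneg d P y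
      have hy2 := wm_nonneg d Q y
      have he := (Real.exp_pos (-(2 * (√d * sg z y)))).le
      calc wm d P y ^ 2 * Real.exp (-(2 * (√d * sg z y))) +
            wm d Q y ^ 2 * Real.exp (-(2 * (√d * sg z y)))
          = (wm d P y ^ 2 + wm d Q y ^ 2) * Real.exp (-(2 * (√d * sg z y))) := by ring
        _ ≤ _ := by
            refine mul_le_mul_of_nonneg_right ?_ he
            nlinarith [mul_nonneg hy1 hy2]
    have h3 := hpos z
    calc (wm d P z + wm d Q z) ^ 2 ≤ 2 * (wm d P z ^ 2 + wm d Q z ^ 2) := by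
          nlinarith [sq_nonneg (wm d P z - wm d Q z)]
      _ ≤ 2 * (90 * d * envI d P Q z) := by
          have : wm d P z ^ 2 + wm d Q z ^ 2 ≤ 90 * d *
              (∫ y, wm d P y ^ 2 * Real.exp (-(2 * (√d * sg z y))) ∂mu +
              ∫ y, wm d Q y ^ 2 * Real.exp (-(2 * (√d * sg z y))) ∂mu) := by
            rw [mul_add]
            exact add_le_add h1 h2
          have h5 := mul_le_mul_of_nonneg_left hk (show (0 : ℝ) ≤ 90 * d by positivity)
          linarith
      _ ≤ 180 * (d + 1) * envI d P Q z := by nlinarith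
  · simp only [hsq]
    exact (env_int d hd P Q hP hQ).1.const_mul _
  · simp only [hsq]
    rw [integral_const_mul]
    have h1 := (env_int d hd P Q hP hQ).2
    have hN : 0 ≤ Nd d P + Nd d Q := by
      unfold Nd
      positivity
    calc (d + 1) * (180 * (d + 1) * ∫ z, envI d P Q z ∂mu)
        ≤ (d + 1) * (180 * (d + 1) * (8 / (d * (d + 1)) * (Nd d P + Nd d Q))) := by
          gcongr
      _ = 1440 * ((d + 1) / d) * (Nd d P + Nd d Q) := by
          field_simp
          ring
      _ ≤ 2880 * (Nd d P + Nd d Q) := by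
          refine mul_le_mul_of_nonneg_right ?_ hN
          have : ((d : ℝ) + 1) / d ≤ 2 := by
            rw [div_le_iff₀ hd0]
            linarith
          linarith

end Pool.Agent.H85.LD
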