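import Pool.Agent.H85.LD.NDefs
import Pool.Agent.H85.LD.Cau

/-!
[H85 LD LOCALL]  From the grid to all points of the chart.

Proofs.
* `grid`: round the real and imaginary parts of `K u` towards `0`: `z.1 = ⌊K u.re⌋` if `0 ≤ u.re`, else `⌈K u.re⌉`; then
  `|z.1| ≤ K |u.re|`, so `‖gz z‖ ≤ K ‖u‖`, and the differences of the coordinates are at most `1`, `√2 ≤ 3/2`.
* `local_all`: write `M = 4 * 10^5`, `v` for the grid point near `u`.
  (C1) If `‖p u‖ + ‖q u‖ < r ω`: `v` with `‖v - u‖ ≤ 3/(2 K1) ≤ 3 r/2`, `‖p v‖ ≤ r ω + M ω 3 r/2` (`cau_lip`, `ρ = 1`), `‖pt v‖ ≤ ... + r^8/10^7 ω ≤ AA r ω`,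
  same for `qt`: contradicts `h1`.
  (C2) If `‖q u‖ < r^8 ω` and `‖q' u‖ < r^4 ω`: `‖v - u‖ ≤ 3 r^4/2`, `cau_tay`: `‖q v‖ ≤ r^8 ω + r^4 ω 3 r^4/2 + M ω (3 r^4/2)^2`,
  `‖q' v‖ ≤ r^4 ω + M ω 3 r^4/2`; `‖(q - qt)' v‖ ≤ r^8/10^7 ω` (`cau` for `q - qt`); all below `AA r^8 ω`, `AA r^4 ω`: contradicts `h2`.
  (C3) `W = p' q - p q'` is entire with derivative `W1 = p'' q - p q''`; on `‖u‖ ≤ 3` `‖p'‖, ‖q'‖ ≤ M ω` (`cau`, `ρ = 3`), so `‖W‖ ≤ 2 M^2 ω^2` and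
  `cau_tay` applies to `W`: `‖W v‖ ≤ r^8 ω^2 + r^4 ω^2 3 r^4/2 + 2 M^2 ω^2 (3 r^4/2)^2`, `‖W1 v‖ ≤ r^4 ω^2 + 2 M^2 ω^2 3 r^4/2`.
  `Wt` (of `pt, qt`): `W - Wt = (p-pt)' q + pt' (q-qt) - (p-pt) q' - pt (q-qt)'`, on `‖u‖ ≤ 3` at most `4 (r^8/10^7) ω (M + 1) ω ≤ r^8 ω^2`
  (`cau` for the differences), so its derivative `W1 - Wt1` is at most `r^8 ω^2` on `‖u‖ ≤ 1` (`cau`).  And `‖pt v‖ + ‖qt v‖ ≥ r ω - 2 r^8/10^7 ω ≥ r ω/2`
  by (C1) at `v`.  Total below `AA r^8 ω^2`, `AA r^4 ω^2` (`2 M^2 = 3.2 * 10^11`): contradicts `h3`.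
-/

set_option autoImplicit false

open Polynomial MeasureTheory Real Finset ComplexConjugate

namespace Pool.Agent.H85.LD

/-- rounding towards zero -/
private theorem la_round (x : ℝ) : ∃ n : ℤ, |(n : ℝ)| ≤ |x| ∧ |(n : ℝ) - x| ≤ 1 := by
  rcases le_total 0 x with h | h
  · refine ⟨⌊x⌋, ?_, ?_⟩
    · have h1 : (0 : ℝ) ≤ (⌊x⌋ : ℝ) := by exact_mod_cast Int.floor_nonneg.2 h
      rw [abs_of_nonneg h1, abs_of_nonneg h]
      exact Int.floor_le x
    · rw [abs_le]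
      have h1 := Int.floor_le x
      have h2 := Int.lt_floor_add_one x
      constructor <;> linarith
  · refine ⟨⌈x⌉, ?_, ?_⟩
    · have h1 : (⌈x⌉ : ℝ) ≤ 0 := by exact_mod_cast Int.ceil_nonpos.2 h
      rw [abs_of_nonpos h1, abs_of_nonpos h]
      exact neg_le_neg (Int.le_ceil x)
    · rw [abs_le]
      have h1 := Int.le_ceil x
      have h2 := Int.ceil_lt_add_one x
      constructor <;> linarith

theorem grid (u : ℂ) (hu : ‖u‖ ≤ 1) (K : ℕ) (hK : 1 ≤ K) :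
    ∃ z ∈ box K, ‖gz z / (K : ℂ)‖ ≤ 1 ∧ ‖gz z / (K : ℂ) - u‖ ≤ 3 / (2 * K) := by
  have hK0 : (0 : ℝ) < K := by exact_mod_cast hK
  obtain ⟨m, hm1, hm2⟩ := la_round (K * u.re)
  obtain ⟨n, hn1, hn2⟩ := la_round (K * u.im)
  have hre : |u.re| ≤ 1 := (Complex.abs_re_le_norm u).trans hu
  have him : |u.im| ≤ 1 := (Complex.abs_im_le_norm u).trans hu
  have hm3 : |(m : ℝ)| ≤ K := by
    refine hm1.trans ?_
    rw [abs_mul, abs_of_pos hK0]
    nlinarith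
  have hn3 : |(n : ℝ)| ≤ K := by
    refine hn1.trans ?_
    rw [abs_mul, abs_of_pos hK0]
    nlinarith
  have hgz : gz (m, n) = ⟨(m : ℝ), (n : ℝ)⟩ := by
    unfold gz
    apply Complex.ext <;> simp
  have husq : ‖u‖ ^ 2 = u.re ^ 2 + u.im ^ 2 := by
    rw [← Complex.normSq_eq_norm_sq, Complex.normSq_apply]
    ring
  have hgsq : ‖gz (m, n)‖ ^ 2 = (m : ℝ) ^ 2 + (n : ℝ) ^ 2 := by
    rw [← Complex.normSq_eq_norm_sq, Complex.normSq_apply, hgz]
    ring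
  have hKn : ‖(K : ℂ)‖ = K := by
    rw [Complex.norm_natCast]
  refine ⟨(m, n), ?_, ?_, ?_⟩
  · unfold box
    rw [abs_le] at hm3 hn3
    simp only [Finset.mem_product, Finset.mem_Icc]
    refine ⟨⟨?_, ?_⟩, ?_, ?_⟩
    · exact_mod_cast hm3.1
    · exact_mod_cast hm3.2
    · exact_mod_cast hn3.1
    · exact_mod_cast hn3.2
  · rw [norm_div, hKn, div_le_one hK0]
    have h1 : ‖gz (m, n)‖ ^ 2 ≤ (K : ℝ) ^ 2 := by
      rw [hgsq]
      have h2 : (m : ℝ) ^ 2 ≤ (K * u.re) ^ 2 := sq_le_sq.2 hm1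
      have h3 : (n : ℝ) ^ 2 ≤ (K * u.im) ^ 2 := sq_le_sq.2 hn1
      have h4 : u.re ^ 2 + u.im ^ 2 ≤ 1 := by
        rw [← husq]
        exact pow_le_one₀ (norm_nonneg _) hu
      have h5 : (K : ℝ) ^ 2 * (u.re ^ 2 + u.im ^ 2) ≤ (K : ℝ) ^ 2 * 1 :=
        mul_le_mul_of_nonneg_left h4 (sq_nonneg _)
      nlinarith
    exact (pow_le_pow_iff_left₀ (norm_nonneg _) hK0.le two_ne_zero).1 h1
  · have hKc : (K : ℂ) ≠ 0 := by exact_mod_cast hK0.ne'
    have h1 : gz (m, n) / (K : ℂ) - u = (gz (m, n) - K * u) / (K : ℂ) := by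
      field_simp
    rw [h1, norm_div, hKn, div_le_div_iff₀ hK0 (by positivity)]
    have h2 : ‖gz (m, n) - K * u‖ ^ 2 ≤ (3 / 2) ^ 2 := by
      have h3 : ‖gz (m, n) - K * u‖ ^ 2 = ((m : ℝ) - K * u.re) ^ 2 + ((n : ℝ) - K * u.im) ^ 2 := by
        rw [← Complex.normSq_eq_norm_sq, Complex.normSq_apply, hgz]
        simp
        ring
      rw [h3]
      have h4 : ((m : ℝ) - K * u.re) ^ 2 ≤ 1 ^ 2 := sq_le_sq.2 (by rw [abs_one]; exact hm2)
      have h5 : ((n : ℝ) - K * u.im) ^ 2 ≤ 1 ^ 2 := sq_le_sq.2 (by rw [abs_one]; exact hn2)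
      linarith
    have h3 : ‖gz (m, n) - K * u‖ ≤ 3 / 2 :=
      (pow_le_pow_iff_left₀ (norm_nonneg _) (by norm_num) two_ne_zero).1 h2
    nlinarith

theorem local_all (ω r : ℝ) (hω : 0 < ω) (hr : 0 < r) (hr1 : r ≤ 1) (K K1 : ℕ)
    (hK : 1 / r ^ 4 ≤ K) (hK1 : 1 / r ≤ K1) (p q pt qt : ℂ → ℂ) (hp : Differentiable ℂ p)
    (hq : Differentiable ℂ q) (hpt : Differentiable ℂ pt) (hqt : Differentiable ℂ qt)
    (hpM : ∀ u, ‖u‖ ≤ 4 → ‖p u‖ ≤ 4 * 10 ^ 5 * ω) (hqM : ∀ u, ‖u‖ ≤ 4 → ‖q u‖ ≤ 4 * 10 ^ 5 * ω)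
    (hpτ : ∀ u, ‖u‖ ≤ 4 → ‖p u - pt u‖ ≤ r ^ 8 / 10 ^ 7 * ω)
    (hqτ : ∀ u, ‖u‖ ≤ 4 → ‖q u - qt u‖ ≤ r ^ 8 / 10 ^ 7 * ω)
    (h1 : ∀ z ∈ box K1, ‖gz z / (K1 : ℂ)‖ ≤ 1 →
      ¬ (‖pt (gz z / (K1 : ℂ))‖ ≤ AA * r * ω ∧ ‖qt (gz z / (K1 : ℂ))‖ ≤ AA * r * ω))
    (h2 : ∀ z ∈ box K, ‖gz z / (K : ℂ)‖ ≤ 1 →
      ¬ (‖qt (gz z / (K : ℂ))‖ ≤ AA * r ^ 8 * ω ∧
        ‖deriv qt (gz z / (K : ℂ))‖ ≤ AA * r ^ 4 * ω))
    (h3 : ∀ z ∈ box K, ‖gz z / (K : ℂ)‖ ≤ 1 →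
      ¬ (r / 2 * ω ≤ ‖pt (gz z / (K : ℂ))‖ + ‖qt (gz z / (K : ℂ))‖ ∧
        ‖deriv pt (gz z / (K : ℂ)) * qt (gz z / (K : ℂ)) -
          pt (gz z / (K : ℂ)) * deriv qt (gz z / (K : ℂ))‖ ≤ AA * r ^ 8 * ω ^ 2 ∧
        ‖deriv (deriv pt) (gz z / (K : ℂ)) * qt (gz z / (K : ℂ)) -
          pt (gz z / (K : ℂ)) * deriv (deriv qt) (gz z / (K : ℂ))‖ ≤ AA * r ^ 4 * ω ^ 2))
    (u : ℂ) (hu : ‖u‖ ≤ 1) :
    r * ω ≤ ‖p u‖ + ‖q u‖ ∧
    (‖q u‖ < r ^ 8 * ω → r ^ 4 * ω ≤ ‖deriv q u‖) ∧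
    (‖deriv p u * q u - p u * deriv q u‖ < r ^ 8 * ω ^ 2 →
      r ^ 4 * ω ^ 2 ≤ ‖deriv (deriv p) u * q u - p u * deriv (deriv q) u‖) := by
  set M : ℝ := 4 * 10 ^ 5 with hM
  have hMω : 0 ≤ M * ω := by positivity
  have hr8 : 0 < r ^ 8 := by positivity
  have hr4 : 0 < r ^ 4 := by positivity
  have hr8r : r ^ 8 ≤ r := by
    calc r ^ 8 ≤ r ^ 1 := pow_le_pow_of_le_one hr.le hr1 (by norm_num)
      _ = r := pow_one r
  have hr84 : r ^ 8 ≤ r ^ 4 := pow_le_pow_of_le_one hr.le hr1 (by norm_num)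
  set τ : ℝ := r ^ 8 / 10 ^ 7 * ω with hτ
  have hτ0 : 0 ≤ τ := by positivity
  have hτ8 : τ ≤ r ^ 8 * ω := by
    rw [hτ]
    refine mul_le_mul_of_nonneg_right ?_ hω.le
    exact div_le_self hr8.le (by norm_num)
  have hdp : Differentiable ℂ (deriv p) := (hp.contDiff (n := 2)).differentiable_deriv_two
  have hdq : Differentiable ℂ (deriv q) := (hq.contDiff (n := 2)).differentiable_deriv_two
  have hdpt : Differentiable ℂ (deriv pt) := (hpt.contDiff (n := 2)).differentiable_deriv_two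
  have hdqt : Differentiable ℂ (deriv qt) := (hqt.contDiff (n := 2)).differentiable_deriv_two
  -- derivatives on the ball of radius 3
  have hp'M : ∀ u, ‖u‖ ≤ 3 → ‖deriv p u‖ ≤ M * ω := fun u hu =>
    cau p hp (M * ω) 3 (fun v hv => hpM v (by linarith)) u hu
  have hq'M : ∀ u, ‖u‖ ≤ 3 → ‖deriv q u‖ ≤ M * ω := fun u hu =>
    cau q hq (M * ω) 3 (fun v hv => hqM v (by linarith)) u hu
  have hp'τ : ∀ u, ‖u‖ ≤ 3 → ‖deriv p u - deriv pt u‖ ≤ τ := by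
    intro u hu
    have h := cau (fun v => p v - pt v) (hp.sub hpt) τ 3 (fun v hv => hpτ v (by linarith)) u hu
    have h2 : deriv (fun v => p v - pt v) u = deriv p u - deriv pt u :=
      deriv_fun_sub hp.differentiableAt hpt.differentiableAt
    rwa [h2] at h
  have hq'τ : ∀ u, ‖u‖ ≤ 3 → ‖deriv q u - deriv qt u‖ ≤ τ := by
    intro u hu
    have h := cau (fun v => q v - qt v) (hq.sub hqt) τ 3 (fun v hv => hqτ v (by linarith)) u hu
    have h2 : deriv (fun v => q v - qt v) u = deriv q u - deriv qt u :=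
      deriv_fun_sub hq.differentiableAt hqt.differentiableAt
    rwa [h2] at h
  have hKr : 3 / (2 * (K : ℝ)) ≤ 3 / 2 * r ^ 4 := by
    have hK0 : (0 : ℝ) < K := lt_of_lt_of_le (by positivity) hK
    rw [div_le_iff₀ hr4] at hK
    rw [div_le_iff₀ (by positivity)]
    nlinarith
  have hK1r : 3 / (2 * (K1 : ℝ)) ≤ 3 / 2 * r := by
    have hK0 : (0 : ℝ) < K1 := lt_of_lt_of_le (by positivity) hK1
    rw [div_le_iff₀ hr] at hK1
    rw [div_le_iff₀ (by positivity)]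
    nlinarith
  have hKpos : 1 ≤ K := by
    have hK0 : (0 : ℝ) < K := lt_of_lt_of_le (by positivity) hK
    exact_mod_cast hK0
  have hK1pos : 1 ≤ K1 := by
    have hK0 : (0 : ℝ) < K1 := lt_of_lt_of_le (by positivity) hK1
    exact_mod_cast hK0
  -- (C1)
  have hC1 : ∀ u, ‖u‖ ≤ 1 → r * ω ≤ ‖p u‖ + ‖q u‖ := by
    intro u hu
    by_contra hlt
    rw [not_le] at hlt
    have hpu : ‖p u‖ ≤ r * ω := by linarith [norm_nonneg (q u)]
    have hqu : ‖q u‖ ≤ r * ω := by linarith [norm_nonneg (p u)]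
    obtain ⟨z, hz, hz1, hz2⟩ := grid u hu K1 hK1pos
    set v := gz z / (K1 : ℂ) with hv
    have hd : ‖v - u‖ ≤ 3 / 2 * r := hz2.trans hK1r
    have key : ∀ f ft : ℂ → ℂ, Differentiable ℂ f → (∀ u, ‖u‖ ≤ 4 → ‖f u‖ ≤ M * ω) →
        (∀ u, ‖u‖ ≤ 4 → ‖f u - ft u‖ ≤ τ) → ‖f u‖ ≤ r * ω → ‖ft v‖ ≤ AA * r * ω := by
      intro f ft hf hfM hfτ hfu
      have e1 := cau_lip f hf (M * ω) 1 (fun w hw => hfM w (by linarith)) u v hu hz1
      have e2 : M * ω * ‖v - u‖ ≤ M * ω * (3 / 2 * r) := mul_le_mul_of_nonneg_left hd hMω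
      have e3 := hfτ v (by linarith)
      have e4 : ‖ft v‖ ≤ ‖f v - ft v‖ + ‖f v - f u‖ + ‖f u‖ := by
        have h1 : ft v = -(f v - ft v) + (f v - f u) + f u := by ring
        calc ‖ft v‖ = ‖-(f v - ft v) + (f v - f u) + f u‖ := by rw [← h1]
          _ ≤ ‖-(f v - ft v) + (f v - f u)‖ + ‖f u‖ := norm_add_le _ _
          _ ≤ ‖-(f v - ft v)‖ + ‖f v - f u‖ + ‖f u‖ := by
              gcongr
              exact norm_add_le _ _
          _ = _ := by rw [norm_neg]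
      have e5 : r ^ 8 * ω ≤ r * ω := mul_le_mul_of_nonneg_right hr8r hω.le
      have e6 : 0 < r * ω := mul_pos hr hω
      have e7 : ‖ft v‖ ≤ (2 + 3 / 2 * M) * (r * ω) := by nlinarith
      refine e7.trans ?_
      unfold AA
      rw [mul_assoc]
      refine mul_le_mul_of_nonneg_right ?_ e6.le
      rw [hM]
      norm_num
    exact h1 z hz hz1 ⟨key p pt hp hpM hpτ hpu, key q qt hq hqM hqτ hqu⟩
  refine ⟨hC1 u hu, ?_, ?_⟩
  · -- (C2)
    intro hqu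
    by_contra hlt
    rw [not_le] at hlt
    obtain ⟨z, hz, hz1, hz2⟩ := grid u hu K hKpos
    set v := gz z / (K : ℂ) with hv
    have hd : ‖v - u‖ ≤ 3 / 2 * r ^ 4 := hz2.trans hKr
    have hd0 : 0 ≤ ‖v - u‖ := norm_nonneg _
    obtain ⟨t1, t2⟩ := cau_tay q hq (M * ω) (fun w hw => hqM w (by linarith)) u v hu hz1
    have e1 := hqτ v (by linarith)
    have e2 := hq'τ v (by linarith)
    have e3 : ‖v - u‖ ^ 2 ≤ 9 / 4 * r ^ 8 := by
      calc ‖v - u‖ ^ 2 ≤ (3 / 2 * r ^ 4) ^ 2 := pow_le_pow_left₀ hd0 hd 2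
        _ = 9 / 4 * r ^ 8 := by ring
    have e4 : ‖deriv q u * (v - u)‖ ≤ 3 / 2 * r ^ 8 * ω := by
      rw [norm_mul]
      calc ‖deriv q u‖ * ‖v - u‖ ≤ (r ^ 4 * ω) * (3 / 2 * r ^ 4) :=
            mul_le_mul hlt.le hd hd0 (by positivity)
        _ = 3 / 2 * r ^ 8 * ω := by ring
    have e5 : ‖qt v‖ ≤ ‖q v - qt v‖ + ‖q v - q u - deriv q u * (v - u)‖ + ‖q u‖ +
        ‖deriv q u * (v - u)‖ := by
      have h1 : qt v = -(q v - qt v) + (q v - q u - deriv q u * (v - u)) + q u +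
        deriv q u * (v - u) := by ring
      calc ‖qt v‖ = ‖-(q v - qt v) + (q v - q u - deriv q u * (v - u)) + q u +
            deriv q u * (v - u)‖ := by rw [← h1]
        _ ≤ ‖-(q v - qt v) + (q v - q u - deriv q u * (v - u)) + q u‖ +
            ‖deriv q u * (v - u)‖ := norm_add_le _ _
        _ ≤ ‖-(q v - qt v) + (q v - q u - deriv q u * (v - u))‖ + ‖q u‖ +
            ‖deriv q u * (v - u)‖ := by
            gcongr
            exact norm_add_le _ _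
        _ ≤ ‖-(q v - qt v)‖ + ‖q v - q u - deriv q u * (v - u)‖ + ‖q u‖ +
            ‖deriv q u * (v - u)‖ := by
            gcongr
            exact norm_add_le _ _
        _ = _ := by rw [norm_neg]
    have e6 : ‖deriv qt v‖ ≤ ‖deriv q v - deriv qt v‖ + ‖deriv q v - deriv q u‖ +
        ‖deriv q u‖ := by
      have h1 : deriv qt v = -(deriv q v - deriv qt v) + (deriv q v - deriv q u) +
        deriv q u := by ring
      calc ‖deriv qt v‖ = ‖-(deriv q v - deriv qt v) + (deriv q v - deriv q u) +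
            deriv q u‖ := by rw [← h1]
        _ ≤ ‖-(deriv q v - deriv qt v) + (deriv q v - deriv q u)‖ + ‖deriv q u‖ :=
            norm_add_le _ _
        _ ≤ ‖-(deriv q v - deriv qt v)‖ + ‖deriv q v - deriv q u‖ + ‖deriv q u‖ := by
            gcongr
            exact norm_add_le _ _
        _ = _ := by rw [norm_neg]
    have e7 : M * ω * ‖v - u‖ ^ 2 ≤ M * ω * (9 / 4 * r ^ 8) := mul_le_mul_of_nonneg_left e3 hMω
    have e8 : M * ω * ‖v - u‖ ≤ M * ω * (3 / 2 * r ^ 4) := mul_le_mul_of_nonneg_left hd hMω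
    have e9 : 0 < r ^ 8 * ω := mul_pos hr8 hω
    have e10 : 0 < r ^ 4 * ω := mul_pos hr4 hω
    have e11 : r ^ 8 * ω ≤ r ^ 4 * ω := mul_le_mul_of_nonneg_right hr84 hω.le
    refine h2 z hz hz1 ⟨?_, ?_⟩
    · have h3 : ‖qt v‖ ≤ (1 + 9 / 4 * M + 1 + 3 / 2) * (r ^ 8 * ω) := by nlinarith
      refine h3.trans ?_
      unfold AA
      rw [mul_assoc]
      refine mul_le_mul_of_nonneg_right ?_ e9.le
      rw [hM]
      norm_num
    · have h3 : ‖deriv qt v‖ ≤ (1 + 3 / 2 * M + 1) * (r ^ 4 * ω) := by nlinarith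
      refine h3.trans ?_
      unfold AA
      rw [mul_assoc]
      refine mul_le_mul_of_nonneg_right ?_ e10.le
      rw [hM]
      norm_num
  · -- (C3)
    intro hWu
    by_contra hlt
    rw [not_le] at hlt
    obtain ⟨z, hz, hz1, hz2⟩ := grid u hu K hKpos
    set v := gz z / (K : ℂ) with hv
    have hd : ‖v - u‖ ≤ 3 / 2 * r ^ 4 := hz2.trans hKr
    have hd0 : 0 ≤ ‖v - u‖ := norm_nonneg _
    set W : ℂ → ℂ := fun x => deriv p x * q x - p x * deriv q x with hW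
    set Wt : ℂ → ℂ := fun x => deriv pt x * qt x - pt x * deriv qt x with hWt
    have hWd : Differentiable ℂ W := (hdp.mul hq).sub (hp.mul hdq)
    have hWtd : Differentiable ℂ Wt := (hdpt.mul hqt).sub (hpt.mul hdqt)
    have hW1 : ∀ x, deriv W x = deriv (deriv p) x * q x - p x * deriv (deriv q) x := by
      intro x
      have h1 := ((hdp x).hasDerivAt.mul (hq x).hasDerivAt).sub
        ((hp x).hasDerivAt.mul (hdq x).hasDerivAt)
      have h2 := h1.deriv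
      have h3 : deriv W x = deriv (deriv p * q - p * deriv q) x := rfl
      rw [h3, h2]
      ring
    have hWt1 : ∀ x, deriv Wt x = deriv (deriv pt) x * qt x - pt x * deriv (deriv qt) x := by
      intro x
      have h1 := ((hdpt x).hasDerivAt.mul (hqt x).hasDerivAt).sub
        ((hpt x).hasDerivAt.mul (hdqt x).hasDerivAt)
      have h2 := h1.deriv
      have h3 : deriv Wt x = deriv (deriv pt * qt - pt * deriv qt) x := rfl
      rw [h3, h2]
      ring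
    have hWM : ∀ x, ‖x‖ ≤ 3 → ‖W x‖ ≤ 2 * M ^ 2 * ω ^ 2 := by
      intro x hx
      have a1 := hp'M x hx
      have a2 := hq'M x hx
      have a3 := hpM x (by linarith)
      have a4 := hqM x (by linarith)
      calc ‖W x‖ ≤ ‖deriv p x * q x‖ + ‖p x * deriv q x‖ := norm_sub_le _ _
        _ = ‖deriv p x‖ * ‖q x‖ + ‖p x‖ * ‖deriv q x‖ := by rw [norm_mul, norm_mul]
        _ ≤ (M * ω) * (M * ω) + (M * ω) * (M * ω) :=
            add_le_add (mul_le_mul a1 a4 (norm_nonneg _) hMω)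
              (mul_le_mul a3 a2 (norm_nonneg _) hMω)
        _ = _ := by ring
    have hWWt : ∀ x, ‖x‖ ≤ 3 → ‖W x - Wt x‖ ≤ r ^ 8 * ω ^ 2 := by
      intro x hx
      have a1 := hp'M x hx
      have a2 := hq'M x hx
      have a3 := hpM x (by linarith)
      have a4 := hqM x (by linarith)
      have b1 := hp'τ x hx
      have b2 := hq'τ x hx
      have b3 := hpτ x (by linarith)
      have b4 := hqτ x (by linarith)
      have hτω : τ ≤ ω := by
        refine hτ8.trans ?_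
        have : r ^ 8 * ω ≤ 1 * ω := mul_le_mul_of_nonneg_right (pow_le_one₀ hr.le hr1) hω.le
        linarith
      have c1 : ‖deriv pt x‖ ≤ (M + 1) * ω := by
        have h1 : deriv pt x = deriv p x - (deriv p x - deriv pt x) := by ring
        rw [h1]
        refine (norm_sub_le _ _).trans ?_
        linarith
      have c2 : ‖pt x‖ ≤ (M + 1) * ω := by
        have h1 : pt x = p x - (p x - pt x) := by ring
        rw [h1]
        refine (norm_sub_le _ _).trans ?_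
        linarith
      have h1 : W x - Wt x = ((deriv p x - deriv pt x) * q x + deriv pt x * (q x - qt x)) -
          ((p x - pt x) * deriv q x + pt x * (deriv q x - deriv qt x)) := by
        simp only [hW, hWt]
        ring
      have hM1 : 0 ≤ (M + 1) * ω := by positivity
      calc ‖W x - Wt x‖ ≤ ‖(deriv p x - deriv pt x) * q x + deriv pt x * (q x - qt x)‖ +
          ‖(p x - pt x) * deriv q x + pt x * (deriv q x - deriv qt x)‖ := by
            rw [h1]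
            exact norm_sub_le _ _
        _ ≤ (‖(deriv p x - deriv pt x) * q x‖ + ‖deriv pt x * (q x - qt x)‖) +
          (‖(p x - pt x) * deriv q x‖ + ‖pt x * (deriv q x - deriv qt x)‖) :=
            add_le_add (norm_add_le _ _) (norm_add_le _ _)
        _ = (‖deriv p x - deriv pt x‖ * ‖q x‖ + ‖deriv pt x‖ * ‖q x - qt x‖) +
          (‖p x - pt x‖ * ‖deriv q x‖ + ‖pt x‖ * ‖deriv q x - deriv qt x‖) := by
            simp only [norm_mul]
        _ ≤ (τ * (M * ω) + (M + 1) * ω * τ) + (τ * (M * ω) + (M + 1) * ω * τ) := by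
            refine add_le_add (add_le_add ?_ ?_) (add_le_add ?_ ?_)
            · exact mul_le_mul b1 a4 (norm_nonneg _) hτ0
            · exact mul_le_mul c1 b4 (norm_nonneg _) hM1
            · exact mul_le_mul b3 a2 (norm_nonneg _) hτ0
            · exact mul_le_mul c2 b2 (norm_nonneg _) hM1
        _ = (4 * M + 2) / 10 ^ 7 * (r ^ 8 * ω ^ 2) := by
            rw [hτ]
            ring
        _ ≤ 1 * (r ^ 8 * ω ^ 2) := by
            refine mul_le_mul_of_nonneg_right ?_ (by positivity)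
            rw [hM]
            norm_num
        _ = _ := one_mul _
    have hW'Wt : ‖deriv W v - deriv Wt v‖ ≤ r ^ 8 * ω ^ 2 := by
      have h := cau (fun x => W x - Wt x) (hWd.sub hWtd) (r ^ 8 * ω ^ 2) 1
        (fun x hx => hWWt x (by linarith)) v hz1
      have h2 : deriv (fun x => W x - Wt x) v = deriv W v - deriv Wt v :=
        deriv_fun_sub hWd.differentiableAt hWtd.differentiableAt
      rwa [h2] at h
    obtain ⟨t1, t2⟩ := cau_tay W hWd (2 * M ^ 2 * ω ^ 2) hWM u v hu hz1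
    have e1 := hWWt v (by linarith)
    have e3 : ‖v - u‖ ^ 2 ≤ 9 / 4 * r ^ 8 := by
      calc ‖v - u‖ ^ 2 ≤ (3 / 2 * r ^ 4) ^ 2 := pow_le_pow_left₀ hd0 hd 2
        _ = 9 / 4 * r ^ 8 := by ring
    have hlt' : ‖deriv W u‖ ≤ r ^ 4 * ω ^ 2 := by
      rw [hW1]
      exact hlt.le
    have hWu' : ‖W u‖ ≤ r ^ 8 * ω ^ 2 := hWu.le
    have e4 : ‖deriv W u * (v - u)‖ ≤ 3 / 2 * (r ^ 8 * ω ^ 2) := by
      rw [norm_mul]
      calc ‖deriv W u‖ * ‖v - u‖ ≤ (r ^ 4 * ω ^ 2) * (3 / 2 * r ^ 4) :=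
            mul_le_mul hlt' hd hd0 (by positivity)
        _ = 3 / 2 * (r ^ 8 * ω ^ 2) := by ring
    have e5 : ‖Wt v‖ ≤ ‖W v - Wt v‖ + ‖W v - W u - deriv W u * (v - u)‖ + ‖W u‖ +
        ‖deriv W u * (v - u)‖ := by
      have h1 : Wt v = -(W v - Wt v) + (W v - W u - deriv W u * (v - u)) + W u +
        deriv W u * (v - u) := by ring
      calc ‖Wt v‖ = ‖-(W v - Wt v) + (W v - W u - deriv W u * (v - u)) + W u +
            deriv W u * (v - u)‖ := by rw [← h1]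
        _ ≤ ‖-(W v - Wt v) + (W v - W u - deriv W u * (v - u)) + W u‖ +
            ‖deriv W u * (v - u)‖ := norm_add_le _ _
        _ ≤ ‖-(W v - Wt v) + (W v - W u - deriv W u * (v - u))‖ + ‖W u‖ +
            ‖deriv W u * (v - u)‖ := by
            gcongr
            exact norm_add_le _ _
        _ ≤ ‖-(W v - Wt v)‖ + ‖W v - W u - deriv W u * (v - u)‖ + ‖W u‖ +
            ‖deriv W u * (v - u)‖ := by
            gcongr
            exact norm_add_le _ _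
        _ = _ := by rw [norm_neg]
    have e6 : ‖deriv Wt v‖ ≤ ‖deriv W v - deriv Wt v‖ + ‖deriv W v - deriv W u‖ +
        ‖deriv W u‖ := by
      have h1 : deriv Wt v = -(deriv W v - deriv Wt v) + (deriv W v - deriv W u) +
        deriv W u := by ring
      calc ‖deriv Wt v‖ = ‖-(deriv W v - deriv Wt v) + (deriv W v - deriv W u) +
            deriv W u‖ := by rw [← h1]
        _ ≤ ‖-(deriv W v - deriv Wt v) + (deriv W v - deriv W u)‖ + ‖deriv W u‖ :=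
            norm_add_le _ _
        _ ≤ ‖-(deriv W v - deriv Wt v)‖ + ‖deriv W v - deriv W u‖ + ‖deriv W u‖ := by
            gcongr
            exact norm_add_le _ _
        _ = _ := by rw [norm_neg]
    have hMM : 0 ≤ 2 * M ^ 2 * ω ^ 2 := by positivity
    have e7 : 2 * M ^ 2 * ω ^ 2 * ‖v - u‖ ^ 2 ≤ 2 * M ^ 2 * ω ^ 2 * (9 / 4 * r ^ 8) :=
      mul_le_mul_of_nonneg_left e3 hMM
    have e8 : 2 * M ^ 2 * ω ^ 2 * ‖v - u‖ ≤ 2 * M ^ 2 * ω ^ 2 * (3 / 2 * r ^ 4) :=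
      mul_le_mul_of_nonneg_left hd hMM
    have e9 : 0 < r ^ 8 * ω ^ 2 := by positivity
    have e10 : 0 < r ^ 4 * ω ^ 2 := by positivity
    have e11 : r ^ 8 * ω ^ 2 ≤ r ^ 4 * ω ^ 2 := mul_le_mul_of_nonneg_right hr84 (sq_nonneg _)
    refine h3 z hz hz1 ⟨?_, ?_, ?_⟩
    · have b1 := hC1 v hz1
      have b3 := hpτ v (by linarith)
      have b4 := hqτ v (by linarith)
      have c1 : ‖p v‖ ≤ ‖p v - pt v‖ + ‖pt v‖ := by
        have h1 : p v = (p v - pt v) + pt v := by ring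
        calc ‖p v‖ = ‖(p v - pt v) + pt v‖ := by rw [← h1]
          _ ≤ _ := norm_add_le _ _
      have c2 : ‖q v‖ ≤ ‖q v - qt v‖ + ‖qt v‖ := by
        have h1 : q v = (q v - qt v) + qt v := by ring
        calc ‖q v‖ = ‖(q v - qt v) + qt v‖ := by rw [← h1]
          _ ≤ _ := norm_add_le _ _
      have c3 : τ ≤ r / 4 * ω := by
        rw [hτ]
        refine mul_le_mul_of_nonneg_right ?_ hω.le
        rw [div_le_iff₀ (by norm_num)]
        nlinarith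
      show r / 2 * ω ≤ ‖pt v‖ + ‖qt v‖
      linarith
    · have h4 : ‖Wt v‖ ≤ (1 + 9 / 2 * M ^ 2 + 1 + 3 / 2) * (r ^ 8 * ω ^ 2) := by
        have h5 : 2 * M ^ 2 * ω ^ 2 * (9 / 4 * r ^ 8) = 9 / 2 * M ^ 2 * (r ^ 8 * ω ^ 2) := by ring
        linarith
      show ‖Wt v‖ ≤ AA * r ^ 8 * ω ^ 2
      refine h4.trans ?_
      unfold AA
      rw [mul_assoc]
      refine mul_le_mul_of_nonneg_right ?_ e9.le
      rw [hM]
      norm_num
    · have h4 : ‖deriv Wt v‖ ≤ (1 + 3 * M ^ 2 + 1) * (r ^ 4 * ω ^ 2) := by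
        have h5 : 2 * M ^ 2 * ω ^ 2 * (3 / 2 * r ^ 4) = 3 * M ^ 2 * (r ^ 4 * ω ^ 2) := by ring
        linarith
      rw [← hWt1 v]
      refine h4.trans ?_
      unfold AA
      rw [mul_assoc]
      refine mul_le_mul_of_nonneg_right ?_ e10.le
      rw [hM]
      norm_num

end Pool.Agent.H85.LD
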