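import Pool.Agent.H85.LD.Rot

/-!
[H85 LD MOM]  Moments: the monomials are orthogonal, `∫ |x^k|^2 (1+|x|^2)^(-d) dmu = 1/((d+1) binom(d,k))`.

Proofs.
* `mom_bound`: `‖x‖^(k+l) ≤ (1+‖x‖^2)^d` for `k, l ≤ d` (`‖x‖^k ≤ √((1+‖x‖^2)^d)`); so the integrand is bounded and continuous,
  hence integrable for the probability measure `mu`.
* `k ≠ l`: by `rot_mp` the integral `I` satisfies `I = ζ^k conj(ζ)^l I` for every `‖ζ‖ = 1`; choose `ζ` with
  `ζ^k conj(ζ)^l ≠ 1` (e.g. `ζ = exp(i)`, `ζ^k conj(ζ)^l = exp(i (k-l))`, and `exp(i n) ≠ 1` for an integer `n ≠ 0` since `π` is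
  irrational, or `ζ = exp(i π/(k-l))`).
* `k = l`: radial integral `A(k,d) = ∫_0^∞ 2 r r^(2k) (1+r^2)^(-(d+2)) dr`.  `A(0,d) = 1/(d+1)` (primitive
  `-(1+r^2)^(-(d+1))/(d+1)`), and `(d+1) A(k,d) = k A(k-1,d-1)` for `1 ≤ k ≤ d` (derivative of
  `r^(2k) (1+r^2)^(-(d+1))`, which vanishes at `0` and at infinity).  Induction; `(d+1) choose(d,k) A(k,d) = 1` because
  `(d+1) choose(d,k)/... `: `k choose(d,k) = d choose(d-1,k-1)` (`Nat.succ_mul_choose_eq`).
-/

set_option autoImplicit false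

open Polynomial MeasureTheory Real Finset ComplexConjugate

namespace Pool.Agent.H85.LD

theorem mom_bound (d k l : ℕ) (hk : k ≤ d) (hl : l ≤ d) (x : ℂ) :
    ‖x‖ ^ (k + l) ≤ (1 + ‖x‖ ^ 2) ^ d := by
  have h1 : (1 : ℝ) ≤ 1 + ‖x‖ ^ 2 := by nlinarith [sq_nonneg ‖x‖]
  have h0 : (0 : ℝ) ≤ 1 + ‖x‖ ^ 2 := by linarith
  have hs1 : 1 ≤ √(1 + ‖x‖ ^ 2) := by
    exact Real.one_le_sqrt.2 h1
  have hxs : ‖x‖ ≤ √(1 + ‖x‖ ^ 2) := Real.le_sqrt_of_sq_le (by linarith)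
  calc ‖x‖ ^ (k + l) ≤ √(1 + ‖x‖ ^ 2) ^ (k + l) := pow_le_pow_left₀ (norm_nonneg _) hxs _
    _ ≤ √(1 + ‖x‖ ^ 2) ^ (2 * d) := pow_le_pow_right₀ hs1 (by omega)
    _ = (1 + ‖x‖ ^ 2) ^ d := by rw [pow_mul, Real.sq_sqrt h0]

theorem mom_integrable (d k l : ℕ) (hk : k ≤ d) (hl : l ≤ d) (χ : ℂ → ℝ) (hχ : Measurable χ)
    (B : ℝ) (hB : ∀ x, |χ x| ≤ B) :
    Integrable (fun x : ℂ => ((χ x / (1 + ‖x‖ ^ 2) ^ d : ℝ) : ℂ) * (x ^ k * (conj x) ^ l)) mu := by
  refine Integrable.of_bound (C := B) ?_ ?_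
  · apply Measurable.aestronglyMeasurable
    apply Measurable.mul
    · apply Complex.measurable_ofReal.comp
      exact hχ.div (by fun_prop)
    · fun_prop
  · refine Filter.Eventually.of_forall fun x => ?_
    have hpos : (0 : ℝ) < (1 + ‖x‖ ^ 2) ^ d := by positivity
    rw [norm_mul, norm_mul, Complex.norm_real, norm_pow, norm_pow, RCLike.norm_conj, ← pow_add,
      Real.norm_eq_abs, abs_div, abs_of_pos hpos, div_mul_eq_mul_div, div_le_iff₀ hpos]
    have hb := mom_bound d k l hk hl x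
    have hB0 : 0 ≤ B := (abs_nonneg _).trans (hB x)
    exact mul_le_mul (hB x) hb (by positivity) hB0

/-- the radial density -/
private noncomputable def mmxF (k d : ℕ) (y : ℝ) : ℝ := 2 * y ^ (2 * k + 1) / (1 + y ^ 2) ^ (d + 2)

private theorem mmx_pos (y : ℝ) : 0 < 1 + y ^ 2 := by positivity

private theorem mmx_pow {k d : ℕ} (hk : k ≤ d) (y : ℝ) : y ^ (2 * k) ≤ (1 + y ^ 2) ^ d := by
  have h1 : (1 : ℝ) ≤ 1 + y ^ 2 := by nlinarith [sq_nonneg y]
  calc y ^ (2 * k) = (y ^ 2) ^ k := by rw [pow_mul]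
    _ ≤ (1 + y ^ 2) ^ k := pow_le_pow_left₀ (sq_nonneg y) (by linarith) k
    _ ≤ (1 + y ^ 2) ^ d := pow_le_pow_right₀ h1 hk

private theorem mmx_cont (k d : ℕ) : Continuous (mmxF k d) := by
  unfold mmxF
  refine Continuous.div (by fun_prop) (by fun_prop) fun y => ?_
  exact pow_ne_zero _ (mmx_pos y).ne'

private theorem mmx_dpow (n : ℕ) (y : ℝ) :
    HasDerivAt (fun y : ℝ => (1 + y ^ 2) ^ (n + 1)) ((n + 1) * (1 + y ^ 2) ^ n * (2 * y)) y := by
  have h1 : HasDerivAt (fun y : ℝ => 1 + y ^ 2) (2 * y) y := by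
    simpa using (hasDerivAt_pow 2 y).const_add 1
  have h2 := h1.fun_pow (n + 1)
  simpa using h2

private theorem mmx_d0 (d : ℕ) (y : ℝ) :
    HasDerivAt (fun y : ℝ => -(1 / ((d + 1) * (1 + y ^ 2) ^ (d + 1)))) (mmxF 0 d y) y := by
  have h1 := (mmx_dpow d y).const_mul ((d : ℝ) + 1)
  have hd : ((d : ℝ) + 1) ≠ 0 := by positivity
  have hne : ((d : ℝ) + 1) * (1 + y ^ 2) ^ (d + 1) ≠ 0 :=
    mul_ne_zero hd (pow_ne_zero _ (mmx_pos y).ne')
  have h2 := ((hasDerivAt_const y (1 : ℝ)).fun_div h1 hne).fun_neg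
  refine h2.congr_deriv ?_
  unfold mmxF
  have hp := (mmx_pos y).ne'
  generalize 1 + y ^ 2 = w at hp
  field_simp
  ring

private theorem mmx_lim0 (d : ℕ) : Filter.Tendsto
    (fun y : ℝ => -(1 / ((d + 1) * (1 + y ^ 2) ^ (d + 1)))) Filter.atTop (nhds 0) := by
  have h1 : Filter.Tendsto (fun y : ℝ => ((d : ℝ) + 1) * (1 + y ^ 2) ^ (d + 1)) Filter.atTop
      Filter.atTop := by
    apply Filter.Tendsto.const_mul_atTop (by positivity)
    apply (Filter.tendsto_pow_atTop (Nat.succ_ne_zero d)).comp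
    exact Filter.tendsto_atTop_add_const_left _ _ (Filter.tendsto_pow_atTop two_ne_zero)
  have h2 := (h1.inv_tendsto_atTop).neg
  rw [neg_zero] at h2
  refine h2.congr fun y => ?_
  rw [Pi.inv_apply, one_div]

private theorem mmx_int0 (d : ℕ) : IntegrableOn (mmxF 0 d) (Set.Ioi 0) :=
  integrableOn_Ioi_deriv_of_nonneg' (fun y _ => mmx_d0 d y)
    (fun y hy => by unfold mmxF; have := Set.mem_Ioi.1 hy; positivity) (mmx_lim0 d)

private theorem mmx_val0 (d : ℕ) : ∫ y in Set.Ioi 0, mmxF 0 d y = 1 / (d + 1) := by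
  rw [integral_Ioi_of_hasDerivAt_of_nonneg' (fun y _ => mmx_d0 d y)
    (fun y hy => by unfold mmxF; have := Set.mem_Ioi.1 hy; positivity) (mmx_lim0 d)]
  simp

private theorem mmx_int {k d : ℕ} (hk : k ≤ d) : IntegrableOn (mmxF k d) (Set.Ioi 0) := by
  refine Integrable.mono' (mmx_int0 0) (mmx_cont k d).aestronglyMeasurable ?_
  rw [ae_restrict_iff' measurableSet_Ioi]
  refine Filter.Eventually.of_forall fun y hy => ?_
  have hy0 : 0 < y := hy
  have hp := mmx_pos y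
  unfold mmxF
  rw [Real.norm_of_nonneg (by positivity), div_le_div_iff₀ (by positivity) (by positivity)]
  have h1 := mmx_pow hk y
  have e1 : 2 * y ^ (2 * k + 1) * (1 + y ^ 2) ^ (0 + 2) =
      (2 * y * (1 + y ^ 2) ^ 2) * y ^ (2 * k) := by ring
  have e2 : 2 * y ^ (2 * 0 + 1) * (1 + y ^ 2) ^ (d + 2) =
      (2 * y * (1 + y ^ 2) ^ 2) * (1 + y ^ 2) ^ d := by ring
  rw [e1, e2]
  exact mul_le_mul_of_nonneg_left h1 (by positivity)

private theorem mmx_d1 (j e : ℕ) (y : ℝ) :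
    HasDerivAt (fun y : ℝ => y ^ (2 * (j + 1)) / (1 + y ^ 2) ^ (e + 2))
      ((j + 1) * mmxF j e y - (e + 2) * mmxF (j + 1) (e + 1) y) y := by
  have h1 : HasDerivAt (fun y : ℝ => y ^ (2 * (j + 1))) (2 * (j + 1) * y ^ (2 * j + 1)) y := by
    have := hasDerivAt_pow (2 * (j + 1)) y
    have e1 : 2 * (j + 1) - 1 = 2 * j + 1 := by omega
    rw [e1] at this
    push_cast at this
    exact this
  have h2 := mmx_dpow (e + 1) y
  have hne : (1 + y ^ 2) ^ (e + 1 + 1) ≠ 0 := pow_ne_zero _ (mmx_pos y).ne'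
  have h3 := h1.fun_div h2 hne
  refine h3.congr_deriv ?_
  unfold mmxF
  have hp := (mmx_pos y).ne'
  push_cast
  generalize hw : 1 + y ^ 2 = w at hp
  have e2 : y ^ (2 * (j + 1)) = y * y ^ (2 * j + 1) := by ring
  have e3 : y ^ (2 * (j + 1) + 1) = y * y * y ^ (2 * j + 1) := by ring
  rw [e2, e3]
  generalize y ^ (2 * j + 1) = z
  field_simp
  ring

private theorem mmx_lim1 {j e : ℕ} (h : j ≤ e) : Filter.Tendsto
    (fun y : ℝ => y ^ (2 * (j + 1)) / (1 + y ^ 2) ^ (e + 2)) Filter.atTop (nhds 0) := by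
  have h1 : Filter.Tendsto (fun y : ℝ => (1 + y ^ 2)⁻¹) Filter.atTop (nhds 0) := by
    apply Filter.Tendsto.inv_tendsto_atTop
    exact Filter.tendsto_atTop_add_const_left _ _ (Filter.tendsto_pow_atTop two_ne_zero)
  refine squeeze_zero (fun y => ?_) (fun y => ?_) h1
  · have hp := mmx_pos y
    have : 0 ≤ y ^ (2 * (j + 1)) := by rw [pow_mul]; positivity
    positivity
  · have hp := mmx_pos y
    have h2 := mmx_pow (Nat.succ_le_succ h) y
    rw [div_le_iff₀ (by positivity)]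
    have e1 : (1 + y ^ 2)⁻¹ * (1 + y ^ 2) ^ (e + 2) = (1 + y ^ 2) ^ (e + 1) := by
      rw [pow_succ' _ (e + 1), ← mul_assoc, inv_mul_cancel₀ hp.ne', one_mul]
    rw [e1]
    exact h2

private theorem mmx_rad (k d : ℕ) (hk : k ≤ d) :
    ∫ y in Set.Ioi 0, mmxF k d y = 1 / (((d : ℝ) + 1) * (d.choose k : ℝ)) := by
  induction k generalizing d with
  | zero => rw [mmx_val0]; simp
  | succ j ih =>
    obtain ⟨e, rfl⟩ : ∃ e, d = e + 1 := ⟨d - 1, by omega⟩
    have hje : j ≤ e := by omega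
    have hI1 := (mmx_int hje).const_mul ((j : ℝ) + 1)
    have hI2 := (mmx_int (Nat.succ_le_succ hje)).const_mul ((e : ℝ) + 2)
    have h1 := integral_Ioi_of_hasDerivAt_of_tendsto' (fun y _ => mmx_d1 j e y)
      (hI1.sub hI2) (mmx_lim1 hje) (a := 0)
    rw [integral_sub hI1 hI2, integral_const_mul, integral_const_mul, ih e hje] at h1
    have h2 : (0 : ℝ) ^ (2 * (j + 1)) = 0 := zero_pow (by omega)
    rw [h2, zero_div, sub_zero] at h1
    have h3 : ((e : ℝ) + 1) * (e.choose j : ℝ) = ((e + 1).choose (j + 1) : ℝ) * (j + 1) := by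
      exact_mod_cast Nat.add_one_mul_choose_eq e j
    have hc1 : (0 : ℝ) < (e.choose j : ℝ) := by exact_mod_cast Nat.choose_pos hje
    have hc2 : (0 : ℝ) < ((e + 1).choose (j + 1) : ℝ) := by
      exact_mod_cast Nat.choose_pos (Nat.succ_le_succ hje)
    push_cast
    have hj : (0 : ℝ) < (j : ℝ) + 1 := by positivity
    have he : (0 : ℝ) < (e : ℝ) + 2 := by positivity
    have h4 : ((j : ℝ) + 1) * (1 / (((e : ℝ) + 1) * (e.choose j : ℝ))) =
        1 / ((e + 1).choose (j + 1) : ℝ) := by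
      rw [h3]
      field_simp
    rw [h4] at h1
    have h5 : ((e : ℝ) + 2) * ∫ y in Set.Ioi 0, mmxF (j + 1) (e + 1) y =
        1 / ((e + 1).choose (j + 1) : ℝ) := by linarith
    have e1 : (e : ℝ) + 1 + 1 = e + 2 := by ring
    rw [e1, eq_div_iff (by positivity)]
    have h6 : (∫ y in Set.Ioi 0, mmxF (j + 1) (e + 1) y) * (((e : ℝ) + 2) *
        ((e + 1).choose (j + 1) : ℝ)) = (((e : ℝ) + 2) *
          ∫ y in Set.Ioi 0, mmxF (j + 1) (e + 1) y) * ((e + 1).choose (j + 1) : ℝ) := by ring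
    rw [h6, h5, one_div, inv_mul_cancel₀ hc2.ne']

private theorem mmx_val (k d : ℕ) (hk : k ≤ d) :
    ∫ x : ℂ, (‖x‖ ^ (2 * k) / (1 + ‖x‖ ^ 2) ^ d : ℝ) ∂mu =
      (1 : ℝ) / (((d : ℝ) + 1) * (d.choose k : ℝ)) := by
  unfold mu
  rw [integral_withDensity_eq_integral_toReal_smul (by fun_prop)
    (Filter.Eventually.of_forall fun x => ENNReal.ofReal_lt_top)]
  have e : ∀ x : ℂ, (ENNReal.ofReal (1 / (π * (1 + ‖x‖ ^ 2) ^ 2))).toReal •
      (‖x‖ ^ (2 * k) / (1 + ‖x‖ ^ 2) ^ d) =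
      (fun r : ℝ => r ^ (2 * k) / (π * (1 + r ^ 2) ^ (d + 2))) ‖x‖ := by
    intro x
    rw [ENNReal.toReal_ofReal (by positivity), smul_eq_mul]
    have hπ := Real.pi_pos
    have hp := mmx_pos ‖x‖
    generalize ‖x‖ = r at hp
    show 1 / (π * (1 + r ^ 2) ^ 2) * (r ^ (2 * k) / (1 + r ^ 2) ^ d) =
      r ^ (2 * k) / (π * (1 + r ^ 2) ^ (d + 2))
    rw [div_mul_div_comm, one_mul]
    congr 1
    ring
  simp_rw [e]
  rw [integral_fun_norm_addHaar (volume : Measure ℂ)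
    (fun r : ℝ => r ^ (2 * k) / (π * (1 + r ^ 2) ^ (d + 2)))]
  have hvol : (volume : Measure ℂ).real (Metric.ball 0 1) = π := by
    rw [Measure.real, Complex.volume_ball]
    simp
  rw [Complex.finrank_real_complex, hvol, ← mmx_rad k d hk, ← integral_smul, nsmul_eq_mul,
    ← integral_const_mul]
  refine setIntegral_congr_fun measurableSet_Ioi fun y _ => ?_
  unfold mmxF
  have hπ := Real.pi_pos
  have hp := mmx_pos y
  simp only [smul_eq_mul, Nat.cast_ofNat]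
  field_simp
  ring

theorem moment (d k l : ℕ) (hk : k ≤ d) (hl : l ≤ d) :
    ∫ x : ℂ, ((1 / (1 + ‖x‖ ^ 2) ^ d : ℝ) : ℂ) * (x ^ k * (conj x) ^ l) ∂mu =
      if k = l then 1 / (((d + 1) * d.choose k : ℕ) : ℂ) else 0 := by
  by_cases hkl : k = l
  · subst hkl
    rw [if_pos rfl]
    have e : ∀ x : ℂ, ((1 / (1 + ‖x‖ ^ 2) ^ d : ℝ) : ℂ) * (x ^ k * (conj x) ^ k) =
        ((‖x‖ ^ (2 * k) / (1 + ‖x‖ ^ 2) ^ d : ℝ) : ℂ) := by
      intro x
      rw [← mul_pow, Complex.mul_conj']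
      push_cast
      rw [← pow_mul]
      ring
    simp_rw [e]
    rw [integral_complex_ofReal, mmx_val k d hk]
    push_cast
    ring
  · rw [if_neg hkl]
    -- rotation
    have hnz : ((k : ℝ) - l) ≠ 0 := by
      intro h
      apply hkl
      have : (k : ℝ) = l := by linarith
      exact_mod_cast this
    set θ : ℝ := π / ((k : ℝ) - l) with hθ
    set ζ : ℂ := Complex.exp (θ * Complex.I) with hζ
    have hζn : ‖ζ‖ = 1 := Complex.norm_exp_ofReal_mul_I θ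
    have hζ0 : ζ ≠ 0 := Complex.exp_ne_zero _
    have hζc : conj ζ = ζ⁻¹ := by
      rw [hζ, ← Complex.exp_conj, ← Complex.exp_neg]
      congr 1
      rw [map_mul, Complex.conj_ofReal, Complex.conj_I]
      ring
    have hcoef : ζ ^ k * (conj ζ) ^ l = -1 := by
      rw [hζc, ← Complex.exp_pi_mul_I, hζ, ← Complex.exp_neg, ← Complex.exp_nat_mul,
        ← Complex.exp_nat_mul, ← Complex.exp_add]
      congr 1
      have h1 : (θ : ℂ) * ((k : ℂ) - l) = π := by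
        have h2 : θ * ((k : ℝ) - l) = π := div_mul_cancel₀ _ hnz
        exact_mod_cast h2
      rw [← h1]
      ring
    set f : ℂ → ℂ := fun x => ((1 / (1 + ‖x‖ ^ 2) ^ d : ℝ) : ℂ) * (x ^ k * (conj x) ^ l) with hf
    have hrot : ∀ x, f (ζ * x) = -f x := by
      intro x
      simp only [hf]
      rw [norm_mul, hζn, one_mul, map_mul, mul_pow, mul_pow]
      have h3 : ζ ^ k * x ^ k * ((conj ζ) ^ l * (conj x) ^ l) =
          (ζ ^ k * (conj ζ) ^ l) * (x ^ k * (conj x) ^ l) := by ring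
      rw [h3, hcoef]
      ring
    have hmp := rot_mp ζ hζn
    have h4 : ∫ x, f (ζ * x) ∂mu = ∫ x, f x ∂mu :=
      hmp.integral_comp (measurableEmbedding_mulLeft₀ hζ0) f
    have h5 : ∫ x, f (ζ * x) ∂mu = - ∫ x, f x ∂mu := by
      simp_rw [hrot]
      exact integral_neg f
    have h6 : ∫ x, f x ∂mu = - ∫ x, f x ∂mu := h4.symm.trans h5
    have h7 : (2 : ℂ) * ∫ x, f x ∂mu = 0 := by linear_combination h6
    exact (mul_eq_zero.1 h7).resolve_left two_ne_zero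

end Pool.Agent.H85.LD
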