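import Pool.Agent.H85.LD.Rot

/-!
[H85 LD PIG]  Counting offsets, pigeonhole principle for integrals, the trap point.

Proofs.
* `cnt_strip`: the integers `k` that occur satisfy `(y - β S)/S ≤ k ≤ (y + M h)/S`, at most `M h/S + β + 1 ≤ M h/S + 2` of them; for given `k` the
  `j` lie in an interval of length `β S/h`, at most `β S/h + 1` of them (`int_count` in `Box.lean` counts integers in an interval; union
  over `k`).  Total `≤ (M h/S + 2)(β S/h + 1) ≤ 3 (M h/S)(β S/h + 1) = 3 M (β + h/S)` as `1 ≤ M h/S`.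
* `pigeon`: otherwise `∫_{V j} g > (B/M) ∫ g` for all `j < M`; the sum over `j` of `∫_{V j} g` is `∫ (∑_j 1_{V j}) g ≤ B ∫ g`.
* `strip_meas`: countable union of closed conditions.
* `exists_trap`: `n = ⌊1/(10 ρ)⌋₊ + 1`, `n^2 ≥ 1/(100 ρ^2)`, centres `a_j = 5 ρ ((j % n) + (j / n) i)`, `j < n^2`, of norm at most `√2/2`; the balls
  `closedBall (a_j) (2 ρ)` are disjoint (distance of the centres at least `5 ρ`); `pigeon` with `M = n^2`, `B = 1`, `C = 100`.
-/

set_option autoImplicit false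

open Polynomial MeasureTheory Real Finset ComplexConjugate

namespace Pool.Agent.H85.LD

private theorem h58_int_count (s : Finset ℤ) (a b : ℝ) (hab : a ≤ b)
    (h : ∀ n ∈ s, a ≤ (n : ℝ) ∧ (n : ℝ) ≤ b) : (s.card : ℝ) ≤ b - a + 1 := by
  have hsub : s ⊆ Icc ⌈a⌉ ⌊b⌋ := by
    intro n hn
    rw [mem_Icc]
    exact ⟨Int.ceil_le.2 (h n hn).1, Int.le_floor.2 (h n hn).2⟩
  have h1 : (s.card : ℝ) ≤ ((Icc ⌈a⌉ ⌊b⌋).card : ℝ) := by exact_mod_cast card_le_card hsub
  refine h1.trans ?_
  rw [Int.card_Icc]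
  have h2 := Int.floor_le b
  have h3 := Int.le_ceil a
  rcases le_or_gt 0 (⌊b⌋ + 1 - ⌈a⌉) with h4 | h4
  · have h5 : ((⌊b⌋ + 1 - ⌈a⌉).toNat : ℝ) = ((⌊b⌋ + 1 - ⌈a⌉ : ℤ) : ℝ) := by
      exact_mod_cast congrArg (Int.cast : ℤ → ℝ) (Int.toNat_of_nonneg h4)
    rw [h5]
    push_cast
    linarith
  · have h5 : (⌊b⌋ + 1 - ⌈a⌉).toNat = 0 := Int.toNat_of_nonpos h4.le
    rw [h5]
    push_cast
    linarith

open Classical in
theorem cnt_strip (y S h β : ℝ) (M : ℕ) (hS : 0 < S) (hh : 0 < h) (hβ : 0 ≤ β) (hβ1 : β ≤ 1)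
    (hM : S ≤ M * h) :
    (((range M).filter (fun j : ℕ => ∃ k : ℤ, (k : ℝ) * S ≤ y + j * h ∧
      y + j * h ≤ k * S + β * S)).card : ℝ) ≤ 3 * M * (β + h / S) := by
  set J := (range M).filter (fun j : ℕ => ∃ k : ℤ, (k : ℝ) * S ≤ y + j * h ∧
      y + j * h ≤ k * S + β * S) with hJ
  let f : ℕ → ℤ := fun j => if hj : ∃ k : ℤ, (k : ℝ) * S ≤ y + j * h ∧
      y + j * h ≤ k * S + β * S then hj.choose else 0
  have hf : ∀ j ∈ J, (f j : ℝ) * S ≤ y + j * h ∧ y + j * h ≤ f j * S + β * S := by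
    intro j hj
    rw [hJ, mem_filter] at hj
    have h1 : f j = hj.2.choose := by
      simp only [f]
      rw [dif_pos hj.2]
    rw [h1]
    exact hj.2.choose_spec
  have hlt : ∀ j ∈ J, (j : ℝ) ≤ M := by
    intro j hj
    rw [hJ, mem_filter, mem_range] at hj
    exact_mod_cast hj.1.le
  have hMh : 1 ≤ M * h / S := by
    rw [le_div_iff₀ hS]
    linarith
  have hK : ((J.image f).card : ℝ) ≤ M * h / S + 2 := by
    have h1 := h58_int_count (J.image f) ((y - β * S) / S) ((y + M * h) / S)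
      (by
        gcongr
        have : 0 ≤ β * S := by positivity
        linarith)
      (by
        intro k hk
        obtain ⟨j, hj, rfl⟩ := mem_image.1 hk
        obtain ⟨h2, h3⟩ := hf j hj
        have h4 := hlt j hj
        have h5 : (j : ℝ) * h ≤ M * h := mul_le_mul_of_nonneg_right h4 hh.le
        have h6 : 0 ≤ (j : ℝ) * h := by positivity
        rw [div_le_iff₀ hS, le_div_iff₀ hS]
        constructor <;> linarith)
    have h2 : (y + M * h) / S - (y - β * S) / S + 1 = M * h / S + β + 1 := by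
      field_simp
      ring
    linarith
  have hfib : ∀ k ∈ J.image f, ((J.filter fun j => f j = k).card : ℝ) ≤ β * S / h + 1 := by
    intro k _
    have h1 : ((J.filter fun j => f j = k).card : ℝ) =
        (((J.filter fun j => f j = k).image (fun j : ℕ => (j : ℤ))).card : ℝ) := by
      rw [card_image_of_injective _ Nat.cast_injective]
    rw [h1]
    have h2 := h58_int_count ((J.filter fun j => f j = k).image (fun j : ℕ => (j : ℤ)))
      ((k * S - y) / h) ((k * S + β * S - y) / h)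
      (by
        gcongr
        have : 0 ≤ β * S := by positivity
        linarith)
      (by
        intro n hn
        obtain ⟨j, hj, rfl⟩ := mem_image.1 hn
        rw [mem_filter] at hj
        obtain ⟨h2, h3⟩ := hf j hj.1
        rw [hj.2] at h2 h3
        rw [div_le_iff₀ hh, le_div_iff₀ hh]
        push_cast
        constructor <;> linarith)
    have h3 : (k * S + β * S - y) / h - (k * S - y) / h + 1 = β * S / h + 1 := by
      field_simp
      ring
    linarith
  have hsum : (J.card : ℝ) = ∑ k ∈ J.image f, ((J.filter fun j => f j = k).card : ℝ) := by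
    exact_mod_cast card_eq_sum_card_image f J
  have hnn : 0 ≤ β * S / h + 1 := by positivity
  calc (J.card : ℝ) = ∑ k ∈ J.image f, ((J.filter fun j => f j = k).card : ℝ) := hsum
    _ ≤ ∑ _k ∈ J.image f, (β * S / h + 1) := sum_le_sum hfib
    _ = (J.image f).card * (β * S / h + 1) := by rw [sum_const, nsmul_eq_mul]
    _ ≤ (M * h / S + 2) * (β * S / h + 1) := mul_le_mul_of_nonneg_right hK hnn
    _ ≤ (3 * (M * h / S)) * (β * S / h + 1) := by
        apply mul_le_mul_of_nonneg_right _ hnn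
        linarith
    _ = 3 * M * (β + h / S) := by
        field_simp

open Classical in
theorem pigeon (M : ℕ) (hM : 1 ≤ M) (V : ℕ → Set ℂ) (hV : ∀ j < M, MeasurableSet (V j)) (B : ℝ)
    (hB : ∀ z, (((range M).filter (fun j => z ∈ V j)).card : ℝ) ≤ B) (g : ℂ → ℝ)
    (hg0 : ∀ z, 0 ≤ g z) (hg : Integrable g mu) :
    ∃ j < M, ∫ z in V j, g z ∂mu ≤ B / M * ∫ z, g z ∂mu := by
  by_contra hcon
  push Not at hcon
  have hM' : (0 : ℝ) < M := by exact_mod_cast hM
  have h1 : ∑ j ∈ range M, ∫ z in V j, g z ∂mu = ∫ z, ∑ j ∈ range M, (V j).indicator g z ∂mu := by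
    rw [integral_finsetSum]
    · apply sum_congr rfl
      intro j hj
      rw [integral_indicator (hV j (mem_range.1 hj))]
    · intro j hj
      exact hg.indicator (hV j (mem_range.1 hj))
  have h2 : ∫ z, ∑ j ∈ range M, (V j).indicator g z ∂mu ≤ ∫ z, B * g z ∂mu := by
    apply integral_mono
    · apply integrable_finsetSum
      intro j hj
      exact hg.indicator (hV j (mem_range.1 hj))
    · exact hg.const_mul B
    · intro z
      show ∑ j ∈ range M, (V j).indicator g z ≤ B * g z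
      have h3 : ∑ j ∈ range M, (V j).indicator g z =
          (((range M).filter (fun j => z ∈ V j)).card : ℝ) * g z := by
        simp only [Set.indicator_apply]
        rw [← sum_filter, sum_const, nsmul_eq_mul]
      rw [h3]
      exact mul_le_mul_of_nonneg_right (hB z) (hg0 z)
  rw [integral_const_mul] at h2
  have h3 : ∑ _j ∈ range M, (B / M * ∫ z, g z ∂mu) < ∑ j ∈ range M, ∫ z in V j, g z ∂mu := by
    apply sum_lt_sum_of_nonempty
    · exact ⟨0, mem_range.2 (by omega)⟩
    · intro j hj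
      exact hcon j (mem_range.1 hj)
  rw [sum_const, card_range, nsmul_eq_mul] at h3
  have h4 : (M : ℝ) * (B / M * ∫ z, g z ∂mu) = B * ∫ z, g z ∂mu := by
    field_simp
  rw [h4, h1] at h3
  exact absurd h2 (not_le.2 h3)

theorem strip_meas (S β : ℝ) (y : ℂ → ℝ) (hy : Measurable y) :
    MeasurableSet {z | ∃ k : ℤ, (k : ℝ) * S ≤ y z ∧ y z ≤ k * S + β * S} := by
  have h1 : {z | ∃ k : ℤ, (k : ℝ) * S ≤ y z ∧ y z ≤ k * S + β * S} =
      ⋃ k : ℤ, {z | (k : ℝ) * S ≤ y z ∧ y z ≤ k * S + β * S} := by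
    ext z
    simp
  rw [h1]
  apply MeasurableSet.iUnion
  intro k
  exact (measurableSet_le measurable_const hy).inter (measurableSet_le hy measurable_const)

theorem exists_trap : ∃ C : ℝ, 0 < C ∧ ∀ ρ : ℝ, 0 < ρ → ρ ≤ 1 / 4 → ∀ g : ℂ → ℝ,
    (∀ z, 0 ≤ g z) → Integrable g mu → ∃ a : ℂ, ‖a‖ ≤ 1 ∧
      ∫ z in Metric.closedBall a (2 * ρ), g z ∂mu ≤ C * ρ ^ 2 * ∫ z, g z ∂mu := by
  classical
  refine ⟨100, by norm_num, fun ρ hρ _ g hg0 hg => ?_⟩
  set n : ℕ := ⌊1 / (10 * ρ)⌋₊ + 1 with hn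
  have hn1 : 1 ≤ n := by omega
  have hn2 : 1 / (10 * ρ) < n := by
    rw [hn]
    push_cast
    exact Nat.lt_floor_add_one _
  have hn3 : ((n : ℝ) - 1) ≤ 1 / (10 * ρ) := by
    rw [hn]
    push_cast
    have := Nat.floor_le (show (0 : ℝ) ≤ 1 / (10 * ρ) by positivity)
    linarith
  have hnpos : (0 : ℝ) < n := by exact_mod_cast hn1
  let a : ℕ → ℂ := fun j => ⟨5 * ρ * ((j % n : ℕ) : ℝ), 5 * ρ * ((j / n : ℕ) : ℝ)⟩
  have hsmall : ∀ q : ℕ, q < n → 5 * ρ * (q : ℝ) ≤ 1 / 2 := by
    intro q hq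
    have h1 : (q : ℝ) ≤ n - 1 := by
      have : (q : ℝ) + 1 ≤ n := by exact_mod_cast hq
      linarith
    have h2 : (q : ℝ) ≤ 1 / (10 * ρ) := h1.trans hn3
    calc 5 * ρ * (q : ℝ) ≤ 5 * ρ * (1 / (10 * ρ)) :=
          mul_le_mul_of_nonneg_left h2 (by positivity)
      _ = 1 / 2 := by field_simp; norm_num
  have hanorm : ∀ j < n ^ 2, ‖a j‖ ≤ 1 := by
    intro j hj
    have h1 : j % n < n := Nat.mod_lt _ (by omega)
    have h2 : j / n < n := by
      rw [Nat.div_lt_iff_lt_mul (by omega)]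
      rw [← sq]
      exact hj
    refine (Complex.norm_le_abs_re_add_abs_im _).trans ?_
    simp only [a]
    rw [abs_of_nonneg (by positivity), abs_of_nonneg (by positivity)]
    linarith [hsmall _ h1, hsmall _ h2]
  have hsep : ∀ i j : ℕ, i ≠ j → 5 * ρ ≤ ‖a i - a j‖ := by
    intro i j hij
    have key : ∀ p q : ℕ, p ≠ q → 5 * ρ ≤ |5 * ρ * (p : ℝ) - 5 * ρ * (q : ℝ)| := by
      intro p q hpq
      rw [← mul_sub, abs_mul, abs_of_pos (show 0 < 5 * ρ by positivity)]
      have h1 : (1 : ℝ) ≤ |(p : ℝ) - q| := by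
        have h2 : (1 : ℤ) ≤ |(p : ℤ) - q| := by
          apply Int.one_le_abs
          intro h3
          apply hpq
          omega
        exact_mod_cast h2
      nlinarith
    by_cases h1 : i % n = j % n
    · have h2 : i / n ≠ j / n := by
        intro h2
        apply hij
        rw [← Nat.mod_add_div i n, ← Nat.mod_add_div j n, h1, h2]
      refine (key _ _ h2).trans ?_
      have := Complex.abs_im_le_norm (a i - a j)
      simpa [a] using this
    · refine (key _ _ h1).trans ?_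
      have := Complex.abs_re_le_norm (a i - a j)
      simpa [a] using this
  obtain ⟨j, hj, hint⟩ := pigeon (n ^ 2) (Nat.one_le_pow _ _ hn1)
    (fun j => Metric.closedBall (a j) (2 * ρ)) (fun j _ => measurableSet_closedBall) 1 (by
      intro z
      have h1 : ((range (n ^ 2)).filter (fun j => z ∈ Metric.closedBall (a j) (2 * ρ))).card ≤
          1 := by
        rw [card_le_one]
        intro i hi k hk
        rw [mem_filter] at hi hk
        by_contra hik
        have h2 := hsep i k hik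
        have h3 := Metric.mem_closedBall.1 hi.2
        have h4 := Metric.mem_closedBall.1 hk.2
        have h5 : ‖a i - a k‖ ≤ 2 * ρ + 2 * ρ := by
          rw [← dist_eq_norm]
          calc dist (a i) (a k) ≤ dist (a i) z + dist z (a k) := dist_triangle _ _ _
            _ ≤ 2 * ρ + 2 * ρ := by
                rw [dist_comm (a i) z]
                exact add_le_add h3 h4
        linarith
      exact_mod_cast h1) g hg0 hg
  refine ⟨a j, hanorm j hj, hint.trans ?_⟩
  apply mul_le_mul_of_nonneg_right _ (integral_nonneg hg0)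
  push_cast
  rw [div_le_iff₀ (by positivity)]
  have h1 : 1 ≤ 10 * ρ * n := by
    rw [div_lt_iff₀ (by positivity)] at hn2
    linarith
  nlinarith
end Pool.Agent.H85.LD
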