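import Pool.Agent.H85.LD.Pig
import Pool.Agent.H91.LD.SDefs

/-!
[H85 LD STRIPD]  Position of the strips.

Proofs.
* `near_flat`: `‖z - x‖ = sg z x √((1+‖z‖^2)(1+‖x‖^2)) ≤ η (1+T)(1+‖z‖) ≤ η (1+T)(1 + T + ‖z - x‖)`, `η (1+T) ≤ 1/2`.
* `exists_strips`: for large `d` with `η = L/√d`: `η (1+T) ≤ 1/2` and `2 (T+1)^2 L/√d ≤ θ sm d/4` (`sm d = d^(-1/4)`, tends to `0` slower than
  `1/√d`: `(1/√d)/sm d = sm d → 0`), `sm d > 0`.  `S_l = sm d Λ^(m-1-l)`, `sm d ≤ S_l ≤ S_0 = sm d Λ^(m-1)`.  `h = θ sm d/10`, `M = ⌈S_0/h⌉₊` (so `S_l ≤ M h`,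
  `1 ≤ M`), offsets `o = j h`, `j < M`, `V_j = ⋃_{l<m} {z | ∃ k : ℤ, k S_l ≤ (z.re + θ S_l/4) + j h ≤ k S_l + (3 θ/2) S_l}` (`strip_meas`).
  `cnt_strip` (`β = 3 θ/2 ≤ 1`): each level contributes at most `3 M (3 θ/2 + h/S_l) ≤ 3 M (1.6 θ)`; so `B = 5 m θ M` and `pigeon` gives `j`.
  If `x ∈ strips d m Λ θ T o` (level `l`, integer `k`) and `√d sg z x < L`, then `|z.re - x.re| ≤ ‖z - x‖ ≤ 2 (T+1)^2 L/√d ≤ θ S_l/4`
  (`near_flat`), so `k S_l - θ S_l/4 ≤ z.re + o ≤ k S_l + θ S_l + θ S_l/4`, i.e. `z ∈ V_j`.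
-/

set_option autoImplicit false

open Polynomial MeasureTheory Real Finset ComplexConjugate Filter

namespace Pool.Agent.H85.LD

open Pool.Agent.H91.LD

theorem near_flat (T η : ℝ) (hT : 1 ≤ T) (hη : 0 < η) (h : η * (1 + T) ≤ 1 / 2) (z x : ℂ)
    (hx : ‖x‖ ≤ T) (hs : sg z x ≤ η) : ‖z - x‖ ≤ 2 * (T + 1) ^ 2 * η := by
  have hz0 := norm_nonneg z
  have hx0 := norm_nonneg x
  have hA : 0 < (1 + ‖z‖ ^ 2) * (1 + ‖x‖ ^ 2) := by positivity
  have hsq : √((1 + ‖z‖ ^ 2) * (1 + ‖x‖ ^ 2)) ≤ (1 + ‖z‖) * (1 + ‖x‖) := by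
    apply Real.sqrt_le_iff.2
    refine ⟨by positivity, ?_⟩
    rw [mul_pow]
    apply mul_le_mul _ _ (by positivity) (by positivity)
    · nlinarith
    · nlinarith
  have h1 : ‖z - x‖ = sg z x * √((1 + ‖z‖ ^ 2) * (1 + ‖x‖ ^ 2)) := by
    unfold sg
    rw [div_mul_cancel₀]
    exact (Real.sqrt_pos.2 hA).ne'
  have h2 : ‖z‖ ≤ T + ‖z - x‖ := by
    have : ‖z‖ = ‖x + (z - x)‖ := by rw [add_sub_cancel]
    rw [this]
    exact (norm_add_le _ _).trans (add_le_add hx le_rfl)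
  have hD := norm_nonneg (z - x)
  have h3 : ‖z - x‖ ≤ η * ((1 + (T + ‖z - x‖)) * (1 + T)) := by
    calc ‖z - x‖ = sg z x * √((1 + ‖z‖ ^ 2) * (1 + ‖x‖ ^ 2)) := h1
      _ ≤ η * ((1 + ‖z‖) * (1 + ‖x‖)) := mul_le_mul hs hsq (Real.sqrt_nonneg _) hη.le
      _ ≤ η * ((1 + (T + ‖z - x‖)) * (1 + T)) := by gcongr
  have h4 : η * ((1 + (T + ‖z - x‖)) * (1 + T)) =
      η * (1 + T) * (1 + T) + η * (1 + T) * ‖z - x‖ := by ring
  have h5 : η * (1 + T) * ‖z - x‖ ≤ 1 / 2 * ‖z - x‖ := mul_le_mul_of_nonneg_right h hD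
  have h6 : 2 * (T + 1) ^ 2 * η = 2 * (η * (1 + T) * (1 + T)) := by ring
  rw [h6]
  linarith

private theorem stripd_sq (d : ℕ) : √(d : ℝ) = √(√d) * √(√d) :=
  (Real.mul_self_sqrt (Real.sqrt_nonneg _)).symm

theorem sm_facts : (∀ d : ℕ, 1 ≤ d → 0 < sm d) ∧
    ∀ K c : ℝ, 0 < K → 0 < c → ∀ᶠ d : ℕ in atTop, K / √d ≤ c * sm d := by
  constructor
  · intro d hd
    have hd0 : (0 : ℝ) < d := by exact_mod_cast hd
    unfold sm
    exact inv_pos.2 (Real.sqrt_pos.2 (Real.sqrt_pos.2 hd0))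
  · intro K c hK hc
    have ht : Tendsto (fun d : ℕ => √(√(d : ℝ))) atTop atTop :=
      Real.tendsto_sqrt_atTop.comp (Real.tendsto_sqrt_atTop.comp tendsto_natCast_atTop_atTop)
    filter_upwards [ht.eventually_ge_atTop (K / c), eventually_ge_atTop 1] with d hd hd1
    have hd0 : (0 : ℝ) < d := by exact_mod_cast hd1
    have hs : 0 < √(√(d : ℝ)) := Real.sqrt_pos.2 (Real.sqrt_pos.2 hd0)
    rw [div_le_iff₀ hc] at hd
    unfold sm
    have e1 : K / √(d : ℝ) = K / (√(√(d : ℝ)) * √(√(d : ℝ))) :=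
      congrArg (fun t => K / t) (stripd_sq d)
    rw [e1, ← div_eq_mul_inv, div_le_div_iff₀ (mul_pos hs hs) hs]
    calc K * √(√(d : ℝ)) ≤ √(√(d : ℝ)) * c * √(√(d : ℝ)) := mul_le_mul_of_nonneg_right hd hs.le
      _ = c * (√(√(d : ℝ)) * √(√(d : ℝ))) := by ring

private theorem stripd_sm_le (d : ℕ) (hd : 1 ≤ d) : sm d ≤ 1 := by
  have hd1 : (1 : ℝ) ≤ d := by exact_mod_cast hd
  unfold sm
  exact inv_le_one_of_one_le₀ (Real.one_le_sqrt.2 (Real.one_le_sqrt.2 hd1))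

theorem exists_strips (m : ℕ) (Λ θ T L : ℝ) (hm : 1 ≤ m) (hΛ : 1 ≤ Λ) (hθ : 0 < θ)
    (hθ1 : θ ≤ 1 / 8) (hT : 1 ≤ T) (hL : 1 ≤ L) : ∀ᶠ d : ℕ in atTop, ∀ g : ℂ → ℝ,
    (∀ z, 0 ≤ g z) → Integrable g mu → ∃ o : ℝ, ∃ V : Set ℂ, MeasurableSet V ∧
      (∀ z x, x ∈ strips d m Λ θ T o → √d * sg z x < L → z ∈ V) ∧
      ∫ z in V, g z ∂mu ≤ 20 * m * θ * ∫ z, g z ∂mu := by
  classical
  obtain ⟨hsm, hasym⟩ := sm_facts
  filter_upwards [hasym (L * (1 + T)) (1 / 2) (by positivity) (by norm_num),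
    hasym (2 * (T + 1) ^ 2 * L) (θ / 4) (by positivity) (by positivity),
    eventually_ge_atTop 1] with d h1 h2 hd g hg0 hg
  have hs0 := hsm d hd
  have hs1 := stripd_sm_le d hd
  have hd0 : (0 : ℝ) < d := by exact_mod_cast hd
  have hsd : 0 < √(d : ℝ) := Real.sqrt_pos.2 hd0
  have hI : 0 ≤ ∫ z, g z ∂mu := integral_nonneg hg0
  obtain ⟨S, hS⟩ : ∃ S : ℕ → ℝ, S = fun l => sm d * Λ ^ (m - 1 - l) := ⟨_, rfl⟩
  have hSl : ∀ l, sm d ≤ S l := by
    intro l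
    rw [hS]
    have : 1 ≤ Λ ^ (m - 1 - l) := one_le_pow₀ hΛ
    nlinarith
  have hS0 : ∀ l, 0 < S l := fun l => lt_of_lt_of_le hs0 (hSl l)
  have hSmax : ∀ l, S l ≤ S 0 := by
    intro l
    rw [hS]
    refine mul_le_mul_of_nonneg_left ?_ hs0.le
    exact pow_le_pow_right₀ hΛ (by omega)
  obtain ⟨h, hh⟩ : ∃ h : ℝ, h = θ * sm d / 10 := ⟨_, rfl⟩
  have hh0 : 0 < h := by rw [hh]; positivity
  obtain ⟨M, hM⟩ : ∃ M : ℕ, M = ⌈S 0 / h⌉₊ := ⟨_, rfl⟩
  have hM1 : S 0 ≤ M * h := by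
    rw [← div_le_iff₀ hh0, hM]
    exact Nat.le_ceil _
  have hM0 : 1 ≤ M := by
    rw [hM, Nat.one_le_ceil_iff]
    exact div_pos (hS0 0) hh0
  have hMr : (0 : ℝ) < M := by exact_mod_cast hM0
  have hVm : ∀ j : ℕ, MeasurableSet {z : ℂ | ∃ l < m, ∃ k : ℤ,
      (k : ℝ) * S l ≤ z.re + θ * S l / 4 + j * h ∧
      z.re + θ * S l / 4 + j * h ≤ k * S l + 3 * θ / 2 * S l} := by
    intro j
    have e : {z : ℂ | ∃ l < m, ∃ k : ℤ, (k : ℝ) * S l ≤ z.re + θ * S l / 4 + j * h ∧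
      z.re + θ * S l / 4 + j * h ≤ k * S l + 3 * θ / 2 * S l} =
        ⋃ l ∈ Finset.range m, {z : ℂ | ∃ k : ℤ, (k : ℝ) * S l ≤ z.re + θ * S l / 4 + j * h ∧
      z.re + θ * S l / 4 + j * h ≤ k * S l + 3 * θ / 2 * S l} := by
      ext z
      simp
    rw [e]
    refine Finset.measurableSet_biUnion _ fun l _ => ?_
    exact strip_meas (S l) (3 * θ / 2) (fun z => z.re + θ * S l / 4 + j * h)
      ((Complex.measurable_re.add_const _).add_const _)
  obtain ⟨j, hj, hint⟩ := pigeon M hM0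
    (fun j => {z : ℂ | ∃ l < m, ∃ k : ℤ, (k : ℝ) * S l ≤ z.re + θ * S l / 4 + j * h ∧
      z.re + θ * S l / 4 + j * h ≤ k * S l + 3 * θ / 2 * S l}) (fun j _ => hVm j)
    (5 * m * θ * M) (by
      intro z
      have hsub : (range M).filter (fun j : ℕ => z ∈ {z : ℂ | ∃ l < m, ∃ k : ℤ,
          (k : ℝ) * S l ≤ z.re + θ * S l / 4 + j * h ∧
          z.re + θ * S l / 4 + j * h ≤ k * S l + 3 * θ / 2 * S l}) ⊆
          (range m).biUnion fun l => (range M).filter (fun j : ℕ => ∃ k : ℤ,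
            (k : ℝ) * S l ≤ z.re + θ * S l / 4 + j * h ∧
            z.re + θ * S l / 4 + j * h ≤ k * S l + 3 * θ / 2 * S l) := by
        intro j hj
        rw [mem_filter] at hj
        obtain ⟨hj1, l, hl, hk⟩ := hj
        rw [mem_biUnion]
        exact ⟨l, mem_range.2 hl, mem_filter.2 ⟨hj1, hk⟩⟩
      have hcard := (card_le_card hsub).trans card_biUnion_le
      have hcard' : (((range M).filter (fun j : ℕ => z ∈ {z : ℂ | ∃ l < m, ∃ k : ℤ,
          (k : ℝ) * S l ≤ z.re + θ * S l / 4 + j * h ∧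
          z.re + θ * S l / 4 + j * h ≤ k * S l + 3 * θ / 2 * S l})).card : ℝ) ≤
          ∑ l ∈ range m, (((range M).filter (fun j : ℕ => ∃ k : ℤ,
            (k : ℝ) * S l ≤ z.re + θ * S l / 4 + j * h ∧
            z.re + θ * S l / 4 + j * h ≤ k * S l + 3 * θ / 2 * S l)).card : ℝ) := by
        exact_mod_cast hcard
      refine le_trans (le_of_eq ?_) (hcard'.trans ?_)
      · congr 2
        ext j
        simp only [mem_filter]
      have hl : ∀ l ∈ range m, (((range M).filter (fun j : ℕ => ∃ k : ℤ,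
            (k : ℝ) * S l ≤ z.re + θ * S l / 4 + j * h ∧
            z.re + θ * S l / 4 + j * h ≤ k * S l + 3 * θ / 2 * S l)).card : ℝ) ≤
          5 * θ * M := by
        intro l _
        have h3 := cnt_strip (z.re + θ * S l / 4) (S l) h (3 * θ / 2) M (hS0 l) hh0 (by positivity)
          (by linarith) ((hSmax l).trans hM1)
        refine le_trans (le_of_eq ?_) (h3.trans ?_)
        · congr 2
        · have h4 : h / S l ≤ θ / 10 := by
            rw [div_le_iff₀ (hS0 l), hh]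
            have := hSl l
            nlinarith
          have h5 : 3 * (M : ℝ) * (3 * θ / 2 + h / S l) ≤ 3 * M * (3 * θ / 2 + θ / 10) :=
            mul_le_mul_of_nonneg_left (by linarith) (by positivity)
          refine h5.trans ?_
          have h6 : 0 ≤ (M : ℝ) * θ := by positivity
          nlinarith
      refine (Finset.sum_le_sum hl).trans (le_of_eq ?_)
      rw [sum_const, card_range, nsmul_eq_mul]
      ring) g hg0 hg
  refine ⟨j * h, _, hVm j, ?_, ?_⟩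
  · rintro z x ⟨hxT, l, hl, k, hk1, hk2⟩ hzx
    have hη : sg z x ≤ L / √d := by
      rw [le_div_iff₀ hsd]
      linarith
    have h3 := near_flat T (L / √d) hT (by positivity) (by
      calc L / √d * (1 + T) = L * (1 + T) / √d := by ring
        _ ≤ 1 / 2 * sm d := h1
        _ ≤ 1 / 2 := by linarith) z x hxT hη
    have h4 : 2 * (T + 1) ^ 2 * (L / √d) ≤ θ * S l / 4 := by
      calc 2 * (T + 1) ^ 2 * (L / √d) = 2 * (T + 1) ^ 2 * L / √d := by ring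
        _ ≤ θ / 4 * sm d := h2
        _ ≤ θ / 4 * S l := mul_le_mul_of_nonneg_left (hSl l) (by positivity)
        _ = θ * S l / 4 := by ring
    have h5 : |z.re - x.re| ≤ θ * S l / 4 := by
      rw [← Complex.sub_re]
      exact (Complex.abs_re_le_norm _).trans (h3.trans h4)
    have h6 := abs_le.1 h5
    have eS : sm d * Λ ^ (m - 1 - l) = S l := by rw [hS]
    rw [eS] at hk1 hk2
    refine ⟨l, hl, k, ?_, ?_⟩
    · linarith
    · linarith
  · refine hint.trans ?_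
    apply mul_le_mul_of_nonneg_right _ hI
    rw [mul_div_assoc, div_self hMr.ne', mul_one]
    have : 0 ≤ (m : ℝ) * θ := by positivity
    nlinarith

end Pool.Agent.H85.LD
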