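import Pool.Agent.H85.LD.Chart
import Pool.Agent.H85.LD.Ker

/-!
[H85 LD SUB]  Sub-mean value inequality.

Proofs.
* `disc_mean`: the integral of `t^k` over the ball is `0` for `k ≥ 1` (invariant under the rotation `t ↦ ζ t`, `ζ^k ≠ 1`) and
  `π R^2` for `k = 0`; so `∫ g = π R^2 g(0)`, applied to `g^2`: `‖g(0)‖^2 π R^2 = ‖∫ g^2‖ ≤ ∫ ‖g‖^2`.
* `submean`: `g = Gc d z G`, `‖g(0)‖ = wm d G z` (`wm_ph`, `ph_zero`), `R = 1/√d`.  For `‖t‖ ≤ R ≤ 1`:
  `‖g(t)‖^2 = wm d G (ph z t)^2 (1+‖t‖^2)^d ≤ e wm^2` (off the null set `1 - conj z t = 0`), `mu_lower`, and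
  `sg z (ph z t) ≤ ‖t‖ ≤ 1/√d` (`sg_ph_zero`), `ph_mp`: `wm^2 ≤ (d/π) e 4π ∫_{sg z x ≤ 1/√d} wm(x)^2 dmu`, `4 e ≤ 11`.
* `submean_exp`: `submean` at `x`; for `sg x y ≤ 1/√d`: `-2√d sg z x ≤ -2√d sg z y + 2` (`sg_tri`), `11 e^2 ≤ 90`.
-/

set_option autoImplicit false

open Polynomial MeasureTheory Real Finset ComplexConjugate

namespace Pool.Agent.H85.LD

private theorem sbx_pow (k : ℕ) (hk : k ≠ 0) (R : ℝ) :
    ∫ t in Metric.closedBall (0 : ℂ) R, t ^ k = 0 := by
  set c : ℂ := Complex.exp (((π / k : ℝ) : ℂ) * Complex.I) with hc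
  have hk0 : (k : ℝ) ≠ 0 := by exact_mod_cast hk
  have hcn : ‖c‖ = 1 := Complex.norm_exp_ofReal_mul_I _
  have hck : c ^ k = -1 := by
    rw [hc, ← Complex.exp_nat_mul]
    have : (k : ℂ) * (((π / k : ℝ) : ℂ) * Complex.I) = (π : ℂ) * Complex.I := by
      have hk1 : (k : ℂ) ≠ 0 := by exact_mod_cast hk
      push_cast
      field_simp
    rw [this, Complex.exp_pi_mul_I]
  let u : Circle := ⟨c, by simpa [Submonoid.unitSphere, mem_sphere_zero_iff_norm] using hcn⟩
  have hmp : MeasurePreserving (rotation u) (volume : Measure ℂ) volume :=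
    (rotation u).measurePreserving
  have hpre : (rotation u) ⁻¹' (Metric.closedBall (0 : ℂ) R) = Metric.closedBall (0 : ℂ) R := by
    ext t
    simp only [Set.mem_preimage, mem_closedBall_zero_iff, LinearIsometryEquiv.norm_map]
  have h := hmp.setIntegral_preimage_emb (rotation u).toHomeomorph.measurableEmbedding
    (fun t : ℂ => t ^ k) (Metric.closedBall (0 : ℂ) R)
  rw [hpre] at h
  have h2 : ∀ t : ℂ, (rotation u) t ^ k = -(t ^ k) := by
    intro t
    rw [rotation_apply, mul_pow]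
    show c ^ k * t ^ k = -(t ^ k)
    rw [hck]
    ring
  simp only [h2] at h
  rw [integral_neg] at h
  have h3 : (2 : ℂ) * ∫ t in Metric.closedBall (0 : ℂ) R, t ^ k = 0 := by
    linear_combination -h
  exact (mul_eq_zero.1 h3).resolve_left two_ne_zero

private theorem sbx_vol (R : ℝ) (hR : 0 < R) :
    ∫ _t in Metric.closedBall (0 : ℂ) R, (1 : ℂ) = ((π * R ^ 2 : ℝ) : ℂ) := by
  rw [setIntegral_const, measureReal_def, Complex.volume_closedBall]
  rw [ENNReal.toReal_mul, ENNReal.toReal_pow, ENNReal.toReal_ofReal hR.le]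
  simp [Complex.real_smul]
  ring

private theorem sbx_mean (g : ℂ[X]) (R : ℝ) (hR : 0 < R) :
    ∫ t in Metric.closedBall (0 : ℂ) R, g.eval t = ((π * R ^ 2 : ℝ) : ℂ) * g.eval 0 := by
  have hi : ∀ k : ℕ, IntegrableOn (fun t : ℂ => t ^ k) (Metric.closedBall (0 : ℂ) R) := fun k =>
    (continuous_pow k).continuousOn.integrableOn_compact (isCompact_closedBall _ _)
  have h1 : ∀ t : ℂ, g.eval t = ∑ k ∈ range (g.natDegree + 1), g.coeff k * t ^ k := fun t =>
    Polynomial.eval_eq_sum_range t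
  simp_rw [h1]
  rw [integral_finsetSum _ fun k _ => (hi k).const_mul _]
  simp_rw [integral_const_mul]
  rw [Finset.sum_eq_single 0]
  · have := sbx_vol R hR
    simp only [pow_zero]
    rw [this]
    rw [Finset.sum_eq_single 0]
    · simp
      ring
    · intro b _ hb
      simp [hb]
    · simp
  · intro k _ hk
    rw [sbx_pow k hk, mul_zero]
  · simp

theorem disc_mean (g : ℂ[X]) (R : ℝ) (hR : 0 < R) :
    ‖g.eval 0‖ ^ 2 * (π * R ^ 2) ≤ ∫ t in Metric.closedBall (0 : ℂ) R, ‖g.eval t‖ ^ 2 := by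
  have h := sbx_mean (g ^ 2) R hR
  have h1 : ‖∫ t in Metric.closedBall (0 : ℂ) R, (g ^ 2).eval t‖ = ‖g.eval 0‖ ^ 2 * (π * R ^ 2) := by
    rw [h, norm_mul, Complex.norm_real, Real.norm_of_nonneg (by positivity), eval_pow, norm_pow]
    ring
  rw [← h1]
  refine (norm_integral_le_integral_norm _).trans (le_of_eq ?_)
  refine integral_congr_ae (Filter.Eventually.of_forall fun t => ?_)
  simp [eval_pow, norm_pow]

private theorem sbx_int (d : ℕ) (G : ℂ[X]) (hG : G.natDegree ≤ d) :
    Integrable (fun x => wm d G x ^ 2) mu := by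
  obtain ⟨B, hB⟩ := wm_bdd d G hG
  refine Integrable.of_bound ((wm_continuous d G).pow 2).aestronglyMeasurable (B ^ 2) ?_
  refine Filter.Eventually.of_forall fun x => ?_
  rw [Real.norm_of_nonneg (by positivity)]
  exact pow_le_pow_left₀ (wm_nonneg d G x) (hB x) 2

private theorem sbx_null (z : ℂ) : (volume : Measure ℂ) {t | 1 - conj z * t = 0} = 0 := by
  have h : ({t : ℂ | 1 - conj z * t = 0}).Subsingleton := by
    intro s hs t ht
    simp only [Set.mem_ofPred_eq] at hs ht
    have hz : conj z ≠ 0 := by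
      rintro h0
      rw [h0] at hs
      simp at hs
    have : conj z * s = conj z * t := by linear_combination ht - hs
    exact mul_left_cancel₀ hz this
  exact h.measure_zero _

private theorem sbx_meas (z : ℂ) (r : ℝ) : MeasurableSet {x : ℂ | sg z x ≤ r} := by
  have hc : Continuous fun x : ℂ => sg z x :=
    sg_continuous.comp (Continuous.prodMk continuous_const continuous_id)
  exact (isClosed_le hc continuous_const).measurableSet

private theorem sbx_exp (d : ℕ) (hd : 1 ≤ d) (s : ℝ) (hs : 0 ≤ s) (h : s ≤ 1 / √d) :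
    (1 + s ^ 2) ^ d ≤ Real.exp 1 := by
  have hd0 : (0 : ℝ) < d := by exact_mod_cast hd
  have h1 : s ^ 2 ≤ 1 / d := by
    calc s ^ 2 ≤ (1 / √d) ^ 2 := pow_le_pow_left₀ hs h 2
      _ = 1 / d := by rw [div_pow, Real.sq_sqrt hd0.le, one_pow]
  calc (1 + s ^ 2) ^ d ≤ (Real.exp (1 / d)) ^ d := by
        refine pow_le_pow_left₀ (by positivity) ?_ d
        have := Real.add_one_le_exp (1 / (d : ℝ))
        linarith
    _ = Real.exp 1 := by
        rw [← Real.exp_nat_mul]
        congr 1
        field_simp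

theorem submean (d : ℕ) (hd : 1 ≤ d) (G : ℂ[X]) (hG : G.natDegree ≤ d) (z : ℂ) :
    wm d G z ^ 2 ≤ 11 * d * ∫ x in {x | sg z x ≤ 1 / √d}, wm d G x ^ 2 ∂mu := by
  have hd0 : (0 : ℝ) < d := by exact_mod_cast hd
  have hsd : 0 < √(d : ℝ) := Real.sqrt_pos.2 hd0
  set R : ℝ := 1 / √d with hR
  have hR0 : 0 < R := by positivity
  have hR1 : R ≤ 1 := by
    rw [hR, div_le_one hsd]
    exact Real.one_le_sqrt.2 (by exact_mod_cast hd)
  have hR2 : R ^ 2 = 1 / d := by rw [hR, div_pow, Real.sq_sqrt hd0.le, one_pow]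
  set g := Gc d z G with hg
  have hg0 : ‖g.eval 0‖ = wm d G z := by
    have := wm_ph d z G hG 0 (by simp)
    rw [ph_zero] at this
    rw [this]
    simp [hg]
  have h1 := disc_mean g R hR0
  rw [hg0, hR2] at h1
  set I : ℝ := ∫ x in {x | sg z x ≤ R}, wm d G x ^ 2 ∂mu with hI
  have hIi : IntegrableOn (fun x => wm d G x ^ 2) {x | sg z x ≤ R} mu :=
    (sbx_int d G hG).integrableOn
  -- upper bound of the flat integral
  have h2 : ENNReal.ofReal (∫ t in Metric.closedBall (0 : ℂ) R, ‖g.eval t‖ ^ 2) ≤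
      ENNReal.ofReal (Real.exp 1 * (4 * π) * I) := by
    have hgi : IntegrableOn (fun t : ℂ => ‖g.eval t‖ ^ 2) (Metric.closedBall (0 : ℂ) R) :=
      ((by fun_prop : Continuous fun t : ℂ => ‖g.eval t‖ ^ 2)).continuousOn.integrableOn_compact
        (isCompact_closedBall _ _)
    rw [ofReal_integral_eq_lintegral_ofReal hgi
      (Filter.Eventually.of_forall fun t => by positivity)]
    have hwm : Measurable (fun x => ENNReal.ofReal (wm d G x ^ 2)) :=
      ((wm_continuous d G).pow 2).measurable.ennreal_ofReal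
    have hF : Measurable (fun t => ENNReal.ofReal (wm d G (ph z t) ^ 2)) :=
      hwm.comp (ph_mp z).measurable
    have s1 : ∫⁻ t in Metric.closedBall (0 : ℂ) R, ENNReal.ofReal (‖g.eval t‖ ^ 2) ≤
        ENNReal.ofReal (Real.exp 1) *
          ∫⁻ t in Metric.closedBall (0 : ℂ) R, ENNReal.ofReal (wm d G (ph z t) ^ 2) := by
      rw [← lintegral_const_mul _ hF]
      have hae : ∀ᵐ t ∂(volume : Measure ℂ), 1 - conj z * t ≠ 0 := by
        rw [ae_iff]
        simpa using sbx_null z
      refine setLIntegral_mono_ae (hF.const_mul _).aemeasurable ?_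
      filter_upwards [hae] with t ht hmem
      rw [← ENNReal.ofReal_mul (Real.exp_pos 1).le]
      refine ENNReal.ofReal_le_ofReal ?_
      have h3 := wm_ph d z G hG t ht
      have hp : 0 < (1 + ‖t‖ ^ 2) ^ d := by positivity
      have h4 : ‖g.eval t‖ ^ 2 = (1 + ‖t‖ ^ 2) ^ d * wm d G (ph z t) ^ 2 := by
        rw [h3, div_pow, Real.sq_sqrt hp.le, mul_div_cancel₀ _ hp.ne']
      rw [h4]
      refine mul_le_mul_of_nonneg_right ?_ (by positivity)
      refine sbx_exp d hd _ (norm_nonneg _) ?_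
      exact mem_closedBall_zero_iff.1 hmem
    have s2 := mu_lower R hR0.le hR1 _ hF
    have s3 : ∫⁻ t in Metric.closedBall (0 : ℂ) R, ENNReal.ofReal (wm d G (ph z t) ^ 2) ∂mu ≤
        ENNReal.ofReal I := by
      rw [hI, ofReal_integral_eq_lintegral_ofReal hIi
        (Filter.Eventually.of_forall fun t => by positivity)]
      rw [← lintegral_indicator (sbx_meas z R), ← (ph_mp z).lintegral_comp
        (hwm.indicator (sbx_meas z R)), ← lintegral_indicator Metric.isClosed_closedBall.measurableSet]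
      have hae : ∀ᵐ t ∂mu, 1 - conj z * t ≠ 0 := by
        rw [ae_iff]
        simpa using mu_null (sbx_null z)
      refine lintegral_mono_ae ?_
      filter_upwards [hae] with t ht
      by_cases hmem : t ∈ Metric.closedBall (0 : ℂ) R
      · rw [Set.indicator_of_mem hmem, Set.indicator_of_mem]
        show sg z (ph z t) ≤ R
        rw [sg_ph_zero z t ht]
        have h5 : ‖t‖ ≤ R := by simpa using hmem
        refine le_trans ?_ h5
        refine div_le_self (norm_nonneg _) ?_
        exact Real.one_le_sqrt.2 (by nlinarith [norm_nonneg t])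
      · rw [Set.indicator_of_notMem hmem]
        exact bot_le
    calc _ ≤ _ := s1
      _ ≤ ENNReal.ofReal (Real.exp 1) * (ENNReal.ofReal (4 * π) * ENNReal.ofReal I) := by
          gcongr
          exact s2.trans (by gcongr)
      _ = _ := by
          rw [← ENNReal.ofReal_mul (by positivity), ← ENNReal.ofReal_mul (by positivity),
            mul_assoc (Real.exp 1)]
  have hI0 : 0 ≤ I := setIntegral_nonneg (sbx_meas z R) fun x _ => by positivity
  have h3 := (ENNReal.ofReal_le_ofReal_iff (by positivity)).1 h2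
  have h4 : wm d G z ^ 2 * (π * (1 / d)) ≤ Real.exp 1 * (4 * π) * I := h1.trans h3
  have h5 : wm d G z ^ 2 ≤ 4 * Real.exp 1 * d * I := by
    have hpi := Real.pi_pos
    have : wm d G z ^ 2 * (π * (1 / d)) * (d / π) ≤ Real.exp 1 * (4 * π) * I * (d / π) :=
      mul_le_mul_of_nonneg_right h4 (by positivity)
    have e1 : wm d G z ^ 2 * (π * (1 / d)) * (d / π) = wm d G z ^ 2 := by
      field_simp
    have e2 : Real.exp 1 * (4 * π) * I * (d / π) = 4 * Real.exp 1 * d * I := by
      field_simp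
    rw [e1, e2] at this
    exact this
  refine h5.trans ?_
  have he := Real.exp_one_lt_d9
  have h6 : 0 ≤ d * I := by positivity
  nlinarith

theorem submean_exp (d : ℕ) (hd : 1 ≤ d) (G : ℂ[X]) (hG : G.natDegree ≤ d) (z x : ℂ) :
    wm d G x ^ 2 * Real.exp (-(2 * (√d * sg z x))) ≤
      90 * d * ∫ y, wm d G y ^ 2 * Real.exp (-(2 * (√d * sg z y))) ∂mu := by
  have hd0 : (0 : ℝ) < d := by exact_mod_cast hd
  have hsd : 0 < √(d : ℝ) := Real.sqrt_pos.2 hd0
  have h1 := submean d hd G hG x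
  have hcont : Continuous fun y : ℂ => Real.exp (-(2 * (√d * sg z y))) := by
    have hc : Continuous fun x : ℂ => sg z x :=
      sg_continuous.comp (Continuous.prodMk continuous_const continuous_id)
    fun_prop
  have hint : Integrable (fun y => wm d G y ^ 2 * Real.exp (-(2 * (√d * sg z y)))) mu := by
    refine (sbx_int d G hG).mono' (((wm_continuous d G).pow 2).mul hcont).aestronglyMeasurable ?_
    refine Filter.Eventually.of_forall fun y => ?_
    rw [Real.norm_of_nonneg (by positivity)]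
    refine mul_le_of_le_one_right (by positivity) ?_
    rw [Real.exp_le_one_iff]
    have := sg_nonneg z y
    have : 0 ≤ √(d : ℝ) * sg z y := by positivity
    linarith
  have h2 : ∫ y in {y | sg x y ≤ 1 / √d}, wm d G y ^ 2 * Real.exp (-(2 * (√d * sg z x))) ∂mu ≤
      ∫ y in {y | sg x y ≤ 1 / √d},
        Real.exp 2 * (wm d G y ^ 2 * Real.exp (-(2 * (√d * sg z y)))) ∂mu := by
    refine setIntegral_mono_on ((sbx_int d G hG).integrableOn.mul_const _)
      (hint.integrableOn.const_mul _) (sbx_meas x _) fun y hy => ?_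
    have hy' : sg x y ≤ 1 / √d := hy
    have h3 := sg_tri z x y
    have h4 : √(d : ℝ) * sg z y ≤ √d * sg z x + 1 := by
      have h5 : √(d : ℝ) * sg x y ≤ 1 := by
        calc √(d : ℝ) * sg x y ≤ √d * (1 / √d) := by gcongr
          _ = 1 := by field_simp
      nlinarith
    have h6 : Real.exp (-(2 * (√d * sg z x))) ≤
        Real.exp 2 * Real.exp (-(2 * (√d * sg z y))) := by
      rw [← Real.exp_add]
      refine Real.exp_le_exp.2 ?_
      linarith
    calc wm d G y ^ 2 * Real.exp (-(2 * (√d * sg z x)))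
        ≤ wm d G y ^ 2 * (Real.exp 2 * Real.exp (-(2 * (√d * sg z y)))) := by gcongr
      _ = _ := by ring
  rw [integral_mul_const, integral_const_mul] at h2
  have h7 : ∫ y in {y | sg x y ≤ 1 / √d}, wm d G y ^ 2 * Real.exp (-(2 * (√d * sg z y))) ∂mu ≤
      ∫ y, wm d G y ^ 2 * Real.exp (-(2 * (√d * sg z y))) ∂mu :=
    setIntegral_le_integral hint (Filter.Eventually.of_forall fun y => by positivity)
  set J : ℝ := ∫ y, wm d G y ^ 2 * Real.exp (-(2 * (√d * sg z y))) ∂mu with hJ
  have hJ0 : 0 ≤ J := integral_nonneg fun y => by positivity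
  have he : Real.exp 2 ≤ 7.4 := by
    have h8 := Real.exp_one_lt_d9
    have : Real.exp 2 = Real.exp 1 * Real.exp 1 := by rw [← Real.exp_add]; norm_num
    rw [this]
    have h9 := Real.exp_pos 1
    nlinarith
  calc wm d G x ^ 2 * Real.exp (-(2 * (√d * sg z x)))
      ≤ (11 * d * ∫ y in {y | sg x y ≤ 1 / √d}, wm d G y ^ 2 ∂mu) *
        Real.exp (-(2 * (√d * sg z x))) := by gcongr
    _ = 11 * d * ((∫ y in {y | sg x y ≤ 1 / √d}, wm d G y ^ 2 ∂mu) *
        Real.exp (-(2 * (√d * sg z x)))) := by ring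
    _ ≤ 11 * d * (Real.exp 2 * J) :=
        mul_le_mul_of_nonneg_left (h2.trans (mul_le_mul_of_nonneg_left h7 (Real.exp_pos 2).le))
          (by positivity)
    _ ≤ 11 * d * (7.4 * J) := by gcongr
    _ ≤ 90 * d * J := by nlinarith [mul_nonneg hd0.le hJ0]

end Pool.Agent.H85.LD
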